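import Pool.Agent.H72.Tri.Defs

/-!
# Circle-valued maps with a continuous logarithm
-/

open Set Topology Metric unitInterval

namespace Pool.Agent.H72.Tri

/-- `φ` has a continuous logarithm on the set `C`: there is a real function `h`, continuous on
`C`, with `φ = exp (i h)` on `C`. -/
def NullOn {Z : Type*} [TopologicalSpace Z] (φ : Z → Circle) (C : Set Z) : Prop :=
  ∃ h : Z → ℝ, ContinuousOn h C ∧ ∀ x ∈ C, φ x = Circle.exp (h x)

variable {Z : Type*} [TopologicalSpace Z] {Z' : Type*} [TopologicalSpace Z']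

theorem NullOn.mono {φ : Z → Circle} {C D : Set Z} (h : NullOn φ D) (hCD : C ⊆ D) :
    NullOn φ C := by
  obtain ⟨h, hc, he⟩ := h
  exact ⟨h, hc.mono hCD, fun x hx => he x (hCD hx)⟩

theorem NullOn.continuousOn {φ : Z → Circle} {C : Set Z} (h : NullOn φ C) :
    ContinuousOn φ C := by
  obtain ⟨h, hc, he⟩ := h
  exact (Circle.exp.continuous.comp_continuousOn hc).congr he

theorem NullOn.congr {φ ψ : Z → Circle} {C : Set Z} (h : NullOn φ C) (he : EqOn ψ φ C) :
    NullOn ψ C := by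
  obtain ⟨h, hc, h2⟩ := h
  exact ⟨h, hc, fun x hx => (he hx).trans (h2 x hx)⟩

theorem NullOn.mul {φ ψ : Z → Circle} {C : Set Z} (h1 : NullOn φ C) (h2 : NullOn ψ C) :
    NullOn (fun x => φ x * ψ x) C := by
  obtain ⟨h, hc, he⟩ := h1
  obtain ⟨g, gc, ge⟩ := h2
  exact ⟨fun x => h x + g x, hc.add gc, fun x hx => by
    simp only [he x hx, ge x hx, Circle.exp_add]⟩

theorem NullOn.zpow {φ : Z → Circle} {C : Set Z} (h1 : NullOn φ C) (k : ℤ) :
    NullOn (fun x => φ x ^ k) C := by
  obtain ⟨h, hc, he⟩ := h1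
  exact ⟨fun x => k * h x, continuousOn_const.mul hc, fun x hx => by
    simp only [he x hx, Circle.exp_intCast_mul]⟩

theorem NullOn.comp {φ : Z → Circle} {C : Set Z} (h1 : NullOn φ C) {f : Z' → Z} {C' : Set Z'}
    (hf : ContinuousOn f C') (hm : MapsTo f C' C) : NullOn (fun x => φ (f x)) C' := by
  obtain ⟨h, hc, he⟩ := h1
  exact ⟨fun x => h (f x), hc.comp hf hm, fun x hx => he _ (hm hx)⟩

theorem nullOn_of_const {φ : Z → Circle} {C : Set Z} {c : Circle} (h : ∀ x ∈ C, φ x = c) :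
    NullOn φ C := by
  refine ⟨fun _ => Complex.arg c, continuousOn_const, fun x hx => ?_⟩
  rw [h x hx, Circle.exp_arg]

theorem nullOn_empty (φ : Z → Circle) : NullOn φ ∅ :=
  ⟨fun _ => 0, continuousOn_empty _, fun _ h => h.elim⟩

/-- Two logarithms of the same map differ by a constant on a preconnected set. -/
theorem log_diff {C : Set Z} (hC : IsPreconnected C) {h g : Z → ℝ} (hh : ContinuousOn h C)
    (hg : ContinuousOn g C) (he : ∀ x ∈ C, Circle.exp (h x) = Circle.exp (g x)) :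
    ∃ k : ℤ, ∀ x ∈ C, h x = g x + k * (2 * Real.pi) := by
  have hpi : (0 : ℝ) < 2 * Real.pi := by positivity
  let f : Z → ℝ := fun x => (h x - g x) / (2 * Real.pi)
  have hf : ContinuousOn f C := (hh.sub hg).div_const _
  have hm : MapsTo f C (range ((↑) : ℤ → ℝ)) := by
    intro x hx
    obtain ⟨m, hm⟩ := Circle.exp_eq_exp.1 (he x hx)
    refine ⟨m, ?_⟩
    simp only [f]
    rw [hm]
    field_simp
    ring
  have hd : IsDiscrete (range ((↑) : ℤ → ℝ)) := by
    rw [isDiscrete_iff_discreteTopology]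
    exact (Int.isClosedEmbedding_coe_real.isEmbedding.toHomeomorph).symm.isEmbedding.discreteTopology
  obtain ⟨y, hy, hyc⟩ := hC.eqOn_const_of_mapsTo hd hf hm ⟨_, 0, rfl⟩
  obtain ⟨k, rfl⟩ := hy
  refine ⟨k, fun x hx => ?_⟩
  have := hyc hx
  simp only [f, Function.const_apply] at this
  field_simp at this
  linarith

/-- Gluing of logarithms along a preconnected intersection. -/
theorem glue_log {A B : Set Z} (hA : IsClosed A) (hB : IsClosed B) {φ : Z → Circle} {h : Z → ℝ}
    (hh : ContinuousOn h A) (he : ∀ x ∈ A, φ x = Circle.exp (h x)) (hn : NullOn φ B)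
    (hc : IsPreconnected (A ∩ B)) :
    ∃ H : Z → ℝ, ContinuousOn H (A ∪ B) ∧ EqOn H h A ∧ ∀ x ∈ A ∪ B, φ x = Circle.exp (H x) := by
  classical
  obtain ⟨g, gc, ge⟩ := hn
  obtain ⟨k, hk⟩ := log_diff hc (hh.mono inter_subset_left) (gc.mono inter_subset_right)
    (fun x hx => (he x hx.1).symm.trans (ge x hx.2))
  let H : Z → ℝ := fun x => if x ∈ A then h x else g x + k * (2 * Real.pi)
  have hHA : EqOn H h A := fun x hx => by simp [H, hx]
  have hHB : EqOn H (fun x => g x + k * (2 * Real.pi)) B := fun x hx => by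
    by_cases hxA : x ∈ A
    · simp only [H, hxA, if_true]
      exact hk x ⟨hxA, hx⟩
    · simp [H, hxA]
  refine ⟨H, ?_, hHA, ?_⟩
  · exact (hh.congr hHA).union_of_isClosed ((gc.add continuousOn_const).congr hHB) hA hB
  · rintro x (hx | hx)
    · rw [hHA hx]; exact he x hx
    · rw [hHB hx]
      simp only
      rw [Circle.exp_add, Circle.exp_int_mul_two_pi, mul_one]
      exact ge x hx

theorem NullOn.union {A B : Set Z} (hA : IsClosed A) (hB : IsClosed B) {φ : Z → Circle}
    (h1 : NullOn φ A) (h2 : NullOn φ B) (hc : IsPreconnected (A ∩ B)) : NullOn φ (A ∪ B) := by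
  obtain ⟨h, hh, he⟩ := h1
  obtain ⟨H, h1, -, h3⟩ := glue_log hA hB hh he h2 hc
  exact ⟨H, h1, h3⟩

/-- Homotopy lifting. -/
theorem nullOn_of_homotopy {K : Set Z} {φ : Z → Circle} (hφ : ContinuousOn φ K)
    (c : I × K → Z) (hc : Continuous c) (hK : ∀ p, c p ∈ K)
    (h0 : NullOn (fun x : K => φ (c (0, x))) univ) (h1 : ∀ x, c (1, x) = x) : NullOn φ K := by
  obtain ⟨f, fc, fe⟩ := h0
  let H : C(I × K, Circle) := ⟨fun p => φ (c p), hφ.comp_continuous hc hK⟩
  let F : C(K, ℝ) := ⟨f, continuousOn_univ.1 fc⟩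
  have hF : ∀ a, H (0, a) = Circle.exp (F a) := fun a => fe a (mem_univ _)
  let L := Circle.isCoveringMap_exp.liftHomotopy H F hF
  have hL : ∀ p, Circle.exp (L p) = H p := fun p =>
    congr_fun (Circle.isCoveringMap_exp.liftHomotopy_lifts H F hF) p
  classical
  refine ⟨fun x => if hx : x ∈ K then L (1, ⟨x, hx⟩) else 0, ?_, ?_⟩
  · rw [continuousOn_iff_continuous_domRestrict]
    have : K.domRestrict (fun x => if hx : x ∈ K then L (1, ⟨x, hx⟩) else 0) = fun x => L (1, x) := by
      funext x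
      simp
    rw [this]
    exact L.continuous.comp (by fun_prop)
  · intro x hx
    simp only [hx, dif_pos]
    rw [hL]
    change φ x = φ (c (1, ⟨x, hx⟩))
    rw [h1]

theorem nullOn_of_contraction {K : Set Z} {φ : Z → Circle} (hφ : ContinuousOn φ K)
    (c : I × K → Z) (hc : Continuous c) (hK : ∀ p, c p ∈ K) (x₀ : Z)
    (h0 : ∀ x, c (0, x) = x₀) (h1 : ∀ x, c (1, x) = x) : NullOn φ K :=
  nullOn_of_homotopy hφ c hc hK (nullOn_of_const (c := φ x₀) fun x _ => by rw [h0]) h1

theorem nullOn_of_convex {E : Type*} [NormedAddCommGroup E] [NormedSpace ℝ E] {K : Set E}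
    (hK : Convex ℝ K) {φ : E → Circle} (hφ : ContinuousOn φ K) : NullOn φ K := by
  rcases K.eq_empty_or_nonempty with rfl | ⟨x₀, hx₀⟩
  · exact nullOn_empty φ
  refine nullOn_of_contraction hφ (fun p => (1 - (p.1 : ℝ)) • x₀ + (p.1 : ℝ) • (p.2 : E))
    (by fun_prop) (fun p => ?_) x₀ (fun x => by simp) (fun x => by simp)
  exact hK hx₀ p.2.2 (by have := p.1.2.2; linarith) p.1.2.1 (by ring)

/-- Descent of a map through a continuous surjection from a compact set. -/
theorem descend [T2Space Z] {A : Set Z'} (hA : IsCompact A) {f : Z' → Z} (hf : ContinuousOn f A)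
    {W : Type*} [TopologicalSpace W] [Nonempty W] {g : Z' → W} (hg : ContinuousOn g A)
    (hfg : ∀ x ∈ A, ∀ y ∈ A, f x = f y → g x = g y) :
    ∃ g' : Z → W, ContinuousOn g' (f '' A) ∧ ∀ x ∈ A, g' (f x) = g x := by
  classical
  obtain ⟨w₀⟩ := ‹Nonempty W›
  let g' : Z → W := fun z => if hz : z ∈ f '' A then g hz.choose else w₀
  have hg' : ∀ x ∈ A, g' (f x) = g x := by
    intro x hx
    have hz : f x ∈ f '' A := ⟨x, hx, rfl⟩
    simp only [g', hz, dif_pos]
    exact hfg _ hz.choose_spec.1 _ hx hz.choose_spec.2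
  refine ⟨g', ?_, hg'⟩
  rw [continuousOn_iff_continuous_domRestrict]
  have : CompactSpace A := isCompact_iff_compactSpace.1 hA
  let F : A → f '' A := fun x => ⟨f x, x, x.2, rfl⟩
  have hFc : Continuous F := by
    apply Continuous.subtype_mk
    exact continuousOn_iff_continuous_domRestrict.1 hf
  have hFs : Function.Surjective F := by
    rintro ⟨_, x, hx, rfl⟩
    exact ⟨⟨x, hx⟩, rfl⟩
  have hq : IsQuotientMap F := hFc.isClosedMap.isQuotientMap hFc hFs
  rw [hq.continuous_iff]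
  have : (f '' A).domRestrict g' ∘ F = A.domRestrict g := by
    funext x
    exact hg' x x.2
  rw [this]
  exact continuousOn_iff_continuous_domRestrict.1 hg

theorem NullOn.image [T2Space Z] {A : Set Z'} (hA : IsCompact A) {f : Z' → Z}
    (hf : ContinuousOn f A) (hi : InjOn f A) {φ : Z → Circle}
    (h : NullOn (fun x => φ (f x)) A) : NullOn φ (f '' A) := by
  obtain ⟨h, hc, he⟩ := h
  obtain ⟨g, gc, ge⟩ := descend hA hf hc (fun x hx y hy hxy => by rw [hi hx hy hxy])
  refine ⟨g, gc, ?_⟩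
  rintro _ ⟨x, hx, rfl⟩
  rw [ge x hx]
  exact he x hx

end Pool.Agent.H72.Tri
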