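import Pool.Agent.H72.Tri.Circ

/-!
# Circle-valued maps: Tietze, roots, spheres, degrees
-/

open Set Topology Metric unitInterval

namespace Pool.Agent.H72.Tri

variable {Z : Type*} [TopologicalSpace Z] {Z' : Type*} [TopologicalSpace Z']

/-- Tietze extension for a function continuous on a closed set. -/
theorem tietze [NormalSpace Z] {C : Set Z} (hC : IsClosed C) {h : Z → ℝ}
    (hh : ContinuousOn h C) : ∃ H : Z → ℝ, Continuous H ∧ EqOn H h C := by
  obtain ⟨g, hg⟩ := ContinuousMap.exists_restrict_eq (Y := ℝ) hC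
    ⟨C.domRestrict h, continuousOn_iff_continuous_domRestrict.1 hh⟩
  refine ⟨g, g.continuous, fun x hx => ?_⟩
  exact DFunLike.congr_fun hg ⟨x, hx⟩

/-- Roots: if `φ ^ n` has a logarithm on a preconnected set then so does `φ`. -/
theorem NullOn.root {C : Set Z} (hC : IsPreconnected C) {φ : Z → Circle} (hφ : ContinuousOn φ C)
    {n : ℤ} (hn : n ≠ 0) (h : NullOn (fun x => φ x ^ n) C) : NullOn φ C := by
  obtain ⟨h, hc, he⟩ := h
  -- the function `φ * exp (- h / n)` takes values in the roots of unity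
  let f : Z → Circle := fun x => φ x * Circle.exp (-(h x / n))
  have hf : ContinuousOn f C := hφ.mul (Circle.exp.continuous.comp_continuousOn (hc.div_const _).neg)
  have hn' : (n : ℝ) ≠ 0 := by exact_mod_cast hn
  have hm : MapsTo f C {z : Circle | z ^ n = 1} := by
    intro x hx
    simp only [f, mem_ofPred_eq, mul_zpow]
    have he' : φ x ^ n = Circle.exp (h x) := he x hx
    rw [he', ← Circle.exp_intCast_mul, ← Circle.exp_add]
    have : h x + n * -(h x / n) = 0 := by field_simp; ring
    rw [this, Circle.exp_zero]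
  have hfin : {z : Circle | z ^ n = 1}.Finite := by
    have h0 : n.natAbs ≠ 0 := by simpa using hn
    have : {z : Circle | z ^ n = 1} ⊆ (fun z : Circle => (z : ℂ)) ⁻¹'
        ((Polynomial.nthRoots n.natAbs (1 : ℂ)).toFinset : Set ℂ) := by
      intro z hz
      simp only [mem_ofPred_eq] at hz
      simp only [mem_preimage, Finset.mem_coe, Multiset.mem_toFinset]
      rw [Polynomial.mem_nthRoots (Nat.pos_of_ne_zero h0)]
      have h1 : z ^ n.natAbs = 1 := by
        rcases Int.natAbs_eq n with h | h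
        · rw [h] at hz
          simpa using hz
        · rw [h] at hz
          simpa using hz
      have h2 := congrArg (fun z : Circle => (z : ℂ)) h1
      simpa using h2
    exact (Finset.finite_toSet _).preimage (Circle.coe_injective.injOn) |>.subset this
  obtain ⟨y, hy, hyc⟩ := hC.eqOn_const_of_mapsTo hfin.isDiscrete hf hm ⟨1, by simp⟩
  refine ⟨fun x => Complex.arg y + h x / n, continuousOn_const.add (hc.div_const _), ?_⟩
  intro x hx
  have h1 : φ x * Circle.exp (-(h x / n)) = y := hyc hx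
  rw [Circle.exp_add, Circle.exp_arg, ← h1, mul_assoc, ← Circle.exp_add]
  simp

/-! ### Standard discs, balls and spheres (for the sup norm: squares and cubes) -/

theorem isCompact_disc : IsCompact disc := isCompact_closedBall _ _
theorem isCompact_discBd : IsCompact discBd := isCompact_sphere _ _
theorem isCompact_ball3 : IsCompact ball3 := isCompact_closedBall _ _
theorem isCompact_sph2 : IsCompact sph2 := isCompact_sphere _ _
theorem convex_disc : Convex ℝ disc := convex_closedBall _ _
theorem convex_ball3 : Convex ℝ ball3 := convex_closedBall _ _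
theorem discBd_subset : discBd ⊆ disc := sphere_subset_closedBall
theorem discInt_subset : discInt ⊆ disc := ball_subset_closedBall
theorem sph2_subset : sph2 ⊆ ball3 := sphere_subset_closedBall
theorem disc_diff : disc \ discInt = discBd := closedBall_sdiff_ball

theorem mem_discBd_of {v : ℝ × ℝ} (h : v ∈ disc) (h' : v ∉ discInt) : v ∈ discBd := by
  rw [← disc_diff]; exact ⟨h, h'⟩

theorem not_mem_discInt {v : ℝ × ℝ} (h : v ∈ discBd) : v ∉ discInt := by
  rw [← disc_diff] at h; exact h.2

theorem isPreconnected_discBd : IsPreconnected discBd := by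
  apply isPreconnected_sphere
  rw [← Module.finrank_eq_rank]
  norm_cast
  simp

theorem isPreconnected_sph2 : IsPreconnected sph2 := by
  apply isPreconnected_sphere
  rw [← Module.finrank_eq_rank]
  norm_cast
  simp

theorem isPreconnected_disc : IsPreconnected disc := convex_disc.isPreconnected

/-- The two hemispheres. -/
def hemi (s : ℝ) : Set (ℝ × ℝ × ℝ) := {v | v ∈ sph2 ∧ 0 ≤ s * v.2.2}

theorem nullOn_hemi {s : ℝ} (hs : s ^ 2 = 1) {φ : ℝ × ℝ × ℝ → Circle}
    (hφ : ContinuousOn φ (hemi s)) : NullOn φ (hemi s) := by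
  let w : I × hemi s → ℝ × ℝ × ℝ := fun p => (p.1 : ℝ) • (p.2 : ℝ × ℝ × ℝ) +
    (1 - (p.1 : ℝ)) • ((0, 0, s) : ℝ × ℝ × ℝ)
  have hw : Continuous w := by fun_prop
  have hw0 : ∀ p, w p ≠ 0 := by
    intro p h
    have h1 : s * (w p).2.2 = 0 := by rw [h]; simp
    have h2 : s * (w p).2.2 = p.1 * (s * (p.2 : ℝ × ℝ × ℝ).2.2) + (1 - (p.1 : ℝ)) * s ^ 2 := by
      simp only [w, Prod.snd_add, Prod.smul_snd, smul_eq_mul]
      ring
    rw [hs, mul_one] at h2
    have h3 := p.2.2.2
    have h4 := p.1.2.1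
    have h5 := p.1.2.2
    have h6 : (p.1 : ℝ) = 1 := by
      have := mul_nonneg h4 h3
      linarith
    have h7 : w p = (p.2 : ℝ × ℝ × ℝ) := by
      simp [w, h6]
    rw [h7] at h
    have := p.2.2.1
    rw [h] at this
    simp [sph2] at this
  refine nullOn_of_contraction hφ (fun p => ‖w p‖⁻¹ • w p) ?_ ?_ (‖((0, 0, s) : ℝ × ℝ × ℝ)‖⁻¹ •
    ((0, 0, s) : ℝ × ℝ × ℝ)) ?_ ?_
  · exact (hw.norm.inv₀ fun p => norm_ne_zero_iff.2 (hw0 p)).smul hw
  · intro p
    have hn : 0 < ‖w p‖ := norm_pos_iff.2 (hw0 p)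
    constructor
    · simp only [sph2, mem_sphere_iff_norm, sub_zero, norm_smul, norm_inv, norm_norm]
      field_simp
    · have h2 : s * (‖w p‖⁻¹ • w p).2.2 =
        ‖w p‖⁻¹ * (p.1 * (s * (p.2 : ℝ × ℝ × ℝ).2.2) + (1 - (p.1 : ℝ)) * s ^ 2) := by
        simp only [w, Prod.snd_add, Prod.smul_snd, smul_eq_mul]
        ring
      rw [h2, hs, mul_one]
      have h3 := p.2.2.2
      have h4 := p.1.2.1
      have h5 := p.1.2.2
      have := mul_nonneg h4 h3
      have : 0 ≤ ‖w p‖⁻¹ := by positivity
      apply mul_nonneg this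
      linarith
  · intro x
    simp [w]
  · intro x
    have h1 : w (1, x) = (x : ℝ × ℝ × ℝ) := by simp [w]
    have h2 : ‖(x : ℝ × ℝ × ℝ)‖ = 1 := by
      have := x.2.1
      simpa [sph2] using this
    rw [h1, h2]
    simp

theorem isClosed_hemi (s : ℝ) : IsClosed (hemi s) := by
  have h1 : IsClosed sph2 := isCompact_sph2.isClosed
  have h2 : IsClosed {v : ℝ × ℝ × ℝ | 0 ≤ s * v.2.2} :=
    isClosed_le continuous_const (by fun_prop)
  exact h1.inter h2

theorem nullOn_sph2 {φ : ℝ × ℝ × ℝ → Circle} (hφ : ContinuousOn φ sph2) : NullOn φ sph2 := by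
  have hU : hemi 1 ∪ hemi (-1) = sph2 := by
    ext v
    simp only [hemi, mem_union, mem_ofPred_eq]
    constructor
    · rintro (h | h) <;> exact h.1
    · intro h
      rcases le_total 0 v.2.2 with h' | h'
      · left; exact ⟨h, by linarith⟩
      · right; exact ⟨h, by linarith⟩
  rw [← hU]
  have hs1 : hemi 1 ⊆ sph2 := fun v h => h.1
  have hs2 : hemi (-1) ⊆ sph2 := fun v h => h.1
  refine NullOn.union (isClosed_hemi 1) (isClosed_hemi (-1)) (nullOn_hemi (by norm_num) (hφ.mono hs1))
    (nullOn_hemi (by norm_num) (hφ.mono hs2)) ?_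
  have : hemi 1 ∩ hemi (-1) = (fun v : ℝ × ℝ => ((v.1, v.2, 0) : ℝ × ℝ × ℝ)) '' discBd := by
    ext v
    simp only [hemi, mem_inter_iff, mem_ofPred_eq, mem_image, sph2, discBd, mem_sphere_iff_norm,
      sub_zero]
    constructor
    · rintro ⟨⟨h1, h2⟩, ⟨-, h3⟩⟩
      have h0 : v.2.2 = 0 := by linarith
      refine ⟨(v.1, v.2.1), ?_, ?_⟩
      · rw [Prod.norm_def] at h1 ⊢
        rw [Prod.norm_def, h0] at h1
        simpa using h1
      · exact Prod.ext rfl (Prod.ext rfl h0.symm)
    · rintro ⟨w, hw, rfl⟩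
      have : ‖((w.1, w.2, 0) : ℝ × ℝ × ℝ)‖ = 1 := by
        rw [Prod.norm_def] at hw ⊢
        rw [Prod.norm_def]
        simpa using hw
      simp [this]
  rw [this]
  exact isPreconnected_discBd.image _ (by fun_prop)

end Pool.Agent.H72.Tri
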