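import Mathlib

/-!
# Genus-two splittings, placements of a knot, and the induced genus-three trisections

All the definitions used in the statement of the result are in this file. Everything is stated in
the topological category: two decompositions which are not homeomorphic are not diffeomorphic.

Model discs, balls and spheres are taken for the maximum norm, so that the `disc` is a square and
the ball `ball3` is a cube.
-/

open Set Topology Metric

namespace Pool.Agent.H72.Tri

/-! ### Model sets -/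

/-- The closed unit disc (a square). -/
def disc : Set (ℝ × ℝ) := closedBall 0 1
/-- The open unit disc. -/
def discInt : Set (ℝ × ℝ) := ball 0 1
/-- The boundary circle of the unit disc. -/
def discBd : Set (ℝ × ℝ) := sphere 0 1
/-- The closed unit ball of dimension three (a cube). -/
def ball3 : Set (ℝ × ℝ × ℝ) := closedBall 0 1
/-- The boundary two-sphere of the unit ball. -/
def sph2 : Set (ℝ × ℝ × ℝ) := sphere 0 1

/-- The closed half circle around `1`. -/
def halfR : Set Circle := {z | 0 ≤ (z : ℂ).re}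

/-- The closed rectangle `[1/4, 3/4] × {Re z ≥ 0}` in the annulus `[0,1] × S¹`. -/
def rect : Set (ℝ × Circle) := Icc (1/4 : ℝ) (3/4) ×ˢ halfR

/-- The open rectangle `(1/4, 3/4) × {Re z > 0}`. -/
def rectInt : Set (ℝ × Circle) := Ioo (1/4 : ℝ) (3/4) ×ˢ {z : Circle | 0 < (z : ℂ).re}

/-- `f : S¹ → S¹` has degree `d`: `f z = z ^ d * exp (i h z)` with `h` real and continuous. -/
def HasDeg (f : Circle → Circle) (d : ℤ) : Prop :=
  ∃ h : Circle → ℝ, Continuous h ∧ ∀ z, f z = z ^ d * Circle.exp (h z)

/-! ### Handlebodies with cut systems -/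

/-- A handlebody of genus `g` in the space `Z`, together with a cut system of `g` meridians,
presented as a closed 3-ball with `2 g` disjoint closed discs on its boundary sphere which are
identified in pairs: `q` is the quotient map from the ball onto the handlebody, and the points
`e (i, true) v` and `e (i, false) v` of the `i`-th pair of discs are identified. -/
structure Handlebody (Z : Type*) [TopologicalSpace Z] (g : ℕ) where
  /-- the quotient map -/
  q : ℝ × ℝ × ℝ → Z
  /-- the `2 g` parametrised discs on the boundary of the ball -/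
  e : Fin g × Bool → ℝ × ℝ → ℝ × ℝ × ℝ
  cont_q : ContinuousOn q ball3
  cont_e : ∀ a, ContinuousOn (e a) disc
  maps_e : ∀ a, MapsTo (e a) disc sph2
  inj_e : ∀ a b v w, v ∈ disc → w ∈ disc → e a v = e b w → a = b ∧ v = w
  open_e : ∀ a, ∃ U : Set (ℝ × ℝ × ℝ), IsOpen U ∧ e a '' discInt = U ∩ sph2
  q_eq : ∀ x ∈ ball3, ∀ y ∈ ball3,
    (q x = q y ↔ x = y ∨ ∃ i b v, v ∈ disc ∧ x = e (i, b) v ∧ y = e (i, !b) v)

namespace Handlebody

variable {Z : Type*} [TopologicalSpace Z] {g : ℕ} (V : Handlebody Z g)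

/-- The underlying set of the handlebody. -/
def carrier : Set Z := V.q '' ball3

/-- The boundary sphere of the ball minus the `2 g` open discs. -/
def planar : Set (ℝ × ℝ × ℝ) := sph2 \ ⋃ a, V.e a '' discInt

/-- The boundary surface of the handlebody. -/
def bd : Set Z := V.q '' V.planar

/-- The `i`-th curve of the cut system: the boundary of the `i`-th meridian disc. -/
def curve (i : Fin g) : Set Z := V.q '' (V.e (i, true) '' discBd)

end Handlebody

/-! ### Heegaard splittings and placements -/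

/-- A genus-two Heegaard splitting of `Y` into the handlebodies `Vα` and `Vβ`, with a cut system
for each of them. -/
structure Splitting (Y : Type*) [TopologicalSpace Y] where
  /-- the handlebody `H_α`, with the cut system `α` -/
  Vα : Handlebody Y 2
  /-- the handlebody `H_β`, with the cut system `β` -/
  Vβ : Handlebody Y 2
  cover : Vα.carrier ∪ Vβ.carrier = univ
  inter : Vα.carrier ∩ Vβ.carrier = Vα.bd
  bd_eq : Vα.bd = Vβ.bd

namespace Splitting

variable {Y : Type*} [TopologicalSpace Y] (P : Splitting Y)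

/-- The Heegaard surface. -/
def S : Set Y := P.Vβ.bd
/-- The curves `α₁`, `α₂`. -/
def α (i : Fin 2) : Set Y := P.Vα.curve i
/-- The curves `β₁ = β 0`, `β₂ = β 1`. -/
def β (i : Fin 2) : Set Y := P.Vβ.curve i

end Splitting

/-- A placement of a knot `K` in the Heegaard surface `S`, such that `K` meets `β₁` once and misses
`β₂`, together with a bicollar `j : [-1,1] × S¹ → S` of `β₁ = j (0 × S¹)` in `S` which `K` meets in
the arc `j ([-1,1] × 1)`. The knot is parametrised by `κ` in such a way that this arc is the image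
of the half circle `Re z ≥ 0`. -/
structure Placement {Y : Type*} [TopologicalSpace Y] (P : Splitting Y) where
  /-- the parametrisation of the knot `K` -/
  κ : Circle → Y
  /-- the bicollar of `β₁` -/
  j : ℝ × Circle → Y
  κ_cont : Continuous κ
  κ_inj : Function.Injective κ
  κ_mem : ∀ z, κ z ∈ P.S
  κ_disj : Disjoint (range κ) (P.β 1)
  j_cont : ContinuousOn j (Icc (-1 : ℝ) 1 ×ˢ univ)
  j_inj : InjOn j (Icc (-1 : ℝ) 1 ×ˢ univ)
  j_mem : MapsTo j (Icc (-1 : ℝ) 1 ×ˢ univ) P.S
  j_open : ∃ U : Set Y, IsOpen U ∧ j '' (Ioo (-1 : ℝ) 1 ×ˢ univ) = U ∩ P.S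
  j_zero : j '' ({0} ×ˢ univ) = P.β 0
  j_disj : Disjoint (j '' (Icc (-1 : ℝ) 1 ×ˢ univ)) (P.β 1)
  cross : ∀ s ∈ Icc (-1 : ℝ) 1, κ (Circle.exp (Real.pi / 2 * s)) = j (s, 1)
  only : ∀ z, κ z ∈ j '' (Icc (-1 : ℝ) 1 ×ˢ univ) → 0 ≤ (z : ℂ).re

/-- The choice of the two small discs and of the gluing map of the surgery.
The push-off `γ₁` of `β₁` is `j (1 × S¹)`, it cobounds with `β₁` the annulus `A = j ([0,1] × S¹)`.
The disc `D' = j (rect)` lies in the interior of `A` and is centred at a point of `K`;
the disc `D = δ (disc)` lies outside the bicollar and is centred at a point of `K`, it meets `K` in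
the image of the arc `Re z ≤ -1/2`. Both discs are disjoint from the curves `α` and from `β₂`.
The map `ρ` is the homeomorphism from `∂D` to `∂D'` by which the two circles will be glued; it sends
the endpoint on `∂D` of each of the two arcs of `K` outside of the discs to its endpoint on `∂D'`. -/
structure Tube {Y : Type*} [TopologicalSpace Y] {P : Splitting Y} (K : Placement P) where
  /-- the parametrisation of the disc `D` -/
  δ : ℝ × ℝ → Y
  /-- the gluing map -/
  ρ : Y → Y
  δ_cont : ContinuousOn δ disc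
  δ_inj : InjOn δ disc
  δ_mem : MapsTo δ disc P.S
  δ_open : ∃ U : Set Y, IsOpen U ∧ δ '' discInt = U ∩ P.S
  δ_K : ∀ z, K.κ z ∈ δ '' disc ↔ (z : ℂ).re ≤ -(1 / 2)
  δ_K' : ∀ z, K.κ z ∈ δ '' discInt ↔ (z : ℂ).re < -(1 / 2)
  disj_j : Disjoint (δ '' disc) (K.j '' (Icc (-1 : ℝ) 1 ×ˢ univ))
  disj_β : Disjoint (δ '' disc) (P.β 1)
  disj_α : ∀ i, Disjoint (δ '' disc) (P.α i)
  disj_α' : ∀ i, Disjoint (K.j '' rect) (P.α i)
  ρ_cont : ContinuousOn ρ (δ '' discBd)
  ρ_bij : BijOn ρ (δ '' discBd) (K.j '' (rect \ rectInt))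
  ρ_b : ρ (K.κ (Circle.exp (2 * Real.pi / 3))) = K.κ (Circle.exp (3 * Real.pi / 8))
  ρ_c : ρ (K.κ (Circle.exp (-(2 * Real.pi / 3)))) = K.κ (Circle.exp (Real.pi / 8))

namespace Tube

variable {Y : Type*} [TopologicalSpace Y] {P : Splitting Y} {K : Placement P} (T : Tube K)

/-- The circle `∂D`. -/
def bdD : Set Y := T.δ '' discBd
/-- The circle `∂D'`. -/
def bdD' (_ : Tube K) : Set Y := K.j '' (rect \ rectInt)
/-- The surface `S` minus the two open discs. -/
def E : Set Y := P.S \ (T.δ '' discInt ∪ K.j '' rectInt)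

end Tube

namespace Placement

variable {Y : Type*} [TopologicalSpace Y] {P : Splitting Y} (K : Placement P)

/-- The push-off `γ₁` of `β₁`. -/
def γ₁ : Set Y := K.j '' ({1} ×ˢ univ)
/-- The arc `b` of `K` from `D'` to `D` which crosses `γ₁`. -/
def arcB : Set Y := (fun t => K.κ (Circle.exp t)) '' Icc (3 * Real.pi / 8) (2 * Real.pi / 3)
/-- The arc `c` of `K` from `D` to `D'` which crosses `β₁`. -/
def arcC : Set Y := (fun t => K.κ (Circle.exp t)) '' Icc (-(2 * Real.pi / 3)) (Real.pi / 8)

/-- The knot of the placement `K₁` is obtained from the knot of `K` by `k` Dehn twists around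
`β₁`, supported in the half `j ([-1,0] × S¹)` of the bicollar. This changes the framing induced by
the surface by `k`. -/
def IsTwist (K K₁ : Placement P) (k : ℤ) : Prop :=
  (∀ z : Circle, 0 ≤ (z : ℂ).im ∨ (z : ℂ).re ≤ 0 → K₁.κ z = K.κ z) ∧
    ∀ s ∈ Icc (-1 : ℝ) 0, K₁.κ (Circle.exp (Real.pi / 2 * s)) =
      K.j (s, Circle.exp (k * (2 * Real.pi * (s + 1))))

/-- The decomposition `X = X₀ ∪ X₁ ∪ X₂` is (a trisection) induced by the placement `K`: the
central surface `F = X₀ ∩ X₁ ∩ X₂` is `S` minus the two open discs with the circles `∂D` and `∂D'`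
glued by `ρ` (`p` is the quotient map), and the pairwise intersections of the pieces are
handlebodies with boundary `F` in which the curves of the induced diagram form cut systems:
`α₁, α₂, ∂D` for `H_α = X₀ ∩ X₁`, `β₁, β₂, b` for `H_β = X₀ ∩ X₂`, and `γ₁, β₂, c` for
`H_γ = X₁ ∩ X₂`.

This is the diagram which the construction of the problem gives: the annulus `A` minus `D'`, glued
to `∂D`, is the pair of pants `P` (after the destabilisation of the genus-four trisection along
`a ∪ a'` and the core of `A`, which is a meridian curve of both `H_β` and `H_γ`), with boundary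
curves parallel to `β₁`, to `γ₁` and to `∂D`. -/
def Induces {X : Type*} [TopologicalSpace X] (Xi : Fin 3 → Set X) : Prop :=
  ∃ (T : Tube K) (p : Y → X) (Wα Wβ Wγ : Handlebody X 3),
    ContinuousOn p T.E ∧ p '' T.E = (⋂ i, Xi i) ∧
    (∀ x ∈ T.E, ∀ y ∈ T.E,
      (p x = p y ↔ x = y ∨ (x ∈ T.bdD ∧ y = T.ρ x) ∨ (y ∈ T.bdD ∧ x = T.ρ y))) ∧
    (Wα.carrier = Xi 0 ∩ Xi 1 ∧ Wα.bd = (⋂ i, Xi i) ∧
      Wα.curve 0 = p '' P.α 0 ∧ Wα.curve 1 = p '' P.α 1 ∧ Wα.curve 2 = p '' T.bdD) ∧
    (Wβ.carrier = Xi 0 ∩ Xi 2 ∧ Wβ.bd = (⋂ i, Xi i) ∧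
      Wβ.curve 0 = p '' P.β 0 ∧ Wβ.curve 1 = p '' P.β 1 ∧ Wβ.curve 2 = p '' K.arcB) ∧
    (Wγ.carrier = Xi 1 ∩ Xi 2 ∧ Wγ.bd = (⋂ i, Xi i) ∧
      Wγ.curve 0 = p '' K.γ₁ ∧ Wγ.curve 1 = p '' P.β 1 ∧ Wγ.curve 2 = p '' K.arcC)

end Placement

/-! ### The class of a knot; equivalence of decompositions -/

/-- The product of the circle and the round two-sphere. -/
def S1S2 : Type := Circle × sphere (0 : EuclideanSpace ℝ (Fin 3)) 1

noncomputable instance : TopologicalSpace S1S2 :=
  inferInstanceAs (TopologicalSpace (Circle × sphere (0 : EuclideanSpace ℝ (Fin 3)) 1))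

/-- The projection to the circle; it induces the isomorphism from `π₁ (S¹ × S²)` to `ℤ`. -/
def S1S2.toCircle (y : S1S2) : Circle := y.1

/-- The knot of the placement `K` represents `n` in `π₁ (S¹ × S²) = ℤ`. -/
def Placement.HasClass {Y : Type*} [TopologicalSpace Y] {P : Splitting Y} (Ψ : Y ≃ₜ S1S2)
    (K : Placement P) (n : ℤ) : Prop :=
  HasDeg (fun z => (Ψ (K.κ z)).toCircle) n

/-- There is a homeomorphism carrying the pieces of one decomposition onto the pieces of the other
one (possibly permuting them). -/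
def Equivalent {X X' : Type*} [TopologicalSpace X] [TopologicalSpace X'] (Xi : Fin 3 → Set X)
    (Xi' : Fin 3 → Set X') : Prop :=
  ∃ (f : X ≃ₜ X') (σ : Equiv.Perm (Fin 3)), ∀ i, f '' Xi i = Xi' (σ i)

end Pool.Agent.H72.Tri
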