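import Pool.Agent.H72.Tri.Circ2

/-!
# Degrees of maps of the circle; the annulus with a hole
-/

open Set Topology Metric unitInterval

namespace Pool.Agent.H72.Tri

variable {Z : Type*} [TopologicalSpace Z] {Z' : Type*} [TopologicalSpace Z']

theorem exp_image_Icc : Circle.exp '' Icc 0 (2 * Real.pi) = univ := by
  apply eq_univ_of_forall
  intro z
  rcases le_total 0 (Complex.arg z) with h | h
  · exact ⟨Complex.arg z, ⟨h, by have := Complex.arg_le_pi z; have := Real.pi_pos; linarith⟩,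
      Circle.exp_arg z⟩
  · refine ⟨Complex.arg z + 2 * Real.pi, ⟨?_, by linarith⟩, ?_⟩
    · have := Complex.neg_pi_lt_arg z
      have := Real.pi_pos
      linarith
    · rw [Circle.exp_add_two_pi, Circle.exp_arg]

theorem exists_hasDeg {f : Circle → Circle} (hf : Continuous f) : ∃ d, HasDeg f d := by
  have hpi := Real.pi_pos
  obtain ⟨h, hc, he⟩ := nullOn_of_convex (K := (univ : Set ℝ)) convex_univ
    (φ := fun t => f (Circle.exp t)) (hf.comp Circle.exp.continuous).continuousOn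
  have hc' : Continuous h := continuousOn_univ.1 hc
  obtain ⟨d, hd⟩ := log_diff (C := (univ : Set ℝ)) (h := fun t => h (t + 2 * Real.pi)) (g := h)
    isPreconnected_univ (hc'.comp (by fun_prop)).continuousOn hc (fun t _ => by
      rw [← he t (mem_univ _), ← he _ (mem_univ _)]
      simp only [Circle.exp_add_two_pi])
  have hd' : ∀ t, h (t + 2 * Real.pi) = h t + d * (2 * Real.pi) := fun t => hd t (mem_univ _)
  obtain ⟨g, gc, ge⟩ := descend (A := Icc 0 (2 * Real.pi)) isCompact_Icc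
    (f := fun t => Circle.exp t) Circle.exp.continuous.continuousOn
    (g := fun t => h t - d * t) (hc'.sub (by fun_prop)).continuousOn (by
      intro x hx y hy hxy
      obtain ⟨m, hm⟩ := Circle.exp_eq_exp.1 hxy
      have h1 : (m : ℝ) ≤ 1 := by
        have : (m : ℝ) * (2 * Real.pi) ≤ 1 * (2 * Real.pi) := by
          have := hx.2; have := hy.1; linarith
        exact le_of_mul_le_mul_right this (by positivity)
      have h2 : (-1 : ℝ) ≤ m := by
        have : (-1 : ℝ) * (2 * Real.pi) ≤ m * (2 * Real.pi) := by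
          have := hx.1; have := hy.2; linarith
        exact le_of_mul_le_mul_right this (by positivity)
      have h1' : m ≤ 1 := by exact_mod_cast h1
      have h2' : -1 ≤ m := by exact_mod_cast h2
      have h3 : m = -1 ∨ m = 0 ∨ m = 1 := by omega
      rcases h3 with rfl | rfl | rfl
      · have hy' : y = x + 2 * Real.pi := by rw [hm]; push_cast; ring
        simp only [hy', hd']; ring
      · have hy' : x = y := by rw [hm]; push_cast; ring
        rw [hy']
      · have hy' : x = y + 2 * Real.pi := by rw [hm]; push_cast; ring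
        simp only [hy', hd']; ring)
  have gc' : Continuous g := by
    have h1 : ContinuousOn g (Circle.exp '' Icc 0 (2 * Real.pi)) := gc
    rw [exp_image_Icc] at h1
    exact continuousOn_univ.1 h1
  refine ⟨d, g, gc', fun z => ?_⟩
  have hz : z ∈ Circle.exp '' Icc 0 (2 * Real.pi) := by rw [exp_image_Icc]; trivial
  obtain ⟨t, ht, rfl⟩ := hz
  have h1 : f (Circle.exp t) = Circle.exp (h t) := he t (mem_univ _)
  rw [ge t ht, h1, ← Circle.exp_intCast_mul, ← Circle.exp_add]
  congr 1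
  ring

theorem HasDeg.unique {f : Circle → Circle} {d e : ℤ} (h1 : HasDeg f d) (h2 : HasDeg f e) :
    d = e := by
  obtain ⟨h, hc, he⟩ := h1
  obtain ⟨g, gc, ge⟩ := h2
  obtain ⟨k, hk⟩ := log_diff (C := (univ : Set ℝ)) (h := fun t => d * t + h (Circle.exp t))
    (g := fun t => e * t + g (Circle.exp t)) isPreconnected_univ
    (((continuous_const.mul continuous_id).add (hc.comp Circle.exp.continuous)).continuousOn)
    (((continuous_const.mul continuous_id).add (gc.comp Circle.exp.continuous)).continuousOn)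
    (fun t _ => by
      simp only [Circle.exp_add, Circle.exp_intCast_mul]
      rw [← he, ← ge])
  have h0 := hk 0 (mem_univ _)
  have h1 := hk (2 * Real.pi) (mem_univ _)
  simp only [Circle.exp_two_pi, Circle.exp_zero, mul_zero, zero_add] at h0 h1
  have hpi := Real.pi_pos
  have h2 : (d : ℝ) * (2 * Real.pi) = e * (2 * Real.pi) := by linarith
  have h3 : (d : ℝ) = e := mul_right_cancel₀ (by positivity) h2
  exact_mod_cast h3

theorem HasDeg.mul {f g : Circle → Circle} {d e : ℤ} (h1 : HasDeg f d) (h2 : HasDeg g e) :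
    HasDeg (fun z => f z * g z) (d + e) := by
  obtain ⟨h, hc, he⟩ := h1
  obtain ⟨k, kc, ke⟩ := h2
  refine ⟨fun z => h z + k z, hc.add kc, fun z => ?_⟩
  simp only [he, ke, Circle.exp_add, zpow_add]
  exact mul_mul_mul_comm _ _ _ _

theorem HasDeg.zpow {f : Circle → Circle} {d : ℤ} (h1 : HasDeg f d) (k : ℤ) :
    HasDeg (fun z => f z ^ k) (d * k) := by
  obtain ⟨h, hc, he⟩ := h1
  refine ⟨fun z => k * h z, continuous_const.mul hc, fun z => ?_⟩
  simp only [he, mul_zpow, Circle.exp_intCast_mul, zpow_mul]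

theorem HasDeg.congr {f g : Circle → Circle} {d : ℤ} (h1 : HasDeg f d) (h : ∀ z, g z = f z) :
    HasDeg g d := by
  obtain ⟨k, kc, ke⟩ := h1
  exact ⟨k, kc, fun z => (h z).trans (ke z)⟩

theorem hasDeg_zero_of_null {f : Circle → Circle} (h : NullOn f univ) : HasDeg f 0 := by
  obtain ⟨h, hc, he⟩ := h
  exact ⟨h, continuousOn_univ.1 hc, fun z => by rw [he z (mem_univ _)]; simp⟩

theorem HasDeg.null {f : Circle → Circle} (h : HasDeg f 0) : NullOn f univ := by
  obtain ⟨h, hc, he⟩ := h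
  exact ⟨h, hc.continuousOn, fun z _ => by rw [he z]; simp⟩

theorem hasDeg_id : HasDeg (fun z => z) 1 :=
  ⟨fun _ => 0, continuous_const, fun z => by simp⟩

theorem HasDeg.continuous {f : Circle → Circle} {d : ℤ} (h : HasDeg f d) : Continuous f := by
  obtain ⟨h, hc, he⟩ := h
  have : f = fun z => z ^ d * Circle.exp (h z) := funext he
  rw [this]
  exact (continuous_zpow d).mul (Circle.exp.continuous.comp hc)

/-! ### Half circles -/

/-- The closed half circle around `-1`. -/
def halfL : Set Circle := {z | (z : ℂ).re ≤ 0}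

theorem halfR_eq : halfR = Circle.exp '' Icc (-(Real.pi / 2)) (Real.pi / 2) := by
  ext z
  constructor
  · intro hz
    have h := Complex.abs_arg_le_pi_div_two_iff.2 hz
    exact ⟨Complex.arg z, abs_le.1 h, Circle.exp_arg z⟩
  · rintro ⟨t, ht, rfl⟩
    simp only [halfR, mem_ofPred_eq, Circle.coe_exp, Complex.exp_ofReal_mul_I_re]
    exact Real.cos_nonneg_of_mem_Icc ht

theorem halfL_eq : halfL = Circle.exp '' Icc (Real.pi / 2) (3 * Real.pi / 2) := by
  ext z
  constructor
  · intro hz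
    have hz' : -z ∈ halfR := by
      simp only [halfR, mem_ofPred_eq]
      have : ((-z : Circle) : ℂ) = -(z : ℂ) := rfl
      rw [this, Complex.neg_re]
      simp only [halfL, mem_ofPred_eq] at hz
      linarith
    rw [halfR_eq] at hz'
    obtain ⟨t, ht, htz⟩ := hz'
    refine ⟨t + Real.pi, ⟨by linarith [ht.1], by linarith [ht.2]⟩, ?_⟩
    have : Circle.exp Real.pi = -1 := by
      ext
      simp [Circle.coe_exp]
    rw [Circle.exp_add, this, htz]
    simp
  · rintro ⟨t, ht, rfl⟩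
    simp only [halfL, mem_ofPred_eq, Circle.coe_exp, Complex.exp_ofReal_mul_I_re]
    exact Real.cos_nonpos_of_pi_div_two_le_of_le ht.1 (by linarith [ht.2])

theorem isPreconnected_halfR : IsPreconnected halfR := by
  rw [halfR_eq]
  exact isPreconnected_Icc.image _ Circle.exp.continuous.continuousOn

theorem isPreconnected_halfL : IsPreconnected halfL := by
  rw [halfL_eq]
  exact isPreconnected_Icc.image _ Circle.exp.continuous.continuousOn

theorem isClosed_halfL : IsClosed halfL :=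
  isClosed_le (Complex.continuous_re.comp continuous_subtype_val) continuous_const

theorem isClosed_halfR : IsClosed halfR :=
  isClosed_le continuous_const (Complex.continuous_re.comp continuous_subtype_val)

/-- `exp` is injective on intervals of length less than `2 π`. -/
theorem exp_injOn {a b : ℝ} (h : b - a < 2 * Real.pi) : InjOn Circle.exp (Icc a b) := by
  intro x hx y hy hxy
  obtain ⟨m, hm⟩ := Circle.exp_eq_exp.1 hxy
  have hpi := Real.pi_pos
  have h1 : (m : ℝ) < 1 := by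
    by_contra hcon
    push Not at hcon
    have : 1 * (2 * Real.pi) ≤ m * (2 * Real.pi) := by gcongr
    linarith [hx.2, hy.1]
  have h2 : (-1 : ℝ) < m := by
    by_contra hcon
    push Not at hcon
    have : m * (2 * Real.pi) ≤ -1 * (2 * Real.pi) := by gcongr
    linarith [hx.1, hy.2]
  have h1' : m < 1 := by exact_mod_cast h1
  have h2' : -1 < m := by exact_mod_cast h2
  have : m = 0 := by omega
  rw [hm, this]
  simp

/-! ### The annulus `[0,1] × S¹` and the hole `(1/4,3/4) × {Re > 0}` -/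

/-- closed annulus -/
def ann (a b : ℝ) : Set (ℝ × Circle) := Icc a b ×ˢ univ

theorem nullOn_ann_left {φ : ℝ × Circle → Circle} {a b : ℝ} (hab : a ≤ b)
    (hφ : ContinuousOn φ (ann a b)) (h : NullOn φ ({a} ×ˢ univ)) : NullOn φ (ann a b) := by
  refine nullOn_of_homotopy hφ (fun p => ((1 - (p.1 : ℝ)) * a + (p.1 : ℝ) * (p.2 : ℝ × Circle).1,
    (p.2 : ℝ × Circle).2)) (by fun_prop) ?_ ?_ ?_
  · intro p
    have h1 := p.2.2.1
    have h2 := p.1.2.1
    have h3 := p.1.2.2
    refine ⟨⟨?_, ?_⟩, mem_univ _⟩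
    · simp only
      nlinarith [h1.1, h1.2]
    · simp only
      nlinarith [h1.1, h1.2, mul_nonneg h2 (sub_nonneg.2 h1.2)]
  · exact h.comp (by fun_prop) (fun x _ => ⟨by simp, mem_univ _⟩)
  · intro x
    simp

theorem nullOn_ann_right {φ : ℝ × Circle → Circle} {a b : ℝ} (hab : a ≤ b)
    (hφ : ContinuousOn φ (ann a b)) (h : NullOn φ ({b} ×ˢ univ)) : NullOn φ (ann a b) := by
  refine nullOn_of_homotopy hφ (fun p => ((1 - (p.1 : ℝ)) * b + (p.1 : ℝ) * (p.2 : ℝ × Circle).1,
    (p.2 : ℝ × Circle).2)) (by fun_prop) ?_ ?_ ?_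
  · intro p
    have h1 := p.2.2.1
    have h2 := p.1.2.1
    have h3 := p.1.2.2
    refine ⟨⟨?_, ?_⟩, mem_univ _⟩
    · simp only
      nlinarith [h1.1, h1.2, mul_nonneg h2 (sub_nonneg.2 h1.1)]
    · simp only
      nlinarith [h1.1, h1.2, mul_nonneg h2 (sub_nonneg.2 h1.2)]
  · exact h.comp (by fun_prop) (fun x _ => ⟨by simp, mem_univ _⟩)
  · intro x
    simp

/-- A map on the annulus minus the open rectangle which has a logarithm on both boundary circles of
the annulus has a logarithm. -/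
theorem nullOn_ann_diff {φ : ℝ × Circle → Circle} (hφ : ContinuousOn φ (ann 0 1 \ rectInt))
    (h0 : NullOn φ ({0} ×ˢ univ)) (h1 : NullOn φ ({1} ×ˢ univ)) :
    NullOn φ (ann 0 1 \ rectInt) := by
  have hpi := Real.pi_pos
  have hcl : IsClosed (ann (0:ℝ) (1/4)) := isClosed_Icc.prod isClosed_univ
  have hcr : IsClosed (ann (3/4 : ℝ) 1) := isClosed_Icc.prod isClosed_univ
  have hcb : IsClosed (Icc (1/4 : ℝ) (3/4) ×ˢ halfL) := isClosed_Icc.prod isClosed_halfL
  have hsub1 : ann (0:ℝ) (1/4) ⊆ ann 0 1 \ rectInt := by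
    rintro ⟨s, z⟩ ⟨hs, -⟩
    refine ⟨⟨⟨hs.1, by linarith [hs.2]⟩, mem_univ _⟩, fun h => ?_⟩
    have := h.1.1
    simp only at this hs
    linarith [hs.2]
  have hsub2 : ann (3/4:ℝ) 1 ⊆ ann 0 1 \ rectInt := by
    rintro ⟨s, z⟩ ⟨hs, -⟩
    refine ⟨⟨⟨by linarith [hs.1], hs.2⟩, mem_univ _⟩, fun h => ?_⟩
    have := h.1.2
    simp only at this hs
    linarith [hs.1]
  have hsub3 : Icc (1/4 : ℝ) (3/4) ×ˢ halfL ⊆ ann 0 1 \ rectInt := by
    rintro ⟨s, z⟩ ⟨hs, hz⟩
    refine ⟨⟨⟨by linarith [hs.1], by linarith [hs.2]⟩, mem_univ _⟩, fun h => ?_⟩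
    have h1 : 0 < (z : ℂ).re := h.2
    have h2 : (z : ℂ).re ≤ 0 := hz
    linarith
  have n1 : NullOn φ (ann (0:ℝ) (1/4)) := nullOn_ann_left (by norm_num) (hφ.mono hsub1) h0
  have n2 : NullOn φ (ann (3/4:ℝ) 1) := nullOn_ann_right (by norm_num) (hφ.mono hsub2) h1
  have n3 : NullOn φ (Icc (1/4 : ℝ) (3/4) ×ˢ halfL) := by
    have hE : Icc (1/4 : ℝ) (3/4) ×ˢ halfL = (fun p : ℝ × ℝ => (p.1, Circle.exp p.2)) ''
        (Icc (1/4 : ℝ) (3/4) ×ˢ Icc (Real.pi / 2) (3 * Real.pi / 2)) := by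
      rw [halfL_eq]
      ext ⟨s, z⟩
      constructor
      · rintro ⟨hs, t, ht, rfl⟩
        exact ⟨(s, t), ⟨hs, ht⟩, rfl⟩
      · rintro ⟨⟨s', t⟩, ⟨hs, ht⟩, h⟩
        cases h
        exact ⟨hs, t, ht, rfl⟩
    rw [hE]
    have hcont : Continuous (fun p : ℝ × ℝ => (p.1, Circle.exp p.2)) := by fun_prop
    refine NullOn.image (isCompact_Icc.prod isCompact_Icc) hcont.continuousOn ?_ ?_
    · rintro ⟨s, t⟩ ⟨_, ht⟩ ⟨s', t'⟩ ⟨_, ht'⟩ h
      simp only [Prod.mk.injEq] at h
      have h2 : t = t' := exp_injOn (a := Real.pi / 2) (b := 3 * Real.pi / 2) (by linarith) ht ht' h.2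
      rw [h.1, h2]
    · refine nullOn_of_convex ((convex_Icc _ _).prod (convex_Icc _ _)) ?_
      refine hφ.comp hcont.continuousOn ?_
      intro p hp
      apply hsub3
      rw [hE]
      exact ⟨p, hp, rfl⟩
  have hun : ann 0 1 \ rectInt = (ann (0:ℝ) (1/4) ∪ Icc (1/4 : ℝ) (3/4) ×ˢ halfL) ∪ ann (3/4 : ℝ) 1 := by
    apply subset_antisymm
    · rintro ⟨s, z⟩ ⟨⟨hs, -⟩, hn⟩
      by_cases h1 : s ≤ 1/4
      · left; left; exact ⟨⟨hs.1, h1⟩, mem_univ _⟩
      by_cases h2 : 3/4 ≤ s
      · right; exact ⟨⟨h2, hs.2⟩, mem_univ _⟩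
      push Not at h1 h2
      left; right
      refine ⟨⟨h1.le, h2.le⟩, ?_⟩
      by_contra hz
      apply hn
      refine ⟨⟨h1, h2⟩, ?_⟩
      simp only [halfL, mem_ofPred_eq, not_le] at hz
      exact hz
    · exact union_subset (union_subset hsub1 hsub3) hsub2
  rw [hun]
  refine NullOn.union (hcl.union hcb) hcr (NullOn.union hcl hcb n1 n3 ?_) n2 ?_
  · have : ann (0:ℝ) (1/4) ∩ (Icc (1/4 : ℝ) (3/4) ×ˢ halfL) = {1/4} ×ˢ halfL := by
      ext ⟨s, z⟩
      simp only [ann, mem_inter_iff, mem_prod, mem_Icc, mem_univ, and_true, mem_singleton_iff]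
      constructor
      · rintro ⟨⟨_, h1⟩, ⟨h2, _⟩, h3⟩
        exact ⟨le_antisymm h1 h2, h3⟩
      · rintro ⟨rfl, h⟩
        exact ⟨⟨by norm_num, le_rfl⟩, ⟨le_rfl, by norm_num⟩, h⟩
    rw [this]
    exact isPreconnected_singleton.prod isPreconnected_halfL
  · have : (ann (0:ℝ) (1/4) ∪ Icc (1/4 : ℝ) (3/4) ×ˢ halfL) ∩ ann (3/4 : ℝ) 1 =
        {3/4} ×ˢ halfL := by
      ext ⟨s, z⟩
      simp only [ann, mem_inter_iff, mem_union, mem_prod, mem_Icc, mem_univ, and_true,
        mem_singleton_iff]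
      constructor
      · rintro ⟨h | ⟨⟨h2, h3⟩, h4⟩, h5, h6⟩
        · exfalso; linarith [h.2]
        · exact ⟨le_antisymm h3 h5, h4⟩
      · rintro ⟨rfl, h⟩
        exact ⟨Or.inr ⟨⟨by norm_num, le_rfl⟩, h⟩, le_rfl, by norm_num⟩
    rw [this]
    exact isPreconnected_singleton.prod isPreconnected_halfL

end Pool.Agent.H72.Tri
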