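import Pool.Agent.H72.Tri.Circ2

/-!
# Gluing three handlebodies along their common boundary
-/

open Set Topology Metric

namespace Pool.Agent.H72.Tri

/-- A quotient of a compact Hausdorff space by a closed equivalence relation is Hausdorff. -/
theorem t2_quotient {K : Type*} [TopologicalSpace K] [CompactSpace K] [T2Space K] (s : Setoid K)
    (h : IsClosed {p : K × K | s p.1 p.2}) : T2Space (Quotient s) := by
  have hcont : Continuous (Quotient.mk s) := continuous_quotient_mk'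
  have hclosed : IsClosedMap (Quotient.mk s) := by
    intro C hC
    rw [← isQuotientMap_quotient_mk'.isClosed_preimage]
    have : Quotient.mk' ⁻¹' (Quotient.mk s '' C) =
        Prod.snd '' ((Prod.fst ⁻¹' C) ∩ {p : K × K | s p.1 p.2}) := by
      ext y
      constructor
      · rintro ⟨x, hx, hxy⟩
        exact ⟨(x, y), ⟨hx, Quotient.exact hxy⟩, rfl⟩
      · rintro ⟨⟨x, y'⟩, ⟨hx, hxy⟩, rfl⟩
        exact ⟨x, hx, Quotient.sound hxy⟩
    rw [this]
    exact isClosedMap_snd_of_compactSpace _ ((hC.preimage continuous_fst).inter h)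
  refine ⟨fun a b hab => ?_⟩
  have hfib : ∀ c : Quotient s, IsClosed (Quotient.mk s ⁻¹' {c}) := by
    intro c
    obtain ⟨x, rfl⟩ := Quotient.exists_rep c
    have := hclosed {x} isClosed_singleton
    rw [image_singleton] at this
    exact this.preimage hcont
  have hd : Disjoint (Quotient.mk s ⁻¹' {a}) (Quotient.mk s ⁻¹' {b}) := by
    rw [Set.disjoint_left]
    intro x hx hx'
    exact hab (hx.symm.trans hx')
  obtain ⟨U, V, hU, hV, hUa, hVb, hUV⟩ := SeparatedNhds.of_isCompact_isCompact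
    (hfib a).isCompact (hfib b).isCompact hd
  refine ⟨(Quotient.mk s '' Uᶜ)ᶜ, (Quotient.mk s '' Vᶜ)ᶜ,
    (hclosed _ hU.isClosed_compl).isOpen_compl, (hclosed _ hV.isClosed_compl).isOpen_compl,
    ?_, ?_, ?_⟩
  · rintro ⟨x, hx, hxa⟩
    exact hx (hUa hxa)
  · rintro ⟨x, hx, hxb⟩
    exact hx (hVb hxb)
  · rw [Set.disjoint_left]
    intro c hc hc'
    obtain ⟨x, rfl⟩ := Quotient.exists_rep c
    have h1 : x ∈ U := by
      by_contra hcon
      exact hc ⟨x, hcon, rfl⟩
    have h2 : x ∈ V := by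
      by_contra hcon
      exact hc' ⟨x, hcon, rfl⟩
    exact Set.disjoint_left.1 hUV h1 h2

/-- A planar presentation of the closed surface `F`: the surface is obtained from a two-sphere
with `2 g` holes by gluing the boundary circles in pairs. -/
structure Pres (F : Type*) [TopologicalSpace F] (g : ℕ) where
  /-- the discs -/
  e : Fin g × Bool → ℝ × ℝ → ℝ × ℝ × ℝ
  /-- the quotient map -/
  r : ℝ × ℝ × ℝ → F
  cont_e : ∀ a, ContinuousOn (e a) disc
  maps_e : ∀ a, MapsTo (e a) disc sph2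
  inj_e : ∀ a b v w, v ∈ disc → w ∈ disc → e a v = e b w → a = b ∧ v = w
  open_e : ∀ a, ∃ U : Set (ℝ × ℝ × ℝ), IsOpen U ∧ e a '' discInt = U ∩ sph2
  cont_r : ContinuousOn r (sph2 \ ⋃ a, e a '' discInt)
  surj : r '' (sph2 \ ⋃ a, e a '' discInt) = univ
  r_eq : ∀ x ∈ sph2 \ ⋃ a, e a '' discInt, ∀ y ∈ sph2 \ ⋃ a, e a '' discInt,
    (r x = r y ↔ x = y ∨ ∃ i b v, v ∈ discBd ∧ x = e (i, b) v ∧ y = e (i, !b) v)

namespace Pres

variable {F : Type*} [TopologicalSpace F] {g : ℕ} (R : Pres F g)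

/-- the sphere with holes -/
def planar : Set (ℝ × ℝ × ℝ) := sph2 \ ⋃ a, R.e a '' discInt

theorem isClosed_planar : IsClosed R.planar := by
  choose U hU hUe using R.open_e
  have : R.planar = sph2 ∩ ⋂ a, (U a)ᶜ := by
    ext x
    simp only [planar, mem_sdiff, mem_iUnion, not_exists, mem_inter_iff, mem_iInter,
      mem_compl_iff]
    refine and_congr_right fun hx => forall_congr' fun a => not_congr ?_
    rw [hUe]
    exact ⟨fun h => h.1, fun h => ⟨h, hx⟩⟩
  rw [this]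
  exact isCompact_sph2.isClosed.inter (isClosed_iInter fun a => (hU a).isClosed_compl)

theorem planar_subset : R.planar ⊆ ball3 := sdiff_subset.trans sph2_subset

theorem isCompact_planar : IsCompact R.planar :=
  isCompact_ball3.of_isClosed_subset R.isClosed_planar R.planar_subset

theorem e_mem_planar {a : Fin g × Bool} {v : ℝ × ℝ} (hv : v ∈ disc) :
    R.e a v ∈ R.planar ↔ v ∈ discBd := by
  constructor
  · rintro ⟨_, h⟩
    refine mem_discBd_of hv fun h' => h ?_
    exact mem_iUnion.2 ⟨a, v, h', rfl⟩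
  · intro h
    refine ⟨R.maps_e a hv, ?_⟩
    rw [mem_iUnion]
    rintro ⟨b, w, hw, he⟩
    obtain ⟨-, rfl⟩ := R.inj_e _ _ _ _ (discInt_subset hw) hv he
    exact not_mem_discInt h hw

/-- The pairs of glued points of the balls. -/
def Rel (x y : ℝ × ℝ × ℝ) : Prop :=
  x = y ∨ ∃ i b v, v ∈ disc ∧ x = R.e (i, b) v ∧ y = R.e (i, !b) v

theorem Rel.refl (x : ℝ × ℝ × ℝ) : R.Rel x x := Or.inl rfl

variable {R}

theorem Rel.symm {x y : ℝ × ℝ × ℝ} (h : R.Rel x y) : R.Rel y x := by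
  rcases h with rfl | ⟨i, b, v, hv, rfl, rfl⟩
  · exact Or.inl rfl
  · exact Or.inr ⟨i, !b, v, hv, rfl, by rw [Bool.not_not]⟩

theorem Rel.trans {x y z : ℝ × ℝ × ℝ} (h : R.Rel x y) (h' : R.Rel y z) : R.Rel x z := by
  rcases h with rfl | ⟨i, b, v, hv, rfl, rfl⟩
  · exact h'
  · rcases h' with rfl | ⟨j, c, w, hw, h1, rfl⟩
    · exact Or.inr ⟨i, b, v, hv, rfl, rfl⟩
    · obtain ⟨h2, rfl⟩ := R.inj_e _ _ _ _ hv hw h1
      obtain ⟨rfl, rfl⟩ := Prod.mk.inj h2
      rw [Bool.not_not]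
      exact Or.inl rfl

/-- On the planar surface, the relation is that of the surface. -/
theorem rel_iff {x y : ℝ × ℝ × ℝ} (hx : x ∈ R.planar) (hy : y ∈ R.planar) :
    R.Rel x y ↔ R.r x = R.r y := by
  rw [R.r_eq x hx y hy]
  constructor
  · rintro (rfl | ⟨i, b, v, hv, rfl, rfl⟩)
    · exact Or.inl rfl
    · exact Or.inr ⟨i, b, v, (R.e_mem_planar hv).1 hx, rfl, rfl⟩
  · rintro (rfl | ⟨i, b, v, hv, rfl, rfl⟩)
    · exact Or.inl rfl
    · exact Or.inr ⟨i, b, v, discBd_subset hv, rfl, rfl⟩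

theorem Rel.mem_planar {x y : ℝ × ℝ × ℝ} (h : R.Rel x y) (hx : x ∈ R.planar) :
    y ∈ R.planar := by
  rcases h with rfl | ⟨i, b, v, hv, rfl, rfl⟩
  · exact hx
  · exact (R.e_mem_planar hv).2 ((R.e_mem_planar hv).1 hx)

end Pres

/-! ### The glued space -/

section

variable {F : Type*} [TopologicalSpace F] {g : ℕ} (R : Fin 3 → Pres F g)

/-- The disjoint union of the three balls. -/
abbrev Balls : Type := Fin 3 × ball3

/-- the gluing relation -/
def gl (a b : Balls) : Prop :=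
  (a.1 = b.1 ∧ (R a.1).Rel a.2 b.2) ∨
    ((a.2 : ℝ × ℝ × ℝ) ∈ (R a.1).planar ∧ (b.2 : ℝ × ℝ × ℝ) ∈ (R b.1).planar ∧
      (R a.1).r a.2 = (R b.1).r b.2)

theorem gl_equiv : Equivalence (gl R) where
  refl a := Or.inl ⟨rfl, Pres.Rel.refl _ _⟩
  symm := by
    rintro ⟨i, x⟩ ⟨j, y⟩ (⟨h1, h2⟩ | ⟨h1, h2, h3⟩)
    · change i = j at h1
      subst h1
      exact Or.inl ⟨rfl, h2.symm⟩
    · exact Or.inr ⟨h2, h1, h3.symm⟩
  trans := by
    rintro ⟨i, x⟩ ⟨j, y⟩ ⟨k, z⟩ (⟨h1, h2⟩ | ⟨h1, h2, h3⟩) (⟨h1', h2'⟩ | ⟨h1', h2', h3'⟩)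
    · change i = j at h1
      change j = k at h1'
      subst h1 h1'
      exact Or.inl ⟨rfl, h2.trans h2'⟩
    · change i = j at h1
      subst h1
      have h4 := h2.symm.mem_planar h1'
      exact Or.inr ⟨h4, h2', ((Pres.rel_iff h4 h1').1 h2).trans h3'⟩
    · change j = k at h1'
      subst h1'
      have h4 := h2'.mem_planar h2
      exact Or.inr ⟨h1, h4, h3.trans ((Pres.rel_iff h2 h4).1 h2')⟩
    · exact Or.inr ⟨h1, h2', h3.trans h3'⟩

/-- the gluing relation -/
def glSetoid : Setoid Balls := ⟨gl R, gl_equiv R⟩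

theorem isClosed_Rel (R : Pres F g) : IsClosed {p : (ℝ × ℝ × ℝ) × (ℝ × ℝ × ℝ) | R.Rel p.1 p.2} := by
  have : {p : (ℝ × ℝ × ℝ) × (ℝ × ℝ × ℝ) | R.Rel p.1 p.2} =
      {p | p.1 = p.2} ∪ ⋃ a : Fin g × Bool, (fun v => (R.e (a.1, a.2) v, R.e (a.1, !a.2) v)) '' disc := by
    ext ⟨x, y⟩
    simp only [Pres.Rel, mem_ofPred_eq, mem_union, mem_iUnion, mem_image, Prod.mk.injEq,
      Prod.exists]
    refine or_congr_right ?_
    constructor
    · rintro ⟨i, b, v, v', h, h1, h2⟩
      exact ⟨i, b, v, v', h, h1.symm, h2.symm⟩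
    · rintro ⟨i, b, v, v', h, h1, h2⟩
      exact ⟨i, b, v, v', h, h1.symm, h2.symm⟩
  rw [this]
  refine (isClosed_eq continuous_fst continuous_snd).union (isClosed_iUnion_of_finite fun a => ?_)
  exact (isCompact_disc.image_of_continuousOn
    ((R.cont_e _).prodMk (R.cont_e _))).isClosed

theorem isClosed_gl [T2Space F] : IsClosed {p : Balls × Balls | gl R p.1 p.2} := by
  have hs : {p : Balls × Balls | gl R p.1 p.2} = ⋃ ij : Fin 3 × Fin 3,
      {p : Balls × Balls | p.1.1 = ij.1 ∧ p.2.1 = ij.2} ∩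
        ((fun p : Balls × Balls => ((p.1.2 : ℝ × ℝ × ℝ), (p.2.2 : ℝ × ℝ × ℝ))) ⁻¹'
          ({q | ij.1 = ij.2 ∧ (R ij.1).Rel q.1 q.2} ∪
            {q | q.1 ∈ (R ij.1).planar ∧ q.2 ∈ (R ij.2).planar ∧
              (R ij.1).r q.1 = (R ij.2).r q.2})) := by
    ext ⟨⟨i, x⟩, ⟨j, y⟩⟩
    simp only [gl, mem_ofPred_eq, mem_iUnion, mem_inter_iff, mem_preimage, mem_union,
      Prod.exists]
    constructor
    · intro h
      exact ⟨i, j, ⟨rfl, rfl⟩, h⟩
    · rintro ⟨_, _, ⟨rfl, rfl⟩, h⟩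
      exact h
  rw [hs]
  refine isClosed_iUnion_of_finite fun ij => ?_
  refine IsClosed.inter ?_ (IsClosed.preimage (by fun_prop) (IsClosed.union ?_ ?_))
  · have h1 : IsClosed {p : Balls × Balls | p.1.1 = ij.1} :=
      isClosed_eq (by fun_prop) continuous_const
    have h2 : IsClosed {p : Balls × Balls | p.2.1 = ij.2} :=
      isClosed_eq (by fun_prop) continuous_const
    exact h1.inter h2
  · by_cases h : ij.1 = ij.2
    · simp only [h, true_and]
      exact isClosed_Rel _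
    · simp only [h, false_and]
      exact isClosed_empty
  · have h1 : ContinuousOn (fun q : (ℝ × ℝ × ℝ) × (ℝ × ℝ × ℝ) =>
        ((R ij.1).r q.1, (R ij.2).r q.2)) ((R ij.1).planar ×ˢ (R ij.2).planar) :=
      ((R ij.1).cont_r.comp continuousOn_fst fun q hq => hq.1).prodMk
        ((R ij.2).cont_r.comp continuousOn_snd fun q hq => hq.2)
    have h2 := h1.preimage_isClosed_of_isClosed
      ((R ij.1).isClosed_planar.prod (R ij.2).isClosed_planar) (isClosed_diagonal (X := F))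
    convert h2 using 1
    ext q
    simp only [mem_ofPred_eq, mem_inter_iff, mem_prod, mem_preimage, mem_diagonal_iff]
    tauto

/-- the glued space -/
def Glued : Type := Quotient (glSetoid R)

instance : TopologicalSpace (Glued R) := inferInstanceAs (TopologicalSpace (Quotient (glSetoid R)))

instance : CompactSpace ball3 := isCompact_iff_compactSpace.1 isCompact_ball3

instance [T2Space F] : T2Space (Glued R) := t2_quotient (glSetoid R) (isClosed_gl R)

theorem zero_mem_ball3 : (0 : ℝ × ℝ × ℝ) ∈ ball3 := by simp [ball3]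

open Classical in
/-- the maps of the balls -/
noncomputable def gq (i : Fin 3) (x : ℝ × ℝ × ℝ) : Glued R :=
  if h : x ∈ ball3 then Quotient.mk (glSetoid R) (i, ⟨x, h⟩)
  else Quotient.mk (glSetoid R) (i, ⟨0, zero_mem_ball3⟩)

theorem gq_of_mem {i : Fin 3} {x : ℝ × ℝ × ℝ} (h : x ∈ ball3) :
    gq R i x = Quotient.mk (glSetoid R) (i, ⟨x, h⟩) := dif_pos h

theorem gq_eq {i j : Fin 3} {x y : ℝ × ℝ × ℝ} (hx : x ∈ ball3) (hy : y ∈ ball3) :
    gq R i x = gq R j y ↔ (i = j ∧ (R i).Rel x y) ∨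
      (x ∈ (R i).planar ∧ y ∈ (R j).planar ∧ (R i).r x = (R j).r y) := by
  rw [gq_of_mem R hx, gq_of_mem R hy]
  exact ⟨fun h => Quotient.exact h, fun h => Quotient.sound h⟩

theorem cont_gq (i : Fin 3) : ContinuousOn (gq R i) ball3 := by
  rw [continuousOn_iff_continuous_domRestrict]
  have : ball3.domRestrict (gq R i) = fun x : ball3 => Quotient.mk (glSetoid R) (i, x) := by
    funext x
    exact gq_of_mem R x.2
  rw [this]
  exact continuous_quotient_mk'.comp (by fun_prop)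

/-- the handlebodies -/
noncomputable def gW (i : Fin 3) : Handlebody (Glued R) g where
  q := gq R i
  e := (R i).e
  cont_q := cont_gq R i
  cont_e := (R i).cont_e
  maps_e := (R i).maps_e
  inj_e := (R i).inj_e
  open_e := (R i).open_e
  q_eq := by
    intro x hx y hy
    rw [gq_eq R hx hy]
    constructor
    · rintro (⟨-, h⟩ | ⟨h1, h2, h3⟩)
      · exact h
      · exact (Pres.rel_iff h1 h2).2 h3
    · intro h
      exact Or.inl ⟨rfl, h⟩

theorem gW_planar (i : Fin 3) : (gW R i).planar = (R i).planar := rfl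

/-- The common boundary. -/
theorem gW_bd (i j : Fin 3) : (gW R i).bd ⊆ (gW R j).bd := by
  rintro _ ⟨x, hx, rfl⟩
  have h : (R i).r x ∈ (R j).r '' (R j).planar := by
    have := (R j).surj
    unfold Pres.planar
    rw [this]; trivial
  obtain ⟨y, hy, hxy⟩ := h
  refine ⟨y, hy, ?_⟩
  exact (gq_eq R ((R j).planar_subset hy) ((R i).planar_subset hx)).2 (Or.inr ⟨hy, hx, hxy⟩)

theorem gW_bd_eq (i j : Fin 3) : (gW R i).bd = (gW R j).bd :=
  Subset.antisymm (gW_bd R i j) (gW_bd R j i)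

theorem gW_bd_sub (i : Fin 3) : (gW R i).bd ⊆ (gW R i).carrier :=
  image_mono (R i).planar_subset

theorem gW_inter {i j : Fin 3} (h : i ≠ j) :
    (gW R i).carrier ∩ (gW R j).carrier = (gW R i).bd := by
  apply Subset.antisymm
  · rintro _ ⟨⟨x, hx, rfl⟩, ⟨y, hy, hxy⟩⟩
    rcases (gq_eq R hy hx).1 hxy with ⟨h', -⟩ | ⟨h1, h2, h3⟩
    · exact absurd h'.symm h
    · exact ⟨x, h2, rfl⟩
  · intro z hz
    exact ⟨gW_bd_sub R i hz, gW_bd_sub R j (gW_bd R i j hz)⟩

/-- The pieces of the decomposition. -/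
def gX : Fin 3 → Set (Glued R) := ![(gW R 0).carrier ∪ (gW R 1).carrier,
  (gW R 0).carrier ∪ (gW R 2).carrier, (gW R 1).carrier ∪ (gW R 2).carrier]

theorem gX01 : gX R 0 ∩ gX R 1 = (gW R 0).carrier := by
  change ((gW R 0).carrier ∪ (gW R 1).carrier) ∩ ((gW R 0).carrier ∪ (gW R 2).carrier) = _
  rw [← union_inter_distrib_left, gW_inter R (by decide : (1 : Fin 3) ≠ 2), gW_bd_eq R 1 0]
  exact union_eq_left.2 (gW_bd_sub R 0)

theorem gX02 : gX R 0 ∩ gX R 2 = (gW R 1).carrier := by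
  change ((gW R 0).carrier ∪ (gW R 1).carrier) ∩ ((gW R 1).carrier ∪ (gW R 2).carrier) = _
  rw [union_comm (gW R 0).carrier, ← union_inter_distrib_left,
    gW_inter R (by decide : (0 : Fin 3) ≠ 2), gW_bd_eq R 0 1]
  exact union_eq_left.2 (gW_bd_sub R 1)

theorem gX12 : gX R 1 ∩ gX R 2 = (gW R 2).carrier := by
  change ((gW R 0).carrier ∪ (gW R 2).carrier) ∩ ((gW R 1).carrier ∪ (gW R 2).carrier) = _
  rw [← inter_union_distrib_right, gW_inter R (by decide : (0 : Fin 3) ≠ 1), gW_bd_eq R 0 2]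
  exact union_eq_right.2 (gW_bd_sub R 2)

theorem gX_inter : (⋂ i, gX R i) = (gW R 0).bd := by
  have : (⋂ i, gX R i) = (gX R 0 ∩ gX R 1) ∩ gX R 2 := by
    ext x
    simp only [mem_iInter, Fin.forall_fin_succ, mem_inter_iff]
    simp
    tauto
  rw [this, gX01]
  change (gW R 0).carrier ∩ ((gW R 1).carrier ∪ (gW R 2).carrier) = _
  rw [inter_union_distrib_left, gW_inter R (by decide : (0 : Fin 3) ≠ 1),
    gW_inter R (by decide : (0 : Fin 3) ≠ 2), union_self]

theorem gX_cover : (⋃ i, gX R i) = univ := by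
  apply eq_univ_of_forall
  intro z
  obtain ⟨⟨i, x⟩, rfl⟩ := Quotient.exists_rep z
  have hz : Quotient.mk (glSetoid R) (i, x) ∈ (gW R i).carrier :=
    ⟨x, x.2, gq_of_mem R x.2⟩
  rw [mem_iUnion]
  fin_cases i
  · exact ⟨0, Or.inl hz⟩
  · exact ⟨0, Or.inr hz⟩
  · exact ⟨1, Or.inr hz⟩

/-- The surface in the glued space. -/
theorem exists_gι [T2Space F] : ∃ ι : F → Glued R, Continuous ι ∧ Function.Injective ι ∧
    ∀ i, ∀ x ∈ (R i).planar, ι ((R i).r x) = gq R i x := by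
  have hs : (R 0).r '' (R 0).planar = univ := (R 0).surj
  have : Nonempty (Glued R) := ⟨gq R 0 0⟩
  obtain ⟨ι, hc, he⟩ := descend (R 0).isCompact_planar (f := (R 0).r) (g := gq R 0)
    (R 0).cont_r ((cont_gq R 0).mono (R 0).planar_subset) (fun x hx y hy h =>
      (gq_eq R ((R 0).planar_subset hx) ((R 0).planar_subset hy)).2 (Or.inr ⟨hx, hy, h⟩))
  rw [hs, continuousOn_univ] at hc
  refine ⟨ι, hc, ?_, ?_⟩
  · intro a b hab
    have ha : a ∈ (R 0).r '' (R 0).planar := by rw [hs]; trivial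
    have hb : b ∈ (R 0).r '' (R 0).planar := by rw [hs]; trivial
    obtain ⟨x, hx, rfl⟩ := ha
    obtain ⟨y, hy, rfl⟩ := hb
    rw [he x hx, he y hy, gq_eq R ((R 0).planar_subset hx) ((R 0).planar_subset hy)] at hab
    rcases hab with ⟨-, h⟩ | ⟨-, -, h⟩
    · exact (Pres.rel_iff hx hy).1 h
    · exact h
  · intro i x hx
    have ha : (R i).r x ∈ (R 0).r '' (R 0).planar := by rw [hs]; trivial
    obtain ⟨y, hy, hxy⟩ := ha
    rw [← hxy, he y hy, gq_eq R ((R 0).planar_subset hy) ((R i).planar_subset hx)]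
    exact Or.inr ⟨hy, hx, hxy⟩

/-- The curves. -/
theorem gW_curve {ι : F → Glued R} (h : ∀ i, ∀ x ∈ (R i).planar, ι ((R i).r x) = gq R i x)
    (i : Fin 3) (k : Fin g) :
    (gW R i).curve k = ι '' ((R i).r '' ((R i).e (k, true) '' discBd)) := by
  unfold Handlebody.curve
  simp only [image_image]
  refine image_congr fun v hv => ?_
  exact (h i _ (((R i).e_mem_planar (discBd_subset hv)).2 hv)).symm

theorem gW_bd_ι {ι : F → Glued R} (h : ∀ i, ∀ x ∈ (R i).planar, ι ((R i).r x) = gq R i x)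
    (i : Fin 3) : (gW R i).bd = range ι := by
  have hs : (R i).r '' (R i).planar = univ := (R i).surj
  rw [← image_univ, ← hs, image_image]
  exact (image_congr fun x hx => (h i x hx)).symm

end

end Pool.Agent.H72.Tri
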