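import Pool.Agent.H72.Tri.Ex9

/-!
# The charts and the tube
-/

open Set Topology Metric

namespace Pool.Agent.H72.Tri

noncomputable section

theorem Cr_abs {y : ℝ × ℝ} (h : y ∈ Cr) : |y.1| ≤ 15 / 16 ∧ |y.2| ≤ 5 / 16 := by
  obtain ⟨h1, h2, h3⟩ := h
  rw [abs_fst y, abs_snd y]
  have e1 : max 0 (dd y) ≤ 13 / 16 := max_le (by norm_num) h3
  have e2 : max 0 (-dd y) ≤ 3 / 16 := max_le (by norm_num) (by linarith)
  constructor <;> linarith

/-- a chart of the top face: `α` is the angle coordinate -/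
def NN (t : Twist) (α : ℝ → ℝ) (y : ℝ × ℝ) : Y0 :=
  Bm (t.s (Circle.exp (Real.pi / 4 * α y.1), Ec (2 * y.2))) 1

/-- the properties of the angle coordinate -/
structure IsAng (α : ℝ → ℝ) (l r : ℝ) : Prop where
  cont : Continuous α
  hl : l < -(15 / 16)
  hr : 15 / 16 < r
  inj : ∀ x ∈ Icc l r, ∀ y ∈ Ioo l r, Circle.exp (Real.pi / 4 * α x) =
    Circle.exp (Real.pi / 4 * α y) → x = y
  surj : ∀ z : Circle, ∃ x ∈ Icc l r, Circle.exp (Real.pi / 4 * α x) = z

variable {t : Twist} {α : ℝ → ℝ} {l r : ℝ}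

theorem continuous_pN (h : IsAng α l r) : Continuous fun y : ℝ × ℝ =>
    (Circle.exp (Real.pi / 4 * α y.1), Ec (2 * y.2)) :=
  (Circle.exp.continuous.comp (continuous_const.mul (h.cont.comp continuous_fst))).prodMk
    (continuous_Ec.comp (by fun_prop))

theorem NN_cont (h : IsAng α l r) (s : Set (ℝ × ℝ)) : ContinuousOn (NN t α) s :=
  contOn_Bm ((t.s.continuous.comp (continuous_pN h)).continuousOn) continuousOn_const
    (fun _ _ => by simp)

theorem NN_inj (h : IsAng α l r) : InjOn (NN t α) Cr := by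
  intro x hx y hy hxy
  obtain ⟨h1, -⟩ := Bm_inj (by simp) (by simp) hxy
  obtain ⟨h2, h3⟩ := Prod.mk.inj (t.s.injective h1)
  obtain ⟨a1, a2⟩ := Cr_abs hx
  obtain ⟨b1, b2⟩ := Cr_abs hy
  have hl := h.hl
  have hr := h.hr
  obtain ⟨a3, a4⟩ := abs_le.1 a1
  obtain ⟨b3, b4⟩ := abs_le.1 b1
  have e1 := h.inj x.1 ⟨by linarith, by linarith⟩ y.1 ⟨by linarith, by linarith⟩ h2
  have e2 : 2 * x.2 = 2 * y.2 := by
    refine Twist.Ec_inj' ?_ ?_ h3
    · rw [abs_mul, abs_of_pos (by norm_num : (0 : ℝ) < 2)]; linarith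
    · rw [abs_mul, abs_of_pos (by norm_num : (0 : ℝ) < 2)]; linarith
  exact Prod.ext e1 (by linarith)

theorem NN_maps {y : ℝ × ℝ} (hy : |y.2| ≤ 5 / 16) : NN t α y ∈ Sf := by
  unfold NN
  rw [Twist.mem_Sf_Bm _ (by simp), t.out_iff]
  refine ⟨Or.inr ?_, Or.inl (by simp)⟩
  have h : |2 * y.2| ≤ 3 / 4 := by
    rw [abs_mul, abs_of_pos (by norm_num : (0 : ℝ) < 2)]; linarith
  exact (re_Ec_le' (by linarith)).2 h

/-- The image of the interior of the chart is open. -/
theorem NN_open (h : IsAng α l r) : ∃ U, IsOpen U ∧ NN t α '' Cro = U ∩ Sf := by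
  -- the complement in the torus
  let K0 : Set (ℝ × ℝ) := (Icc l r ×ˢ Icc (-(1 / 2) : ℝ) (1 / 2)) \ Cro
  have hK0 : IsCompact K0 := (isCompact_Icc.prod isCompact_Icc).diff isOpen_Cro
  let C1 : Set Y0 := (fun q : (ℝ × ℝ) × ℝ =>
    Bm (t.s (Circle.exp (Real.pi / 4 * α q.1.1), Ec (2 * q.1.2))) q.2) '' (K0 ×ˢ Icc (-1 : ℝ) 1)
  have hC1 : IsClosed C1 := by
    refine ((hK0.prod isCompact_Icc).image_of_continuousOn ?_).isClosed
    refine contOn_Bm ?_ continuousOn_snd (fun x hx => abs_le.2 hx.2)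
    exact (t.s.continuous.comp ((continuous_pN h).comp continuous_fst)).continuousOn
  let C2 : Set Y0 := {y | (y.2 : ℂ × ℝ).2 ≤ 0}
  have hC2 : IsClosed C2 := isClosed_le (by fun_prop) continuous_const
  refine ⟨(C1 ∪ C2)ᶜ, (hC1.union hC2).isOpen_compl, ?_⟩
  have hl := h.hl
  have hr := h.hr
  ext y
  constructor
  · rintro ⟨x, hx, rfl⟩
    obtain ⟨a1, a2⟩ := Cr_abs (Cro_subset hx)
    obtain ⟨a3, a4⟩ := abs_le.1 a1
    refine ⟨?_, NN_maps a2⟩
    rintro (⟨⟨⟨u, v⟩, r'⟩, ⟨⟨⟨hu, hv⟩, hn⟩, hr'⟩, he⟩ | h2)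
    · obtain ⟨h1, -⟩ := Bm_inj (abs_le.2 hr') (by simp) he
      obtain ⟨h2, h3⟩ := Prod.mk.inj (t.s.injective h1)
      simp only at h2 h3 hu hv
      have e1 := h.inj u hu x.1 ⟨by linarith, by linarith⟩ h2
      have e2 : 2 * x.2 = 2 * v := by
        refine Twist.Ec_inj' ?_ ?_ h3.symm
        · rw [abs_mul, abs_of_pos (by norm_num : (0 : ℝ) < 2)]; linarith
        · rw [abs_mul, abs_of_pos (by norm_num : (0 : ℝ) < 2)]
          have := abs_le.2 hv
          linarith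
      have e3 : (u, v) = x := Prod.ext e1 (by simp only; linarith)
      rw [e3] at hn
      exact hn hx
    · change ((NN t α x).2 : ℂ × ℝ).2 ≤ 0 at h2
      unfold NN at h2
      rw [Bm_snd _ (by simp)] at h2
      norm_num at h2
  · rintro ⟨h1, h2⟩
    rw [mem_compl_iff, mem_union, not_or] at h1
    obtain ⟨h3, h4⟩ := h1
    obtain ⟨p, r', hr', rfl⟩ := t.exists_Bm' h2.1
    have h5 : 0 < r' := by
      change ¬ (((Bm (t.s p) r').2 : ℂ × ℝ).2 ≤ 0) at h4
      rw [Bm_snd _ hr'] at h4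
      exact not_le.1 h4
    obtain ⟨u, hu, hue⟩ := h.surj p.1
    obtain ⟨Θ, hΘ, hΘ'⟩ := Ec_surj p.2
    have hx : ((u, Θ / 2) : ℝ × ℝ) ∈ Cro := by
      by_contra hcon
      apply h3
      refine ⟨((u, Θ / 2), r'), ⟨⟨⟨hu, ?_⟩, hcon⟩, abs_le.1 hr'⟩, ?_⟩
      · obtain ⟨g1, g2⟩ := abs_le.1 hΘ
        exact ⟨by simp only; linarith, by simp only; linarith⟩
      · simp only
        rw [hue, show 2 * (Θ / 2) = Θ by ring, hΘ']
    obtain ⟨a1, a2⟩ := Cr_abs (Cro_subset hx)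
    simp only at a2
    rw [Twist.mem_Sf_Bm _ hr', t.out_iff, t.win_iff] at h2
    have h6 : |r'| = 1 := by
      rcases h2.2 with h6 | h6
      · exact h6
      · exfalso
        have h7 : 3 / 4 ≤ |Θ| := by
          rw [← le_re_Ec' hΘ, hΘ']
          exact h6.2
        rw [abs_div, abs_of_pos (by norm_num : (0 : ℝ) < 2)] at a2
        linarith
    rw [abs_of_pos h5] at h6
    refine ⟨_, hx, ?_⟩
    unfold NN
    simp only
    rw [hue, show 2 * (Θ / 2) = Θ by ring, hΘ', h6]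

/-! ### The two angle coordinates -/

theorem exp_eq_of {a b : ℝ} (h : Circle.exp (Real.pi / 4 * a) = Circle.exp (Real.pi / 4 * b)) :
    ∃ m : ℤ, a = b + 8 * m := by
  have hpi := Real.pi_pos
  obtain ⟨m, hm⟩ := Circle.exp_eq_exp.1 h
  refine ⟨m, ?_⟩
  have : Real.pi / 4 * a = Real.pi / 4 * (b + 8 * m) := by rw [hm]; ring
  exact mul_left_cancel₀ (by positivity) this

theorem exp_add_eight (a : ℝ) (m : ℤ) :
    Circle.exp (Real.pi / 4 * (a + 8 * m)) = Circle.exp (Real.pi / 4 * a) := by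
  rw [Circle.exp_eq_exp]
  exact ⟨m, by ring⟩

/-- the angle coordinate of the chart for `β` -/
def αβ (x : ℝ) : ℝ := 1 + x

theorem isAng_β : IsAng αβ (-4) 4 where
  cont := by unfold αβ; fun_prop
  hl := by norm_num
  hr := by norm_num
  inj := by
    intro x hx y hy h
    obtain ⟨m, hm⟩ := exp_eq_of h
    unfold αβ at hm
    have h1 : (m : ℝ) < 1 := by linarith [hx.2, hy.1]
    have h2 : (-1 : ℝ) < m := by linarith [hx.1, hy.2]
    have h3 : m = 0 := by
      have h6 : m < 1 := by exact_mod_cast h1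
      have h7 : -1 < m := by exact_mod_cast h2
      omega
    rw [h3] at hm
    push_cast at hm
    linarith
  surj := by
    intro z
    have hpi := Real.pi_pos
    obtain ⟨x, hx, rfl⟩ := exists_arg z
    by_cases h : 4 * x / Real.pi - 1 < -4
    · refine ⟨4 * x / Real.pi - 1 + 8, ⟨?_, by linarith⟩, ?_⟩
      · have : -4 ≤ 4 * x / Real.pi := by
          rw [le_div_iff₀ hpi]; linarith [hx.1]
        linarith
      · unfold αβ
        have e : Real.pi / 4 * (1 + (4 * x / Real.pi - 1 + 8)) =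
          Real.pi / 4 * (4 * x / Real.pi + 8 * (1 : ℤ)) := by push_cast; ring
        rw [e, exp_add_eight]
        congr 1
        field_simp
    · push Not at h
      refine ⟨4 * x / Real.pi - 1, ⟨h, ?_⟩, ?_⟩
      · have : 4 * x / Real.pi ≤ 4 := by
          rw [div_le_iff₀ hpi]; linarith [hx.2]
        linarith
      · unfold αβ
        congr 1
        field_simp
        ring

/-- the angle coordinate of the chart for `γ` -/
def αγ (x : ℝ) : ℝ := -x - 24 * max 0 (min x (1 / 4))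

theorem αγ_anti : StrictAnti αγ := by
  intro x y h
  unfold αγ
  have : max 0 (min x (1 / 4)) ≤ max 0 (min y (1 / 4)) :=
    max_le_max le_rfl (min_le_min h.le le_rfl)
  linarith

theorem αγ_neg {x : ℝ} (h : x ≤ 0) : αγ x = -x := by
  unfold αγ
  rw [max_eq_left ((min_le_left _ _).trans h)]; ring

theorem αγ_pos {x : ℝ} (h : 1 / 4 ≤ x) : αγ x = -x - 6 := by
  unfold αγ
  rw [min_eq_right h, max_eq_right (by norm_num)]; ring

theorem isAng_γ : IsAng αγ (-1) 1 where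
  cont := by unfold αγ; fun_prop
  hl := by norm_num
  hr := by norm_num
  inj := by
    intro x hx y hy h
    obtain ⟨m, hm⟩ := exp_eq_of h
    have e1 : αγ (-1) = 1 := by rw [αγ_neg (by norm_num)]; norm_num
    have e2 : αγ 1 = -7 := by rw [αγ_pos (by norm_num)]; norm_num
    have g1 := αγ_anti.antitone hx.1
    have g2 := αγ_anti.antitone hx.2
    have g3 := αγ_anti hy.1
    have g4 := αγ_anti hy.2
    rw [e1] at g1 g3
    rw [e2] at g2 g4
    have h1 : (m : ℝ) < 1 := by linarith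
    have h2 : (-1 : ℝ) < m := by linarith
    have h3 : m = 0 := by
      have h6 : m < 1 := by exact_mod_cast h1
      have h7 : -1 < m := by exact_mod_cast h2
      omega
    rw [h3] at hm
    push_cast at hm
    exact αγ_anti.injective (by linarith)
  surj := by
    intro z
    have hpi := Real.pi_pos
    have e1 : αγ (-1) = 1 := by rw [αγ_neg (by norm_num)]; norm_num
    have e2 : αγ 1 = -7 := by rw [αγ_pos (by norm_num)]; norm_num
    have hc : Continuous αγ := by unfold αγ; fun_prop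
    have hI := intermediate_value_Icc' (by norm_num : (-1 : ℝ) ≤ 1) hc.continuousOn
    rw [e1, e2] at hI
    obtain ⟨x, hx, rfl⟩ := exists_arg z
    have g1 : -4 ≤ 4 * x / Real.pi := by
      rw [le_div_iff₀ hpi]; linarith [hx.1]
    have g2 : 4 * x / Real.pi ≤ 4 := by
      rw [div_le_iff₀ hpi]; linarith [hx.2]
    by_cases h : 4 * x / Real.pi ≤ 1
    · obtain ⟨u, hu, hue⟩ := hI (show 4 * x / Real.pi ∈ Icc (-7 : ℝ) 1 from ⟨by linarith, h⟩)
      refine ⟨u, hu, ?_⟩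
      rw [hue]
      congr 1
      field_simp
    · push Not at h
      obtain ⟨u, hu, hue⟩ := hI (show 4 * x / Real.pi - 8 ∈ Icc (-7 : ℝ) 1 from
        ⟨by linarith, by linarith⟩)
      refine ⟨u, hu, ?_⟩
      rw [hue]
      have e : 4 * x / Real.pi - 8 = 4 * x / Real.pi + 8 * (-1 : ℤ) := by push_cast; ring
      rw [e, exp_add_eight]
      congr 1
      field_simp

/-- the reflection of the disc -/
def rf (v : ℝ × ℝ) : ℝ × ℝ := (-v.1, v.2)

theorem rf_rf (v : ℝ × ℝ) : rf (rf v) = v := by unfold rf; simp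
theorem rf_disc {v : ℝ × ℝ} : rf v ∈ disc ↔ v ∈ disc := by
  rw [mem_disc, mem_disc]; unfold rf; simp
theorem rf_discInt {v : ℝ × ℝ} : rf v ∈ discInt ↔ v ∈ discInt := by
  rw [mem_discInt, mem_discInt]; unfold rf; simp
theorem rf_discBd {v : ℝ × ℝ} : rf v ∈ discBd ↔ v ∈ discBd := by
  rw [mem_discBd, mem_discBd]; unfold rf; simp

/-- The two charts on the discs. -/
theorem NN_eq (t : Twist) (b : Bool) {v : ℝ × ℝ} (hv : v ∈ disc) :
    NN t αγ (ε1 b v) = NN t αβ (ε1 b (rf v)) := by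
  obtain ⟨h1, h2⟩ := mem_disc.1 hv
  obtain ⟨h3, h4⟩ := abs_le.1 h1
  have h0 := abs_nonneg v.2
  have hc : 0 < 1 / 4 - 7 * |v.2| / 32 := by linarith
  have h5 : -(1 / 4) ≤ v.1 * (1 / 4 - 7 * |v.2| / 32) := by nlinarith
  unfold NN
  have e : Circle.exp (Real.pi / 4 * αγ (ε1 b v).1) =
      Circle.exp (Real.pi / 4 * αβ (ε1 b (rf v)).1) := by
    cases b
    · have e1 : (ε1 false v).1 = -(1 / 2 + v.1 * (1 / 4 - 7 * |v.2| / 32)) := by
        unfold ε1; rw [sg_false]; ring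
      have e2 : (ε1 false (rf v)).1 = -(1 / 2 - v.1 * (1 / 4 - 7 * |v.2| / 32)) := by
        unfold ε1 rf; simp only; rw [sg_false]; ring
      rw [e1, e2, αγ_neg (by linarith)]
      unfold αβ
      congr 2
      ring
    · have e1 : (ε1 true v).1 = 1 / 2 + v.1 * (1 / 4 - 7 * |v.2| / 32) := by
        unfold ε1; rw [sg_true]; ring
      have e2 : (ε1 true (rf v)).1 = 1 / 2 - v.1 * (1 / 4 - 7 * |v.2| / 32) := by
        unfold ε1 rf; simp only; rw [sg_true]; ring
      rw [e1, e2, αγ_pos (by linarith)]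
      unfold αβ
      rw [← exp_add_eight (-(1 / 2 + v.1 * (1 / 4 - 7 * |v.2| / 32)) - 6) 1]
      congr 2
      push_cast
      ring
  rw [e]
  rfl

theorem NN_image (t : Twist) (b : Bool) {A : Set (ℝ × ℝ)} (hA : A ⊆ disc)
    (hr : ∀ v, rf v ∈ A ↔ v ∈ A) :
    NN t αγ '' (ε1 b '' A) = NN t αβ '' (ε1 b '' A) := by
  ext y
  constructor
  · rintro ⟨_, ⟨v, hv, rfl⟩, rfl⟩
    exact ⟨_, ⟨rf v, (hr v).2 hv, rfl⟩, (NN_eq t b (hA hv)).symm⟩
  · rintro ⟨_, ⟨v, hv, rfl⟩, rfl⟩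
    refine ⟨_, ⟨rf v, (hr v).2 hv, rfl⟩, ?_⟩
    rw [NN_eq t b (hA ((hr v).2 hv)), rf_rf]

end

end Pool.Agent.H72.Tri
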