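import Pool.Agent.H72.Tri.Ex10

/-!
# The tube
-/

open Set Topology Metric

namespace Pool.Agent.H72.Tri

noncomputable section

theorem cos_le_iff {x : ℝ} (hx : x ∈ Icc (-Real.pi) Real.pi) :
    Real.cos x ≤ -(1 / 2) ↔ 2 * Real.pi / 3 ≤ |x| := by
  have hpi := Real.pi_pos
  rw [← Real.cos_abs, ← cos_two_pi_third]
  exact Real.strictAntiOn_cos.le_iff_ge ⟨abs_nonneg _, abs_le.2 hx⟩ ⟨by positivity, by linarith⟩

theorem cos_lt_iff {x : ℝ} (hx : x ∈ Icc (-Real.pi) Real.pi) :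
    Real.cos x < -(1 / 2) ↔ 2 * Real.pi / 3 < |x| := by
  have hpi := Real.pi_pos
  rw [← Real.cos_abs, ← cos_two_pi_third]
  exact Real.strictAntiOn_cos.lt_iff_gt ⟨abs_nonneg _, abs_le.2 hx⟩ ⟨by positivity, by linarith⟩

theorem ε1_maps (b : Bool) {v : ℝ × ℝ} (hv : v ∈ disc) :
    ε1 b v ∈ Cro ∧ |(ε1 b v).1| ≤ 3 / 4 ∧ 1 / 4 ≤ |(ε1 b v).1| ∧ |(ε1 b v).2| ≤ 7 / 64 := by
  have h1 := ε1_le (b := b) hv
  obtain ⟨h2, h3⟩ := B1_nonneg.1 ((mm_nonneg _).trans h1)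
  have h4 := B1_le (dd (ε1 b v))
  have h5 : B1 (dd (ε1 b v)) ≤ (3 / 4 - dd (ε1 b v)) / 3 :=
    (min_le_right _ _).trans (min_le_right _ _)
  have e1 := abs_fst (ε1 b v)
  have e2 := abs_snd (ε1 b v)
  have h6 := mm_nonneg (ε1 b v)
  rw [max_eq_right (by linarith)] at e1
  rw [max_eq_left (by linarith)] at e2
  exact ⟨⟨by linarith, by linarith, by linarith⟩, by linarith, by linarith, by linarith⟩

namespace Twist

variable (t : Twist)

/-- the main chart -/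
abbrev Nβ : ℝ × ℝ → Y0 := NN t αβ

theorem Nβ_inj : InjOn t.Nβ Cr := NN_inj isAng_β

/-- The parametrisation of the disc `D'`. -/
theorem j1_rect {s : ℝ} {ω : Circle} (hs1 : 1 / 4 ≤ s) (hs2 : s ≤ 3 / 4) (hω : 0 ≤ (ω : ℂ).re) :
    t.j1 (s, ω) = t.Nβ (ε1 false (2 - 4 * s, 24 * (sq2 ω).1 / 7)) := by
  obtain ⟨h1, h2, -⟩ := sq2_R hω
  have h3 : |th ω| = 3 / 4 * |(sq2 ω).1| := by
    unfold th
    rw [abs_mul, abs_of_pos (by norm_num : (0:ℝ) < 3/4)]
  have h4 : |th ω| ≤ 7 / 32 := by rw [h3]; linarith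
  have h5 : (sq2 ω).2 = 1 := by rw [h1]
  unfold j1 Nβ NN
  simp only
  rw [ang_mid hs1 hs2 h4, h5]
  have e1 : αβ (ε1 false (2 - 4 * s, 24 * (sq2 ω).1 / 7)).1 =
      1 / 2 + (s - 1 / 2) * (1 - 4 * |th ω|) := by
    unfold αβ ε1
    simp only
    rw [sg_false, h3]
    have : |24 * (sq2 ω).1 / 7| = 24 * |(sq2 ω).1| / 7 := by
      rw [abs_div, abs_mul, abs_of_pos (by norm_num : (0:ℝ) < 24),
        abs_of_pos (by norm_num : (0:ℝ) < 7)]
    rw [this]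
    ring
  have e2 : 2 * (ε1 false (2 - 4 * s, 24 * (sq2 ω).1 / 7)).2 = th ω := by
    unfold ε1 th
    simp only
    ring
  rw [e1, e2]

theorem rect_to {q : ℝ × Circle} (hq : q ∈ rect) : ∃ v ∈ disc, (v ∈ discInt ↔ q ∈ rectInt) ∧
    t.j1 q = t.Nβ (ε1 false v) := by
  obtain ⟨s, ω⟩ := q
  obtain ⟨⟨h1, h2⟩, h3⟩ := hq
  have h3' : 0 ≤ (ω : ℂ).re := h3
  simp only at h1 h2
  obtain ⟨g1, g2, g3⟩ := sq2_R h3'
  have e : |24 * (sq2 ω).1 / 7| = 24 * |(sq2 ω).1| / 7 := by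
    rw [abs_div, abs_mul, abs_of_pos (by norm_num : (0:ℝ) < 24),
      abs_of_pos (by norm_num : (0:ℝ) < 7)]
  refine ⟨(2 - 4 * s, 24 * (sq2 ω).1 / 7), ?_, ?_, t.j1_rect h1 h2 h3'⟩
  · rw [mem_disc]
    simp only
    rw [e, abs_le]
    refine ⟨⟨by linarith, by linarith⟩, by linarith⟩
  · rw [mem_discInt]
    simp only
    rw [e, abs_lt]
    unfold rectInt
    simp only [mem_prod, mem_Ioo, mem_ofPred_eq]
    rw [← g3]
    constructor
    · rintro ⟨⟨a, b⟩, c⟩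
      exact ⟨⟨by linarith, by linarith⟩, by linarith⟩
    · rintro ⟨⟨a, b⟩, c⟩
      exact ⟨⟨by linarith, by linarith⟩, by linarith⟩

theorem to_rect {v : ℝ × ℝ} (hv : v ∈ disc) : ∃ q ∈ rect, (v ∈ discInt ↔ q ∈ rectInt) ∧
    t.j1 q = t.Nβ (ε1 false v) := by
  obtain ⟨h1, h2⟩ := mem_disc.1 hv
  obtain ⟨h3, h4⟩ := abs_le.1 h1
  obtain ⟨ω, hω, hω'⟩ := sq2_R_surj (a := 7 * v.2 / 24) (by
    rw [abs_div, abs_mul, abs_of_pos (by norm_num : (0:ℝ) < 24),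
      abs_of_pos (by norm_num : (0:ℝ) < 7)]
    linarith)
  have hq : ((2 - v.1) / 4, ω) ∈ rect := ⟨⟨by simp only; linarith, by simp only; linarith⟩, hω⟩
  have he : ((2 - 4 * ((2 - v.1) / 4), 24 * (sq2 ω).1 / 7) : ℝ × ℝ) = v := by
    rw [hω']
    refine Prod.ext ?_ ?_
    · simp only; ring
    · simp only; ring
  refine ⟨_, hq, ?_, ?_⟩
  · obtain ⟨-, -, g3⟩ := sq2_R hω
    rw [mem_discInt]
    unfold rectInt
    simp only [mem_prod, mem_Ioo, mem_ofPred_eq]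
    rw [← g3, hω']
    simp only
    rw [abs_div, abs_mul, abs_of_pos (by norm_num : (0:ℝ) < 24),
      abs_of_pos (by norm_num : (0:ℝ) < 7), abs_lt]
    constructor
    · rintro ⟨⟨a, b⟩, c⟩
      exact ⟨⟨by linarith, by linarith⟩, by linarith⟩
    · rintro ⟨⟨a, b⟩, c⟩
      exact ⟨⟨by linarith, by linarith⟩, by linarith⟩
  · rw [t.j1_rect (by linarith) (by linarith) hω, he]

theorem rect_eq1 : t.j1 '' rect = t.Nβ '' (ε1 false '' disc) := by
  ext y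
  constructor
  · rintro ⟨q, hq, rfl⟩
    obtain ⟨v, hv, -, h⟩ := t.rect_to hq
    exact ⟨_, ⟨v, hv, rfl⟩, h.symm⟩
  · rintro ⟨_, ⟨v, hv, rfl⟩, rfl⟩
    obtain ⟨q, hq, -, h⟩ := t.to_rect hv
    exact ⟨q, hq, h⟩

theorem rectInt_eq1 : t.j1 '' rectInt = t.Nβ '' (ε1 false '' discInt) := by
  ext y
  constructor
  · rintro ⟨q, hq, rfl⟩
    obtain ⟨v, hv, h', h⟩ := t.rect_to (rectInt_rect hq)
    exact ⟨_, ⟨v, h'.2 hq, rfl⟩, h.symm⟩
  · rintro ⟨_, ⟨v, hv, rfl⟩, rfl⟩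
    obtain ⟨q, hq, h', h⟩ := t.to_rect (discInt_subset hv)
    exact ⟨q, h'.1 hv, h⟩

theorem rectBd_eq1 : t.j1 '' (rect \ rectInt) = t.Nβ '' (ε1 false '' discBd) := by
  ext y
  constructor
  · rintro ⟨q, ⟨hq, hq'⟩, rfl⟩
    obtain ⟨v, hv, h', h⟩ := t.rect_to hq
    exact ⟨_, ⟨v, mem_discBd_of hv fun h'' => hq' (h'.1 h''), rfl⟩, h.symm⟩
  · rintro ⟨_, ⟨v, hv, rfl⟩, rfl⟩
    obtain ⟨q, hq, h', h⟩ := t.to_rect (discBd_subset hv)
    exact ⟨q, ⟨hq, fun h'' => not_mem_discInt hv (h'.2 h'')⟩, h⟩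

/-! ### The curves -/

theorem mem_β_zero {y : Y0} (hy : y ∈ t.P.β 0) :
    ∃ v : ℝ × ℝ, v ∈ discBd ∧ y = Bm (t.s (1, Ec (3 / 4 * v.1))) v.2 := by
  rw [t.β_zero] at hy
  obtain ⟨_, ⟨v, hv, rfl⟩, rfl⟩ := hy
  refine ⟨v, hv, ?_⟩
  unfold Q
  rw [fβ_zero]
  simp only [E2, sg_true, Ec_one]

theorem mem_α {i : Fin 2} {y : Y0} (hy : y ∈ Vα0.curve i) : y.1 = -1 := by
  have h := dataα.curve_eq i
  change Vα0.curve i = _ at h
  rw [h] at hy
  obtain ⟨_, ⟨v, hv, rfl⟩, rfl⟩ := hy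
  change (Qα (fα (i, true) v)).1 = -1
  have : (fα (i, true) v).1 = 1 := by
    rcases fin2_cases i with rfl | rfl
    · rw [fα_zero, sg_true]
    · rw [fα_one, sg_true]
  unfold Qα
  simp only
  rw [this, Ec_one]

/-- the small region -/
def _root_.Pool.Agent.H72.Tri.Ra : Set (ℝ × ℝ) := {y | |y.1| ≤ 13 / 16 ∧ |y.2| ≤ 1 / 8}
/-- its interior -/
def _root_.Pool.Agent.H72.Tri.Rao : Set (ℝ × ℝ) := {y | |y.1| < 13 / 16 ∧ |y.2| < 1 / 8}

theorem _root_.Pool.Agent.H72.Tri.isCompact_Ra : IsCompact Ra := by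
  have h1 : IsClosed Ra := by
    have a1 : IsClosed {y : ℝ × ℝ | |y.1| ≤ 13 / 16} := isClosed_le (by fun_prop) continuous_const
    have a2 : IsClosed {y : ℝ × ℝ | |y.2| ≤ 1 / 8} := isClosed_le (by fun_prop) continuous_const
    exact a1.inter a2
  refine (isCompact_closedBall (0 : ℝ × ℝ) 1).of_isClosed_subset h1 ?_
  rintro y ⟨h2, h3⟩
  rw [mem_closedBall_zero_iff, Prod.norm_def, max_le_iff, Real.norm_eq_abs, Real.norm_eq_abs]
  constructor <;> linarith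

theorem _root_.Pool.Agent.H72.Tri.isOpen_Rao : IsOpen Rao := by
  have a1 : IsOpen {y : ℝ × ℝ | |y.1| < 13 / 16} := isOpen_lt (by fun_prop) continuous_const
  have a2 : IsOpen {y : ℝ × ℝ | |y.2| < 1 / 8} := isOpen_lt (by fun_prop) continuous_const
  exact a1.inter a2

theorem _root_.Pool.Agent.H72.Tri.Rao_sub : Rao ⊆ Ra := fun _ h => ⟨h.1.le, h.2.le⟩

theorem _root_.Pool.Agent.H72.Tri.Ra_Cr : Ra ⊆ Cr := by
  rintro y ⟨h1, h2⟩
  have := abs_nonneg y.1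
  have := abs_nonneg y.2
  refine ⟨(min_le_right _ _).trans h2, ?_, ?_⟩
  · unfold dd; linarith
  · unfold dd; linarith

theorem _root_.Pool.Agent.H72.Tri.Rao_Cro : Rao ⊆ Cro := by
  rintro y ⟨h1, h2⟩
  have := abs_nonneg y.1
  have := abs_nonneg y.2
  refine ⟨(min_le_right _ _).trans_lt h2, ?_, ?_⟩
  · unfold dd; linarith
  · unfold dd; linarith

variable {t}

theorem not_α (hf : Fixes t.s) {y : ℝ × ℝ} (hy : y ∈ Ra) (i : Fin 2) :
    t.Nβ y ∉ Vα0.curve i := by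
  intro h
  have hpi := Real.pi_pos
  have h1 := mem_α h
  obtain ⟨g1, g2⟩ := hy
  obtain ⟨g3, g4⟩ := abs_le.1 g1
  obtain ⟨g5, g6⟩ := abs_le.1 g2
  have hre : 0 ≤ ((Circle.exp (Real.pi / 4 * αβ y.1) : Circle) : ℂ).re := by
    unfold αβ
    rw [re_exp]
    exact Real.cos_nonneg_of_mem_Icc ⟨by nlinarith, by nlinarith⟩
  have him : ((Ec (2 * y.2) : Circle) : ℂ).im ≤ √2 / 2 := by
    unfold Ec
    rw [Circle.coe_exp, Complex.exp_ofReal_mul_I_im]
    have e : Real.pi * (2 * y.2 + 1) = Real.pi * (2 * y.2) + Real.pi := by ring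
    rw [e, Real.sin_add_pi, ← Real.sin_neg, ← Real.sin_pi_div_four]
    exact Real.sin_le_sin_of_le_of_le_pi_div_two (by nlinarith) (by linarith) (by nlinarith)
  have h2 := hf (Circle.exp (Real.pi / 4 * αβ y.1), Ec (2 * y.2)) hre him
  have h3 : (t.Nβ y).1 = Circle.exp (Real.pi / 4 * αβ y.1) := by
    change (t.s (Circle.exp (Real.pi / 4 * αβ y.1), Ec (2 * y.2))).1 = _
    rw [h2]
  rw [h3] at h1
  rw [h1, neg_re] at hre
  simp at hre
  linarith

theorem ε1_Rao (b : Bool) {v : ℝ × ℝ} (hv : v ∈ disc) : ε1 b v ∈ Rao := by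
  obtain ⟨-, h1, -, h2⟩ := ε1_maps b hv
  exact ⟨by linarith, by linarith⟩

theorem ε1_Cr (b : Bool) {v : ℝ × ℝ} (hv : v ∈ disc) : ε1 b v ∈ Cr :=
  Cro_subset (ε1_maps b hv).1

/-- The points of the knot in the disc `D`. -/
theorem κ1_eq {x : ℝ} (hx : -Real.pi < x ∧ x ≤ Real.pi) {v : ℝ × ℝ} (hv : v ∈ disc) :
    t.κ1 (Circle.exp x) = t.Nβ (ε1 true v) ↔ v.2 = 0 ∧
      (Bκ x = Real.pi / 4 * (3 / 2 + v.1 / 4) ∨
        Bκ x + 2 * Real.pi = Real.pi / 4 * (3 / 2 + v.1 / 4)) := by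
  have hpi := Real.pi_pos
  have hx' : x ∈ Icc (-Real.pi) Real.pi := ⟨hx.1.le, hx.2⟩
  obtain ⟨-, -, -, h7⟩ := ε1_maps true hv
  obtain ⟨d1, d2⟩ := mem_disc.1 hv
  obtain ⟨d3, d4⟩ := abs_le.1 d1
  have key : v.2 = 0 → αβ (ε1 true v).1 = 3 / 2 + v.1 / 4 := by
    intro h
    unfold αβ ε1
    simp only
    rw [h, sg_true, abs_zero]
    ring
  constructor
  · intro h
    obtain ⟨h1, -⟩ := Bm_inj (by simp) (by simp) h
    obtain ⟨h2, h3⟩ := Prod.mk.inj (t.s.injective h1)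
    have h4 : (0 : ℝ) = 2 * (ε1 true v).2 := by
      refine Ec_inj' (by norm_num) ?_ ?_
      · rw [abs_mul, abs_of_pos (by norm_num : (0 : ℝ) < 2)]; linarith
      · rw [Ec_zero]; exact h3
    have h5 : v.2 = 0 := by
      unfold ε1 at h4
      simp only at h4
      linarith
    refine ⟨h5, ?_⟩
    rw [Aκ_exp hx', key h5, Circle.exp_eq_exp] at h2
    obtain ⟨m, hm⟩ := h2
    have g1 := Bκ_mono hx.1
    have g2 := Bκ_mono.monotone hx.2
    rw [Bκ_neg_pi] at g1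
    rw [Bκ_pi] at g2
    have e1 : Real.pi / 4 * (5 / 4) ≤ Real.pi / 4 * (3 / 2 + v.1 / 4) :=
      mul_le_mul_of_nonneg_left (by linarith) (by positivity)
    have e2 : Real.pi / 4 * (3 / 2 + v.1 / 4) ≤ Real.pi / 4 * (7 / 4) :=
      mul_le_mul_of_nonneg_left (by linarith) (by positivity)
    have hm1 : (m : ℝ) < 1 := by nlinarith
    have hm2 : (-2 : ℝ) < m := by nlinarith
    have hm0 : m = 0 ∨ m = -1 := by
      have h6 : m < 1 := by exact_mod_cast hm1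
      have h7 : -2 < m := by exact_mod_cast hm2
      omega
    rcases hm0 with rfl | rfl
    · left; simpa using hm
    · right; push_cast at hm; linarith
  · rintro ⟨h5, h6⟩
    unfold κ1 Nβ NN
    have e1 : Ec (2 * (ε1 true v).2) = -1 := by
      rw [← Ec_zero]
      congr 1
      unfold ε1
      simp only
      rw [h5]; ring
    rw [e1, key h5, Aκ_exp hx']
    have e2 : Circle.exp (Bκ x) = Circle.exp (Real.pi / 4 * (3 / 2 + v.1 / 4)) := by
      rcases h6 with h6 | h6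
      · rw [h6]
      · rw [← h6, Circle.exp_add, Circle.exp_two_pi, mul_one]
    rw [e2]

theorem Bκ_ge_iff {x : ℝ} : 5 * Real.pi / 16 ≤ Bκ x ↔ 2 * Real.pi / 3 ≤ x := by
  rw [← Bκ_b, Bκ_mono.le_iff_le]
theorem Bκ_gt_iff {x : ℝ} : 5 * Real.pi / 16 < Bκ x ↔ 2 * Real.pi / 3 < x := by
  rw [← Bκ_b, Bκ_mono.lt_iff_lt]
theorem Bκ_le_iff {x : ℝ} : Bκ x ≤ -(25 * Real.pi / 16) ↔ x ≤ -(2 * Real.pi / 3) := by
  rw [← Bκ_c, Bκ_mono.le_iff_le]
theorem Bκ_lt_iff {x : ℝ} : Bκ x < -(25 * Real.pi / 16) ↔ x < -(2 * Real.pi / 3) := by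
  rw [← Bκ_c, Bκ_mono.lt_iff_lt]

theorem δK (z : Circle) : t.κ1 z ∈ (fun v => t.Nβ (ε1 true v)) '' disc ↔
    (z : ℂ).re ≤ -(1 / 2) := by
  have hpi := Real.pi_pos
  obtain ⟨x, hx, rfl⟩ := exists_arg z
  have hx' : x ∈ Icc (-Real.pi) Real.pi := ⟨hx.1.le, hx.2⟩
  rw [re_exp, cos_le_iff hx', le_abs]
  have g1 := Bκ_mono.monotone hx'.1
  have g2 := Bκ_mono.monotone hx'.2
  rw [Bκ_neg_pi] at g1
  rw [Bκ_pi] at g2
  constructor
  · rintro ⟨v, hv, h⟩
    obtain ⟨-, h2⟩ := (κ1_eq hx hv).1 h.symm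
    obtain ⟨d3, d4⟩ := abs_le.1 (mem_disc.1 hv).1
    have e1 : Real.pi / 4 * (5 / 4) ≤ Real.pi / 4 * (3 / 2 + v.1 / 4) :=
      mul_le_mul_of_nonneg_left (by linarith) (by positivity)
    have e2 : Real.pi / 4 * (3 / 2 + v.1 / 4) ≤ Real.pi / 4 * (7 / 4) :=
      mul_le_mul_of_nonneg_left (by linarith) (by positivity)
    rcases h2 with h2 | h2
    · left
      rw [← Bκ_ge_iff]; linarith
    · right
      have := Bκ_le_iff (x := x)
      have h3 := this.1 (by linarith)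
      linarith
  · rintro (h | h)
    · have h1 := Bκ_ge_iff.2 h
      have hv : ((16 * Bκ x / Real.pi - 6, 0) : ℝ × ℝ) ∈ disc := by
        rw [mem_disc]
        simp only [abs_zero, zero_le_one, and_true]
        rw [abs_le]
        constructor
        · have : 5 ≤ 16 * Bκ x / Real.pi := by rw [le_div_iff₀ hpi]; linarith
          linarith
        · have : 16 * Bκ x / Real.pi ≤ 7 := by rw [div_le_iff₀ hpi]; linarith
          linarith
      refine ⟨_, hv, ((κ1_eq hx hv).2 ⟨rfl, Or.inl ?_⟩).symm⟩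
      simp only
      field_simp
      ring
    · have h1 := Bκ_le_iff.2 (by linarith : x ≤ -(2 * Real.pi / 3))
      have hv : ((16 * (Bκ x + 2 * Real.pi) / Real.pi - 6, 0) : ℝ × ℝ) ∈ disc := by
        rw [mem_disc]
        simp only [abs_zero, zero_le_one, and_true]
        rw [abs_le]
        constructor
        · have : 5 ≤ 16 * (Bκ x + 2 * Real.pi) / Real.pi := by rw [le_div_iff₀ hpi]; linarith
          linarith
        · have : 16 * (Bκ x + 2 * Real.pi) / Real.pi ≤ 7 := by rw [div_le_iff₀ hpi]; linarith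
          linarith
      refine ⟨_, hv, ((κ1_eq hx hv).2 ⟨rfl, Or.inr ?_⟩).symm⟩
      simp only
      field_simp
      ring

theorem δK' (z : Circle) : t.κ1 z ∈ (fun v => t.Nβ (ε1 true v)) '' discInt ↔
    (z : ℂ).re < -(1 / 2) := by
  have hpi := Real.pi_pos
  obtain ⟨x, hx, rfl⟩ := exists_arg z
  have hx' : x ∈ Icc (-Real.pi) Real.pi := ⟨hx.1.le, hx.2⟩
  rw [re_exp, cos_lt_iff hx', lt_abs]
  have g1 := Bκ_mono.monotone hx'.1
  have g2 := Bκ_mono.monotone hx'.2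
  rw [Bκ_neg_pi] at g1
  rw [Bκ_pi] at g2
  constructor
  · rintro ⟨v, hv, h⟩
    obtain ⟨-, h2⟩ := (κ1_eq hx (discInt_subset hv)).1 h.symm
    obtain ⟨d3, d4⟩ := abs_lt.1 (mem_discInt.1 hv).1
    have e1 : Real.pi / 4 * (5 / 4) < Real.pi / 4 * (3 / 2 + v.1 / 4) :=
      mul_lt_mul_of_pos_left (by linarith) (by positivity)
    have e2 : Real.pi / 4 * (3 / 2 + v.1 / 4) < Real.pi / 4 * (7 / 4) :=
      mul_lt_mul_of_pos_left (by linarith) (by positivity)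
    rcases h2 with h2 | h2
    · left
      rw [← Bκ_gt_iff]; linarith
    · right
      have := Bκ_lt_iff (x := x)
      have h3 := this.1 (by linarith)
      linarith
  · rintro (h | h)
    · have h1 := Bκ_gt_iff.2 h
      have hv : ((16 * Bκ x / Real.pi - 6, 0) : ℝ × ℝ) ∈ discInt := by
        rw [mem_discInt]
        simp only [abs_zero, zero_lt_one, and_true]
        rw [abs_lt]
        constructor
        · have : 5 < 16 * Bκ x / Real.pi := by rw [lt_div_iff₀ hpi]; linarith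
          linarith
        · have : 16 * Bκ x / Real.pi < 7 := by rw [div_lt_iff₀ hpi]; linarith
          linarith
      refine ⟨_, hv, ((κ1_eq hx (discInt_subset hv)).2 ⟨rfl, Or.inl ?_⟩).symm⟩
      simp only
      field_simp
      ring
    · have h1 := Bκ_lt_iff.2 (by linarith : x < -(2 * Real.pi / 3))
      have hv : ((16 * (Bκ x + 2 * Real.pi) / Real.pi - 6, 0) : ℝ × ℝ) ∈ discInt := by
        rw [mem_discInt]
        simp only [abs_zero, zero_lt_one, and_true]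
        rw [abs_lt]
        constructor
        · have : 5 < 16 * (Bκ x + 2 * Real.pi) / Real.pi := by rw [lt_div_iff₀ hpi]; linarith
          linarith
        · have : 16 * (Bκ x + 2 * Real.pi) / Real.pi < 7 := by rw [div_lt_iff₀ hpi]; linarith
          linarith
      refine ⟨_, hv, ((κ1_eq hx (discInt_subset hv)).2 ⟨rfl, Or.inr ?_⟩).symm⟩
      simp only
      field_simp
      ring

end Twist

end

end Pool.Agent.H72.Tri
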