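import Pool.Agent.H72.Tri.Ex11

/-!
# The induced decompositions of the model
-/

open Set Topology Metric

namespace Pool.Agent.H72.Tri

noncomputable section

/-- the image of an open subset of a chart is open in the surface -/
theorem isOpen_image_of {Y : Type*} [TopologicalSpace Y] [T2Space Y] {N : ℝ × ℝ → Y}
    {R Ro O : Set (ℝ × ℝ)} {S : Set Y} (hR : IsCompact R) (hc : ContinuousOn N R)
    (hi : InjOn N R) (hsub : Ro ⊆ R) (hN : ∃ U, IsOpen U ∧ N '' Ro = U ∩ S) (hO : IsOpen O)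
    (h : O ⊆ Ro) : ∃ U, IsOpen U ∧ N '' O = U ∩ S := by
  obtain ⟨U, hU, hUe⟩ := hN
  have hcl : IsClosed (N '' (R \ O)) :=
    ((hR.diff hO).image_of_continuousOn (hc.mono sdiff_subset)).isClosed
  refine ⟨U ∩ (N '' (R \ O))ᶜ, hU.inter hcl.isOpen_compl, ?_⟩
  have e : N '' O = N '' Ro ∩ (N '' (R \ O))ᶜ := by
    apply Subset.antisymm
    · rintro _ ⟨x, hx, rfl⟩
      refine ⟨⟨x, h hx, rfl⟩, ?_⟩
      rintro ⟨y, ⟨hy, hy'⟩, hxy⟩
      exact hy' ((hi hy (hsub (h hx)) hxy) ▸ hx)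
    · rintro _ ⟨⟨x, hx, rfl⟩, hx'⟩
      refine ⟨x, ?_, rfl⟩
      by_contra hcon
      exact hx' ⟨x, ⟨hsub hx, hcon⟩, rfl⟩
  rw [e, hUe, inter_right_comm]

namespace Twist

variable {t : Twist}

theorem exists_ρ (t : Twist) : ∃ ρ : Y0 → Y0,
    ContinuousOn ρ ((fun v => t.Nβ (ε1 true v)) '' discBd) ∧
    ∀ v ∈ discBd, ρ (t.Nβ (ε1 true v)) = t.Nβ (ε1 false v) := by
  have : Nonempty Y0 := ⟨t.Nβ (0, 0)⟩
  have hc : ∀ b, ContinuousOn (fun v => t.Nβ (ε1 b v)) discBd := fun b =>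
    ((NN_cont isAng_β univ).comp (continuous_ε1 b).continuousOn (mapsTo_univ _ _))
  exact descend isCompact_discBd (f := fun v => t.Nβ (ε1 true v))
    (g := fun v => t.Nβ (ε1 false v)) (hc true) (hc false) (by
      intro v hv w hw h
      have h1 := t.Nβ_inj (ε1_Cr _ (discBd_subset hv)) (ε1_Cr _ (discBd_subset hw)) h
      obtain ⟨-, rfl⟩ := ε1_inj (discBd_subset hv) (discBd_subset hw) h1
      rfl)

theorem κ1_exp {x : ℝ} (hx : x ∈ Icc (-Real.pi) Real.pi) {u : ℝ}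
    (h : Circle.exp (Bκ x) = Circle.exp (Real.pi / 4 * αβ u)) :
    t.κ1 (Circle.exp x) = t.Nβ (u, 0) := by
  unfold κ1 Nβ NN
  rw [Aκ_exp hx, h]
  simp only [mul_zero, Ec_zero]

theorem Bκ_38 : Bκ (3 * Real.pi / 8) = 3 * Real.pi / 16 := by
  have hpi := Real.pi_pos
  rw [Bκ_mid (by linarith) (by linarith)]; ring
theorem Bκ_18 : Bκ (Real.pi / 8) = Real.pi / 16 := by
  have hpi := Real.pi_pos
  rw [Bκ_mid (by linarith) (by linarith)]; ring

/-- The tube. -/
def T1 (t : Twist) (hf : Fixes t.s) : Tube t.K1 where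
  δ := fun v => t.Nβ (ε1 true v)
  ρ := t.exists_ρ.choose
  δ_cont := (NN_cont isAng_β univ).comp (continuous_ε1 true).continuousOn (mapsTo_univ _ _)
  δ_inj := by
    intro v hv w hw h
    exact (ε1_inj hv hw (t.Nβ_inj (ε1_Cr _ hv) (ε1_Cr _ hw) h)).2
  δ_mem := by
    intro v hv
    rw [t.S_eq]
    exact NN_maps (Cr_abs (ε1_Cr _ hv)).2
  δ_open := by
    rw [t.S_eq]
    have h := isOpen_image_of isCompact_Cr (NN_cont isAng_β Cr) (t.Nβ_inj) Cro_subset
      (NN_open isAng_β) (ε1_open true) (fun x hx => by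
        obtain ⟨v, hv, rfl⟩ := hx
        exact (ε1_maps _ (discInt_subset hv)).1)
    rw [image_image] at h
    exact h
  δ_K := fun z => t.δK z
  δ_K' := fun z => t.δK' z
  disj_j := by
    have hpi := Real.pi_pos
    rw [Set.disjoint_left]
    rintro _ ⟨v, hv, rfl⟩ ⟨⟨s, ω⟩, ⟨hs, -⟩, h⟩
    obtain ⟨h1, -⟩ := Bm_inj (sq2_le ω).2 (by simp) h
    have h2 := (Prod.mk.inj (t.s.injective h1)).1
    have ha := ang_mem (θ := th ω) hs
    obtain ⟨m, hm⟩ := exp_eq_of h2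
    obtain ⟨-, g1, g2, -⟩ := ε1_maps true hv
    have g3 := (ε1_props (b := true) hv).1
    rw [sg_true, one_mul] at g3
    rw [abs_of_pos g3] at g1 g2
    unfold αβ at hm
    have hm1 : (m : ℝ) < 1 := by linarith [ha.2]
    have hm2 : (-1 : ℝ) < m := by linarith [ha.1]
    have hm0 : m = 0 := by
      have h6 : m < 1 := by exact_mod_cast hm1
      have h7 : -1 < m := by exact_mod_cast hm2
      omega
    rw [hm0] at hm
    push_cast at hm
    linarith [ha.2]
  disj_β := by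
    rw [Set.disjoint_left]
    rintro _ ⟨v, hv, rfl⟩ hz
    obtain ⟨w, h1, h2, h3⟩ := t.mem_β_one hz
    obtain ⟨h4, -⟩ := Bm_inj (by simp) h2 h3
    have h5 := (Prod.mk.inj (t.s.injective h4)).2
    obtain ⟨-, -, -, g⟩ := ε1_maps true hv
    rw [← Ec_one] at h5
    have g' : |2 * (ε1 true v).2| ≤ 7 / 32 := by
      rw [abs_mul, abs_of_pos (by norm_num : (0 : ℝ) < 2)]; linarith
    have := Ec_inj' (by linarith) (by simp) h5
    rw [this] at g'
    norm_num at g'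
  disj_α := by
    intro i
    rw [Set.disjoint_left]
    rintro _ ⟨v, hv, rfl⟩ h
    exact not_α hf (Rao_sub (ε1_Rao _ hv)) i h
  disj_α' := by
    intro i
    rw [Set.disjoint_left]
    intro y hy h
    change y ∈ t.j1 '' rect at hy
    rw [t.rect_eq1] at hy
    obtain ⟨_, ⟨v, hv, rfl⟩, rfl⟩ := hy
    exact not_α hf (Rao_sub (ε1_Rao _ hv)) i h
  ρ_cont := t.exists_ρ.choose_spec.1
  ρ_bij := by
    have hρ := t.exists_ρ.choose_spec.2
    change BijOn _ _ (t.j1 '' (rect \ rectInt))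
    rw [t.rectBd_eq1]
    refine ⟨?_, ?_, ?_⟩
    · rintro _ ⟨v, hv, rfl⟩
      exact ⟨_, ⟨v, hv, rfl⟩, (hρ v hv).symm⟩
    · rintro _ ⟨v, hv, rfl⟩ _ ⟨w, hw, rfl⟩ h
      simp only at h
      rw [hρ v hv, hρ w hw] at h
      have h1 := t.Nβ_inj (ε1_Cr _ (discBd_subset hv)) (ε1_Cr _ (discBd_subset hw)) h
      obtain ⟨-, rfl⟩ := ε1_inj (discBd_subset hv) (discBd_subset hw) h1
      rfl
    · rintro _ ⟨_, ⟨v, hv, rfl⟩, rfl⟩
      exact ⟨_, ⟨v, hv, rfl⟩, hρ v hv⟩
  ρ_b := by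
    have hpi := Real.pi_pos
    have hρ := t.exists_ρ.choose_spec.2
    have hv : ((-1, 0) : ℝ × ℝ) ∈ discBd := by rw [mem_discBd]; simp
    have e1 : ε1 true (-1, 0) = (1 / 4, 0) := by
      unfold ε1; rw [sg_true]; refine Prod.ext ?_ ?_ <;> simp <;> norm_num
    have e2 : ε1 false (-1, 0) = (-(1 / 4), 0) := by
      unfold ε1; rw [sg_false]; refine Prod.ext ?_ ?_ <;> simp <;> norm_num
    have h := hρ (-1, 0) hv
    rw [e1, e2] at h
    have k1 : t.κ1 (Circle.exp (2 * Real.pi / 3)) = t.Nβ (1 / 4, 0) := by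
      refine κ1_exp ⟨by linarith, by linarith⟩ ?_
      rw [Bκ_b]; unfold αβ; congr 1; ring
    have k2 : t.κ1 (Circle.exp (3 * Real.pi / 8)) = t.Nβ (-(1 / 4), 0) := by
      refine κ1_exp ⟨by linarith, by linarith⟩ ?_
      rw [Bκ_38]; unfold αβ; congr 1; ring
    change _ = t.κ1 (Circle.exp (3 * Real.pi / 8))
    rw [k2]
    change t.exists_ρ.choose (t.κ1 (Circle.exp (2 * Real.pi / 3))) = _
    rw [k1]
    exact h
  ρ_c := by
    have hpi := Real.pi_pos
    have hρ := t.exists_ρ.choose_spec.2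
    have hv : ((1, 0) : ℝ × ℝ) ∈ discBd := by rw [mem_discBd]; simp
    have e1 : ε1 true (1, 0) = (3 / 4, 0) := by
      unfold ε1; rw [sg_true]; refine Prod.ext ?_ ?_ <;> simp <;> norm_num
    have e2 : ε1 false (1, 0) = (-(3 / 4), 0) := by
      unfold ε1; rw [sg_false]; refine Prod.ext ?_ ?_ <;> simp <;> norm_num
    have h := hρ (1, 0) hv
    rw [e1, e2] at h
    have k1 : t.κ1 (Circle.exp (-(2 * Real.pi / 3))) = t.Nβ (3 / 4, 0) := by
      refine κ1_exp ⟨by linarith, by linarith⟩ ?_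
      rw [Bκ_c]
      unfold αβ
      rw [Circle.exp_eq_exp]
      exact ⟨-1, by push_cast; ring⟩
    have k2 : t.κ1 (Circle.exp (Real.pi / 8)) = t.Nβ (-(3 / 4), 0) := by
      refine κ1_exp ⟨by linarith, by linarith⟩ ?_
      rw [Bκ_18]; unfold αβ; congr 1; ring
    change _ = t.κ1 (Circle.exp (Real.pi / 8))
    rw [k2]
    change t.exists_ρ.choose (t.κ1 (Circle.exp (-(2 * Real.pi / 3)))) = _
    rw [k1]
    exact h

/-- The pushed twist. -/
def tγ (t : Twist) : Twist where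
  s := (Homeomorph.prodCongr aC (Homeomorph.refl Circle)).trans t.s
  win_iff p := by
    change win (t.s (aC p.1, p.2)) ↔ _
    rw [t.win_iff]
    exact and_congr (aC_re_nonneg p.1) Iff.rfl
  out_iff p := by
    change out (t.s (aC p.1, p.2)) ↔ _
    rw [t.out_iff]
    exact or_congr (aC_re_nonpos p.1) Iff.rfl

theorem tγ_s (t : Twist) (p : Circle × Circle) : t.tγ.s p = t.s (aC p.1, p.2) := rfl

theorem ρ_spec (t : Twist) (hf : Fixes t.s) {v : ℝ × ℝ} (hv : v ∈ discBd) :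
    (t.T1 hf).ρ (t.Nβ (ε1 true v)) = t.Nβ (ε1 false v) := t.exists_ρ.choose_spec.2 v hv

theorem δ_image (t : Twist) (hf : Fixes t.s) (A : Set (ℝ × ℝ)) :
    (t.T1 hf).δ '' A = t.Nβ '' (ε1 true '' A) := by
  rw [image_image]
  rfl

theorem chart_α (hf : Fixes t.s) : Chart (t.T1 hf) Vα0 Ra Rao t.Nβ where
  cont := NN_cont isAng_β _
  inj := t.Nβ_inj.mono Ra_Cr
  maps := fun y hy => by rw [bd_Vα0]; exact NN_maps (Cr_abs (Ra_Cr hy)).2
  opn := by
    rw [bd_Vα0]
    exact isOpen_image_of isCompact_Cr (NN_cont isAng_β Cr) (t.Nβ_inj) Cro_subset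
      (NN_open isAng_β) isOpen_Rao Rao_Cro
  disj := by
    intro i
    rw [Set.disjoint_left]
    rintro _ ⟨y, hy, rfl⟩ h
    exact not_α hf hy i h
  bd := by rw [bd_Vα0, t.S_eq]
  hsub := Rao_sub
  ε_maps := fun b v hv => ε1_Rao b hv
  D := t.δ_image hf _
  Di := t.δ_image hf _
  D' := t.rect_eq1
  Di' := t.rectInt_eq1
  ρ := fun v hv => t.ρ_spec hf hv

theorem chart_β (hf : Fixes t.s) : Chart (t.T1 hf) t.V Cr Cro t.Nβ where
  cont := NN_cont isAng_β _
  inj := t.Nβ_inj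
  maps := fun y hy => by rw [t.bd_V]; exact NN_maps (Cr_abs hy).2
  opn := by
    rw [t.bd_V]
    exact NN_open isAng_β
  disj := by
    intro i
    have hpi := Real.pi_pos
    rw [Set.disjoint_left]
    rintro _ ⟨y, hy, rfl⟩ h
    obtain ⟨a1, a2⟩ := Cr_abs hy
    obtain ⟨a3, a4⟩ := abs_le.1 a1
    rcases fin2_cases i with rfl | rfl
    · obtain ⟨w, hw, h3⟩ := t.mem_β_zero h
      obtain ⟨h4, -⟩ := Bm_inj (by simp) (mem_disc.1 (discBd_subset hw)).2 h3
      have h5 := (Prod.mk.inj (t.s.injective h4)).1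
      have h6 : (1 : Circle) = Circle.exp (Real.pi / 4 * 0) := by
        rw [mul_zero, Circle.exp_zero]
      rw [h6] at h5
      obtain ⟨m, hm⟩ := exp_eq_of h5
      unfold αβ at hm
      have hm1 : (m : ℝ) < 1 := by linarith
      have hm2 : (0 : ℝ) < m := by linarith
      have h8 : m < 1 := by exact_mod_cast hm1
      have h9 : 0 < m := by exact_mod_cast hm2
      omega
    · obtain ⟨w, h1, h2, h3⟩ := t.mem_β_one h
      obtain ⟨h4, -⟩ := Bm_inj (by simp) h2 h3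
      have h5 := (Prod.mk.inj (t.s.injective h4)).2
      rw [← Ec_one] at h5
      have g' : |2 * y.2| ≤ 5 / 8 := by
        rw [abs_mul, abs_of_pos (by norm_num : (0 : ℝ) < 2)]; linarith
      have := Ec_inj' (by linarith) (by simp) h5
      rw [this] at g'
      norm_num at g'
  bd := by rw [t.bd_V, t.S_eq]
  hsub := Cro_subset
  ε_maps := fun b v hv => (ε1_maps b hv).1
  D := t.δ_image hf _
  Di := t.δ_image hf _
  D' := t.rect_eq1
  Di' := t.rectInt_eq1
  ρ := fun v hv => t.ρ_spec hf hv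

theorem chart_γ (hf : Fixes t.s) : Chart (t.T1 hf) t.tγ.V Cr Cro (NN t αγ) where
  cont := NN_cont isAng_γ _
  inj := NN_inj isAng_γ
  maps := fun y hy => by rw [t.tγ.bd_V]; exact NN_maps (Cr_abs hy).2
  opn := by
    rw [t.tγ.bd_V]
    exact NN_open isAng_γ
  disj := by
    intro i
    have hpi := Real.pi_pos
    rw [Set.disjoint_left]
    rintro _ ⟨y, hy, rfl⟩ h
    obtain ⟨a1, a2⟩ := Cr_abs hy
    obtain ⟨a3, a4⟩ := abs_le.1 a1
    rcases fin2_cases i with rfl | rfl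
    · obtain ⟨w, hw, h3⟩ := t.tγ.mem_β_zero h
      obtain ⟨h4, -⟩ := Bm_inj (by simp) (mem_disc.1 (discBd_subset hw)).2 h3
      rw [tγ_s] at h4
      have h5 := (Prod.mk.inj (t.s.injective h4)).1
      simp only at h5
      rw [aC_one] at h5
      have h6 : Circle.exp (Real.pi / 4 * αγ (-1)) = Circle.exp (Real.pi / 4 * αγ y.1) := by
        rw [αγ_neg (by norm_num), neg_neg, mul_one]; exact h5.symm
      have := isAng_γ.inj (-1) ⟨le_rfl, by norm_num⟩ y.1 ⟨by linarith, by linarith⟩ h6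
      linarith
    · obtain ⟨w, h1, h2, h3⟩ := t.tγ.mem_β_one h
      obtain ⟨h4, -⟩ := Bm_inj (by simp) h2 h3
      rw [tγ_s] at h4
      have h5 := (Prod.mk.inj (t.s.injective h4)).2
      simp only at h5
      rw [← Ec_one] at h5
      have g' : |2 * y.2| ≤ 5 / 8 := by
        rw [abs_mul, abs_of_pos (by norm_num : (0 : ℝ) < 2)]; linarith
      have := Ec_inj' (by linarith) (by simp) h5
      rw [this] at g'
      norm_num at g'
  bd := by rw [t.tγ.bd_V, t.S_eq]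
  hsub := Cro_subset
  ε_maps := fun b v hv => (ε1_maps b hv).1
  D := by
    rw [NN_image t true Subset.rfl (fun v => rf_disc)]
    exact t.δ_image hf _
  Di := by
    rw [NN_image t true discInt_subset (fun v => rf_discInt)]
    exact t.δ_image hf _
  D' := by
    rw [NN_image t false Subset.rfl (fun v => rf_disc)]
    exact t.rect_eq1
  Di' := by
    rw [NN_image t false discInt_subset (fun v => rf_discInt)]
    exact t.rectInt_eq1
  ρ := fun v hv => by
    rw [NN_eq t true (discBd_subset hv), NN_eq t false (discBd_subset hv)]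
    exact t.ρ_spec hf (rf_discBd.2 hv)

/-! ### The arcs and the curves -/

theorem arcB_eq (t : Twist) : t.Nβ '' {y | |y.1| ≤ 1 / 4 ∧ y.2 = 0} = t.K1.arcB := by
  have hpi := Real.pi_pos
  ext y
  constructor
  · rintro ⟨⟨u, w⟩, ⟨h1, h2⟩, rfl⟩
    simp only at h1 h2
    subst h2
    obtain ⟨h3, h4⟩ := abs_le.1 h1
    have hI := intermediate_value_Icc (by linarith : 3 * Real.pi / 8 ≤ 2 * Real.pi / 3)
      (isLift_Bκ.cont.continuousOn)
    rw [Bκ_38, Bκ_b] at hI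
    obtain ⟨x, hx, hxe⟩ := hI (show Real.pi / 4 * αβ u ∈ Icc (3 * Real.pi / 16) (5 * Real.pi / 16)
      from ⟨by unfold αβ; nlinarith, by unfold αβ; nlinarith⟩)
    refine ⟨x, hx, ?_⟩
    exact κ1_exp ⟨by linarith [hx.1], by linarith [hx.2]⟩ (by rw [hxe])
  · rintro ⟨x, hx, rfl⟩
    have g1 := Bκ_mono.monotone hx.1
    have g2 := Bκ_mono.monotone hx.2
    rw [Bκ_38] at g1
    rw [Bκ_b] at g2
    refine ⟨(4 * Bκ x / Real.pi - 1, 0), ⟨?_, rfl⟩, ?_⟩
    · simp only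
      rw [abs_le]
      constructor
      · have : 3 / 4 ≤ 4 * Bκ x / Real.pi := by rw [le_div_iff₀ hpi]; linarith
        linarith
      · have : 4 * Bκ x / Real.pi ≤ 5 / 4 := by rw [div_le_iff₀ hpi]; linarith
        linarith
    · symm
      refine κ1_exp ⟨by linarith [hx.1], by linarith [hx.2]⟩ ?_
      unfold αβ
      congr 1
      field_simp
      ring

theorem arcC_eq (t : Twist) : NN t αγ '' {y | |y.1| ≤ 1 / 4 ∧ y.2 = 0} = t.K1.arcC := by
  have hpi := Real.pi_pos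
  have key : ∀ x u : ℝ, x ∈ Icc (-Real.pi) Real.pi → Bκ x = Real.pi / 4 * αγ u →
      t.κ1 (Circle.exp x) = NN t αγ (u, 0) := by
    intro x u hx h
    unfold κ1 NN
    rw [Aκ_exp hx, h]
    simp only [mul_zero, Ec_zero]
  have e1 : αγ (-(1 / 4)) = 1 / 4 := by rw [αγ_neg (by norm_num)]; norm_num
  have e2 : αγ (1 / 4) = -(25 / 4) := by rw [αγ_pos le_rfl]; norm_num
  ext y
  constructor
  · rintro ⟨⟨u, w⟩, ⟨h1, h2⟩, rfl⟩
    simp only at h1 h2
    subst h2
    obtain ⟨h3, h4⟩ := abs_le.1 h1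
    have g1 := αγ_anti.antitone h3
    have g2 := αγ_anti.antitone h4
    rw [e1] at g1
    rw [e2] at g2
    have hI := intermediate_value_Icc (by linarith : -(2 * Real.pi / 3) ≤ Real.pi / 8)
      (isLift_Bκ.cont.continuousOn)
    rw [Bκ_18, Bκ_c] at hI
    obtain ⟨x, hx, hxe⟩ := hI (show Real.pi / 4 * αγ u ∈ Icc (-(25 * Real.pi / 16)) (Real.pi / 16)
      from ⟨by nlinarith, by nlinarith⟩)
    refine ⟨x, hx, ?_⟩
    exact key x u ⟨by linarith [hx.1], by linarith [hx.2]⟩ hxe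
  · rintro ⟨x, hx, rfl⟩
    have g1 := Bκ_mono.monotone hx.1
    have g2 := Bκ_mono.monotone hx.2
    rw [Bκ_c] at g1
    rw [Bκ_18] at g2
    have hc : Continuous αγ := isAng_γ.cont
    have hI := intermediate_value_Icc' (by norm_num : (-(1 / 4) : ℝ) ≤ 1 / 4) hc.continuousOn
    rw [e1, e2] at hI
    obtain ⟨u, hu, hue⟩ := hI (show 4 * Bκ x / Real.pi ∈ Icc (-(25 / 4) : ℝ) (1 / 4) from
      ⟨by rw [le_div_iff₀ hpi]; linarith, by rw [div_le_iff₀ hpi]; linarith⟩)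
    refine ⟨(u, 0), ⟨abs_le.2 hu, rfl⟩, ?_⟩
    symm
    refine key x u ⟨by linarith [hx.1], by linarith [hx.2]⟩ ?_
    rw [hue]
    field_simp

theorem γ₁_eq (t : Twist) : t.tγ.V.curve 0 = t.K1.γ₁ := by
  have h0 : t.tγ.V.curve 0 = t.tγ.Q '' (fβ (0, true) '' discBd) := t.tγ.data.curve_eq 0
  rw [h0]
  ext y
  constructor
  · rintro ⟨_, ⟨v, hv, rfl⟩, rfl⟩
    obtain ⟨ω, hω⟩ := sq2_surj hv
    refine ⟨(1, ω), ⟨rfl, mem_univ _⟩, ?_⟩
    change t.j1 (1, ω) = _
    rw [t.j1_one (Or.inr le_rfl)]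
    unfold Q th
    rw [fβ_zero, tγ_s]
    simp only [E2, sg_true, Ec_one, mul_one, aC_one]
    rw [hω]
  · rintro ⟨⟨s, ω⟩, ⟨hs, -⟩, rfl⟩
    have hs' : s = 1 := hs
    subst hs'
    refine ⟨_, ⟨sq2 ω, sq2_mem ω, rfl⟩, ?_⟩
    change _ = t.j1 (1, ω)
    rw [t.j1_one (Or.inr le_rfl)]
    unfold Q th
    rw [fβ_zero, tγ_s]
    simp only [E2, sg_true, Ec_one, mul_one, aC_one]

theorem β₂_eq (t : Twist) : t.tγ.V.curve 1 = t.P.β 1 := by
  have h0 : t.tγ.V.curve 1 = t.tγ.Q '' (fβ (1, true) '' discBd) := t.tγ.data.curve_eq 1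
  rw [h0, t.β_one, image_image, image_image]
  refine image_congr fun v hv => ?_
  have hv' := (mem_disc.1 (discBd_subset hv)).1
  unfold Q
  rw [fβ_one, tγ_s]
  simp only [E2]
  rw [aC_of_nonpos]
  rw [re_Ec_nonpos]
  · rw [abs_div, abs_of_pos (by norm_num : (0 : ℝ) < 2)]; linarith
  · rw [abs_div, abs_of_pos (by norm_num : (0 : ℝ) < 2)]; linarith

/-- **The model placement induces decompositions, for every framing.** -/
theorem hasInd_K1 (hf : Fixes t.s) (k : ℤ) : HasInd (t.K1.tw k) := by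
  obtain ⟨F, _, _, p, hc, hs, hp⟩ := (t.T1 hf).exists_surface
  obtain ⟨A, hA, hA2⟩ := (chart_α hf).pres_surgery isCompact_Ra isOpen_Rao hc hs hp
  obtain ⟨B, hB, hB2⟩ := (chart_β hf).pres_swap hc hs hp
  obtain ⟨C, hC, hC2⟩ := (chart_γ hf).pres_swap hc hs hp
  rw [arcB_eq] at hB2
  rw [arcC_eq] at hC2
  have I : Ind t.K1 (t.T1 hf) F p :=
    { p_cont := hc
      p_surj := hs
      p_eq := hp
      A := A
      B := B
      C := C
      A0 := hA 0
      A1 := hA 1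
      A2 := hA2
      B0 := hB 0
      B1 := hB 1
      B2 := hB2
      C0 := by
        have := hC 0
        rw [γ₁_eq] at this
        exact this
      C1 := by
        have := hC 1
        rw [β₂_eq] at this
        exact this
      C2 := hC2 }
  exact I.tw k

end Twist

end

end Pool.Agent.H72.Tri
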