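import Pool.Agent.H72.Tri.Ex1

/-!
# Local modification of a planar presentation
-/

open Set Topology Metric

namespace Pool.Agent.H72.Tri

section

variable {Y : Type*} [TopologicalSpace Y] {g : ℕ} (V : Handlebody Y g)

theorem hb_isClosed_planar : IsClosed V.planar := by
  choose U hU hUe using V.open_e
  have : V.planar = sph2 ∩ ⋂ a, (U a)ᶜ := by
    ext x
    simp only [Handlebody.planar, mem_sdiff, mem_iUnion, not_exists, mem_inter_iff, mem_iInter,
      mem_compl_iff]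
    refine and_congr_right fun hx => forall_congr' fun a => not_congr ?_
    rw [hUe]
    exact ⟨fun h => h.1, fun h => ⟨h, hx⟩⟩
  rw [this]
  exact isCompact_sph2.isClosed.inter (isClosed_iInter fun a => (hU a).isClosed_compl)

theorem hb_planar_subset : V.planar ⊆ ball3 := sdiff_subset.trans sph2_subset

theorem hb_isCompact_planar : IsCompact V.planar :=
  isCompact_ball3.of_isClosed_subset (hb_isClosed_planar V) (hb_planar_subset V)

theorem hb_e_mem_planar {a : Fin g × Bool} {v : ℝ × ℝ} (hv : v ∈ disc) :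
    V.e a v ∈ V.planar ↔ v ∈ discBd := by
  constructor
  · rintro ⟨_, h⟩
    refine mem_discBd_of hv fun h' => h ?_
    exact mem_iUnion.2 ⟨a, v, h', rfl⟩
  · intro h
    refine ⟨V.maps_e a hv, ?_⟩
    rw [mem_iUnion]
    rintro ⟨b, w, hw, he⟩
    obtain ⟨-, rfl⟩ := V.inj_e _ _ _ _ (discInt_subset hw) hv he
    exact not_mem_discInt h hw

theorem hb_pair {i : Fin g} {b : Bool} {v : ℝ × ℝ} (hv : v ∈ disc) :
    V.q (V.e (i, b) v) = V.q (V.e (i, !b) v) :=
  (V.q_eq _ (sph2_subset (V.maps_e _ hv)) _ (sph2_subset (V.maps_e _ hv))).2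
    (Or.inr ⟨i, b, v, hv, rfl, rfl⟩)

theorem hb_curve {i : Fin g} {b : Bool} {v : ℝ × ℝ} (hv : v ∈ discBd) :
    V.q (V.e (i, b) v) ∈ V.curve i := by
  cases b
  · rw [hb_pair V (discBd_subset hv)]
    exact ⟨_, ⟨v, hv, rfl⟩, rfl⟩
  · exact ⟨_, ⟨v, hv, rfl⟩, rfl⟩

end

/-- The data for the local modification: `N` is a chart of the surface `∂V`, disjoint from the
curves; outside of the interior `N '' Ro` of the chart the surface `F` is identified with `∂V` by
`p`; inside it is the quotient `G` of the region `R` minus two discs `ε b`, glued to each other. -/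
structure LocalData {Y F : Type*} [TopologicalSpace Y] [TopologicalSpace F] (V : Handlebody Y 2)
    (p : Y → F) where
  R : Set (ℝ × ℝ)
  Ro : Set (ℝ × ℝ)
  N : ℝ × ℝ → Y
  ε : Bool → ℝ × ℝ → ℝ × ℝ
  G : ℝ × ℝ → F
  hR : IsCompact R
  hRo : IsOpen Ro
  hsub : Ro ⊆ R
  N_cont : ContinuousOn N R
  N_inj : InjOn N R
  N_maps : MapsTo N R V.bd
  N_open : ∃ U, IsOpen U ∧ N '' Ro = U ∩ V.bd
  N_disj : ∀ i, Disjoint (N '' R) (V.curve i)
  p_cont : ContinuousOn p (V.bd \ N '' Ro)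
  p_inj : InjOn p (V.bd \ N '' Ro)
  ε_cont : ∀ b, ContinuousOn (ε b) disc
  ε_inj : ∀ b c v w, v ∈ disc → w ∈ disc → ε b v = ε c w → b = c ∧ v = w
  ε_maps : ∀ b, MapsTo (ε b) disc Ro
  ε_open : ∀ b, IsOpen (ε b '' discInt)
  G_cont : ContinuousOn G (R \ ⋃ b, ε b '' discInt)
  G_bd : ∀ x ∈ R \ Ro, G x = p (N x)
  G_eq : ∀ x ∈ R \ ⋃ b, ε b '' discInt, ∀ y ∈ R \ ⋃ b, ε b '' discInt,
    (G x = G y ↔ x = y ∨ ∃ b v, v ∈ discBd ∧ x = ε b v ∧ y = ε (!b) v)
  G_out : ∀ x ∈ R \ ⋃ b, ε b '' discInt, ∀ y ∈ V.bd \ N '' Ro, G x = p y → y = N x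
  surj : p '' (V.bd \ N '' Ro) ∪ G '' (R \ ⋃ b, ε b '' discInt) = univ

namespace LocalData

variable {Y F : Type*} [TopologicalSpace Y] [TopologicalSpace F] {V : Handlebody Y 2}
  {p : Y → F} (L : LocalData V p)

/-- the region minus the open discs -/
def Rm : Set (ℝ × ℝ) := L.R \ ⋃ b, L.ε b '' discInt

theorem ε_mem_Rm {b : Bool} {v : ℝ × ℝ} (hv : v ∈ disc) : L.ε b v ∈ L.Rm ↔ v ∈ discBd := by
  constructor
  · rintro ⟨_, h⟩
    refine mem_discBd_of hv fun h' => h ?_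
    exact mem_iUnion.2 ⟨b, v, h', rfl⟩
  · intro h
    refine ⟨L.hsub (L.ε_maps b hv), ?_⟩
    rw [mem_iUnion]
    rintro ⟨b, w, hw, he⟩
    obtain ⟨-, rfl⟩ := L.ε_inj _ _ _ _ (discInt_subset hw) hv he
    exact not_mem_discInt h hw

variable [T2Space Y]

/-- The chart lifts to the planar surface. -/
theorem exists_lift : ∃ M : ℝ × ℝ → ℝ × ℝ × ℝ, ContinuousOn M L.R ∧
    (∀ x ∈ L.R, M x ∈ V.planar ∧ V.q (M x) = L.N x) ∧
    ∀ z ∈ V.planar, ∀ x ∈ L.R, V.q z = L.N x → z = M x := by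
  have hNR : IsCompact (L.N '' L.R) := L.hR.image_of_continuousOn L.N_cont
  have hq : ContinuousOn V.q V.planar := V.cont_q.mono (hb_planar_subset V)
  have hK : IsCompact (V.planar ∩ V.q ⁻¹' (L.N '' L.R)) := by
    refine (hb_isCompact_planar V).of_isClosed_subset ?_ inter_subset_left
    exact hq.preimage_isClosed_of_isClosed (hb_isClosed_planar V) hNR.isClosed
  have hinj : InjOn V.q (V.planar ∩ V.q ⁻¹' (L.N '' L.R)) := by
    rintro x ⟨hx, hx'⟩ y ⟨hy, hy'⟩ hxy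
    rcases (V.q_eq x (hb_planar_subset V hx) y (hb_planar_subset V hy)).1 hxy with
      h | ⟨i, b, v, hv, rfl, rfl⟩
    · exact h
    · exfalso
      exact Set.disjoint_left.1 (L.N_disj i) hx' (hb_curve V ((hb_e_mem_planar V hv).1 hx))
  obtain ⟨σ, σc, σe⟩ := descend hK (f := V.q) (g := id) (hq.mono inter_subset_left)
    continuousOn_id (fun x hx y hy h => hinj hx hy h)
  have him : V.q '' (V.planar ∩ V.q ⁻¹' (L.N '' L.R)) = L.N '' L.R := by
    apply Subset.antisymm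
    · rintro _ ⟨x, hx, rfl⟩
      exact hx.2
    · rintro _ ⟨x, hx, rfl⟩
      obtain ⟨z, hz, hzx⟩ := L.N_maps hx
      exact ⟨z, ⟨hz, by rw [mem_preimage, hzx]; exact ⟨x, hx, rfl⟩⟩, hzx⟩
  rw [him] at σc
  refine ⟨fun x => σ (L.N x), σc.comp L.N_cont (mapsTo_image _ _), ?_, ?_⟩
  · intro x hx
    obtain ⟨z, hz, hzx⟩ := L.N_maps hx
    have hzK : z ∈ V.planar ∩ V.q ⁻¹' (L.N '' L.R) :=
      ⟨hz, by rw [mem_preimage, hzx]; exact ⟨x, hx, rfl⟩⟩
    have := σe z hzK
    rw [hzx] at this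
    simp only
    rw [this]
    exact ⟨hz, hzx⟩
  · intro z hz x hx hzx
    have hzK : z ∈ V.planar ∩ V.q ⁻¹' (L.N '' L.R) :=
      ⟨hz, by rw [mem_preimage, hzx]; exact ⟨x, hx, rfl⟩⟩
    have := σe z hzK
    rw [hzx] at this
    exact this.symm

/-- The inverse of the chart. -/
theorem exists_inv : ∃ n : Y → ℝ × ℝ, ContinuousOn n (L.N '' L.R) ∧ ∀ x ∈ L.R, n (L.N x) = x := by
  obtain ⟨σ, σc, σe⟩ := descend L.hR (f := L.N) (g := id) L.N_cont
    continuousOn_id (fun x hx y hy h => L.N_inj hx hy h)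
  exact ⟨σ, σc, σe⟩

theorem isClosed_out : IsClosed (V.bd \ L.N '' L.Ro) := by
  obtain ⟨U, hU, hUe⟩ := L.N_open
  have hq : ContinuousOn V.q V.planar := V.cont_q.mono (hb_planar_subset V)
  have : V.bd \ L.N '' L.Ro = V.bd ∩ Uᶜ := by
    rw [hUe]
    ext y
    simp only [mem_sdiff, mem_inter_iff, mem_compl_iff]
    tauto
  rw [this]
  exact ((hb_isCompact_planar V).image_of_continuousOn hq).isClosed.inter hU.isClosed_compl

/-- the image of an open subset of the chart is open in the surface -/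
theorem isOpen_image {O : Set (ℝ × ℝ)} (hO : IsOpen O) (h : O ⊆ L.Ro) :
    ∃ U, IsOpen U ∧ L.N '' O = U ∩ V.bd := by
  obtain ⟨U, hU, hUe⟩ := L.N_open
  have hc : IsClosed (L.N '' (L.R \ O)) :=
    ((L.hR.diff hO).image_of_continuousOn (L.N_cont.mono sdiff_subset)).isClosed
  refine ⟨U ∩ (L.N '' (L.R \ O))ᶜ, hU.inter hc.isOpen_compl, ?_⟩
  have e : L.N '' O = L.N '' L.Ro ∩ (L.N '' (L.R \ O))ᶜ := by
    apply Subset.antisymm
    · rintro _ ⟨x, hx, rfl⟩
      refine ⟨⟨x, h hx, rfl⟩, ?_⟩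
      rintro ⟨y, ⟨hy, hy'⟩, hxy⟩
      exact hy' ((L.N_inj hy (L.hsub (h hx)) hxy) ▸ hx)
    · rintro _ ⟨⟨x, hx, rfl⟩, hx'⟩
      refine ⟨x, ?_, rfl⟩
      by_contra hcon
      exact hx' ⟨x, ⟨L.hsub hx, hcon⟩, rfl⟩
  rw [e, hUe, inter_right_comm]

open Classical in
/-- **The local modification lemma.** -/
theorem exists_pres : ∃ P : Pres F 3,
    (∀ i : Fin 2, P.r '' (P.e (i.castSucc, true) '' discBd) = p '' V.curve i) ∧
    P.r '' (P.e (2, true) '' discBd) = L.G '' (L.ε true '' discBd) := by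
  obtain ⟨M, Mc, Mm, Mu⟩ := L.exists_lift
  obtain ⟨n, nc, nn⟩ := L.exists_inv
  have hq : ContinuousOn V.q V.planar := V.cont_q.mono (hb_planar_subset V)
  have Mi : InjOn M L.R := by
    intro x hx y hy h
    apply L.N_inj hx hy
    rw [← (Mm x hx).2, ← (Mm y hy).2, h]
  have Mne : ∀ x ∈ L.R, ∀ a, ∀ v ∈ disc, M x ≠ V.e a v := by
    intro x hx a v hv h
    have h1 := (Mm x hx).1
    rw [h, hb_e_mem_planar V hv] at h1
    have h2 := (Mm x hx).2
    rw [h] at h2
    refine Set.disjoint_left.1 (L.N_disj a.1) ⟨x, hx, rfl⟩ ?_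
    rw [← h2]
    exact hb_curve V h1
  have εR : ∀ b, ∀ v ∈ disc, L.ε b v ∈ L.R := fun b v hv => L.hsub (L.ε_maps b hv)
  -- the discs
  let e : Fin 3 × Bool → ℝ × ℝ → ℝ × ℝ × ℝ := fun a =>
    Fin.lastCases (motive := fun _ => ℝ × ℝ → ℝ × ℝ × ℝ) (fun v => M (L.ε a.2 v))
      (fun i => V.e (i, a.2)) a.1
  have e2 : ∀ b, e (2, b) = fun v => M (L.ε b v) := fun b => rfl
  have e1 : ∀ (i : Fin 2) b, e (i.castSucc, b) = V.e (i, b) := fun i b => by
    simp only [e, Fin.lastCases_castSucc]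
  have hcases : ∀ i : Fin 3, i = 2 ∨ ∃ j : Fin 2, i = j.castSucc := by
    intro i
    fin_cases i
    · right; exact ⟨0, rfl⟩
    · right; exact ⟨1, rfl⟩
    · left; rfl
  -- openness of the new discs
  have hopen : ∀ b, ∃ U : Set (ℝ × ℝ × ℝ), IsOpen U ∧ (fun v => M (L.ε b v)) '' discInt = U ∩ sph2 := by
    intro b
    have hO := L.ε_open b
    have hsubO : L.ε b '' discInt ⊆ L.Ro := by
      rintro _ ⟨v, hv, rfl⟩
      exact L.ε_maps b (discInt_subset hv)
    obtain ⟨U, hU, hUe⟩ := L.isOpen_image hO hsubO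
    -- the complement is closed
    have hC : IsClosed ((V.planar ∩ V.q ⁻¹' Uᶜ) ∪ ⋃ a, V.e a '' disc) := by
      refine IsClosed.union ?_ (isClosed_iUnion_of_finite fun a => ?_)
      · exact hq.preimage_isClosed_of_isClosed (hb_isClosed_planar V) hU.isClosed_compl
      · exact (isCompact_disc.image_of_continuousOn (V.cont_e a)).isClosed
    refine ⟨_, hC.isOpen_compl, ?_⟩
    ext z
    constructor
    · rintro ⟨v, hv, rfl⟩
      have hx := εR b v (discInt_subset hv)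
      refine ⟨?_, (Mm _ hx).1.1⟩
      rintro (⟨_, h⟩ | h)
      · apply h
        have : L.N (L.ε b v) ∈ U ∩ V.bd := by rw [← hUe]; exact ⟨_, ⟨v, hv, rfl⟩, rfl⟩
        rw [(Mm _ hx).2]
        exact this.1
      · obtain ⟨a, w, hw, h⟩ := mem_iUnion.1 h
        exact Mne _ hx a w hw h.symm
    · rintro ⟨h1, h2⟩
      rw [mem_compl_iff, mem_union, not_or] at h1
      obtain ⟨h3, h4⟩ := h1
      have hz : z ∈ V.planar := by
        refine ⟨h2, fun h => h4 ?_⟩
        obtain ⟨a, w, hw, h⟩ := mem_iUnion.1 h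
        exact mem_iUnion.2 ⟨a, w, discInt_subset hw, h⟩
      have hzU : V.q z ∈ U := by
        by_contra hcon
        exact h3 ⟨hz, hcon⟩
      have : V.q z ∈ L.N '' (L.ε b '' discInt) := by
        rw [hUe]; exact ⟨hzU, ⟨z, hz, rfl⟩⟩
      obtain ⟨_, ⟨v, hv, rfl⟩, hv'⟩ := this
      exact ⟨v, hv, (Mu z hz _ (εR b v (discInt_subset hv)) hv'.symm).symm⟩
  -- the planar surface
  have hpl : sph2 \ ⋃ a, e a '' discInt = V.planar \ ⋃ b, (fun v => M (L.ε b v)) '' discInt := by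
    ext z
    simp only [mem_sdiff, mem_iUnion, not_exists, Handlebody.planar]
    constructor
    · rintro ⟨h1, h2⟩
      refine ⟨⟨h1, fun a h => h2 (a.1.castSucc, a.2) ?_⟩, fun b h => h2 (2, b) ?_⟩
      · rw [e1]; exact h
      · rw [e2]; exact h
    · rintro ⟨⟨h1, h2⟩, h3⟩
      refine ⟨h1, ?_⟩
      rintro ⟨i, b⟩ h
      rcases hcases i with rfl | ⟨j, rfl⟩
      · rw [e2] at h; exact h3 b h
      · rw [e1] at h; exact h2 (j, b) h
  set PL := V.planar \ ⋃ b, (fun v => M (L.ε b v)) '' discInt with hPL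
  -- points of the planar surface in the chart
  have hin : ∀ z ∈ PL, V.q z ∈ L.N '' L.R → ∃ x ∈ L.Rm, z = M x ∧ V.q z = L.N x := by
    rintro z ⟨hz, hz'⟩ ⟨x, hx, hxz⟩
    have h1 := Mu z hz x hx hxz.symm
    refine ⟨x, ⟨hx, ?_⟩, h1, hxz.symm⟩
    intro h
    obtain ⟨b, v, hv, rfl⟩ := mem_iUnion.1 h
    exact hz' (mem_iUnion.2 ⟨b, v, hv, h1.symm⟩)
  have hin' : ∀ x ∈ L.Rm, M x ∈ PL := by
    rintro x ⟨hx, hx'⟩
    refine ⟨(Mm x hx).1, fun h => hx' ?_⟩
    obtain ⟨b, v, hv, h⟩ := mem_iUnion.1 h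
    exact mem_iUnion.2 ⟨b, v, hv, Mi (εR b v (discInt_subset hv)) hx h⟩
  let r : ℝ × ℝ × ℝ → F := fun z => if V.q z ∈ L.N '' L.R then L.G (n (V.q z)) else p (V.q z)
  have rM : ∀ x ∈ L.R, r (M x) = L.G x := by
    intro x hx
    have h1 : V.q (M x) ∈ L.N '' L.R := by rw [(Mm x hx).2]; exact ⟨x, hx, rfl⟩
    simp only [r, h1, if_true]
    rw [(Mm x hx).2, nn x hx]
  have rout : ∀ z ∈ V.planar, V.q z ∉ L.N '' L.Ro → r z = p (V.q z) := by
    intro z hz h
    by_cases h1 : V.q z ∈ L.N '' L.R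
    · simp only [r, h1, if_true]
      obtain ⟨x, hx, hxz⟩ := h1
      rw [← hxz, nn x hx]
      refine L.G_bd x ⟨hx, fun h' => h ?_⟩
      rw [← hxz]; exact ⟨x, h', rfl⟩
    · simp only [r, h1, if_false]
  have hcurve : ∀ i, ∀ z ∈ V.planar, V.q z ∈ V.curve i → V.q z ∉ L.N '' L.R := by
    intro i z _ h h'
    exact Set.disjoint_left.1 (L.N_disj i) h' h
  have hsubN : L.N '' L.Ro ⊆ L.N '' L.R := image_mono L.hsub
  have hNR : IsCompact (L.N '' L.R) := L.hR.image_of_continuousOn L.N_cont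
  have rcont : ContinuousOn r PL := by
    have hPLsub : PL ⊆ V.planar := sdiff_subset
    have hPLc : IsClosed PL := by
      choose U hU hUe using hopen
      have : PL = V.planar ∩ ⋂ b, (U b)ᶜ := by
        ext z
        simp only [hPL, mem_sdiff, mem_iUnion, not_exists, mem_inter_iff, mem_iInter,
          mem_compl_iff]
        refine and_congr_right fun hz => forall_congr' fun b => not_congr ?_
        rw [hUe b]
        exact ⟨fun h => h.1, fun h => ⟨h, hz.1⟩⟩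
      rw [this]
      exact (hb_isClosed_planar V).inter (isClosed_iInter fun b => (hU b).isClosed_compl)
    have hc1 : IsClosed (PL ∩ V.q ⁻¹' (L.N '' L.R)) :=
      (hq.mono hPLsub).preimage_isClosed_of_isClosed hPLc hNR.isClosed
    have hc2 : IsClosed (PL ∩ V.q ⁻¹' (V.bd \ L.N '' L.Ro)) :=
      (hq.mono hPLsub).preimage_isClosed_of_isClosed hPLc L.isClosed_out
    have hun : PL = (PL ∩ V.q ⁻¹' (L.N '' L.R)) ∪ (PL ∩ V.q ⁻¹' (V.bd \ L.N '' L.Ro)) := by
      rw [← inter_union_distrib_left]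
      refine (inter_eq_left.2 fun z hz => ?_).symm
      by_cases h : V.q z ∈ L.N '' L.Ro
      · left; exact hsubN h
      · right; exact ⟨⟨z, hPLsub hz, rfl⟩, h⟩
    rw [hun]
    refine ContinuousOn.union_of_isClosed ?_ ?_ hc1 hc2
    · have h1 : ContinuousOn (fun z => n (V.q z)) (PL ∩ V.q ⁻¹' (L.N '' L.R)) :=
        nc.comp (hq.mono (inter_subset_left.trans hPLsub)) fun z hz => hz.2
      refine (L.G_cont.comp h1 ?_).congr ?_
      · rintro z ⟨hz, hz'⟩
        obtain ⟨x, hx, -, hzx⟩ := hin z hz hz'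
        simp only
        rw [hzx, nn x hx.1]
        exact hx
      · rintro z ⟨hz, hz'⟩
        have hz'' : V.q z ∈ L.N '' L.R := hz'
        simp only [r, hz'', if_true, Function.comp_apply]
    · have h1 : ContinuousOn (fun z => p (V.q z)) (PL ∩ V.q ⁻¹' (V.bd \ L.N '' L.Ro)) :=
        L.p_cont.comp (hq.mono (inter_subset_left.trans hPLsub)) fun z hz => hz.2
      refine h1.congr ?_
      rintro z ⟨hz, hz'⟩
      exact rout z (hPLsub hz) hz'.2
  refine ⟨{ e := e, r := r, cont_e := ?_, maps_e := ?_, inj_e := ?_, open_e := ?_, cont_r := ?_,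
            surj := ?_, r_eq := ?_ }, ?_, ?_⟩
  · rintro ⟨i, b⟩
    rcases hcases i with rfl | ⟨j, rfl⟩
    · rw [e2]
      exact Mc.comp (L.ε_cont b) fun v hv => εR b v hv
    · rw [e1]; exact V.cont_e _
  · rintro ⟨i, b⟩
    rcases hcases i with rfl | ⟨j, rfl⟩
    · rw [e2]
      intro v hv
      exact (Mm _ (εR b v hv)).1.1
    · rw [e1]; exact V.maps_e _
  · rintro ⟨i, b⟩ ⟨j, c⟩ v w hv hw h
    rcases hcases i with rfl | ⟨i, rfl⟩ <;> rcases hcases j with rfl | ⟨j, rfl⟩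
    · rw [e2, e2] at h
      obtain ⟨rfl, rfl⟩ := L.ε_inj _ _ _ _ hv hw (Mi (εR b v hv) (εR c w hw) h)
      exact ⟨rfl, rfl⟩
    · rw [e2, e1] at h
      exact absurd h (Mne _ (εR b v hv) _ w hw)
    · rw [e2, e1] at h
      exact absurd h.symm (Mne _ (εR c w hw) _ v hv)
    · rw [e1, e1] at h
      obtain ⟨h1, h2⟩ := V.inj_e _ _ _ _ hv hw h
      obtain ⟨rfl, rfl⟩ := Prod.mk.inj h1
      exact ⟨rfl, h2⟩
  · rintro ⟨i, b⟩
    rcases hcases i with rfl | ⟨j, rfl⟩
    · rw [e2]; exact hopen b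
    · rw [e1]; exact V.open_e _
  · rw [hpl]; exact rcont
  · rw [hpl]
    apply eq_univ_of_forall
    intro y
    have hy : y ∈ p '' (V.bd \ L.N '' L.Ro) ∪ L.G '' (L.R \ ⋃ b, L.ε b '' discInt) := by
      rw [L.surj]; trivial
    rcases hy with ⟨w, ⟨⟨z, hz, rfl⟩, hw⟩, rfl⟩ | ⟨x, hx, rfl⟩
    · refine ⟨z, ⟨hz, fun h => ?_⟩, rout z hz hw⟩
      obtain ⟨b, v, hv, h⟩ := mem_iUnion.1 h
      apply hw
      rw [← h]
      simp only
      rw [(Mm _ (εR b v (discInt_subset hv))).2]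
      exact ⟨_, L.ε_maps b (discInt_subset hv), rfl⟩
    · exact ⟨M x, hin' x hx, rM x hx.1⟩
  · rw [hpl]
    intro x hx y hy
    constructor
    · intro h
      by_cases h1 : V.q x ∈ L.N '' L.R <;> by_cases h2 : V.q y ∈ L.N '' L.R
      · obtain ⟨x', hx', rfl, -⟩ := hin x hx h1
        obtain ⟨y', hy', rfl, -⟩ := hin y hy h2
        rw [rM x' hx'.1, rM y' hy'.1, L.G_eq x' hx' y' hy'] at h
        rcases h with rfl | ⟨b, v, hv, rfl, rfl⟩
        · exact Or.inl rfl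
        · exact Or.inr ⟨2, b, v, hv, rfl, rfl⟩
      · exfalso
        obtain ⟨x', hx', rfl, -⟩ := hin x hx h1
        rw [rM x' hx'.1, rout y hy.1 fun h' => h2 (hsubN h')] at h
        have := L.G_out x' hx' (V.q y) ⟨⟨y, hy.1, rfl⟩, fun h' => h2 (hsubN h')⟩ h
        exact h2 ⟨x', hx'.1, this.symm⟩
      · exfalso
        obtain ⟨y', hy', rfl, -⟩ := hin y hy h2
        rw [rM y' hy'.1, rout x hx.1 fun h' => h1 (hsubN h')] at h
        have := L.G_out y' hy' (V.q x) ⟨⟨x, hx.1, rfl⟩, fun h' => h1 (hsubN h')⟩ h.symm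
        exact h1 ⟨y', hy'.1, this.symm⟩
      · rw [rout y hy.1 fun h' => h2 (hsubN h'), rout x hx.1 fun h' => h1 (hsubN h')] at h
        have h3 := L.p_inj ⟨⟨x, hx.1, rfl⟩, fun h' => h1 (hsubN h')⟩
          ⟨⟨y, hy.1, rfl⟩, fun h' => h2 (hsubN h')⟩ h
        rcases (V.q_eq x (hb_planar_subset V hx.1) y (hb_planar_subset V hy.1)).1 h3 with
          h4 | ⟨i, b, v, hv, rfl, rfl⟩
        · exact Or.inl h4
        · refine Or.inr ⟨i.castSucc, b, v, (hb_e_mem_planar V hv).1 hx.1, ?_, ?_⟩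
          · rw [e1]
          · rw [e1]
    · rintro (rfl | ⟨i, b, v, hv, h1, h2⟩)
      · rfl
      · rcases hcases i with rfl | ⟨j, rfl⟩
        · rw [e2] at h1 h2
          simp only at h1 h2
          rw [h1, h2, rM _ (εR b v (discBd_subset hv)), rM _ (εR (!b) v (discBd_subset hv)),
            L.G_eq _ ((L.ε_mem_Rm (discBd_subset hv)).2 hv) _
              ((L.ε_mem_Rm (discBd_subset hv)).2 hv)]
          exact Or.inr ⟨b, v, hv, rfl, rfl⟩
        · rw [e1] at h1 h2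
          have h3 : V.q x = V.q y := by rw [h1, h2]; exact hb_pair V (discBd_subset hv)
          have h4 : V.q x ∉ L.N '' L.R := by
            refine hcurve j x hx.1 ?_
            rw [h1]; exact hb_curve V hv
          have h5 : V.q y ∉ L.N '' L.R := by rw [← h3]; exact h4
          rw [rout x hx.1 fun h' => h4 (hsubN h'), rout y hy.1 fun h' => h5 (hsubN h'), h3]
  · intro i
    simp only [e1]
    unfold Handlebody.curve
    simp only [image_image]
    refine image_congr fun v hv => ?_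
    have h1 : V.e (i, true) v ∈ V.planar := (hb_e_mem_planar V (discBd_subset hv)).2 hv
    exact rout _ h1 fun h' => hcurve i _ h1 (hb_curve V hv) (hsubN h')
  · change r '' ((fun v => M (L.ε true v)) '' discBd) = _
    simp only [image_image]
    exact image_congr fun v hv => rM _ (εR true v (discBd_subset hv))

end LocalData

end Pool.Agent.H72.Tri
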