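import Pool.Agent.H72.Tri.Model1

/-!
# The handlebody `H_β`, with a cut system depending on a homeomorphism of the torus
-/

open Set Topology Metric

namespace Pool.Agent.H72.Tri

noncomputable section

/-- The window. -/
def win (p : Circle × Circle) : Prop := 0 ≤ (p.1 : ℂ).re ∧ √2 / 2 ≤ (p.2 : ℂ).re
/-- The complement of the interior of the window. -/
def out (p : Circle × Circle) : Prop := (p.1 : ℂ).re ≤ 0 ∨ (p.2 : ℂ).re ≤ √2 / 2

/-- A homeomorphism of the torus preserving the window. -/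
structure Twist where
  s : Circle × Circle ≃ₜ Circle × Circle
  win_iff : ∀ p : Circle × Circle, win (s p) ↔ win p
  out_iff : ∀ p : Circle × Circle, out (s p) ↔ out p

/-- The homeomorphism fixes the points with `0 ≤ Re z` and `Im w ≤ √2 / 2`. -/
def Fixes (s : Circle × Circle ≃ₜ Circle × Circle) : Prop :=
  ∀ p : Circle × Circle, 0 ≤ (p.1 : ℂ).re → (p.2 : ℂ).im ≤ √2 / 2 → s p = p

theorem im_le_of_win {w : Circle} (h : √2 / 2 ≤ (w : ℂ).re) : (w : ℂ).im ≤ √2 / 2 := by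
  have h1 := Circle.normSq_coe w
  rw [Complex.normSq_apply] at h1
  have h2 : (0 : ℝ) ≤ √2 / 2 := by positivity
  have h3 : √2 / 2 * (√2 / 2) = 1 / 2 := by
    have := Real.mul_self_sqrt (by norm_num : (0 : ℝ) ≤ 2)
    linarith
  by_contra hcon
  push Not at hcon
  nlinarith

/-- A homeomorphism fixing the window pointwise. -/
def Twist.ofFix (s : Circle × Circle ≃ₜ Circle × Circle) (fix : Fixes s) : Twist where
  s := s
  win_iff p := by
    constructor
    · intro h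
      have h1 := fix (s p) h.1 (im_le_of_win h.2)
      have h2 := s.injective h1
      rwa [h2] at h
    · intro h
      rw [fix p h.1 (im_le_of_win h.2)]
      exact h
  out_iff p := by
    have key : ¬ out (s p) ↔ ¬ out p := by
      unfold out
      push Not
      constructor
      · intro h
        have h1 := fix (s p) h.1.le (im_le_of_win h.2.le)
        have h2 := s.injective h1
        rwa [h2] at h
      · intro h
        rw [fix p h.1.le (im_le_of_win h.2.le)]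
        exact h
    exact not_iff_not.1 key

/-- the sign of a boolean -/
def sg (b : Bool) : ℝ := if b then 1 else -1

theorem sg_true : sg true = 1 := rfl
theorem sg_false : sg false = -1 := rfl
theorem abs_sg (b : Bool) : |sg b| = 1 := by cases b <;> simp [sg]
theorem sg_sq (b : Bool) : sg b * sg b = 1 := by cases b <;> simp [sg]
theorem sg_inj {b c : Bool} (h : sg b = sg c) : b = c := by
  cases b <;> cases c <;> simp [sg] at h ⊢ <;> norm_num at h
theorem sg_not (b : Bool) : sg (!b) = -sg b := by cases b <;> simp [sg]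

theorem mem_disc {v : ℝ × ℝ} : v ∈ disc ↔ |v.1| ≤ 1 ∧ |v.2| ≤ 1 := by
  rw [disc, mem_closedBall_zero_iff, Prod.norm_def, max_le_iff]
  rfl

theorem mem_discInt {v : ℝ × ℝ} : v ∈ discInt ↔ |v.1| < 1 ∧ |v.2| < 1 := by
  rw [discInt, mem_ball_zero_iff, Prod.norm_def, max_lt_iff]
  rfl

theorem mem_discBd {v : ℝ × ℝ} : v ∈ discBd ↔ max |v.1| |v.2| = 1 := by
  rw [discBd, mem_sphere_iff_norm, sub_zero, Prod.norm_def]
  rfl

/-- the gauge of the thickened cross -/
def gβ (v : ℝ × ℝ × ℝ) : ℝ :=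
  max (max |v.1| |v.2.1|) (max |v.2.2| (min (2 * |v.1|) (4 / 3 * |v.2.1|)))

theorem isGauge_gβ : IsGauge gβ where
  cont := by unfold gβ; fun_prop
  pos := by
    intro v hv
    unfold gβ
    by_contra hcon
    push Not at hcon
    rw [max_le_iff, max_le_iff, max_le_iff] at hcon
    obtain ⟨⟨h1, h2⟩, h3, -⟩ := hcon
    apply hv
    have e1 := abs_nonpos_iff.1 h1
    have e2 := abs_nonpos_iff.1 h2
    have e3 := abs_nonpos_iff.1 h3
    exact Prod.ext e1 (Prod.ext e2 e3)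
  smul := by
    intro t v ht
    unfold gβ
    simp only [Prod.smul_fst, Prod.smul_snd, smul_eq_mul, abs_mul, abs_of_nonneg ht]
    rw [mul_max_of_nonneg _ _ ht, mul_max_of_nonneg _ _ ht, mul_max_of_nonneg _ _ ht,
      mul_min_of_nonneg _ _ ht]
    congr 3 <;> ring

theorem gβ_le {v : ℝ × ℝ × ℝ} : gβ v ≤ 1 ↔ |v.1| ≤ 1 ∧ |v.2.1| ≤ 1 ∧ |v.2.2| ≤ 1 ∧
    (|v.1| ≤ 1 / 2 ∨ |v.2.1| ≤ 3 / 4) := by
  unfold gβ
  rw [max_le_iff, max_le_iff, max_le_iff, min_le_iff]
  constructor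
  · rintro ⟨⟨h1, h2⟩, h3, h4⟩
    refine ⟨h1, h2, h3, ?_⟩
    rcases h4 with h | h
    · left; linarith
    · right; linarith
  · rintro ⟨h1, h2, h3, h4⟩
    refine ⟨⟨h1, h2⟩, h3, ?_⟩
    rcases h4 with h | h
    · left; linarith
    · right; linarith

theorem le_gβ {v : ℝ × ℝ × ℝ} : 1 ≤ gβ v ↔ 1 ≤ |v.1| ∨ 1 ≤ |v.2.1| ∨ 1 ≤ |v.2.2| ∨
    (1 / 2 ≤ |v.1| ∧ 3 / 4 ≤ |v.2.1|) := by
  unfold gβ
  rw [le_max_iff, le_max_iff, le_max_iff, le_min_iff]
  constructor
  · rintro ((h | h) | (h | ⟨h, h'⟩))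
    · left; exact h
    · right; left; exact h
    · right; right; left; exact h
    · right; right; right; constructor <;> linarith
  · rintro (h | h | h | ⟨h, h'⟩)
    · left; left; exact h
    · left; right; exact h
    · right; left; exact h
    · right; right; constructor <;> linarith

/-- the faces of the thickened cross -/
def fβ (a : Fin 2 × Bool) (v : ℝ × ℝ) : ℝ × ℝ × ℝ :=
  if a.1 = 0 then (sg a.2, 3 / 4 * v.1, v.2) else (v.1 / 2, sg a.2, v.2)

theorem fβ_zero (b : Bool) (v : ℝ × ℝ) : fβ (0, b) v = (sg b, 3 / 4 * v.1, v.2) := rfl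
theorem fβ_one (b : Bool) (v : ℝ × ℝ) : fβ (1, b) v = (v.1 / 2, sg b, v.2) := rfl

theorem fin2_cases (i : Fin 2) : i = 0 ∨ i = 1 := by
  fin_cases i <;> simp

theorem maps_fβ (a : Fin 2 × Bool) (v : ℝ × ℝ) (hv : v ∈ disc) : gβ (fβ a v) = 1 := by
  obtain ⟨i, b⟩ := a
  obtain ⟨h1, h2⟩ := mem_disc.1 hv
  rcases fin2_cases i with rfl | rfl
  · rw [fβ_zero]
    apply le_antisymm
    · rw [gβ_le]
      simp only [abs_sg, abs_mul]
      refine ⟨le_rfl, ?_, h2, Or.inr ?_⟩
      · rw [abs_of_pos (by norm_num : (0:ℝ) < 3/4)]; linarith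
      · rw [abs_of_pos (by norm_num : (0:ℝ) < 3/4)]; linarith
    · rw [le_gβ]
      left
      simp only [abs_sg, le_refl]
  · rw [fβ_one]
    apply le_antisymm
    · rw [gβ_le]
      simp only [abs_sg, abs_div]
      refine ⟨?_, le_rfl, h2, Or.inl ?_⟩
      · rw [abs_of_pos (by norm_num : (0:ℝ) < 2)]; linarith
      · rw [abs_of_pos (by norm_num : (0:ℝ) < 2)]; linarith
    · rw [le_gβ]
      right; left
      simp only [abs_sg, le_refl]

theorem inj_fβ (a b : Fin 2 × Bool) (v w : ℝ × ℝ) (hv : v ∈ disc) (hw : w ∈ disc)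
    (h : fβ a v = fβ b w) : a = b ∧ v = w := by
  obtain ⟨i, c⟩ := a
  obtain ⟨j, d⟩ := b
  obtain ⟨h1, h2⟩ := mem_disc.1 hv
  obtain ⟨h3, h4⟩ := mem_disc.1 hw
  rcases fin2_cases i with rfl | rfl <;> rcases fin2_cases j with rfl | rfl
  · rw [fβ_zero, fβ_zero] at h
    simp only [Prod.mk.injEq] at h
    obtain ⟨e1, e2, e3⟩ := h
    refine ⟨by rw [sg_inj e1], Prod.ext (by linarith) e3⟩
  · exfalso
    rw [fβ_zero, fβ_one] at h
    simp only [Prod.mk.injEq] at h
    obtain ⟨e1, e2, e3⟩ := h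
    have := abs_sg c
    rw [e1, abs_div, abs_of_pos (by norm_num : (0:ℝ) < 2)] at this
    linarith
  · exfalso
    rw [fβ_zero, fβ_one] at h
    simp only [Prod.mk.injEq] at h
    obtain ⟨e1, e2, e3⟩ := h
    have := abs_sg d
    rw [← e1, abs_div, abs_of_pos (by norm_num : (0:ℝ) < 2)] at this
    linarith
  · rw [fβ_one, fβ_one] at h
    simp only [Prod.mk.injEq] at h
    obtain ⟨e1, e2, e3⟩ := h
    refine ⟨by rw [sg_inj e2], Prod.ext (by linarith) e3⟩

theorem eq_sg_of {x : ℝ} {b : Bool} (h1 : |x| = 1) (h2 : 0 < sg b * x) : x = sg b := by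
  rcases (abs_eq (by norm_num : (0:ℝ) ≤ 1)).1 h1 with rfl | rfl <;> cases b
  · simp [sg] at h2; linarith
  · rfl
  · rfl
  · simp [sg] at h2; linarith

theorem abs_eq_of_sg {x : ℝ} {b : Bool} (h : 0 < sg b * x) : |x| = sg b * x := by
  have := abs_mul (sg b) x
  rw [abs_sg, one_mul, abs_of_pos h] at this
  exact this.symm

theorem open_fβ (a : Fin 2 × Bool) :
    ∃ U : Set (ℝ × ℝ × ℝ), IsOpen U ∧ fβ a '' discInt = U ∩ {v | gβ v = 1} := by
  obtain ⟨i, b⟩ := a
  rcases fin2_cases i with rfl | rfl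
  · refine ⟨{v | 1 / 2 < sg b * v.1 ∧ |v.2.1| < 3 / 4 ∧ |v.2.2| < 1}, ?_, ?_⟩
    · have o1 : IsOpen {v : ℝ × ℝ × ℝ | 1 / 2 < sg b * v.1} :=
        isOpen_lt continuous_const (by fun_prop)
      have o2 : IsOpen {v : ℝ × ℝ × ℝ | |v.2.1| < 3 / 4} :=
        isOpen_lt (by fun_prop) continuous_const
      have o3 : IsOpen {v : ℝ × ℝ × ℝ | |v.2.2| < 1} :=
        isOpen_lt (by fun_prop) continuous_const
      exact o1.inter (o2.inter o3)
    · ext x
      simp only [mem_image, mem_inter_iff, mem_ofPred_eq]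
      constructor
      · rintro ⟨v, hv, rfl⟩
        obtain ⟨h1, h2⟩ := mem_discInt.1 hv
        rw [maps_fβ _ _ (discInt_subset hv), fβ_zero]
        simp only [sg_sq, and_true, abs_mul]
        refine ⟨by norm_num, ?_, h2⟩
        rw [abs_of_pos (by norm_num : (0:ℝ) < 3/4)]; linarith
      · rintro ⟨⟨h1, h2, h3⟩, h4⟩
        have h5 := gβ_le.1 h4.le
        have h6 := le_gβ.1 h4.ge
        have h7 : |x.1| = 1 := by
          rcases h6 with h | h | h | ⟨h, h'⟩
          · exact le_antisymm h5.1 h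
          · linarith
          · linarith
          · linarith
        refine ⟨(4 / 3 * x.2.1, x.2.2), mem_discInt.2 ⟨?_, h3⟩, ?_⟩
        · simp only [abs_mul]
          rw [abs_of_pos (by norm_num : (0:ℝ) < 4/3)]; linarith
        · rw [fβ_zero, ← eq_sg_of h7 (by linarith)]
          simp only
          refine Prod.ext rfl (Prod.ext ?_ rfl)
          simp only
          ring
  · refine ⟨{v | 3 / 4 < sg b * v.2.1 ∧ |v.1| < 1 / 2 ∧ |v.2.2| < 1}, ?_, ?_⟩
    · have o1 : IsOpen {v : ℝ × ℝ × ℝ | 3 / 4 < sg b * v.2.1} :=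
        isOpen_lt continuous_const (by fun_prop)
      have o2 : IsOpen {v : ℝ × ℝ × ℝ | |v.1| < 1 / 2} :=
        isOpen_lt (by fun_prop) continuous_const
      have o3 : IsOpen {v : ℝ × ℝ × ℝ | |v.2.2| < 1} :=
        isOpen_lt (by fun_prop) continuous_const
      exact o1.inter (o2.inter o3)
    · ext x
      simp only [mem_image, mem_inter_iff, mem_ofPred_eq]
      constructor
      · rintro ⟨v, hv, rfl⟩
        obtain ⟨h1, h2⟩ := mem_discInt.1 hv
        rw [maps_fβ _ _ (discInt_subset hv), fβ_one]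
        simp only [sg_sq, and_true, abs_div]
        refine ⟨by norm_num, ?_, h2⟩
        rw [abs_of_pos (by norm_num : (0:ℝ) < 2)]; linarith
      · rintro ⟨⟨h1, h2, h3⟩, h4⟩
        have h5 := gβ_le.1 h4.le
        have h6 := le_gβ.1 h4.ge
        have h7 : |x.2.1| = 1 := by
          rcases h6 with h | h | h | ⟨h, h'⟩
          · linarith
          · exact le_antisymm h5.2.1 h
          · linarith
          · linarith
        refine ⟨(2 * x.1, x.2.2), mem_discInt.2 ⟨?_, h3⟩, ?_⟩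
        · simp only [abs_mul]
          rw [abs_of_pos (by norm_num : (0:ℝ) < 2)]; linarith
        · rw [fβ_one, ← eq_sg_of h7 (by linarith)]
          simp only
          refine Prod.ext ?_ rfl
          simp only
          ring

/-- A point of the model in terms of torus coordinates. -/
def Bm (p : Circle × Circle) (r : ℝ) : Y0 := (p.1, mk ((p.2 : ℂ), r))

theorem Bm_mem (p : Circle × Circle) {r : ℝ} (hr : |r| ≤ 1) :
    ((p.2 : ℂ), r) ∈ sphere (0 : ℂ × ℝ) 1 := mem_sph_of (by simp) hr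

theorem Bm_inj {p p' : Circle × Circle} {r r' : ℝ} (hr : |r| ≤ 1) (hr' : |r'| ≤ 1)
    (h : Bm p r = Bm p' r') : p = p' ∧ r = r' := by
  have h0 : (p.1, mk ((p.2 : ℂ), r)) = (p'.1, mk ((p'.2 : ℂ), r')) := h
  obtain ⟨h1, h2⟩ := Prod.mk.inj h0
  have h3 := congrArg (Subtype.val) h2
  rw [mk_coe (Bm_mem p hr), mk_coe (Bm_mem p' hr')] at h3
  simp only [Prod.mk.injEq] at h3
  exact ⟨Prod.ext h1 (Circle.ext h3.1), h3.2⟩

theorem contOn_Bm {A : Type*} [TopologicalSpace A] {f : A → Circle × Circle} {g : A → ℝ}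
    {s : Set A} (hf : ContinuousOn f s) (hg : ContinuousOn g s) (hm : ∀ x ∈ s, |g x| ≤ 1) :
    ContinuousOn (fun x => Bm (f x) (g x)) s := by
  unfold Bm
  refine ContinuousOn.prodMk (continuous_fst.comp_continuousOn hf) ?_
  refine contOn_mk ?_ (fun x hx => Bm_mem _ (hm x hx))
  exact ((continuous_subtype_val.comp continuous_snd).comp_continuousOn hf).prodMk hg

theorem Bm_snd (p : Circle × Circle) {r : ℝ} (hr : |r| ≤ 1) :
    ((Bm p r).2 : ℂ × ℝ) = ((p.2 : ℂ), r) := mk_coe (Bm_mem p hr)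

/-- torus coordinates -/
def E2 (v : ℝ × ℝ × ℝ) : Circle × Circle := (Ec v.1, Ec v.2.1)

theorem continuous_E2 : Continuous E2 :=
  (continuous_Ec.comp continuous_fst).prodMk (continuous_Ec.comp (by fun_prop))

namespace Twist

variable (t : Twist)

/-- the quotient map -/
def Q (v : ℝ × ℝ × ℝ) : Y0 := Bm (t.s (E2 v)) v.2.2

theorem cont_Q : ContinuousOn t.Q {v | gβ v ≤ 1} :=
  contOn_Bm ((t.s.continuous.comp continuous_E2).continuousOn) (by fun_prop)
    (fun x hx => (gβ_le.1 hx).2.2.1)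

theorem Q_eq (x : ℝ × ℝ × ℝ) (hx : gβ x ≤ 1) (y : ℝ × ℝ × ℝ) (hy : gβ y ≤ 1) :
    t.Q x = t.Q y ↔ x = y ∨ ∃ i b v, v ∈ disc ∧ x = fβ (i, b) v ∧ y = fβ (i, !b) v := by
  obtain ⟨x1, x2, x3, x4⟩ := gβ_le.1 hx
  obtain ⟨y1, y2, y3, y4⟩ := gβ_le.1 hy
  constructor
  · intro h
    obtain ⟨h1, h2⟩ := Bm_inj x3 y3 h
    have h3 := t.s.injective h1
    have h4 : Ec x.1 = Ec y.1 := congrArg Prod.fst h3
    have h5 : Ec x.2.1 = Ec y.2.1 := congrArg Prod.snd h3
    have key1 : ∀ b : Bool, x.1 = sg b → y.1 = sg (!b) → ∃ i b v, v ∈ disc ∧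
        x = fβ (i, b) v ∧ y = fβ (i, !b) v := by
      intro b e1 e2
      have a1 : |x.1| = 1 := by rw [e1, abs_sg]
      have a2 : |y.1| = 1 := by rw [e2, abs_sg]
      have a3 : |x.2.1| ≤ 3/4 := by
        rcases x4 with h | h
        · linarith
        · exact h
      have a4 : |y.2.1| ≤ 3/4 := by
        rcases y4 with h | h
        · linarith
        · exact h
      have a5 : x.2.1 = y.2.1 := by
        rcases Ec_inj x2 y2 h5 with h | ⟨h, h'⟩ | ⟨h, h'⟩
        · exact h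
        · rw [h] at a3; norm_num at a3
        · rw [h'] at a4; norm_num at a4
      refine ⟨0, b, (4 / 3 * x.2.1, x.2.2), mem_disc.2 ⟨?_, x3⟩, ?_, ?_⟩
      · simp only [abs_mul]
        rw [abs_of_pos (by norm_num : (0:ℝ) < 4/3)]; linarith
      · rw [fβ_zero]
        refine Prod.ext e1 (Prod.ext ?_ rfl)
        simp only
        ring
      · rw [fβ_zero]
        refine Prod.ext e2 (Prod.ext ?_ h2.symm)
        simp only
        rw [← a5]
        ring
    rcases Ec_inj x1 y1 h4 with e | ⟨e, e'⟩ | ⟨e, e'⟩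
    · rcases Ec_inj x2 y2 h5 with f | ⟨f, f'⟩ | ⟨f, f'⟩
      · left
        exact Prod.ext e (Prod.ext f h2)
      · right
        refine ⟨1, true, (2 * x.1, x.2.2), mem_disc.2 ⟨?_, x3⟩, ?_, ?_⟩
        · simp only [abs_mul]
          rw [abs_of_pos (by norm_num : (0:ℝ) < 2)]
          rcases x4 with h | h
          · linarith
          · rw [f] at h; norm_num at h
        · rw [fβ_one]
          refine Prod.ext ?_ (Prod.ext f rfl)
          simp only
          ring
        · rw [fβ_one]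
          refine Prod.ext ?_ (Prod.ext f' h2.symm)
          simp only
          rw [← e]
          ring
      · right
        refine ⟨1, false, (2 * x.1, x.2.2), mem_disc.2 ⟨?_, x3⟩, ?_, ?_⟩
        · simp only [abs_mul]
          rw [abs_of_pos (by norm_num : (0:ℝ) < 2)]
          rcases x4 with h | h
          · linarith
          · rw [f] at h; norm_num at h
        · rw [fβ_one]
          refine Prod.ext ?_ (Prod.ext f rfl)
          simp only
          ring
        · rw [fβ_one]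
          refine Prod.ext ?_ (Prod.ext f' h2.symm)
          simp only
          rw [← e]
          ring
    · right
      exact key1 true e e'
    · right
      exact key1 false e e'
  · rintro (rfl | ⟨i, b, v, hv, rfl, rfl⟩)
    · rfl
    · have hE : E2 (fβ (i, b) v) = E2 (fβ (i, !b) v) := by
        rcases fin2_cases i with rfl | rfl
        · rw [fβ_zero, fβ_zero]
          refine Prod.ext ?_ rfl
          change Ec (sg b) = Ec (sg !b)
          cases b
          · exact Ec_neg_one.trans Ec_one.symm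
          · exact Ec_one.trans Ec_neg_one.symm
        · rw [fβ_one, fβ_one]
          refine Prod.ext rfl ?_
          change Ec (sg b) = Ec (sg !b)
          cases b
          · exact Ec_neg_one.trans Ec_one.symm
          · exact Ec_one.trans Ec_neg_one.symm
      have h2 : (fβ (i, b) v).2.2 = (fβ (i, !b) v).2.2 := by
        rcases fin2_cases i with rfl | rfl
        · rw [fβ_zero, fβ_zero]
        · rw [fβ_one, fβ_one]
      unfold Q
      rw [hE, h2]

theorem cont_fβ (a : Fin 2 × Bool) : ContinuousOn (fβ a) disc := by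
  obtain ⟨i, b⟩ := a
  rcases fin2_cases i with rfl | rfl
  · have : fβ (0, b) = fun v => (sg b, 3 / 4 * v.1, v.2) := funext fun v => fβ_zero b v
    rw [this]; fun_prop
  · have : fβ (1, b) = fun v => (v.1 / 2, sg b, v.2) := funext fun v => fβ_one b v
    rw [this]; fun_prop

/-- the handlebody `H_β` -/
def data : GaugeData Y0 2 where
  g := gβ
  hg := isGauge_gβ
  Q := t.Q
  f := fβ
  cont_Q := t.cont_Q
  cont_f := cont_fβ
  maps_f := maps_fβ
  inj_f := inj_fβ
  open_f := open_fβ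
  Q_eq := t.Q_eq

/-- the handlebody `H_β` -/
def V : Handlebody Y0 2 := t.data.toHandlebody

/-- The points of the Heegaard surface. -/
def _root_.Pool.Agent.H72.Tri.Sf : Set Y0 := {y | ‖(y.2 : ℂ × ℝ).1‖ = 1 ∧
  ((y.1 : ℂ).re ≤ 0 ∨ (y.2 : ℂ × ℝ).1.re ≤ √2 / 2) ∧
  (|(y.2 : ℂ × ℝ).2| = 1 ∨ (0 ≤ (y.1 : ℂ).re ∧ √2 / 2 ≤ (y.2 : ℂ × ℝ).1.re))}

theorem mem_Hβ_Bm (p : Circle × Circle) {r : ℝ} (hr : |r| ≤ 1) : Bm p r ∈ Hβ ↔ out p := by
  unfold Hβ out
  simp only [mem_ofPred_eq, Bm_snd p hr, Circle.norm_coe, true_and]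
  rfl

theorem mem_Sf_Bm (p : Circle × Circle) {r : ℝ} (hr : |r| ≤ 1) :
    Bm p r ∈ Sf ↔ out p ∧ (|r| = 1 ∨ win p) := by
  unfold Sf out win
  simp only [mem_ofPred_eq, Bm_snd p hr, Circle.norm_coe, true_and]
  rfl

theorem exists_Bm {y : Y0} (hy : ‖(y.2 : ℂ × ℝ).1‖ = 1) :
    ∃ v : ℝ × ℝ × ℝ, |v.1| ≤ 1 ∧ |v.2.1| ≤ 1 ∧ |v.2.2| ≤ 1 ∧ y = t.Q v := by
  let w : Circle := ⟨(y.2 : ℂ × ℝ).1, mem_sphere_zero_iff_norm.2 hy⟩
  let p := t.s.symm (y.1, w)
  obtain ⟨X, hX, hX'⟩ := Ec_surj p.1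
  obtain ⟨Θ, hΘ, hΘ'⟩ := Ec_surj p.2
  refine ⟨(X, Θ, (y.2 : ℂ × ℝ).2), hX, hΘ, (sph_cases y.2).2.1, ?_⟩
  unfold Q
  have h1 : E2 (X, Θ, (y.2 : ℂ × ℝ).2) = p := Prod.ext hX' hΘ'
  rw [h1]
  have h2 : t.s p = (y.1, w) := t.s.apply_symm_apply _
  rw [h2]
  refine Prod.ext rfl ?_
  exact (mk_eq y.2).symm

theorem out_E2 {v : ℝ × ℝ × ℝ} (h1 : |v.1| ≤ 1) (h2 : |v.2.1| ≤ 1) :
    out (E2 v) ↔ (|v.1| ≤ 1 / 2 ∨ |v.2.1| ≤ 3 / 4) :=
  or_congr (re_Ec_nonpos h1) (re_Ec_le' h2)

theorem win_E2 {v : ℝ × ℝ × ℝ} (h1 : |v.1| ≤ 1) (h2 : |v.2.1| ≤ 1) :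
    win (E2 v) ↔ (1 / 2 ≤ |v.1| ∧ 3 / 4 ≤ |v.2.1|) :=
  and_congr (re_Ec_nonneg h1) (le_re_Ec' h2)

theorem carrier_V : t.V.carrier = Hβ := by
  unfold V
  rw [t.data.carrier_eq]
  ext y
  constructor
  · rintro ⟨v, hv, rfl⟩
    obtain ⟨h1, h2, h3, h4⟩ := gβ_le.1 hv
    change Bm _ _ ∈ Hβ
    rw [mem_Hβ_Bm _ h3, t.out_iff, out_E2 h1 h2]
    exact h4
  · intro hy
    obtain ⟨v, h1, h2, h3, rfl⟩ := t.exists_Bm hy.1
    refine ⟨v, ?_, rfl⟩
    change Bm _ _ ∈ Hβ at hy
    rw [mem_Hβ_Bm _ h3, t.out_iff, out_E2 h1 h2] at hy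
    exact gβ_le.2 ⟨h1, h2, h3, hy⟩

theorem planar_iff {v : ℝ × ℝ × ℝ} (hv : gβ v ≤ 1) :
    (gβ v = 1 ∧ ∀ a, v ∉ fβ a '' discInt) ↔ (|v.2.2| = 1 ∨ (1 / 2 ≤ |v.1| ∧ 3 / 4 ≤ |v.2.1|)) := by
  obtain ⟨h1, h2, h3, h4⟩ := gβ_le.1 hv
  constructor
  · rintro ⟨h5, h6⟩
    by_contra hcon
    rw [not_or, not_and_or, not_le, not_le] at hcon
    obtain ⟨h7, h8⟩ := hcon
    have h7' : |v.2.2| < 1 := lt_of_le_of_ne h3 h7
    rcases le_gβ.1 h5.ge with h | h | h | ⟨h, h'⟩
    · -- the face `X = ± 1`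
      have e1 : |v.1| = 1 := le_antisymm h1 h
      have e2 : |v.2.1| < 3 / 4 := by
        rcases h8 with h8 | h8
        · linarith
        · exact h8
      rcases (abs_eq (by norm_num : (0:ℝ) ≤ 1)).1 e1 with e | e
      · refine h6 (0, true) ⟨(4 / 3 * v.2.1, v.2.2), mem_discInt.2 ⟨?_, h7'⟩, ?_⟩
        · simp only [abs_mul]
          rw [abs_of_pos (by norm_num : (0:ℝ) < 4/3)]; linarith
        · rw [fβ_zero]
          refine Prod.ext e.symm (Prod.ext ?_ rfl)
          simp only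
          ring
      · refine h6 (0, false) ⟨(4 / 3 * v.2.1, v.2.2), mem_discInt.2 ⟨?_, h7'⟩, ?_⟩
        · simp only [abs_mul]
          rw [abs_of_pos (by norm_num : (0:ℝ) < 4/3)]; linarith
        · rw [fβ_zero]
          refine Prod.ext e.symm (Prod.ext ?_ rfl)
          simp only
          ring
    · have e1 : |v.2.1| = 1 := le_antisymm h2 h
      have e2 : |v.1| < 1 / 2 := by
        rcases h8 with h8 | h8
        · exact h8
        · linarith
      rcases (abs_eq (by norm_num : (0:ℝ) ≤ 1)).1 e1 with e | e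
      · refine h6 (1, true) ⟨(2 * v.1, v.2.2), mem_discInt.2 ⟨?_, h7'⟩, ?_⟩
        · simp only [abs_mul]
          rw [abs_of_pos (by norm_num : (0:ℝ) < 2)]; linarith
        · rw [fβ_one]
          refine Prod.ext ?_ (Prod.ext e.symm rfl)
          simp only
          ring
      · refine h6 (1, false) ⟨(2 * v.1, v.2.2), mem_discInt.2 ⟨?_, h7'⟩, ?_⟩
        · simp only [abs_mul]
          rw [abs_of_pos (by norm_num : (0:ℝ) < 2)]; linarith
        · rw [fβ_one]
          refine Prod.ext ?_ (Prod.ext e.symm rfl)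
          simp only
          ring
    · linarith
    · rcases h8 with h8 | h8 <;> linarith
  · intro h
    refine ⟨le_antisymm hv (le_gβ.2 ?_), ?_⟩
    · rcases h with h | h
      · right; right; left; exact h.ge
      · right; right; right; exact h
    · rintro ⟨i, b⟩ ⟨w, hw, rfl⟩
      obtain ⟨w1, w2⟩ := mem_discInt.1 hw
      rcases fin2_cases i with rfl | rfl
      · rw [fβ_zero] at h
        simp only [abs_mul] at h
        rw [abs_of_pos (by norm_num : (0:ℝ) < 3/4)] at h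
        rcases h with h | ⟨_, h⟩ <;> linarith
      · rw [fβ_one] at h
        simp only [abs_div] at h
        rw [abs_of_pos (by norm_num : (0:ℝ) < 2)] at h
        rcases h with h | ⟨h, _⟩ <;> linarith

theorem bd_V : t.V.bd = Sf := by
  unfold V
  rw [t.data.bd_eq]
  ext y
  constructor
  · rintro ⟨v, hv, rfl⟩
    have hv1 : gβ v ≤ 1 := hv.1.le
    obtain ⟨h1, h2, h3, h4⟩ := gβ_le.1 hv1
    change Bm _ _ ∈ Sf
    rw [mem_Sf_Bm _ h3, t.out_iff, t.win_iff, out_E2 h1 h2, win_E2 h1 h2]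
    exact ⟨h4, (planar_iff hv1).1 hv⟩
  · intro hy
    obtain ⟨v, h1, h2, h3, rfl⟩ := t.exists_Bm hy.1
    refine ⟨v, ?_, rfl⟩
    change Bm _ _ ∈ Sf at hy
    rw [mem_Sf_Bm _ h3, t.out_iff, t.win_iff, out_E2 h1 h2, win_E2 h1 h2] at hy
    exact (planar_iff (gβ_le.2 ⟨h1, h2, h3, hy.1⟩)).2 hy.2

end Twist

end

end Pool.Agent.H72.Tri
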