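import Pool.Agent.H72.Tri.Ex2
import Pool.Agent.H72.Tri.Model2

/-!
# The two presentations of the torus with a hole
-/

open Set Topology Metric

namespace Pool.Agent.H72.Tri

noncomputable section

/-- smaller coordinate -/
def mm (y : ℝ × ℝ) : ℝ := min |y.1| |y.2|
/-- difference of the coordinates -/
def dd (y : ℝ × ℝ) : ℝ := |y.1| - |y.2|

theorem continuous_mm : Continuous mm := by unfold mm; fun_prop
theorem continuous_dd : Continuous dd := by unfold dd; fun_prop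

/-- The thickened cross. -/
def Cr : Set (ℝ × ℝ) := {y | mm y ≤ 1 / 8 ∧ -(3 / 16) ≤ dd y ∧ dd y ≤ 13 / 16}
/-- The interior of the thickened cross. -/
def Cro : Set (ℝ × ℝ) := {y | mm y < 1 / 8 ∧ -(3 / 16) < dd y ∧ dd y < 13 / 16}

theorem mm_nonneg (y : ℝ × ℝ) : 0 ≤ mm y := le_min (abs_nonneg _) (abs_nonneg _)

theorem abs_fst (y : ℝ × ℝ) : |y.1| = mm y + max 0 (dd y) := by
  unfold mm dd
  rcases le_total |y.1| |y.2| with h | h
  · rw [min_eq_left h, max_eq_left (by linarith)]; ring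
  · rw [min_eq_right h, max_eq_right (by linarith)]; ring

theorem abs_snd (y : ℝ × ℝ) : |y.2| = mm y + max 0 (-dd y) := by
  unfold mm dd
  rcases le_total |y.1| |y.2| with h | h
  · rw [min_eq_left h, max_eq_right (by linarith)]; ring
  · rw [min_eq_right h, max_eq_left (by linarith)]; ring

theorem isOpen_Cro : IsOpen Cro :=
  (isOpen_lt continuous_mm continuous_const).inter
    ((isOpen_lt continuous_const continuous_dd).inter (isOpen_lt continuous_dd continuous_const))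

theorem Cro_subset : Cro ⊆ Cr := fun _ h => ⟨h.1.le, h.2.1.le, h.2.2.le⟩

theorem isCompact_Cr : IsCompact Cr := by
  have h1 : IsClosed Cr := (isClosed_le continuous_mm continuous_const).inter
    ((isClosed_le continuous_const continuous_dd).inter (isClosed_le continuous_dd continuous_const))
  refine (isCompact_closedBall (0 : ℝ × ℝ) 1).of_isClosed_subset h1 ?_
  rintro y ⟨h2, h3, h4⟩
  have e1 := abs_fst y
  have e2 := abs_snd y
  rw [mem_closedBall_zero_iff, Prod.norm_def, max_le_iff, Real.norm_eq_abs, Real.norm_eq_abs]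
  constructor
  · rw [e1]
    have : max 0 (dd y) ≤ 13 / 16 := max_le (by norm_num) h4
    linarith
  · rw [e2]
    have : max 0 (-dd y) ≤ 3 / 16 := max_le (by norm_num) (by linarith)
    linarith

/-- the height of the disc of the first presentation -/
def B1 (x : ℝ) : ℝ := min (7 / 64) (min (x - 1 / 4) ((3 / 4 - x) / 3))
/-- the height of the disc of the second presentation -/
def B2 (x : ℝ) : ℝ := 1 / 16 - 2 * |x + 3 / 32|

theorem continuous_B1 : Continuous B1 := by unfold B1; fun_prop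
theorem continuous_B2 : Continuous B2 := by unfold B2; fun_prop

theorem B1_le (x : ℝ) : B1 x ≤ 7 / 64 := min_le_left _ _
theorem B2_le (x : ℝ) : B2 x ≤ 1 / 16 := by
  unfold B2
  have := abs_nonneg (x + 3 / 32)
  linarith

theorem B1_nonneg {x : ℝ} : 0 ≤ B1 x ↔ 1 / 4 ≤ x ∧ x ≤ 3 / 4 := by
  unfold B1
  rw [le_min_iff, le_min_iff]
  constructor
  · rintro ⟨-, h1, h2⟩
    constructor <;> linarith
  · rintro ⟨h1, h2⟩
    exact ⟨by norm_num, by linarith, by linarith⟩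

theorem B2_nonneg {x : ℝ} : 0 ≤ B2 x ↔ -(1 / 8) ≤ x ∧ x ≤ -(1 / 16) := by
  unfold B2
  have : 0 ≤ 1 / 16 - 2 * |x + 3 / 32| ↔ |x + 3 / 32| ≤ 1 / 32 := by
    constructor <;> intro h <;> linarith
  rw [this, abs_le]
  constructor
  · rintro ⟨h1, h2⟩
    constructor <;> linarith
  · rintro ⟨h1, h2⟩
    constructor <;> linarith

theorem max_B1_zero {x : ℝ} : max 0 (B1 x) = 0 ↔ x ≤ 1 / 4 ∨ 3 / 4 ≤ x := by
  rw [max_eq_left_iff]
  constructor
  · intro h
    by_contra hcon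
    push Not at hcon
    have : 0 < B1 x := by
      unfold B1
      rw [lt_min_iff, lt_min_iff]
      exact ⟨by norm_num, by linarith [hcon.1], by linarith [hcon.2]⟩
    linarith
  · intro h
    unfold B1
    rcases h with h | h
    · exact (min_le_right _ _).trans ((min_le_left _ _).trans (by linarith))
    · exact (min_le_right _ _).trans ((min_le_right _ _).trans (by linarith))

theorem max_B2_zero {x : ℝ} : max 0 (B2 x) = 0 ↔ x ≤ -(1 / 8) ∨ -(1 / 16) ≤ x := by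
  rw [max_eq_left_iff]
  unfold B2
  have : 1 / 16 - 2 * |x + 3 / 32| ≤ 0 ↔ 1 / 32 ≤ |x + 3 / 32| := by
    constructor <;> intro h <;> linarith
  rw [this, le_abs]
  constructor
  · rintro (h | h)
    · right; linarith
    · left; linarith
  · rintro (h | h)
    · right; linarith
    · left; linarith

/-! ### The strips -/

/-- A point of one of the four strips. -/
abbrev Strip : Type := Bool × Bool × ℝ × ℝ

/-- The four strips. -/
def St : Set Strip := univ ×ˢ univ ×ˢ Icc (-(3 / 16) : ℝ) (13 / 16) ×ˢ Icc (0 : ℝ) 1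

theorem isCompact_St : IsCompact St :=
  isCompact_univ.prod (isCompact_univ.prod (isCompact_Icc.prod isCompact_Icc))

theorem mem_St {s t : Bool} {x l : ℝ} :
    (s, t, x, l) ∈ St ↔ (-(3 / 16) ≤ x ∧ x ≤ 13 / 16) ∧ (0 ≤ l ∧ l ≤ 1) := by
  simp only [St, mem_prod, mem_univ, true_and, mem_Icc]

/-- unfolding -/
def unf (s t : Bool) (m x : ℝ) : ℝ × ℝ := (sg s * (m + max 0 x), sg t * (m + max 0 (-x)))

theorem unf_abs {s t : Bool} {m x : ℝ} (hm : 0 ≤ m) :
    |(unf s t m x).1| = m + max 0 x ∧ |(unf s t m x).2| = m + max 0 (-x) := by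
  unfold unf
  simp only [abs_mul, abs_sg, one_mul]
  constructor
  · exact abs_of_nonneg (add_nonneg hm (le_max_left _ _))
  · exact abs_of_nonneg (add_nonneg hm (le_max_left _ _))

theorem unf_mm {s t : Bool} {m x : ℝ} (hm : 0 ≤ m) : mm (unf s t m x) = m := by
  unfold mm
  obtain ⟨h1, h2⟩ := unf_abs (s := s) (t := t) (x := x) hm
  rw [h1, h2]
  rcases le_total 0 x with h | h
  · rw [max_eq_right h, max_eq_left (by linarith : -x ≤ 0), add_zero]
    exact min_eq_right (by linarith)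
  · rw [max_eq_left h, max_eq_right (by linarith : 0 ≤ -x), add_zero]
    exact min_eq_left (by linarith)

theorem unf_dd {s t : Bool} {m x : ℝ} (hm : 0 ≤ m) : dd (unf s t m x) = x := by
  unfold dd
  obtain ⟨h1, h2⟩ := unf_abs (s := s) (t := t) (x := x) hm
  rw [h1, h2]
  rcases le_total 0 x with h | h
  · rw [max_eq_right h, max_eq_left (by linarith : -x ≤ 0)]; ring
  · rw [max_eq_left h, max_eq_right (by linarith : 0 ≤ -x)]; ring

theorem exists_unf (y : ℝ × ℝ) : ∃ s t, y = unf s t (mm y) (dd y) := by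
  have key : ∀ r : ℝ, ∃ b : Bool, r = sg b * |r| := by
    intro r
    rcases le_total 0 r with h | h
    · exact ⟨true, by rw [sg_true, abs_of_nonneg h, one_mul]⟩
    · exact ⟨false, by rw [sg_false, abs_of_nonpos h]; ring⟩
  obtain ⟨s, hs⟩ := key y.1
  obtain ⟨t, ht⟩ := key y.2
  refine ⟨s, t, Prod.ext ?_ ?_⟩
  · unfold unf
    rw [← abs_fst]; exact hs
  · unfold unf
    rw [← abs_snd]; exact ht

theorem sg_mul_eq {s s' : Bool} {c : ℝ} : sg s * c = sg s' * c ↔ s = s' ∨ c = 0 := by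
  constructor
  · intro h
    by_cases hc : c = 0
    · exact Or.inr hc
    · exact Or.inl (sg_inj (mul_right_cancel₀ hc h))
  · rintro (rfl | rfl)
    · rfl
    · simp

theorem unf_eq {s t s' t' : Bool} {m x m' x' : ℝ} (hm : 0 ≤ m) (hm' : 0 ≤ m') :
    unf s t m x = unf s' t' m' x' ↔ m = m' ∧ x = x' ∧ (s = s' ∨ (m = 0 ∧ x ≤ 0)) ∧
      (t = t' ∨ (m = 0 ∧ 0 ≤ x)) := by
  have hz1 : ∀ x : ℝ, m + max 0 x = 0 ↔ m = 0 ∧ x ≤ 0 := by
    intro x
    have h0 := le_max_left 0 x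
    constructor
    · intro h
      have h1 : max 0 x = 0 := by linarith
      exact ⟨by linarith, max_eq_left_iff.1 h1⟩
    · rintro ⟨h1, h2⟩
      rw [h1, max_eq_left h2]; ring
  constructor
  · intro h
    have h1 : m = m' := by rw [← unf_mm (s := s) (t := t) (x := x) hm, h, unf_mm hm']
    have h2 : x = x' := by rw [← unf_dd (s := s) (t := t) (x := x) hm, h, unf_dd hm']
    subst h1 h2
    obtain ⟨h3, h4⟩ := Prod.mk.inj h
    refine ⟨rfl, rfl, ?_, ?_⟩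
    · rw [sg_mul_eq, hz1] at h3; exact h3
    · rw [sg_mul_eq, hz1] at h4
      rcases h4 with h4 | ⟨h4, h5⟩
      · exact Or.inl h4
      · exact Or.inr ⟨h4, by linarith⟩
  · rintro ⟨rfl, rfl, h3, h4⟩
    refine Prod.ext ?_ ?_
    · exact sg_mul_eq.2 (h3.imp id fun h => (hz1 _).2 h)
    · exact sg_mul_eq.2 (h4.imp id fun h => (hz1 _).2 ⟨h.1, by linarith [h.2]⟩)

/-- the first presentation -/
def P1 (a : Strip) : ℝ × ℝ :=
  unf a.1 a.2.1 ((1 - a.2.2.2) / 8 + a.2.2.2 * max 0 (B1 a.2.2.1)) a.2.2.1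

/-- the piecewise linear map of the second presentation -/
def kf (x : ℝ) : ℝ :=
  max (min (min (x / 3 - 1 / 8) (x / 4 - 1 / 8)) (x / 8 - 3 / 32)) (13 * x - 39 / 4)

/-- the coordinate of the second presentation -/
def x2 (x l : ℝ) : ℝ := (1 - l) * x + l * kf x

/-- the second presentation -/
def P2 (a : Strip) : ℝ × ℝ :=
  unf a.1 a.2.1 ((1 - a.2.2.2) / 8 + a.2.2.2 * max 0 (B2 (x2 a.2.2.1 a.2.2.2)))
    (x2 a.2.2.1 a.2.2.2)

theorem continuous_kf : Continuous kf := by unfold kf; fun_prop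

theorem kf_mono : StrictMono kf := by
  intro x y h
  unfold kf
  rw [max_lt_iff]
  constructor
  · refine lt_max_of_lt_left ?_
    refine lt_min (lt_min ?_ ?_) ?_
    · exact (min_le_left _ _).trans_lt ((min_le_left _ _).trans_lt (by linarith))
    · exact (min_le_left _ _).trans_lt ((min_le_right _ _).trans_lt (by linarith))
    · exact (min_le_right _ _).trans_lt (by linarith)
  · exact lt_max_of_lt_right (by linarith)

theorem kf_left : kf (-(3 / 16)) = -(3 / 16) := by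
  unfold kf
  norm_num

theorem kf_zero : kf 0 = -(1 / 8) := by
  unfold kf
  norm_num

theorem kf_quarter : kf (1 / 4) = -(1 / 16) := by
  unfold kf
  norm_num

theorem kf_three : kf (3 / 4) = 0 := by
  unfold kf
  norm_num

theorem kf_right : kf (13 / 16) = 13 / 16 := by
  unfold kf
  norm_num

theorem x2_mono {l : ℝ} (h0 : 0 ≤ l) (h1 : l ≤ 1) : StrictMono fun x => x2 x l := by
  intro x y h
  have h2 := kf_mono h
  unfold x2
  rcases eq_or_lt_of_le h0 with h3 | h3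
  · rw [← h3]; simp only; linarith
  · have h4 : l * kf x < l * kf y := mul_lt_mul_of_pos_left h2 h3
    have h5 : (1 - l) * x ≤ (1 - l) * y := mul_le_mul_of_nonneg_left h.le (by linarith)
    simp only
    linarith

theorem x2_one (x : ℝ) : x2 x 1 = kf x := by unfold x2; ring
theorem x2_zero (x : ℝ) : x2 x 0 = x := by unfold x2; ring
theorem x2_left (l : ℝ) : x2 (-(3 / 16)) l = -(3 / 16) := by unfold x2; rw [kf_left]; ring
theorem x2_right (l : ℝ) : x2 (13 / 16) l = 13 / 16 := by unfold x2; rw [kf_right]; ring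

theorem x2_mem {x l : ℝ} (h0 : 0 ≤ l) (h1 : l ≤ 1) (hx : -(3 / 16) ≤ x ∧ x ≤ 13 / 16) :
    -(3 / 16) ≤ x2 x l ∧ x2 x l ≤ 13 / 16 := by
  have h := (x2_mono h0 h1).monotone
  constructor
  · rw [← x2_left l]; exact h hx.1
  · rw [← x2_right l]; exact h hx.2

theorem exists_x2 {l y : ℝ} (h0 : 0 ≤ l) (h1 : l ≤ 1) (hy : -(3 / 16) ≤ y ∧ y ≤ 13 / 16) :
    ∃ x, (-(3 / 16) ≤ x ∧ x ≤ 13 / 16) ∧ x2 x l = y := by
  have hc : Continuous fun x => x2 x l := by
    unfold x2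
    exact (continuous_const.mul continuous_id).add (continuous_const.mul continuous_kf)
  have := intermediate_value_Icc (by norm_num : (-(3 / 16) : ℝ) ≤ 13 / 16) hc.continuousOn
  rw [x2_left, x2_right] at this
  obtain ⟨x, hx, hxy⟩ := this hy
  exact ⟨x, hx, hxy⟩

theorem continuous_unf {A : Type*} [TopologicalSpace A] {s t : A → Bool} {m x : A → ℝ}
    (hs : Continuous s) (ht : Continuous t) (hm : Continuous m) (hx : Continuous x) :
    Continuous fun a => unf (s a) (t a) (m a) (x a) := by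
  have hsg : Continuous sg := continuous_of_discreteTopology
  unfold unf
  exact ((hsg.comp hs).mul (hm.add (continuous_const.max hx))).prodMk
    ((hsg.comp ht).mul (hm.add (continuous_const.max hx.neg)))

theorem continuous_P1 : Continuous P1 := by
  unfold P1
  refine continuous_unf (by fun_prop) (by fun_prop) ?_ (by fun_prop)
  refine Continuous.add (by fun_prop) (Continuous.mul (by fun_prop) (continuous_const.max ?_))
  exact continuous_B1.comp (by fun_prop)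

theorem continuous_P2 : Continuous P2 := by
  have h : Continuous fun a : Strip => x2 a.2.2.1 a.2.2.2 := by
    unfold x2
    refine Continuous.add (by fun_prop) (Continuous.mul (by fun_prop) ?_)
    exact continuous_kf.comp (by fun_prop)
  unfold P2
  refine continuous_unf (by fun_prop) (by fun_prop) ?_ h
  refine Continuous.add (by fun_prop) (Continuous.mul (by fun_prop) (continuous_const.max ?_))
  exact continuous_B2.comp h

/-- the height for the parameter `l` and the bite `b` -/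
theorem ht_props {b l : ℝ} (hb : max 0 b < 1 / 8) (h0 : 0 ≤ l) (h1 : l ≤ 1) :
    0 ≤ (1 - l) / 8 + l * max 0 b ∧ (1 - l) / 8 + l * max 0 b ≤ 1 / 8 ∧
      max 0 b ≤ (1 - l) / 8 + l * max 0 b ∧
      ((1 - l) / 8 + l * max 0 b = 0 ↔ l = 1 ∧ max 0 b = 0) ∧
      ((1 - l) / 8 + l * max 0 b = b ↔ l = 1 ∧ 0 ≤ b) := by
  have hb0 := le_max_left 0 b
  have e1 : 0 ≤ l * max 0 b := mul_nonneg h0 hb0
  have e2 : l * max 0 b ≤ l * (1 / 8) := mul_le_mul_of_nonneg_left hb.le h0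
  have e3 : (1 - l) * max 0 b ≤ (1 - l) * (1 / 8) := mul_le_mul_of_nonneg_left hb.le (by linarith)
  refine ⟨by linarith, by linarith, by linarith, ⟨fun h => ?_, fun h => ?_⟩,
    ⟨fun h => ?_, fun h => ?_⟩⟩
  · have h2 : l = 1 := by linarith
    subst h2
    exact ⟨rfl, by linarith⟩
  · rw [h.1, h.2]; norm_num
  · have h3 : 0 ≤ b := by linarith
    rw [max_eq_right h3] at h hb
    have h4 : (1 - l) * (1 / 8 - b) = 0 := by linarith
    rcases mul_eq_zero.1 h4 with h5 | h5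
    · exact ⟨by linarith, h3⟩
    · linarith
  · rw [h.1, max_eq_right h.2]; ring

theorem ht_inj {b l l' : ℝ} (hb : max 0 b < 1 / 8)
    (h : (1 - l) / 8 + l * max 0 b = (1 - l') / 8 + l' * max 0 b) : l = l' := by
  have : (l - l') * (1 / 8 - max 0 b) = 0 := by linarith
  rcases mul_eq_zero.1 this with h1 | h1
  · linarith
  · linarith

theorem exists_ht {b m : ℝ} (hb : max 0 b < 1 / 8) (h0 : max 0 b ≤ m) (h1 : m ≤ 1 / 8) :
    ∃ l, (0 ≤ l ∧ l ≤ 1) ∧ (1 - l) / 8 + l * max 0 b = m := by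
  have h2 : 0 < 1 / 8 - max 0 b := by linarith
  refine ⟨(1 / 8 - m) / (1 / 8 - max 0 b), ⟨?_, ?_⟩, ?_⟩
  · exact div_nonneg (by linarith) h2.le
  · rw [div_le_one h2]; linarith
  · have e : (1 / 8 - m) / (1 / 8 - max 0 b) * (1 / 8 - max 0 b) = 1 / 8 - m :=
      div_mul_cancel₀ _ h2.ne'
    linarith

theorem hb1 (x : ℝ) : max 0 (B1 x) < 1 / 8 :=
  max_lt (by norm_num) ((B1_le x).trans_lt (by norm_num))
theorem hb2 (x : ℝ) : max 0 (B2 x) < 1 / 8 :=
  max_lt (by norm_num) ((B2_le x).trans_lt (by norm_num))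

/-- the fibres of the first presentation -/
theorem P1_eq {s t s' t' : Bool} {x l x' l' : ℝ} (h : (s, t, x, l) ∈ St)
    (h' : (s', t', x', l') ∈ St) :
    P1 (s, t, x, l) = P1 (s', t', x', l') ↔ x = x' ∧ l = l' ∧
      (s = s' ∨ (l = 1 ∧ x ≤ 0)) ∧
      (t = t' ∨ (l = 1 ∧ ((0 ≤ x ∧ x ≤ 1 / 4) ∨ 3 / 4 ≤ x))) := by
  rw [mem_St] at h h'
  obtain ⟨h1, h2, h3, h4, -⟩ := ht_props (hb1 x) h.2.1 h.2.2
  obtain ⟨h1', h2', h3', h4', -⟩ := ht_props (hb1 x') h'.2.1 h'.2.2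
  unfold P1
  simp only
  rw [unf_eq h1 h1', h4, max_B1_zero]
  constructor
  · rintro ⟨e1, rfl, e2, e3⟩
    have e4 := ht_inj (hb1 x) e1
    subst e4
    refine ⟨rfl, rfl, ?_, ?_⟩
    · rcases e2 with e2 | ⟨⟨e2, -⟩, e5⟩
      · exact Or.inl e2
      · exact Or.inr ⟨e2, e5⟩
    · rcases e3 with e3 | ⟨⟨e3, e4⟩, e5⟩
      · exact Or.inl e3
      · refine Or.inr ⟨e3, ?_⟩
        rcases e4 with e4 | e4
        · exact Or.inl ⟨e5, e4⟩
        · exact Or.inr e4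
  · rintro ⟨rfl, rfl, e2, e3⟩
    refine ⟨rfl, rfl, ?_, ?_⟩
    · rcases e2 with e2 | ⟨e2, e5⟩
      · exact Or.inl e2
      · exact Or.inr ⟨⟨e2, Or.inl (by linarith)⟩, e5⟩
    · rcases e3 with e3 | ⟨e3, e4⟩
      · exact Or.inl e3
      · rcases e4 with e4 | e4
        · exact Or.inr ⟨⟨e3, Or.inl e4.2⟩, e4.1⟩
        · exact Or.inr ⟨⟨e3, Or.inr e4⟩, by linarith⟩

theorem kf_le_iff {x y : ℝ} : kf x ≤ kf y ↔ x ≤ y := kf_mono.le_iff_le

/-- the fibres of the second presentation -/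
theorem P2_eq {s t s' t' : Bool} {x l x' l' : ℝ} (h : (s, t, x, l) ∈ St)
    (h' : (s', t', x', l') ∈ St) :
    P2 (s, t, x, l) = P2 (s', t', x', l') ↔ x = x' ∧ l = l' ∧
      (s = s' ∨ (l = 1 ∧ (x ≤ 0 ∨ (1 / 4 ≤ x ∧ x ≤ 3 / 4)))) ∧
      (t = t' ∨ (l = 1 ∧ 3 / 4 ≤ x)) := by
  rw [mem_St] at h h'
  obtain ⟨h1, h2, h3, h4, -⟩ := ht_props (hb2 (x2 x l)) h.2.1 h.2.2
  obtain ⟨h1', h2', h3', h4', -⟩ := ht_props (hb2 (x2 x' l')) h'.2.1 h'.2.2
  unfold P2
  simp only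
  rw [unf_eq h1 h1', h4, max_B2_zero]
  constructor
  · rintro ⟨e1, e0, e2, e3⟩
    rw [e0] at e1
    have e4 := ht_inj (hb2 _) e1
    subst e4
    have e5 := (x2_mono h.2.1 h.2.2).injective e0
    subst e5
    refine ⟨rfl, rfl, ?_, ?_⟩
    · rcases e2 with e2 | ⟨⟨e2, e6⟩, e5⟩
      · exact Or.inl e2
      · right
        subst e2
        rw [x2_one] at e6 e5
        refine ⟨rfl, ?_⟩
        rcases e6 with e6 | e6
        · left
          rw [← kf_zero, kf_le_iff] at e6; exact e6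
        · right
          rw [← kf_quarter, kf_le_iff] at e6
          rw [← kf_three, kf_le_iff] at e5
          exact ⟨e6, e5⟩
    · rcases e3 with e3 | ⟨⟨e3, e4⟩, e5⟩
      · exact Or.inl e3
      · right
        subst e3
        rw [x2_one, ← kf_three, kf_le_iff] at e5
        exact ⟨rfl, e5⟩
  · rintro ⟨rfl, rfl, e2, e3⟩
    refine ⟨rfl, rfl, ?_, ?_⟩
    · rcases e2 with e2 | ⟨rfl, e6⟩
      · exact Or.inl e2
      · right
        rw [x2_one]
        rcases e6 with e6 | e6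
        · have := kf_le_iff.2 e6
          rw [kf_zero] at this
          exact ⟨⟨rfl, Or.inl this⟩, by linarith⟩
        · have e7 := kf_le_iff.2 e6.1
          have e8 := kf_le_iff.2 e6.2
          rw [kf_quarter] at e7
          rw [kf_three] at e8
          exact ⟨⟨rfl, Or.inr e7⟩, e8⟩
    · rcases e3 with e3 | ⟨rfl, e4⟩
      · exact Or.inl e3
      · right
        rw [x2_one]
        have := kf_le_iff.2 e4
        rw [kf_three] at this
        exact ⟨⟨rfl, Or.inr (by linarith)⟩, this⟩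

/-- Reflections. -/
def mir1 (y : ℝ × ℝ) : ℝ × ℝ := (-y.1, y.2)
/-- Reflections. -/
def mir2 (y : ℝ × ℝ) : ℝ × ℝ := (y.1, -y.2)

theorem mir1_mir1 (y : ℝ × ℝ) : mir1 (mir1 y) = y := by
  unfold mir1; simp
theorem mir2_mir2 (y : ℝ × ℝ) : mir2 (mir2 y) = y := by
  unfold mir2; simp
theorem mm_mir1 (y : ℝ × ℝ) : mm (mir1 y) = mm y := by
  unfold mir1 mm; simp
theorem dd_mir1 (y : ℝ × ℝ) : dd (mir1 y) = dd y := by
  unfold mir1 dd; simp
theorem mm_mir2 (y : ℝ × ℝ) : mm (mir2 y) = mm y := by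
  unfold mir2 mm; simp
theorem dd_mir2 (y : ℝ × ℝ) : dd (mir2 y) = dd y := by
  unfold mir2 dd; simp

theorem mir1_unf (s t : Bool) (m x : ℝ) : mir1 (unf s t m x) = unf (!s) t m x := by
  unfold mir1 unf; rw [sg_not]; simp
theorem mir2_unf (s t : Bool) (m x : ℝ) : mir2 (unf s t m x) = unf s (!t) m x := by
  unfold mir2 unf; rw [sg_not]; simp

theorem P1_mir (s t : Bool) (x l : ℝ) : mir1 (P1 (s, t, x, l)) = P1 (!s, t, x, l) := by
  unfold P1; exact mir1_unf _ _ _ _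
theorem P2_mir (s t : Bool) (x l : ℝ) : mir2 (P2 (s, t, x, l)) = P2 (s, !t, x, l) := by
  unfold P2; exact mir2_unf _ _ _ _

/-- The complement of the open discs in the first presentation. -/
def R1 : Set (ℝ × ℝ) := {y | y ∈ Cr ∧ B1 (dd y) ≤ mm y}
/-- The complement of the open discs in the second presentation. -/
def R2 : Set (ℝ × ℝ) := {y | y ∈ Cr ∧ B2 (dd y) ≤ mm y}

theorem P1_image : P1 '' St = R1 := by
  apply Subset.antisymm
  · rintro _ ⟨⟨s, t, x, l⟩, h, rfl⟩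
    rw [mem_St] at h
    obtain ⟨h1, h2, h3, -⟩ := ht_props (hb1 x) h.2.1 h.2.2
    unfold R1 Cr P1
    simp only [mem_ofPred_eq]
    rw [unf_mm h1, unf_dd h1]
    exact ⟨⟨h2, h.1⟩, (le_max_right _ _).trans h3⟩
  · rintro y ⟨⟨h1, h2, h3⟩, h4⟩
    obtain ⟨s, t, hst⟩ := exists_unf y
    obtain ⟨l, hl, hl'⟩ := exists_ht (hb1 (dd y)) (max_le (mm_nonneg y) h4) h1
    refine ⟨(s, t, dd y, l), mem_St.2 ⟨⟨h2, h3⟩, hl⟩, ?_⟩
    unfold P1
    simp only
    rw [hl', ← hst]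

theorem P2_image : P2 '' St = R2 := by
  apply Subset.antisymm
  · rintro _ ⟨⟨s, t, x, l⟩, h, rfl⟩
    rw [mem_St] at h
    obtain ⟨h1, h2, h3, -⟩ := ht_props (hb2 (x2 x l)) h.2.1 h.2.2
    unfold R2 Cr P2
    simp only [mem_ofPred_eq]
    rw [unf_mm h1, unf_dd h1]
    exact ⟨⟨h2, x2_mem h.2.1 h.2.2 h.1⟩, (le_max_right _ _).trans h3⟩
  · rintro y ⟨⟨h1, h2, h3⟩, h4⟩
    obtain ⟨s, t, hst⟩ := exists_unf y
    obtain ⟨l, hl, hl'⟩ := exists_ht (hb2 (dd y)) (max_le (mm_nonneg y) h4) h1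
    obtain ⟨x, hx, hx'⟩ := exists_x2 hl.1 hl.2 ⟨h2, h3⟩
    refine ⟨(s, t, x, l), mem_St.2 ⟨hx, hl⟩, ?_⟩
    unfold P2
    simp only
    rw [hx', hl', ← hst]

theorem bd_of_P2 {s t : Bool} {x l : ℝ} (h : (s, t, x, l) ∈ St)
    (h' : P2 (s, t, x, l) ∉ Cro) : l = 0 ∨ x = -(3 / 16) ∨ x = 13 / 16 := by
  rw [mem_St] at h
  obtain ⟨h1, h2, h3, -⟩ := ht_props (hb2 (x2 x l)) h.2.1 h.2.2
  obtain ⟨h4, h5⟩ := x2_mem h.2.1 h.2.2 h.1
  unfold P2 Cro at h'
  simp only [mem_ofPred_eq] at h'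
  rw [unf_mm h1, unf_dd h1] at h'
  by_contra hcon
  push Not at hcon
  obtain ⟨g1, g2, g3⟩ := hcon
  apply h'
  refine ⟨?_, ?_, ?_⟩
  · have e1 : 0 < l := lt_of_le_of_ne h.2.1 (Ne.symm g1)
    have e2 : l * max 0 (B2 (x2 x l)) < l * (1 / 8) := mul_lt_mul_of_pos_left (hb2 _) e1
    linarith
  · rw [← x2_left l]
    exact x2_mono h.2.1 h.2.2 (lt_of_le_of_ne h.1.1 (Ne.symm g2))
  · rw [← x2_right l]
    exact x2_mono h.2.1 h.2.2 (lt_of_le_of_ne h.1.2 g3)

theorem bd_of_P1 {s t : Bool} {x l : ℝ} (h : (s, t, x, l) ∈ St)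
    (h' : P1 (s, t, x, l) ∉ Cro) : l = 0 ∨ x = -(3 / 16) ∨ x = 13 / 16 := by
  rw [mem_St] at h
  obtain ⟨h1, h2, h3, -⟩ := ht_props (hb1 x) h.2.1 h.2.2
  unfold P1 Cro at h'
  simp only [mem_ofPred_eq] at h'
  rw [unf_mm h1, unf_dd h1] at h'
  by_contra hcon
  push Not at hcon
  obtain ⟨g1, g2, g3⟩ := hcon
  apply h'
  refine ⟨?_, ?_, ?_⟩
  · have e1 : 0 < l := lt_of_le_of_ne h.2.1 (Ne.symm g1)
    have e2 : l * max 0 (B1 x) < l * (1 / 8) := mul_lt_mul_of_pos_left (hb1 _) e1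
    linarith
  · exact lt_of_le_of_ne h.1.1 (Ne.symm g2)
  · exact lt_of_le_of_ne h.1.2 g3

theorem P1_eq_P2_of {s t : Bool} {x l : ℝ} (h : l = 0 ∨ x = -(3 / 16) ∨ x = 13 / 16) :
    P1 (s, t, x, l) = P2 (s, t, x, l) := by
  unfold P1 P2
  simp only
  rcases h with rfl | rfl | rfl
  · rw [x2_zero]; simp
  · rw [x2_left]
    have e1 : max 0 (B1 (-(3 / 16))) = 0 := max_B1_zero.2 (Or.inl (by norm_num))
    have e2 : max 0 (B2 (-(3 / 16))) = 0 := max_B2_zero.2 (Or.inl (by norm_num))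
    rw [e1, e2]
  · rw [x2_right]
    have e1 : max 0 (B1 (13 / 16)) = 0 := max_B1_zero.2 (Or.inr (by norm_num))
    have e2 : max 0 (B2 (13 / 16)) = 0 := max_B2_zero.2 (Or.inr (by norm_num))
    rw [e1, e2]

theorem P1_bd {s t : Bool} {x l : ℝ} (h : (s, t, x, l) ∈ St) :
    mm (P1 (s, t, x, l)) = B1 (dd (P1 (s, t, x, l))) ↔ l = 1 ∧ 1 / 4 ≤ x ∧ x ≤ 3 / 4 := by
  rw [mem_St] at h
  obtain ⟨h1, h2, h3, h4, h5⟩ := ht_props (hb1 x) h.2.1 h.2.2
  unfold P1
  simp only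
  rw [unf_mm h1, unf_dd h1, h5, B1_nonneg]

theorem P2_bd {s t : Bool} {x l : ℝ} (h : (s, t, x, l) ∈ St) :
    mm (P2 (s, t, x, l)) = B2 (dd (P2 (s, t, x, l))) ↔ l = 1 ∧ 0 ≤ x ∧ x ≤ 1 / 4 := by
  rw [mem_St] at h
  obtain ⟨h1, h2, h3, h4, h5⟩ := ht_props (hb2 (x2 x l)) h.2.1 h.2.2
  unfold P2
  simp only
  rw [unf_mm h1, unf_dd h1, h5, B2_nonneg]
  refine and_congr_right ?_
  rintro rfl
  rw [x2_one, ← kf_zero, ← kf_quarter, kf_le_iff, kf_le_iff]

/-- **The comparison of the two presentations.** -/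
theorem strips {a b : Strip} (ha : a ∈ St) (hb : b ∈ St) :
    (P1 a = P1 b ∨ (mm (P1 a) = B1 (dd (P1 a)) ∧ P1 b = mir1 (P1 a))) ↔
      (P2 a = P2 b ∨ (mm (P2 a) = B2 (dd (P2 a)) ∧ P2 b = mir2 (P2 a))) := by
  obtain ⟨s, t, x, l⟩ := a
  obtain ⟨s', t', x', l'⟩ := b
  have ha' : (!s, t, x, l) ∈ St := by rw [mem_St] at ha ⊢; exact ha
  have ha'' : (s, !t, x, l) ∈ St := by rw [mem_St] at ha ⊢; exact ha
  rw [P1_bd ha, P2_bd ha, P1_mir, P2_mir, P1_eq ha hb, P2_eq ha hb, P1_eq hb ha', P2_eq hb ha'']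
  have hs : s = s' ∨ s' = !s := by cases s <;> cases s' <;> simp
  have ht : t = t' ∨ t' = !t := by cases t <;> cases t' <;> simp
  constructor
  · rintro (⟨rfl, rfl, e1, e2⟩ | ⟨⟨e0, e3, e4⟩, rfl, rfl, e1, e2⟩)
    · rcases e1 with rfl | ⟨rfl, e1⟩
      · rcases e2 with rfl | ⟨rfl, e2 | e2⟩
        · exact Or.inl ⟨rfl, rfl, Or.inl rfl, Or.inl rfl⟩
        · rcases ht with rfl | ht
          · exact Or.inl ⟨rfl, rfl, Or.inl rfl, Or.inl rfl⟩
          · exact Or.inr ⟨⟨rfl, e2⟩, rfl, rfl, Or.inl rfl, Or.inl ht⟩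
        · exact Or.inl ⟨rfl, rfl, Or.inl rfl, Or.inr ⟨rfl, e2⟩⟩
      · rcases e2 with rfl | ⟨-, e2 | e2⟩
        · exact Or.inl ⟨rfl, rfl, Or.inr ⟨rfl, Or.inl e1⟩, Or.inl rfl⟩
        · rcases ht with rfl | ht
          · exact Or.inl ⟨rfl, rfl, Or.inr ⟨rfl, Or.inl e1⟩, Or.inl rfl⟩
          · exact Or.inr ⟨⟨rfl, e2⟩, rfl, rfl, Or.inr ⟨rfl, Or.inl e1⟩, Or.inl ht⟩
        · exfalso; linarith
    · subst e0
      rcases e2 with rfl | ⟨-, e2 | e2⟩
      · exact Or.inl ⟨rfl, rfl, Or.inr ⟨rfl, Or.inr ⟨e3, e4⟩⟩, Or.inl rfl⟩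
      · -- `x = 1 / 4`
        rcases ht with rfl | ht
        · exact Or.inl ⟨rfl, rfl, Or.inr ⟨rfl, Or.inr ⟨e3, e4⟩⟩, Or.inl rfl⟩
        · exact Or.inr ⟨⟨rfl, e2⟩, rfl, rfl, Or.inr ⟨rfl, Or.inr ⟨e3, e4⟩⟩, Or.inl ht⟩
      · exact Or.inl ⟨rfl, rfl, Or.inr ⟨rfl, Or.inr ⟨e3, e4⟩⟩, Or.inr ⟨rfl, e2⟩⟩
  · rintro (⟨rfl, rfl, e1, e2⟩ | ⟨⟨e0, e3, e4⟩, rfl, rfl, e1, e2⟩)
    · rcases e1 with rfl | ⟨rfl, e1 | e1⟩
      · rcases e2 with rfl | ⟨rfl, e2⟩
        · exact Or.inl ⟨rfl, rfl, Or.inl rfl, Or.inl rfl⟩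
        · exact Or.inl ⟨rfl, rfl, Or.inl rfl, Or.inr ⟨rfl, Or.inr e2⟩⟩
      · rcases e2 with rfl | ⟨-, e2⟩
        · exact Or.inl ⟨rfl, rfl, Or.inr ⟨rfl, e1⟩, Or.inl rfl⟩
        · exfalso; linarith
      · rcases hs with rfl | hs
        · rcases e2 with rfl | ⟨-, e2⟩
          · exact Or.inl ⟨rfl, rfl, Or.inl rfl, Or.inl rfl⟩
          · exact Or.inl ⟨rfl, rfl, Or.inl rfl, Or.inr ⟨rfl, Or.inr e2⟩⟩
        · rcases e2 with rfl | ⟨-, e2⟩
          · exact Or.inr ⟨⟨rfl, e1⟩, rfl, rfl, Or.inl hs, Or.inl rfl⟩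
          · exact Or.inr ⟨⟨rfl, e1⟩, rfl, rfl, Or.inl hs, Or.inr ⟨rfl, Or.inr e2⟩⟩
    · subst e0
      rcases hs with rfl | hs
      · exact Or.inl ⟨rfl, rfl, Or.inl rfl, Or.inr ⟨rfl, Or.inl ⟨e3, e4⟩⟩⟩
      · rcases e1 with e1 | ⟨-, e1 | e1⟩
        · exfalso
          rw [hs] at e1
          cases s <;> simp at e1
        · exact Or.inl ⟨rfl, rfl, Or.inr ⟨rfl, e1⟩, Or.inr ⟨rfl, Or.inl ⟨e3, e4⟩⟩⟩
        · refine Or.inr ⟨⟨rfl, e1⟩, rfl, rfl, Or.inl hs, ?_⟩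
          exact Or.inr ⟨rfl, Or.inl ⟨e3, e4⟩⟩

/-! ### The discs -/

/-- the discs of the first presentation -/
def ε1 (b : Bool) (v : ℝ × ℝ) : ℝ × ℝ :=
  (sg b * (1 / 2 + v.1 * (1 / 4 - 7 * |v.2| / 32)), 7 * v.2 / 64)

/-- the discs of the second presentation -/
def ε2 (b : Bool) (v : ℝ × ℝ) : ℝ × ℝ :=
  ((v.1 + v.2) / 32, sg b * (3 / 32 + |v.1 + v.2| / 32 + (v.1 - v.2) / 64))

theorem continuous_ε1 (b : Bool) : Continuous (ε1 b) := by unfold ε1; fun_prop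
theorem continuous_ε2 (b : Bool) : Continuous (ε2 b) := by unfold ε2; fun_prop

theorem abs_add_sub (x y : ℝ) : |x + y| + |x - y| = 2 * max |x| |y| := by
  rcases le_total |x| |y| with h | h
  · rw [max_eq_right h]
    rcases le_total 0 y with h1 | h1
    · rw [abs_of_nonneg h1] at h ⊢
      obtain ⟨h2, h3⟩ := abs_le.1 h
      rw [abs_of_nonneg (by linarith), abs_of_nonpos (by linarith)]; ring
    · rw [abs_of_nonpos h1] at h ⊢
      obtain ⟨h2, h3⟩ := abs_le.1 h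
      rw [abs_of_nonpos (by linarith), abs_of_nonneg (by linarith)]; ring
  · rw [max_eq_left h]
    rcases le_total 0 x with h1 | h1
    · rw [abs_of_nonneg h1] at h ⊢
      obtain ⟨h2, h3⟩ := abs_le.1 h
      rw [abs_of_nonneg (by linarith), abs_of_nonneg (by linarith)]; ring
    · rw [abs_of_nonpos h1] at h ⊢
      obtain ⟨h2, h3⟩ := abs_le.1 h
      rw [abs_of_nonpos (by linarith), abs_of_nonpos (by linarith)]; ring

theorem mir1_ε1 (b : Bool) (v : ℝ × ℝ) : mir1 (ε1 b v) = ε1 (!b) v := by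
  unfold mir1 ε1; rw [sg_not]; simp
theorem mir2_ε2 (b : Bool) (v : ℝ × ℝ) : mir2 (ε2 b v) = ε2 (!b) v := by
  unfold mir2 ε2; rw [sg_not]; simp

theorem ε2_props {b : Bool} {v : ℝ × ℝ} (hv : v ∈ disc) :
    0 < sg b * (ε2 b v).2 ∧ dd (ε2 b v) = -(3 / 32) - (v.1 - v.2) / 64 ∧
      mm (ε2 b v) = |v.1 + v.2| / 32 ∧
      mm (ε2 b v) - B2 (dd (ε2 b v)) = (max |v.1| |v.2| - 1) / 16 := by
  obtain ⟨h1, h2⟩ := mem_disc.1 hv
  obtain ⟨h3, h4⟩ := abs_le.1 h1
  obtain ⟨h5, h6⟩ := abs_le.1 h2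
  have h0 := abs_nonneg (v.1 + v.2)
  have hpos : 0 < 3 / 32 + |v.1 + v.2| / 32 + (v.1 - v.2) / 64 := by linarith
  have e1 : |(ε2 b v).1| = |v.1 + v.2| / 32 := by
    unfold ε2; simp only; rw [abs_div, abs_of_pos (by norm_num : (0 : ℝ) < 32)]
  have e2 : |(ε2 b v).2| = 3 / 32 + |v.1 + v.2| / 32 + (v.1 - v.2) / 64 := by
    unfold ε2; simp only; rw [abs_mul, abs_sg, one_mul, abs_of_pos hpos]
  have e3 : dd (ε2 b v) = -(3 / 32) - (v.1 - v.2) / 64 := by
    unfold dd; rw [e1, e2]; ring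
  have e4 : mm (ε2 b v) = |v.1 + v.2| / 32 := by
    unfold mm; rw [e1, e2]; exact min_eq_left (by linarith)
  refine ⟨?_, e3, e4, ?_⟩
  · unfold ε2
    simp only
    rw [← mul_assoc, sg_sq, one_mul]; exact hpos
  · rw [e4, e3]
    unfold B2
    have e5 : |-(3 / 32) - (v.1 - v.2) / 64 + 3 / 32| = |v.1 - v.2| / 64 := by
      rw [show -(3 / 32) - (v.1 - v.2) / 64 + 3 / 32 = -((v.1 - v.2) / 64) by ring, abs_neg,
        abs_div, abs_of_pos (by norm_num : (0 : ℝ) < 64)]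
    rw [e5]
    have := abs_add_sub v.1 v.2
    linarith

end

end Pool.Agent.H72.Tri
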