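import Pool.Agent.H72.Tri.Ex3

/-!
# The discs in the two presentations, and the swap
-/

open Set Topology Metric

namespace Pool.Agent.H72.Tri

noncomputable section

theorem exists_ε2 {b : Bool} {y : ℝ × ℝ} (h : mm y ≤ B2 (dd y)) (h' : 0 < sg b * y.2) :
    ∃ v ∈ disc, y = ε2 b v := by
  obtain ⟨h1, h2⟩ := B2_nonneg.1 ((mm_nonneg y).trans h)
  have e1 : mm y = |y.1| := by
    unfold mm; refine min_eq_left ?_
    unfold dd at h2; linarith
  rw [e1] at h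
  unfold B2 at h
  have e2 := abs_add_sub (16 * y.1 - 32 * (dd y + 3 / 32)) (16 * y.1 + 32 * (dd y + 3 / 32))
  have e3 : 16 * y.1 - 32 * (dd y + 3 / 32) + (16 * y.1 + 32 * (dd y + 3 / 32)) = 32 * y.1 := by
    ring
  have e4 : 16 * y.1 - 32 * (dd y + 3 / 32) - (16 * y.1 + 32 * (dd y + 3 / 32)) =
    -(64 * (dd y + 3 / 32)) := by ring
  rw [e3, e4, abs_neg, abs_mul, abs_mul, abs_of_pos (by norm_num : (0 : ℝ) < 32),
    abs_of_pos (by norm_num : (0 : ℝ) < 64)] at e2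
  refine ⟨(16 * y.1 - 32 * (dd y + 3 / 32), 16 * y.1 + 32 * (dd y + 3 / 32)), ?_, ?_⟩
  · rw [mem_disc]
    simp only
    constructor
    · refine (le_max_left _ |16 * y.1 + 32 * (dd y + 3 / 32)|).trans ?_
      linarith
    · refine (le_max_right |16 * y.1 - 32 * (dd y + 3 / 32)| _).trans ?_
      linarith
  · unfold ε2
    simp only
    rw [e3, e4]
    refine Prod.ext (by simp only; ring) ?_
    simp only
    have e5 : |32 * y.1| = 32 * |y.1| := by rw [abs_mul, abs_of_pos (by norm_num : (0 : ℝ) < 32)]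
    rw [e5]
    have e6 : |y.2| = sg b * y.2 := abs_eq_of_sg h'
    have e7 : 3 / 32 + 32 * |y.1| / 32 + -(64 * (dd y + 3 / 32)) / 64 = |y.2| := by
      unfold dd; ring
    rw [e7, e6, ← mul_assoc, sg_sq, one_mul]

theorem ε2_inj {b c : Bool} {v w : ℝ × ℝ} (hv : v ∈ disc) (hw : w ∈ disc)
    (h : ε2 b v = ε2 c w) : b = c ∧ v = w := by
  obtain ⟨h1, h2, -, -⟩ := ε2_props (b := b) hv
  obtain ⟨h1', h2', -, -⟩ := ε2_props (b := c) hw
  rw [h] at h1 h2
  have e1 : b = c := by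
    cases b <;> cases c
    · rfl
    · rw [sg_false] at h1; rw [sg_true] at h1'; linarith
    · rw [sg_true] at h1; rw [sg_false] at h1'; linarith
    · rfl
  have e2 : v.1 + v.2 = w.1 + w.2 := by
    have := congrArg Prod.fst h
    unfold ε2 at this
    simp only at this
    linarith
  have e3 : v.1 - v.2 = w.1 - w.2 := by linarith
  exact ⟨e1, Prod.ext (by linarith) (by linarith)⟩

theorem ε2_bd {b : Bool} {v : ℝ × ℝ} (hv : v ∈ disc) :
    mm (ε2 b v) = B2 (dd (ε2 b v)) ↔ v ∈ discBd := by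
  obtain ⟨-, -, -, h⟩ := ε2_props (b := b) hv
  rw [mem_discBd]
  constructor <;> intro h' <;> linarith

theorem ε2_int {b : Bool} {v : ℝ × ℝ} (hv : v ∈ disc) :
    mm (ε2 b v) < B2 (dd (ε2 b v)) ↔ v ∈ discInt := by
  obtain ⟨-, -, -, h⟩ := ε2_props (b := b) hv
  rw [mem_discInt, ← max_lt_iff]
  constructor <;> intro h' <;> linarith

theorem ε2_image (b : Bool) : ε2 b '' discInt = {y | mm y < B2 (dd y) ∧ 0 < sg b * y.2} := by
  ext y
  constructor
  · rintro ⟨v, hv, rfl⟩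
    exact ⟨(ε2_int (discInt_subset hv)).2 hv, (ε2_props (discInt_subset hv)).1⟩
  · rintro ⟨h1, h2⟩
    obtain ⟨v, hv, rfl⟩ := exists_ε2 h1.le h2
    exact ⟨v, (ε2_int hv).1 h1, rfl⟩

theorem ε2_open (b : Bool) : IsOpen (ε2 b '' discInt) := by
  rw [ε2_image]
  have o2 : IsOpen {y : ℝ × ℝ | 0 < sg b * y.2} := isOpen_lt continuous_const (by fun_prop)
  exact (isOpen_lt continuous_mm (continuous_B2.comp continuous_dd)).inter o2

theorem ε2_maps (b : Bool) : MapsTo (ε2 b) disc Cro := by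
  intro v hv
  obtain ⟨-, -, -, h⟩ := ε2_props (b := b) hv
  obtain ⟨h1, h2⟩ := mem_disc.1 hv
  have h3 : max |v.1| |v.2| ≤ 1 := max_le h1 h2
  have h4 : mm (ε2 b v) ≤ B2 (dd (ε2 b v)) := by linarith
  have h5 := B2_le (dd (ε2 b v))
  obtain ⟨h6, h7⟩ := B2_nonneg.1 ((mm_nonneg _).trans h4)
  exact ⟨by linarith, by linarith, by linarith⟩

theorem exists_sg {r : ℝ} (h : r ≠ 0) : ∃ b, 0 < sg b * r := by
  rcases lt_or_gt_of_ne h with h | h
  · exact ⟨false, by rw [sg_false]; linarith⟩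
  · exact ⟨true, by rw [sg_true]; linarith⟩

theorem snd_ne {y : ℝ × ℝ} (h : mm y ≤ B2 (dd y)) : y.2 ≠ 0 := by
  intro h0
  obtain ⟨h1, h2⟩ := B2_nonneg.1 ((mm_nonneg y).trans h)
  unfold dd at h2
  rw [h0, abs_zero] at h2
  have := abs_nonneg y.1
  linarith

theorem R2_eq : Cr \ ⋃ b, ε2 b '' discInt = R2 := by
  ext y
  simp only [mem_sdiff, mem_iUnion, not_exists, ε2_image, mem_ofPred_eq, R2]
  refine and_congr_right fun _ => ?_
  constructor
  · intro h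
    by_contra hcon
    push Not at hcon
    obtain ⟨b, hb⟩ := exists_sg (snd_ne hcon.le)
    exact h b ⟨hcon, hb⟩
  · rintro h b ⟨h1, -⟩
    linarith

theorem pair2 {x y : ℝ × ℝ} : (mm x = B2 (dd x) ∧ y = mir2 x) ↔
    ∃ b v, v ∈ discBd ∧ x = ε2 b v ∧ y = ε2 (!b) v := by
  constructor
  · rintro ⟨h1, rfl⟩
    obtain ⟨b, hb⟩ := exists_sg (snd_ne h1.le)
    obtain ⟨v, hv, rfl⟩ := exists_ε2 h1.le hb
    exact ⟨b, v, (ε2_bd hv).1 h1, rfl, mir2_ε2 b v⟩
  · rintro ⟨b, v, hv, rfl, rfl⟩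
    exact ⟨(ε2_bd (discBd_subset hv)).2 hv, (mir2_ε2 b v).symm⟩

/-! ### The discs of the first presentation -/

theorem ε1_props {b : Bool} {v : ℝ × ℝ} (hv : v ∈ disc) :
    0 < sg b * (ε1 b v).1 ∧ mm (ε1 b v) = 7 * |v.2| / 64 ∧
      dd (ε1 b v) = 1 / 2 + v.1 * (1 / 4 - 7 * |v.2| / 32) - 7 * |v.2| / 64 := by
  obtain ⟨h1, h2⟩ := mem_disc.1 hv
  obtain ⟨h3, h4⟩ := abs_le.1 h1
  have h0 := abs_nonneg v.2
  have hc : 0 < 1 / 4 - 7 * |v.2| / 32 := by linarith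
  have h5 : -(1 / 4 - 7 * |v.2| / 32) ≤ v.1 * (1 / 4 - 7 * |v.2| / 32) := by nlinarith
  have hpos : 0 < 1 / 2 + v.1 * (1 / 4 - 7 * |v.2| / 32) := by linarith
  have e1 : |(ε1 b v).1| = 1 / 2 + v.1 * (1 / 4 - 7 * |v.2| / 32) := by
    unfold ε1; simp only; rw [abs_mul, abs_sg, one_mul, abs_of_pos hpos]
  have e2 : |(ε1 b v).2| = 7 * |v.2| / 64 := by
    unfold ε1; simp only
    rw [abs_div, abs_mul, abs_of_pos (by norm_num : (0 : ℝ) < 64),
      abs_of_pos (by norm_num : (0 : ℝ) < 7)]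
  refine ⟨?_, ?_, ?_⟩
  · unfold ε1
    simp only
    rw [← mul_assoc, sg_sq, one_mul]; exact hpos
  · unfold mm; rw [e1, e2]; exact min_eq_right (by linarith)
  · unfold dd; rw [e1, e2]

theorem ε1_le {b : Bool} {v : ℝ × ℝ} (hv : v ∈ disc) : mm (ε1 b v) ≤ B1 (dd (ε1 b v)) := by
  obtain ⟨-, h1, h2⟩ := ε1_props (b := b) hv
  obtain ⟨h3, h4⟩ := mem_disc.1 hv
  obtain ⟨h5, h6⟩ := abs_le.1 h3
  have h0 := abs_nonneg v.2
  have hc : 0 < 1 / 4 - 7 * |v.2| / 32 := by linarith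
  rw [h1, h2]
  unfold B1
  rw [le_min_iff, le_min_iff]
  refine ⟨by linarith, ?_, ?_⟩
  · nlinarith
  · nlinarith

theorem ε1_int {b : Bool} {v : ℝ × ℝ} (hv : v ∈ disc) :
    mm (ε1 b v) < B1 (dd (ε1 b v)) ↔ v ∈ discInt := by
  obtain ⟨-, h1, h2⟩ := ε1_props (b := b) hv
  obtain ⟨h3, h4⟩ := mem_disc.1 hv
  obtain ⟨h5, h6⟩ := abs_le.1 h3
  have h0 := abs_nonneg v.2
  have hc : 0 < 1 / 4 - 7 * |v.2| / 32 := by linarith
  rw [h1, h2, mem_discInt]
  unfold B1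
  rw [lt_min_iff, lt_min_iff]
  constructor
  · rintro ⟨g1, g2, g3⟩
    refine ⟨abs_lt.2 ⟨?_, ?_⟩, by linarith⟩
    · by_contra hcon
      push Not at hcon
      have : v.1 = -1 := le_antisymm hcon h5
      rw [this] at g2
      linarith
    · by_contra hcon
      push Not at hcon
      have : v.1 = 1 := le_antisymm h6 hcon
      rw [this] at g3
      linarith
  · rintro ⟨g1, g2⟩
    obtain ⟨g3, g4⟩ := abs_lt.1 g1
    refine ⟨by linarith, ?_, ?_⟩
    · nlinarith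
    · nlinarith

theorem ε1_bd {b : Bool} {v : ℝ × ℝ} (hv : v ∈ disc) :
    mm (ε1 b v) = B1 (dd (ε1 b v)) ↔ v ∈ discBd := by
  have h1 := ε1_int (b := b) hv
  have h2 := ε1_le (b := b) hv
  constructor
  · intro h
    refine mem_discBd_of hv fun h' => ?_
    have := h1.2 h'
    linarith
  · intro h
    refine le_antisymm h2 ?_
    by_contra hcon
    push Not at hcon
    exact not_mem_discInt h (h1.1 hcon)

theorem exists_ε1 {b : Bool} {y : ℝ × ℝ} (h : mm y ≤ B1 (dd y)) (h' : 0 < sg b * y.1) :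
    ∃ v ∈ disc, y = ε1 b v := by
  obtain ⟨h1, h2⟩ := B1_nonneg.1 ((mm_nonneg y).trans h)
  have e1 : mm y = |y.2| := by
    unfold mm; refine min_eq_right ?_
    unfold dd at h1; linarith
  rw [e1] at h
  unfold B1 at h
  rw [le_min_iff, le_min_iff] at h
  obtain ⟨g1, g2, g3⟩ := h
  unfold dd at g2 g3
  have h0 := abs_nonneg y.2
  have hc : 0 < 1 / 4 - 2 * |y.2| := by linarith
  have e6 : |y.1| = sg b * y.1 := abs_eq_of_sg h'
  refine ⟨((|y.1| - 1 / 2) / (1 / 4 - 2 * |y.2|), 64 * y.2 / 7), ?_, ?_⟩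
  · rw [mem_disc]
    simp only
    constructor
    · rw [abs_div, abs_of_pos hc, div_le_one hc, abs_le]
      constructor <;> linarith
    · rw [abs_div, abs_mul, abs_of_pos (by norm_num : (0 : ℝ) < 64),
        abs_of_pos (by norm_num : (0 : ℝ) < 7)]
      linarith
  · unfold ε1
    simp only
    refine Prod.ext ?_ (by simp only; ring)
    simp only
    have e5 : |64 * y.2 / 7| = 64 * |y.2| / 7 := by
      rw [abs_div, abs_mul, abs_of_pos (by norm_num : (0 : ℝ) < 64),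
        abs_of_pos (by norm_num : (0 : ℝ) < 7)]
    rw [e5]
    have e7 : 1 / 4 - 7 * (64 * |y.2| / 7) / 32 = 1 / 4 - 2 * |y.2| := by ring
    rw [e7, div_mul_cancel₀ _ hc.ne', e6]
    have := sg_sq b
    linear_combination (-y.1) * this

theorem ε1_image (b : Bool) : ε1 b '' discInt = {y | mm y < B1 (dd y) ∧ 0 < sg b * y.1} := by
  ext y
  constructor
  · rintro ⟨v, hv, rfl⟩
    exact ⟨(ε1_int (discInt_subset hv)).2 hv, (ε1_props (discInt_subset hv)).1⟩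
  · rintro ⟨h1, h2⟩
    obtain ⟨v, hv, rfl⟩ := exists_ε1 h1.le h2
    exact ⟨v, (ε1_int hv).1 h1, rfl⟩

theorem ε1_open (b : Bool) : IsOpen (ε1 b '' discInt) := by
  rw [ε1_image]
  have o2 : IsOpen {y : ℝ × ℝ | 0 < sg b * y.1} := isOpen_lt continuous_const (by fun_prop)
  exact (isOpen_lt continuous_mm (continuous_B1.comp continuous_dd)).inter o2

theorem ε1_inj {b c : Bool} {v w : ℝ × ℝ} (hv : v ∈ disc) (hw : w ∈ disc)
    (h : ε1 b v = ε1 c w) : b = c ∧ v = w := by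
  obtain ⟨h1, -, -⟩ := ε1_props (b := b) hv
  obtain ⟨h1', -, -⟩ := ε1_props (b := c) hw
  rw [h] at h1
  have e1 : b = c := by
    cases b <;> cases c
    · rfl
    · rw [sg_false] at h1; rw [sg_true] at h1'; linarith
    · rw [sg_true] at h1; rw [sg_false] at h1'; linarith
    · rfl
  subst e1
  unfold ε1 at h
  simp only [Prod.mk.injEq] at h
  obtain ⟨e2, e3⟩ := h
  have e4 : v.2 = w.2 := by linarith
  obtain ⟨h3, h4⟩ := mem_disc.1 hv
  have h0 := abs_nonneg v.2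
  have hc : 0 < 1 / 4 - 7 * |v.2| / 32 := by linarith
  have hs : sg b ≠ 0 := by
    intro h
    have := sg_sq b
    rw [h] at this; norm_num at this
  have e5 := mul_left_cancel₀ hs e2
  rw [← e4] at e5
  have e6 : v.1 * (1 / 4 - 7 * |v.2| / 32) = w.1 * (1 / 4 - 7 * |v.2| / 32) := by linarith
  exact ⟨rfl, Prod.ext (mul_right_cancel₀ hc.ne' e6) e4⟩

theorem fst_ne {y : ℝ × ℝ} (h : mm y ≤ B1 (dd y)) : y.1 ≠ 0 := by
  intro h0
  obtain ⟨h1, h2⟩ := B1_nonneg.1 ((mm_nonneg y).trans h)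
  unfold dd at h1
  rw [h0, abs_zero] at h1
  have := abs_nonneg y.2
  linarith

theorem pair1 {x y : ℝ × ℝ} : (mm x = B1 (dd x) ∧ y = mir1 x) ↔
    ∃ b v, v ∈ discBd ∧ x = ε1 b v ∧ y = ε1 (!b) v := by
  constructor
  · rintro ⟨h1, rfl⟩
    obtain ⟨b, hb⟩ := exists_sg (fst_ne h1.le)
    obtain ⟨v, hv, rfl⟩ := exists_ε1 h1.le hb
    exact ⟨b, v, (ε1_bd hv).1 h1, rfl, mir1_ε1 b v⟩
  · rintro ⟨b, v, hv, rfl, rfl⟩
    exact ⟨(ε1_bd (discBd_subset hv)).2 hv, (mir1_ε1 b v).symm⟩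

/-! ### The swap -/

/-- The data of a chart around the two discs and an arc joining them. -/
structure SwapData {Y F : Type*} [TopologicalSpace Y] [TopologicalSpace F] (V : Handlebody Y 2)
    (p : Y → F) where
  N : ℝ × ℝ → Y
  N_cont : ContinuousOn N Cr
  N_inj : InjOn N Cr
  N_maps : MapsTo N Cr V.bd
  N_open : ∃ U, IsOpen U ∧ N '' Cro = U ∩ V.bd
  N_disj : ∀ i, Disjoint (N '' Cr) (V.curve i)
  p_cont : ContinuousOn p (V.bd \ N '' Cro)
  p_inj : InjOn p (V.bd \ N '' Cro)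
  pN_cont : ContinuousOn (fun y => p (N y)) R1
  pN_eq : ∀ x ∈ R1, ∀ y ∈ R1, (p (N x) = p (N y) ↔ x = y ∨ (mm x = B1 (dd x) ∧ y = mir1 x))
  pN_out : ∀ x ∈ R1, ∀ y ∈ V.bd \ N '' Cro, p (N x) = p y → y = N x
  surj : p '' (V.bd \ N '' Cro) ∪ (fun y => p (N y)) '' R1 = univ

/-- **The swap lemma.** -/
theorem SwapData.exists_pres {Y F : Type*} [TopologicalSpace Y] [T2Space Y] [TopologicalSpace F]
    {V : Handlebody Y 2} {p : Y → F} (D : SwapData V p) :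
    ∃ P : Pres F 3,
    (∀ i : Fin 2, P.r '' (P.e (i.castSucc, true) '' discBd) = p '' V.curve i) ∧
    P.r '' (P.e (2, true) '' discBd) = p '' (D.N '' {y | |y.1| ≤ 1 / 4 ∧ y.2 = 0}) := by
  have hP1 : ∀ a ∈ St, P1 a ∈ R1 := fun a ha => by rw [← P1_image]; exact ⟨a, ha, rfl⟩
  have hP2 : ∀ a ∈ St, P2 a ∈ R2 := fun a ha => by rw [← P2_image]; exact ⟨a, ha, rfl⟩
  have hkey : ∀ a ∈ St, ∀ b ∈ St, (p (D.N (P1 a)) = p (D.N (P1 b)) ↔
      (P2 a = P2 b ∨ (mm (P2 a) = B2 (dd (P2 a)) ∧ P2 b = mir2 (P2 a)))) := by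
    intro a ha b hb
    rw [D.pN_eq _ (hP1 a ha) _ (hP1 b hb), strips ha hb]
  have : Nonempty F := ⟨p (D.N (0, 0))⟩
  obtain ⟨G, Gc, Ge⟩ := descend isCompact_St (f := P2) (g := fun a => p (D.N (P1 a)))
    continuous_P2.continuousOn (D.pN_cont.comp continuous_P1.continuousOn hP1)
    (fun a ha b hb h => (hkey a ha b hb).2 (Or.inl h))
  rw [P2_image] at Gc
  have hrep : ∀ x ∈ R2, ∃ a ∈ St, P2 a = x := fun x hx => by rw [← P2_image] at hx; exact hx
  have hsubR : R2 ⊆ Cr := fun x hx => hx.1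
  have key : ∀ x ∈ R2, ∀ y ∈ R2, (G x = G y ↔ x = y ∨ ∃ b v, v ∈ discBd ∧ x = ε2 b v ∧
      y = ε2 (!b) v) := by
    intro x hx y hy
    obtain ⟨a, ha, rfl⟩ := hrep x hx
    obtain ⟨b, hb, rfl⟩ := hrep y hy
    rw [Ge a ha, Ge b hb, hkey a ha b hb, pair2]
  have hGbd : ∀ x ∈ Cr \ Cro, G x = p (D.N x) := by
    rintro x ⟨hx, hx'⟩
    have hxR : x ∈ R2 := by
      rw [← R2_eq]
      refine ⟨hx, fun h => hx' ?_⟩
      obtain ⟨b, v, hv, rfl⟩ := mem_iUnion.1 h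
      exact ε2_maps b (discInt_subset hv)
    obtain ⟨⟨s, t, z, l⟩, ha, rfl⟩ := hrep x hxR
    rw [Ge _ ha, P1_eq_P2_of (bd_of_P2 ha hx')]
  have hGout : ∀ x ∈ R2, ∀ y ∈ V.bd \ D.N '' Cro, G x = p y → y = D.N x := by
    intro x hx y hy h
    obtain ⟨⟨s, t, z, l⟩, ha, rfl⟩ := hrep x hx
    rw [Ge _ ha] at h
    have h1 := D.pN_out _ (hP1 _ ha) y hy h
    have h2 : P1 (s, t, z, l) ∉ Cro := fun h' => hy.2 ⟨_, h', h1.symm⟩
    rw [h1, P1_eq_P2_of (bd_of_P1 ha h2)]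
  have hGim : G '' R2 = (fun y => p (D.N y)) '' R1 := by
    rw [← P2_image, ← P1_image]
    ext y
    constructor
    · rintro ⟨_, ⟨a, ha, rfl⟩, rfl⟩
      exact ⟨_, ⟨a, ha, rfl⟩, (Ge a ha).symm⟩
    · rintro ⟨_, ⟨a, ha, rfl⟩, rfl⟩
      exact ⟨_, ⟨a, ha, rfl⟩, Ge a ha⟩
  let L : LocalData V p :=
    { R := Cr
      Ro := Cro
      N := D.N
      ε := ε2
      G := G
      hR := isCompact_Cr
      hRo := isOpen_Cro
      hsub := Cro_subset
      N_cont := D.N_cont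
      N_inj := D.N_inj
      N_maps := D.N_maps
      N_open := D.N_open
      N_disj := D.N_disj
      p_cont := D.p_cont
      p_inj := D.p_inj
      ε_cont := fun b => (continuous_ε2 b).continuousOn
      ε_inj := fun b c v w hv hw h => ε2_inj hv hw h
      ε_maps := ε2_maps
      ε_open := ε2_open
      G_cont := by rw [R2_eq]; exact Gc
      G_bd := hGbd
      G_eq := by rw [R2_eq]; exact key
      G_out := by rw [R2_eq]; exact hGout
      surj := by rw [R2_eq, hGim]; exact D.surj }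
  obtain ⟨P, hP, hP'⟩ := L.exists_pres
  refine ⟨P, hP, ?_⟩
  rw [hP']
  change G '' (ε2 true '' discBd) = _
  ext z
  constructor
  · rintro ⟨_, ⟨v, hv, rfl⟩, rfl⟩
    have h1 : mm (ε2 true v) = B2 (dd (ε2 true v)) := (ε2_bd (discBd_subset hv)).2 hv
    have h2 : ε2 true v ∈ R2 := ⟨Cro_subset (ε2_maps true (discBd_subset hv)), h1.ge⟩
    obtain ⟨⟨s, t, x, l⟩, ha, ha'⟩ := hrep _ h2
    rw [← ha', Ge _ ha]
    rw [← ha', P2_bd ha] at h1
    obtain ⟨rfl, h3, h4⟩ := h1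
    refine ⟨_, ⟨_, ?_, rfl⟩, rfl⟩
    have e1 : max 0 (B1 x) = 0 := max_B1_zero.2 (Or.inl h4)
    unfold P1
    simp only
    rw [e1]
    have e2 : ((1 : ℝ) - 1) / 8 + 1 * 0 = 0 := by norm_num
    rw [e2]
    unfold unf
    simp only [mem_ofPred_eq, zero_add]
    rw [max_eq_right h3, max_eq_left (by linarith : -x ≤ 0), abs_mul, abs_sg, abs_of_nonneg h3]
    exact ⟨by linarith, by ring⟩
  · rintro ⟨_, ⟨⟨u, w⟩, ⟨h1, h2⟩, rfl⟩, rfl⟩
    simp only at h1 h2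
    subst h2
    have hs : ∃ s : Bool, u = sg s * |u| := by
      rcases le_total 0 u with h | h
      · exact ⟨true, by rw [sg_true, abs_of_nonneg h, one_mul]⟩
      · exact ⟨false, by rw [sg_false, abs_of_nonpos h]; ring⟩
    obtain ⟨s, hs⟩ := hs
    have h0 := abs_nonneg u
    have ha : (s, true, |u|, 1) ∈ St := mem_St.2 ⟨⟨by linarith, by linarith⟩, by norm_num, le_rfl⟩
    have hP : P1 (s, true, |u|, 1) = (u, 0) := by
      have e1 : max 0 (B1 |u|) = 0 := max_B1_zero.2 (Or.inl h1)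
      unfold P1
      simp only
      rw [e1]
      have e2 : ((1 : ℝ) - 1) / 8 + 1 * 0 = 0 := by norm_num
      rw [e2]
      unfold unf
      rw [max_eq_right h0, max_eq_left (by linarith : -|u| ≤ 0), zero_add, ← hs]
      simp
    have h3 : mm (P2 (s, true, |u|, 1)) = B2 (dd (P2 (s, true, |u|, 1))) :=
      (P2_bd ha).2 ⟨rfl, h0, h1⟩
    have h4 : 0 < sg true * (P2 (s, true, |u|, 1)).2 := by
      have h5 := snd_ne h3.le
      have h6 : 0 ≤ sg true * (P2 (s, true, |u|, 1)).2 := by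
        unfold P2 unf
        simp only [sg_true, one_mul]
        have g1 := (ht_props (hb2 (x2 |u| 1)) zero_le_one le_rfl).1
        rw [one_mul] at g1
        exact add_nonneg g1 (le_max_left _ _)
      refine lt_of_le_of_ne h6 ?_
      rw [sg_true, one_mul]
      exact Ne.symm h5
    obtain ⟨v, hv, hv'⟩ := exists_ε2 h3.le h4
    refine ⟨P2 (s, true, |u|, 1), ⟨v, ?_, hv'.symm⟩, ?_⟩
    · rw [hv', ε2_bd hv] at h3; exact h3
    · rw [Ge _ ha, hP]

end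

end Pool.Agent.H72.Tri
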