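import Pool.Agent.H72.Tri.KDeg

/-!
# The surgered surface
-/

open Set Topology Metric

namespace Pool.Agent.H72.Tri

theorem rect_sub : rect ⊆ Icc (-1 : ℝ) 1 ×ˢ univ := by
  rintro ⟨s, z⟩ ⟨hs, -⟩
  have h1 : (1/4 : ℝ) ≤ s := hs.1
  have h2 : s ≤ 3/4 := hs.2
  exact ⟨⟨by linarith, by linarith⟩, mem_univ _⟩

theorem rectInt_rect : rectInt ⊆ rect := by
  rintro ⟨s, z⟩ ⟨hs, hz⟩
  have hz' : 0 < (z : ℂ).re := hz
  exact ⟨⟨hs.1.le, hs.2.le⟩, hz'.le⟩

theorem rectInt_sub : rectInt ⊆ Icc (-1 : ℝ) 1 ×ˢ univ := rectInt_rect.trans rect_sub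

theorem rectInt_Ioo : rectInt ⊆ Ioo (-1 : ℝ) 1 ×ˢ univ := by
  rintro ⟨s, z⟩ ⟨hs, -⟩
  have h1 : (1/4 : ℝ) < s := hs.1
  have h2 : s < 3/4 := hs.2
  exact ⟨⟨by linarith, by linarith⟩, mem_univ _⟩

theorem isOpen_rectInt : IsOpen rectInt := by
  refine isOpen_Ioo.prod ?_
  exact isOpen_lt continuous_const (Complex.continuous_re.comp continuous_subtype_val)

theorem isCompact_rect : IsCompact rect :=
  isCompact_Icc.prod isClosed_halfR.isCompact

theorem rect_eq : rect = (fun p : ℝ × ℝ => (p.1, Circle.exp p.2)) ''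
    (Icc (1/4 : ℝ) (3/4) ×ˢ Icc (-(Real.pi / 2)) (Real.pi / 2)) := by
  rw [rect, halfR_eq]
  ext ⟨s, z⟩
  constructor
  · rintro ⟨hs, t, ht, rfl⟩
    exact ⟨(s, t), ⟨hs, ht⟩, rfl⟩
  · rintro ⟨⟨s', t⟩, ⟨hs, ht⟩, h⟩
    cases h
    exact ⟨hs, t, ht, rfl⟩

theorem nullOn_rect {φ : ℝ × Circle → Circle} (hφ : ContinuousOn φ rect) : NullOn φ rect := by
  have hpi := Real.pi_pos
  have hcont : Continuous (fun p : ℝ × ℝ => (p.1, Circle.exp p.2)) := by fun_prop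
  have h2 : MapsTo (fun p : ℝ × ℝ => (p.1, Circle.exp p.2))
      (Icc (1/4 : ℝ) (3/4) ×ˢ Icc (-(Real.pi / 2)) (Real.pi / 2)) rect := by
    intro p hp
    rw [rect_eq]
    exact ⟨p, hp, rfl⟩
  rw [rect_eq]
  refine NullOn.image (isCompact_Icc.prod isCompact_Icc) hcont.continuousOn ?_ ?_
  · rintro ⟨s, t⟩ ⟨_, ht⟩ ⟨s', t'⟩ ⟨_, ht'⟩ h
    simp only [Prod.mk.injEq] at h
    have h2 : t = t' :=
      exp_injOn (a := -(Real.pi / 2)) (b := Real.pi / 2) (by linarith) ht ht' h.2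
    rw [h.1, h2]
  · exact nullOn_of_convex ((convex_Icc _ _).prod (convex_Icc _ _))
      (hφ.comp hcont.continuousOn h2)

theorem nullOn_arc {Y : Type*} [TopologicalSpace Y] [T2Space Y] {κ : Circle → Y}
    (hκ : Continuous κ) (hi : Function.Injective κ) {a b : ℝ} (hab : b - a < 2 * Real.pi)
    {φ : Y → Circle} (hφ : ContinuousOn φ ((fun t => κ (Circle.exp t)) '' Icc a b)) :
    NullOn φ ((fun t => κ (Circle.exp t)) '' Icc a b) := by
  have hc : ContinuousOn (fun t => κ (Circle.exp t)) (Icc a b) :=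
    (hκ.comp Circle.exp.continuous).continuousOn
  refine NullOn.image isCompact_Icc hc ?_ ?_
  · intro s hs t ht h
    exact exp_injOn hab hs ht (hi h)
  · exact nullOn_of_convex (convex_Icc a b) (hφ.comp hc (fun t ht => ⟨t, ht, rfl⟩))

/-- The cosine is at most `-1/2` on `[0, 2π/3]` only at the right endpoint. -/
theorem cos_le_half {t : ℝ} (h0 : 0 ≤ t) (h1 : t ≤ 2 * Real.pi / 3)
    (h2 : Real.cos t ≤ -(1 / 2)) : t = 2 * Real.pi / 3 := by
  have hpi := Real.pi_pos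
  by_contra hne
  have hlt : t < 2 * Real.pi / 3 := lt_of_le_of_ne h1 hne
  have h3 : Real.cos (2 * Real.pi / 3) < Real.cos t :=
    Real.cos_lt_cos_of_nonneg_of_le_pi h0 (by linarith) hlt
  have h4 : Real.cos (2 * Real.pi / 3) = -(1 / 2) := by
    have : 2 * Real.pi / 3 = Real.pi - Real.pi / 3 := by ring
    rw [this, Real.cos_pi_sub, Real.cos_pi_div_three]
  linarith

theorem cos_two_pi_third : Real.cos (2 * Real.pi / 3) = -(1 / 2) := by
  have : 2 * Real.pi / 3 = Real.pi - Real.pi / 3 := by ring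
  rw [this, Real.cos_pi_sub, Real.cos_pi_div_three]

theorem cos_ge_half {t : ℝ} (h0 : -(2 * Real.pi / 3) ≤ t) (h1 : t ≤ 2 * Real.pi / 3) :
    -(1 / 2) ≤ Real.cos t := by
  have hpi := Real.pi_pos
  have h2 : |t| ≤ 2 * Real.pi / 3 := abs_le.2 ⟨h0, h1⟩
  rw [← Real.cos_abs, ← cos_two_pi_third]
  exact Real.cos_le_cos_of_nonneg_of_le_pi (abs_nonneg t) (by linarith) h2

theorem re_exp (t : ℝ) : ((Circle.exp t : Circle) : ℂ).re = Real.cos t := by
  rw [Circle.coe_exp, Complex.exp_ofReal_mul_I_re]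

theorem re_le_half_iff (z : Circle) : (z : ℂ).re ≤ -(1 / 2) ↔
    z ∈ Circle.exp '' Icc (2 * Real.pi / 3) (4 * Real.pi / 3) := by
  have hpi := Real.pi_pos
  constructor
  · intro hz
    have hzL : z ∈ halfL := by
      change (z : ℂ).re ≤ 0
      linarith
    rw [halfL_eq] at hzL
    obtain ⟨t, ht, rfl⟩ := hzL
    rw [re_exp] at hz
    refine ⟨t, ⟨?_, ?_⟩, rfl⟩
    · by_contra hcon
      push Not at hcon
      have := cos_le_half (by linarith [ht.1]) hcon.le hz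
      linarith
    · by_contra hcon
      push Not at hcon
      have h1 : Real.cos (2 * Real.pi - t) ≤ -(1 / 2) := by rwa [Real.cos_two_pi_sub]
      have := cos_le_half (t := 2 * Real.pi - t) (by linarith [ht.2]) (by linarith) h1
      linarith
  · rintro ⟨t, ht, rfl⟩
    rw [re_exp]
    have h1 : Real.cos t = -Real.cos (t - Real.pi) := by rw [Real.cos_sub_pi]; ring
    rw [h1]
    have h2 : |t - Real.pi| ≤ Real.pi / 3 := by
      rw [abs_le]; constructor <;> linarith [ht.1, ht.2]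
    have h3 : Real.cos (Real.pi / 3) ≤ Real.cos (t - Real.pi) := by
      rw [← Real.cos_abs (t - Real.pi)]
      exact Real.cos_le_cos_of_nonneg_of_le_pi (abs_nonneg _) (by linarith) h2
    rw [Real.cos_pi_div_three] at h3
    linarith

namespace Tube

variable {Y : Type*} [TopologicalSpace Y] {P : Splitting Y} {K : Placement P} (T : Tube K)

/-- the closed disc `D` -/
def Dd : Set Y := T.δ '' disc
/-- the closed disc `D'` -/
def Dd' (_ : Tube K) : Set Y := K.j '' rect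

theorem bdD_sub : T.bdD ⊆ T.Dd := image_mono discBd_subset
theorem bdD'_sub : T.bdD' ⊆ T.Dd' := image_mono sdiff_subset
theorem bdD'_eq : T.bdD' = T.ρ '' T.bdD := T.ρ_bij.image_eq.symm

theorem disjoint_D : Disjoint T.Dd T.Dd' :=
  T.disj_j.mono_right (image_mono rect_sub)

theorem Dd_sub_S : T.Dd ⊆ P.S := by
  rintro _ ⟨v, hv, rfl⟩
  exact T.δ_mem hv

theorem Dd'_sub_S : T.Dd' ⊆ P.S := by
  rintro _ ⟨v, hv, rfl⟩
  exact K.j_mem (rect_sub hv)

theorem E_sub_S : T.E ⊆ P.S := sdiff_subset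

theorem E_inter_D : T.E ∩ T.Dd = T.bdD := by
  apply subset_antisymm
  · rintro _ ⟨hx, v, hv, rfl⟩
    refine ⟨v, mem_discBd_of hv fun h => ?_, rfl⟩
    exact hx.2 (Or.inl ⟨v, h, rfl⟩)
  · rintro _ ⟨v, hv, rfl⟩
    have hv' := discBd_subset hv
    refine ⟨⟨T.δ_mem hv', ?_⟩, ⟨v, hv', rfl⟩⟩
    rintro (⟨w, hw, hwe⟩ | ⟨w, hw, hwe⟩)
    · have := T.δ_inj (discInt_subset hw) hv' hwe
      rw [this] at hw
      exact not_mem_discInt hv hw
    · exact Set.disjoint_left.1 T.disjoint_D ⟨v, hv', rfl⟩ ⟨w, rectInt_rect hw, hwe⟩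

theorem E_inter_D' : T.E ∩ T.Dd' = T.bdD' := by
  apply subset_antisymm
  · rintro _ ⟨hx, v, hv, rfl⟩
    refine ⟨v, ⟨hv, fun h => ?_⟩, rfl⟩
    exact hx.2 (Or.inr ⟨v, h, rfl⟩)
  · rintro _ ⟨v, hv, rfl⟩
    refine ⟨⟨K.j_mem (rect_sub hv.1), ?_⟩, ⟨v, hv.1, rfl⟩⟩
    rintro (⟨w, hw, hwe⟩ | ⟨w, hw, hwe⟩)
    · exact Set.disjoint_left.1 T.disjoint_D ⟨w, discInt_subset hw, rfl⟩ ⟨v, hv.1, hwe.symm⟩
    · have := K.j_inj (rectInt_sub hw) (rect_sub hv.1) hwe
      rw [this] at hw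
      exact hv.2 hw

theorem S_eq : T.E ∪ (T.Dd ∪ T.Dd') = P.S := by
  apply subset_antisymm
  · exact union_subset T.E_sub_S (union_subset T.Dd_sub_S T.Dd'_sub_S)
  · intro x hx
    by_cases h : x ∈ T.δ '' discInt ∪ K.j '' rectInt
    · right
      rcases h with h | h
      · left; exact image_mono discInt_subset h
      · right; exact image_mono rectInt_rect h
    · left; exact ⟨hx, h⟩

theorem isPreconnected_bdD : IsPreconnected T.bdD :=
  isPreconnected_discBd.image _ (T.δ_cont.mono discBd_subset)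

theorem isPreconnected_bdD' : IsPreconnected T.bdD' := by
  rw [bdD'_eq]
  exact T.isPreconnected_bdD.image _ T.ρ_cont

theorem ρ_mem {x : Y} (hx : x ∈ T.bdD) : T.ρ x ∈ T.bdD' := T.ρ_bij.mapsTo hx

theorem bdD_sub_E : T.bdD ⊆ T.E := by
  rw [← T.E_inter_D]; exact inter_subset_left
theorem bdD'_sub_E : T.bdD' ⊆ T.E := by
  rw [← T.E_inter_D']; exact inter_subset_left

/-! ### The arcs -/

theorem κ_not_rectInt {t : ℝ} (h0 : -Real.pi ≤ t) (h2 : t < Real.pi)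
    (h : t ≤ Real.pi / 8 ∨ 3 * Real.pi / 8 ≤ t) :
    K.κ (Circle.exp t) ∉ K.j '' rectInt := by
  have hpi := Real.pi_pos
  rw [K.mem_j_iff rectInt_sub]
  rintro ⟨s, hs, he, hr⟩
  have hr1 : (1/4 : ℝ) < s := hr.1.1
  have hr2 : s < 3/4 := hr.1.2
  have hr3 : s * Real.pi < 3/4 * Real.pi := mul_lt_mul_of_pos_right hr2 hpi
  have hr4 : 1/4 * Real.pi < s * Real.pi := mul_lt_mul_of_pos_right hr1 hpi
  have h3 : Real.pi / 2 * s = s * Real.pi / 2 := by ring
  have he' : t = Real.pi / 2 * s := by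
    refine exp_injOn (a := -Real.pi) (b := max t (Real.pi / 2 * s)) ?_ ⟨h0, le_max_left _ _⟩
      ⟨by linarith, le_max_right _ _⟩ he
    rcases max_cases t (Real.pi / 2 * s) with ⟨h, _⟩ | ⟨h, _⟩ <;> rw [h] <;> linarith
  rcases h with h | h <;> linarith

theorem arcB_sub : K.arcB ⊆ T.E := by
  have hpi := Real.pi_pos
  rintro _ ⟨t, ht, rfl⟩
  refine ⟨K.κ_mem _, ?_⟩
  rintro (h | h)
  · rw [T.δ_K', re_exp] at h
    have := cos_ge_half (by linarith [ht.1]) ht.2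
    linarith
  · exact κ_not_rectInt (by linarith [ht.1]) (by linarith [ht.2]) (Or.inr ht.1) h

theorem arcC_sub : K.arcC ⊆ T.E := by
  have hpi := Real.pi_pos
  rintro _ ⟨t, ht, rfl⟩
  refine ⟨K.κ_mem _, ?_⟩
  rintro (h | h)
  · rw [T.δ_K', re_exp] at h
    have := cos_ge_half ht.1 (by linarith [ht.2])
    linarith
  · exact κ_not_rectInt (by linarith [ht.1]) (by linarith [ht.2]) (Or.inl ht.2) h

theorem κ_mem_bdD {t : ℝ} (ht : Real.cos t = -(1 / 2)) : K.κ (Circle.exp t) ∈ T.bdD := by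
  have h1 : K.κ (Circle.exp t) ∈ T.δ '' disc := by
    rw [T.δ_K, re_exp, ht]
  have h2 : K.κ (Circle.exp t) ∉ T.δ '' discInt := by
    rw [T.δ_K', re_exp, ht]
    exact lt_irrefl _
  obtain ⟨v, hv, hve⟩ := h1
  rw [← hve] at h2 ⊢
  exact ⟨v, mem_discBd_of hv fun h => h2 ⟨v, h, rfl⟩, rfl⟩

theorem α_sub (i : Fin 2) : P.α i ⊆ T.E := by
  intro x hx
  have hS : x ∈ P.S := by
    have h1 : x ∈ P.Vα.bd := P.Vα.curve_subset_bd i hx
    rw [P.bd_eq] at h1
    exact h1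
  refine ⟨hS, ?_⟩
  rintro (h | h)
  · exact Set.disjoint_left.1 (T.disj_α i) (image_mono discInt_subset h) hx
  · exact Set.disjoint_left.1 (T.disj_α' i) (image_mono rectInt_rect h) hx

theorem β1_sub : P.β 1 ⊆ T.E := by
  intro x hx
  have hS : x ∈ P.S := P.Vβ.curve_subset_bd 1 hx
  refine ⟨hS, ?_⟩
  rintro (h | h)
  · exact Set.disjoint_left.1 T.disj_β (image_mono discInt_subset h) hx
  · exact Set.disjoint_left.1 K.j_disj (image_mono rectInt_sub h) hx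

theorem j_sub {s : ℝ} (hs : s ∈ Icc (-1 : ℝ) 1) (hs' : s ≤ 1/4 ∨ 3/4 ≤ s) :
    K.j '' ({s} ×ˢ univ) ⊆ T.E := by
  rintro _ ⟨⟨s', z⟩, ⟨h1, -⟩, rfl⟩
  have h1' : s' = s := h1
  subst h1'
  refine ⟨K.j_mem ⟨hs, mem_univ _⟩, ?_⟩
  rintro (⟨v, hv, h⟩ | ⟨⟨s, w⟩, hv, h⟩)
  · exact Set.disjoint_left.1 T.disj_j ⟨v, discInt_subset hv, rfl⟩ ⟨_, ⟨hs, mem_univ _⟩, h.symm⟩
  · have h2 := K.j_inj (rectInt_sub hv) ⟨hs, mem_univ _⟩ h
    simp only [Prod.mk.injEq] at h2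
    have h3 : (1/4 : ℝ) < s := hv.1.1
    have h4 : s < 3/4 := hv.1.2
    rw [h2.1] at h3 h4
    rcases hs' with h | h <;> linarith

theorem β0_sub : P.β 0 ⊆ T.E := by
  rw [← K.j_zero]
  exact T.j_sub (by norm_num) (Or.inl (by norm_num))

theorem γ₁_sub : K.γ₁ ⊆ T.E := T.j_sub (by norm_num) (Or.inr (by norm_num))

theorem disj_bdD_j {R : Set (ℝ × Circle)} (hR : R ⊆ Icc (-1 : ℝ) 1 ×ˢ univ) :
    Disjoint (K.j '' R) T.bdD :=
  (T.disj_j.symm.mono_left (image_mono hR)).mono_right T.bdD_sub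

variable [T2Space Y]

theorem isClosed_Dd : IsClosed T.Dd := (isCompact_disc.image_of_continuousOn T.δ_cont).isClosed
theorem isClosed_Dd' : IsClosed T.Dd' :=
  (isCompact_rect.image_of_continuousOn (K.j_cont.mono rect_sub)).isClosed

theorem isOpen_j (_ : Tube K) : ∃ U : Set Y, IsOpen U ∧ K.j '' rectInt = U ∩ P.S := by
  obtain ⟨U, hU, hUe⟩ := K.j_open
  have hc : IsClosed (K.j '' ((Icc (-1 : ℝ) 1 ×ˢ univ) \ rectInt)) := by
    have h1 : IsCompact ((Icc (-1 : ℝ) 1 ×ˢ (univ : Set Circle)) \ rectInt) :=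
      IsCompact.diff (Placement.isCompact_ann (-1) 1) isOpen_rectInt
    exact (h1.image_of_continuousOn (K.j_cont.mono sdiff_subset)).isClosed
  refine ⟨U ∩ (K.j '' ((Icc (-1 : ℝ) 1 ×ˢ univ) \ rectInt))ᶜ, hU.inter hc.isOpen_compl, ?_⟩
  apply subset_antisymm
  · rintro _ ⟨v, hv, rfl⟩
    have h1 : K.j v ∈ U ∩ P.S := by rw [← hUe]; exact ⟨v, rectInt_Ioo hv, rfl⟩
    refine ⟨⟨h1.1, ?_⟩, h1.2⟩
    rintro ⟨w, hw, h⟩
    have := K.j_inj hw.1 (rectInt_sub hv) h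
    rw [this] at hw
    exact hw.2 hv
  · rintro x ⟨⟨h1, h2⟩, h3⟩
    have h4 : x ∈ K.j '' (Ioo (-1 : ℝ) 1 ×ˢ univ) := by rw [hUe]; exact ⟨h1, h3⟩
    obtain ⟨v, hv, rfl⟩ := h4
    refine ⟨v, ?_, rfl⟩
    by_contra hn
    exact h2 ⟨v, ⟨prod_mono_left Ioo_subset_Icc_self hv, hn⟩, rfl⟩

theorem isClosed_E : IsClosed T.E := by
  obtain ⟨U, hU, hUe⟩ := T.δ_open
  obtain ⟨V, hV, hVe⟩ := T.isOpen_j
  have : T.E = P.S ∩ (U ∪ V)ᶜ := by
    ext x
    simp only [E, hUe, hVe, mem_sdiff, mem_union, mem_inter_iff, mem_compl_iff]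
    tauto
  rw [this]
  exact (Placement.isClosed_S (P := P)).inter (hU.union hV).isClosed_compl

theorem isCompact_E : IsCompact T.E :=
  P.Vβ.isCompact_bd.of_isClosed_subset T.isClosed_E T.E_sub_S

theorem nullOn_Dd {φ : Y → Circle} (h : ContinuousOn φ T.Dd) : NullOn φ T.Dd :=
  NullOn.image isCompact_disc T.δ_cont T.δ_inj
    (nullOn_of_convex convex_disc (h.comp T.δ_cont (fun v hv => ⟨v, hv, rfl⟩)))

theorem nullOn_Dd' {φ : Y → Circle} (h : ContinuousOn φ T.Dd') : NullOn φ T.Dd' :=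
  NullOn.image isCompact_rect (K.j_cont.mono rect_sub) (K.j_inj.mono rect_sub)
    (nullOn_rect (h.comp (K.j_cont.mono rect_sub) (fun v hv => ⟨v, hv, rfl⟩)))

theorem isClosed_bdD : IsClosed T.bdD := by
  rw [← T.E_inter_D]; exact T.isClosed_E.inter T.isClosed_Dd
theorem isClosed_bdD' : IsClosed T.bdD' := by
  rw [← T.E_inter_D']; exact T.isClosed_E.inter T.isClosed_Dd'

/-- Extension from the surface minus two discs to the whole surface. -/
theorem extend_S [NormalSpace Y] {φ : Y → Circle} (hφ : ContinuousOn φ T.E)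
    (h1 : NullOn φ T.bdD) (h2 : NullOn φ T.bdD') :
    ∃ ψ : Y → Circle, ContinuousOn ψ P.S ∧ EqOn ψ φ T.E := by
  classical
  have hd : T.bdD ∩ T.bdD' = ∅ :=
    (T.disjoint_D.mono T.bdD_sub T.bdD'_sub).inter_eq
  obtain ⟨h, hc, he⟩ := NullOn.union T.isClosed_bdD T.isClosed_bdD' h1 h2
    (by rw [hd]; exact isPreconnected_empty)
  obtain ⟨H, Hc, He⟩ := tietze (T.isClosed_bdD.union T.isClosed_bdD') hc
  let ψ : Y → Circle := fun x => if x ∈ T.E then φ x else Circle.exp (H x)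
  have hE : EqOn ψ φ T.E := fun x hx => if_pos hx
  have hD : EqOn ψ (fun x => Circle.exp (H x)) (T.Dd ∪ T.Dd') := by
    intro x hx
    by_cases hxE : x ∈ T.E
    · rw [hE hxE]
      have hb : x ∈ T.bdD ∪ T.bdD' := by
        rcases hx with hx | hx
        · left; rw [← T.E_inter_D]; exact ⟨hxE, hx⟩
        · right; rw [← T.E_inter_D']; exact ⟨hxE, hx⟩
      simp only
      rw [He hb]
      exact he x hb
    · exact if_neg hxE
  refine ⟨ψ, ?_, hE⟩
  rw [← T.S_eq]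
  refine (hφ.congr hE).union_of_isClosed ?_ T.isClosed_E (T.isClosed_Dd.union T.isClosed_Dd')
  exact ((Circle.exp.continuous.comp Hc).continuousOn).congr hD

theorem null_S {φ : Y → Circle} (hφ : ContinuousOn φ P.S) (h : NullOn φ T.E) :
    NullOn φ P.S := by
  have h1 : NullOn φ (T.E ∪ T.Dd) := by
    refine NullOn.union T.isClosed_E T.isClosed_Dd h (T.nullOn_Dd (hφ.mono T.Dd_sub_S)) ?_
    rw [T.E_inter_D]
    exact T.isPreconnected_bdD
  have h2 : NullOn φ ((T.E ∪ T.Dd) ∪ T.Dd') := by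
    refine NullOn.union (T.isClosed_E.union T.isClosed_Dd) T.isClosed_Dd' h1
      (T.nullOn_Dd' (hφ.mono T.Dd'_sub_S)) ?_
    rw [union_inter_distrib_right, T.E_inter_D', T.disjoint_D.inter_eq, union_empty]
    exact T.isPreconnected_bdD'
  rwa [union_assoc, T.S_eq] at h2

/-! ### The three sets `Q` -/

/-- `D ∪ D' ∪ b` -/
def QB : Set Y := (K.arcB ∪ T.Dd') ∪ T.Dd
/-- `D ∪ D' ∪ c` -/
def QC : Set Y := (K.arcC ∪ T.Dd') ∪ T.Dd
/-- `D ∪ D' ∪ K` -/
def QK : Set Y := (range K.κ ∪ T.Dd') ∪ T.Dd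

theorem isClosed_arc (a b : ℝ) : IsClosed ((fun t => K.κ (Circle.exp t)) '' Icc a b) :=
  (isCompact_Icc.image (K.κ_cont.comp Circle.exp.continuous)).isClosed

theorem isClosed_QB : IsClosed T.QB := ((isClosed_arc _ _).union T.isClosed_Dd').union T.isClosed_Dd
theorem isClosed_QC : IsClosed T.QC := ((isClosed_arc _ _).union T.isClosed_Dd').union T.isClosed_Dd
theorem isClosed_QK : IsClosed T.QK :=
  (K.isClosed_range.union T.isClosed_Dd').union T.isClosed_Dd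

omit [T2Space Y] in
theorem arcB_inter_D' {x : Y} (h1 : x ∈ K.arcB) (h2 : x ∈ T.Dd') :
    x = K.κ (Circle.exp (3 * Real.pi / 8)) := by
  have hpi := Real.pi_pos
  obtain ⟨t, ht, rfl⟩ := h1
  obtain ⟨s, hs, he, hr⟩ := (K.mem_j_iff rect_sub _).1 h2
  have hr2 : s ≤ 3/4 := hr.1.2
  have hr1 : 1/4 ≤ s := hr.1.1
  have hr3 : s * Real.pi ≤ 3/4 * Real.pi := mul_le_mul_of_nonneg_right hr2 hpi.le
  have hr4 : 1/4 * Real.pi ≤ s * Real.pi := mul_le_mul_of_nonneg_right hr1 hpi.le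
  have h3 : Real.pi / 2 * s = s * Real.pi / 2 := by ring
  have he' : t = Real.pi / 2 * s := by
    refine exp_injOn (a := 0) (b := Real.pi) (by linarith) ⟨by linarith [ht.1], by linarith [ht.2]⟩
      ⟨by linarith, by linarith⟩ he
  have : t = 3 * Real.pi / 8 := le_antisymm (by linarith) ht.1
  rw [this]

omit [T2Space Y] in
theorem arcC_inter_D' {x : Y} (h1 : x ∈ K.arcC) (h2 : x ∈ T.Dd') :
    x = K.κ (Circle.exp (Real.pi / 8)) := by
  have hpi := Real.pi_pos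
  obtain ⟨t, ht, rfl⟩ := h1
  obtain ⟨s, hs, he, hr⟩ := (K.mem_j_iff rect_sub _).1 h2
  have hr2 : s ≤ 3/4 := hr.1.2
  have hr1 : 1/4 ≤ s := hr.1.1
  have hr3 : s * Real.pi ≤ 3/4 * Real.pi := mul_le_mul_of_nonneg_right hr2 hpi.le
  have hr4 : 1/4 * Real.pi ≤ s * Real.pi := mul_le_mul_of_nonneg_right hr1 hpi.le
  have h3 : Real.pi / 2 * s = s * Real.pi / 2 := by ring
  have he' : t = Real.pi / 2 * s := by
    refine exp_injOn (a := -(2 * Real.pi / 3)) (b := Real.pi / 2) (by linarith)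
      ⟨by linarith [ht.1], by linarith [ht.2]⟩ ⟨by linarith, by linarith⟩ he
  have : t = Real.pi / 8 := le_antisymm ht.2 (by linarith)
  rw [this]

omit [T2Space Y] in
theorem arcB_inter_D {x : Y} (h1 : x ∈ K.arcB) (h2 : x ∈ T.Dd) :
    x = K.κ (Circle.exp (2 * Real.pi / 3)) := by
  have hpi := Real.pi_pos
  obtain ⟨t, ht, rfl⟩ := h1
  have h3 := (T.δ_K _).1 h2
  rw [re_exp] at h3
  rw [cos_le_half (by linarith [ht.1]) ht.2 h3]

omit [T2Space Y] in
theorem arcC_inter_D {x : Y} (h1 : x ∈ K.arcC) (h2 : x ∈ T.Dd) :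
    x = K.κ (Circle.exp (-(2 * Real.pi / 3))) := by
  have hpi := Real.pi_pos
  obtain ⟨t, ht, rfl⟩ := h1
  have h3 := (T.δ_K _).1 h2
  rw [re_exp] at h3
  have h4 : t ≤ 0 := by
    by_contra hcon
    push Not at hcon
    have := cos_le_half hcon.le (by linarith [ht.2]) h3
    linarith [ht.2]
  have h5 : Real.cos (-t) ≤ -(1/2) := by rwa [Real.cos_neg]
  have h6 := cos_le_half (t := -t) (by linarith) (by linarith [ht.1]) h5
  have h7 : t = -(2 * Real.pi / 3) := by linarith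
  rw [h7]

theorem nullOn_QB {φ : Y → Circle} (hφ : ContinuousOn φ P.S) : NullOn φ T.QB := by
  have hpi := Real.pi_pos
  have hB : K.arcB ⊆ P.S := T.arcB_sub.trans T.E_sub_S
  have h1 : NullOn φ (K.arcB ∪ T.Dd') := by
    refine NullOn.union (isClosed_arc _ _) T.isClosed_Dd'
      (nullOn_arc K.κ_cont K.κ_inj (by linarith) (hφ.mono hB)) (T.nullOn_Dd' (hφ.mono T.Dd'_sub_S)) ?_
    refine Set.Subsingleton.isPreconnected ?_
    intro x hx y hy
    rw [T.arcB_inter_D' hx.1 hx.2, T.arcB_inter_D' hy.1 hy.2]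
  refine NullOn.union ((isClosed_arc _ _).union T.isClosed_Dd') T.isClosed_Dd h1
    (T.nullOn_Dd (hφ.mono T.Dd_sub_S)) ?_
  refine Set.Subsingleton.isPreconnected ?_
  have key : ∀ x ∈ (K.arcB ∪ T.Dd') ∩ T.Dd, x = K.κ (Circle.exp (2 * Real.pi / 3)) := by
    rintro x ⟨hx | hx, hx'⟩
    · exact T.arcB_inter_D hx hx'
    · exact (Set.disjoint_left.1 T.disjoint_D hx' hx).elim
  intro x hx y hy
  rw [key x hx, key y hy]

theorem nullOn_QC {φ : Y → Circle} (hφ : ContinuousOn φ P.S) : NullOn φ T.QC := by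
  have hpi := Real.pi_pos
  have hB : K.arcC ⊆ P.S := T.arcC_sub.trans T.E_sub_S
  have h1 : NullOn φ (K.arcC ∪ T.Dd') := by
    refine NullOn.union (isClosed_arc _ _) T.isClosed_Dd'
      (nullOn_arc K.κ_cont K.κ_inj (by linarith) (hφ.mono hB)) (T.nullOn_Dd' (hφ.mono T.Dd'_sub_S)) ?_
    refine Set.Subsingleton.isPreconnected ?_
    intro x hx y hy
    rw [T.arcC_inter_D' hx.1 hx.2, T.arcC_inter_D' hy.1 hy.2]
  refine NullOn.union ((isClosed_arc _ _).union T.isClosed_Dd') T.isClosed_Dd h1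
    (T.nullOn_Dd (hφ.mono T.Dd_sub_S)) ?_
  refine Set.Subsingleton.isPreconnected ?_
  have key : ∀ x ∈ (K.arcC ∪ T.Dd') ∩ T.Dd, x = K.κ (Circle.exp (-(2 * Real.pi / 3))) := by
    rintro x ⟨hx | hx, hx'⟩
    · exact T.arcC_inter_D hx hx'
    · exact (Set.disjoint_left.1 T.disjoint_D hx' hx).elim
  intro x hx y hy
  rw [key x hx, key y hy]

theorem nullOn_QK {φ : Y → Circle} (hφ : ContinuousOn φ P.S) (hK : NullOn φ (range K.κ)) :
    NullOn φ T.QK := by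
  have hpi := Real.pi_pos
  have h1 : NullOn φ (range K.κ ∪ T.Dd') := by
    refine NullOn.union K.isClosed_range T.isClosed_Dd' hK (T.nullOn_Dd' (hφ.mono T.Dd'_sub_S)) ?_
    have : range K.κ ∩ T.Dd' = (fun t => K.κ (Circle.exp t)) '' Icc (Real.pi / 8) (3 * Real.pi / 8) := by
      apply subset_antisymm
      · rintro _ ⟨⟨z, rfl⟩, hz⟩
        obtain ⟨s, hs, rfl, hr⟩ := (K.mem_j_iff rect_sub _).1 hz
        have hr2 : s ≤ 3/4 := hr.1.2
        have hr1 : 1/4 ≤ s := hr.1.1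
        have hr3 : s * Real.pi ≤ 3/4 * Real.pi := mul_le_mul_of_nonneg_right hr2 hpi.le
        have hr4 : 1/4 * Real.pi ≤ s * Real.pi := mul_le_mul_of_nonneg_right hr1 hpi.le
        have h3 : Real.pi / 2 * s = s * Real.pi / 2 := by ring
        exact ⟨_, ⟨by linarith, by linarith⟩, rfl⟩
      · rintro _ ⟨t, ht, rfl⟩
        refine ⟨⟨_, rfl⟩, ?_⟩
        refine (K.mem_j_iff rect_sub _).2 ⟨2 * t / Real.pi, ?_, ?_, ?_⟩
        · constructor
          · rw [le_div_iff₀ hpi]; linarith [ht.1]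
          · rw [div_le_iff₀ hpi]; linarith [ht.2]
        · congr 1; field_simp
        · refine ⟨⟨?_, ?_⟩, ?_⟩
          · rw [le_div_iff₀ hpi]; linarith [ht.1]
          · rw [div_le_iff₀ hpi]; linarith [ht.2]
          · change 0 ≤ ((1 : Circle) : ℂ).re
            simp
    rw [this]
    exact isPreconnected_Icc.image _ (K.κ_cont.comp Circle.exp.continuous).continuousOn
  refine NullOn.union (K.isClosed_range.union T.isClosed_Dd') T.isClosed_Dd h1
    (T.nullOn_Dd (hφ.mono T.Dd_sub_S)) ?_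
  have : (range K.κ ∪ T.Dd') ∩ T.Dd = (fun t => K.κ (Circle.exp t)) ''
      Icc (2 * Real.pi / 3) (4 * Real.pi / 3) := by
    apply subset_antisymm
    · rintro x ⟨⟨z, rfl⟩ | hx, hx'⟩
      · obtain ⟨t, ht, rfl⟩ := (re_le_half_iff z).1 ((T.δ_K z).1 hx')
        exact ⟨t, ht, rfl⟩
      · exact (Set.disjoint_left.1 T.disjoint_D hx' hx).elim
    · rintro _ ⟨t, ht, rfl⟩
      exact ⟨Or.inl ⟨_, rfl⟩, (T.δ_K _).2 ((re_le_half_iff _).2 ⟨t, ht, rfl⟩)⟩
  rw [this]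
  exact isPreconnected_Icc.image _ (K.κ_cont.comp Circle.exp.continuous).continuousOn

end Tube

end Pool.Agent.H72.Tri
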