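import Pool.Agent.H72.Tri.Ex4
import Pool.Agent.H72.Tri.Surf

/-!
# Existence of an induced decomposition from three charts
-/

open Set Topology Metric

namespace Pool.Agent.H72.Tri

/-- The surface obtained from the surgery. -/
theorem Tube.exists_surface {Y : Type} [TopologicalSpace Y] [T2Space Y] {P : Splitting Y}
    {K : Placement P} (T : Tube K) :
    ∃ (F : Type) (_ : TopologicalSpace F) (_ : T2Space F) (p : Y → F), ContinuousOn p T.E ∧
      p '' T.E = univ ∧ ∀ x ∈ T.E, ∀ y ∈ T.E,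
        (p x = p y ↔ x = y ∨ (x ∈ T.bdD ∧ y = T.ρ x) ∨ (y ∈ T.bdD ∧ x = T.ρ y)) := by
  classical
  have hne : (T.E).Nonempty := by
    have h : ((0 : ℝ), (1 : ℝ)) ∈ discBd := by
      rw [mem_discBd]; simp
    exact ⟨_, T.bdD_sub_E ⟨_, h, rfl⟩⟩
  obtain ⟨x₀, hx₀⟩ := hne
  have hdis : ∀ x ∈ T.bdD, x ∉ T.bdD' := fun x hx hx' =>
    Set.disjoint_left.1 T.disjoint_D (T.bdD_sub hx) (T.bdD'_sub hx')
  let s : Setoid T.E :=
    { r := fun x y => x = y ∨ ((x : Y) ∈ T.bdD ∧ (y : Y) = T.ρ x) ∨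
        ((y : Y) ∈ T.bdD ∧ (x : Y) = T.ρ y)
      iseqv := by
        refine ⟨fun x => Or.inl rfl, ?_, ?_⟩
        · rintro x y (rfl | h | h)
          · exact Or.inl rfl
          · exact Or.inr (Or.inr h)
          · exact Or.inr (Or.inl h)
        · rintro x y z (rfl | ⟨h1, h2⟩ | ⟨h1, h2⟩) (rfl | ⟨h3, h4⟩ | ⟨h3, h4⟩)
          · exact Or.inl rfl
          · exact Or.inr (Or.inl ⟨h3, h4⟩)
          · exact Or.inr (Or.inr ⟨h3, h4⟩)
          · exact Or.inr (Or.inl ⟨h1, h2⟩)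
          · exfalso
            rw [h2] at h3
            exact hdis _ h3 (T.ρ_mem h1)
          · left
            have : T.ρ x = T.ρ z := by rw [← h2, ← h4]
            exact Subtype.ext (T.ρ_bij.injOn h1 h3 this)
          · exact Or.inr (Or.inr ⟨h1, h2⟩)
          · left
            exact Subtype.ext (h2.trans h4.symm)
          · exfalso
            rw [h4] at h1
            exact hdis _ h1 (T.ρ_mem h3) }
  have hcs : CompactSpace T.E := isCompact_iff_compactSpace.1 T.isCompact_E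
  have hbc : IsCompact T.bdD :=
    isCompact_discBd.image_of_continuousOn (T.δ_cont.mono discBd_subset)
  have hG : IsClosed ((fun x => (x, T.ρ x)) '' T.bdD) :=
    (hbc.image_of_continuousOn (continuousOn_id.prodMk T.ρ_cont)).isClosed
  have hcl : IsClosed {q : T.E × T.E | s q.1 q.2} := by
    have e : {q : T.E × T.E | s q.1 q.2} = {q | q.1 = q.2} ∪
        ((fun q : T.E × T.E => ((q.1 : Y), (q.2 : Y))) ⁻¹' ((fun x => (x, T.ρ x)) '' T.bdD) ∪
        (fun q : T.E × T.E => ((q.2 : Y), (q.1 : Y))) ⁻¹' ((fun x => (x, T.ρ x)) '' T.bdD)) := by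
      ext ⟨x, y⟩
      change (x = y ∨ ((x : Y) ∈ T.bdD ∧ (y : Y) = T.ρ x) ∨
        ((y : Y) ∈ T.bdD ∧ (x : Y) = T.ρ y)) ↔ _
      simp only [mem_union, mem_ofPred_eq, mem_preimage, mem_image, Prod.mk.injEq]
      refine or_congr_right (or_congr ?_ ?_)
      · constructor
        · rintro ⟨h1, h2⟩; exact ⟨_, h1, rfl, h2.symm⟩
        · rintro ⟨_, h1, rfl, h2⟩; exact ⟨h1, h2.symm⟩
      · constructor
        · rintro ⟨h1, h2⟩; exact ⟨_, h1, rfl, h2.symm⟩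
        · rintro ⟨_, h1, rfl, h2⟩; exact ⟨h1, h2.symm⟩
    rw [e]
    exact (isClosed_eq continuous_fst continuous_snd).union
      ((hG.preimage (by fun_prop)).union (hG.preimage (by fun_prop)))
  -- universe bookkeeping: `T.E` is a type in `Type`
  refine ⟨Quotient s, inferInstance, t2_quotient s hcl,
    fun y => if h : y ∈ T.E then Quotient.mk s ⟨y, h⟩ else Quotient.mk s ⟨x₀, hx₀⟩, ?_, ?_, ?_⟩
  · rw [continuousOn_iff_continuous_domRestrict]
    have : T.E.domRestrict (fun y => if h : y ∈ T.E then Quotient.mk s ⟨y, h⟩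
        else Quotient.mk s ⟨x₀, hx₀⟩) = fun y : T.E => Quotient.mk s y := by
      funext y
      exact dif_pos y.2
    rw [this]
    exact continuous_quotient_mk'
  · apply eq_univ_of_forall
    intro z
    obtain ⟨y, rfl⟩ := Quotient.exists_rep z
    exact ⟨y, y.2, dif_pos y.2⟩
  · intro x hx y hy
    simp only [hx, hy, dif_pos]
    constructor
    · intro h
      rcases Quotient.exact h with h | h | h
      · exact Or.inl (congrArg Subtype.val h)
      · exact Or.inr (Or.inl h)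
      · exact Or.inr (Or.inr h)
    · intro h
      apply Quotient.sound
      change ((⟨x, hx⟩ : T.E) = ⟨y, hy⟩ ∨ _ ∨ _)
      rcases h with h | h | h
      · exact Or.inl (Subtype.ext h)
      · exact Or.inr (Or.inl h)
      · exact Or.inr (Or.inr h)

/-- Three planar presentations of the surface of the surgery, with the curves of the induced
diagram. -/
structure Ind {Y : Type} [TopologicalSpace Y] {P : Splitting Y} (K : Placement P) (T : Tube K)
    (F : Type) [TopologicalSpace F] (p : Y → F) where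
  p_cont : ContinuousOn p T.E
  p_surj : p '' T.E = univ
  p_eq : ∀ x ∈ T.E, ∀ y ∈ T.E,
    (p x = p y ↔ x = y ∨ (x ∈ T.bdD ∧ y = T.ρ x) ∨ (y ∈ T.bdD ∧ x = T.ρ y))
  A : Pres F 3
  B : Pres F 3
  C : Pres F 3
  A0 : A.r '' (A.e (0, true) '' discBd) = p '' P.α 0
  A1 : A.r '' (A.e (1, true) '' discBd) = p '' P.α 1
  A2 : A.r '' (A.e (2, true) '' discBd) = p '' T.bdD
  B0 : B.r '' (B.e (0, true) '' discBd) = p '' P.β 0
  B1 : B.r '' (B.e (1, true) '' discBd) = p '' P.β 1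
  B2 : B.r '' (B.e (2, true) '' discBd) = p '' K.arcB
  C0 : C.r '' (C.e (0, true) '' discBd) = p '' K.γ₁
  C1 : C.r '' (C.e (1, true) '' discBd) = p '' P.β 1
  C2 : C.r '' (C.e (2, true) '' discBd) = p '' K.arcC

/-- There is an induced decomposition of a compact Hausdorff space. -/
def HasInd {Y : Type} [TopologicalSpace Y] {P : Splitting Y} (K : Placement P) : Prop :=
  ∃ (X : Type) (_ : TopologicalSpace X) (_ : T2Space X) (Xi : Fin 3 → Set X),
    K.Induces Xi ∧ (⋃ i, Xi i) = univ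

theorem Ind.hasInd {Y : Type} [TopologicalSpace Y] {P : Splitting Y} {K : Placement P}
    {T : Tube K} {F : Type} [TopologicalSpace F] [T2Space F] {p : Y → F} (I : Ind K T F p) :
    HasInd K := by
  let R : Fin 3 → Pres F 3 := ![I.A, I.B, I.C]
  obtain ⟨ι, ιc, ιi, hι⟩ := exists_gι R
  have hF : (⋂ i, gX R i) = range ι := by rw [gX_inter, gW_bd_ι R hι]
  refine ⟨Glued R, inferInstance, inferInstance, gX R, ⟨T, ι ∘ p, gW R 0, gW R 1, gW R 2,
    ιc.comp_continuousOn I.p_cont, ?_, ?_, ⟨(gX01 R).symm, ?_, ?_, ?_, ?_⟩,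
    ⟨(gX02 R).symm, ?_, ?_, ?_, ?_⟩, ⟨(gX12 R).symm, ?_, ?_, ?_, ?_⟩⟩, gX_cover R⟩
  · rw [image_comp, I.p_surj, hF, image_univ]
  · intro x hx y hy
    rw [← I.p_eq x hx y hy]
    exact ⟨fun h => ιi h, fun h => congrArg ι h⟩
  · rw [hF, gW_bd_ι R hι]
  · rw [gW_curve R hι, image_comp]; exact congrArg _ I.A0
  · rw [gW_curve R hι, image_comp]; exact congrArg _ I.A1
  · rw [gW_curve R hι, image_comp]; exact congrArg _ I.A2
  · rw [hF, gW_bd_ι R hι]
  · rw [gW_curve R hι, image_comp]; exact congrArg _ I.B0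
  · rw [gW_curve R hι, image_comp]; exact congrArg _ I.B1
  · rw [gW_curve R hι, image_comp]; exact congrArg _ I.B2
  · rw [hF, gW_bd_ι R hι]
  · rw [gW_curve R hι, image_comp]; exact congrArg _ I.C0
  · rw [gW_curve R hι, image_comp]; exact congrArg _ I.C1
  · rw [gW_curve R hι, image_comp]; exact congrArg _ I.C2

/-! ### Charts -/

/-- A chart around the two discs of the surgery. -/
structure Chart {Y : Type} [TopologicalSpace Y] {P : Splitting Y} {K : Placement P} (T : Tube K)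
    (V : Handlebody Y 2) (R Ro : Set (ℝ × ℝ)) (N : ℝ × ℝ → Y) : Prop where
  cont : ContinuousOn N R
  inj : InjOn N R
  maps : MapsTo N R V.bd
  opn : ∃ U, IsOpen U ∧ N '' Ro = U ∩ V.bd
  disj : ∀ i, Disjoint (N '' R) (V.curve i)
  bd : V.bd = P.S
  hsub : Ro ⊆ R
  ε_maps : ∀ b, MapsTo (ε1 b) disc Ro
  D : T.δ '' disc = N '' (ε1 true '' disc)
  Di : T.δ '' discInt = N '' (ε1 true '' discInt)
  D' : K.j '' rect = N '' (ε1 false '' disc)
  Di' : K.j '' rectInt = N '' (ε1 false '' discInt)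
  ρ : ∀ v ∈ discBd, T.ρ (N (ε1 true v)) = N (ε1 false v)

namespace Chart

variable {Y : Type} [TopologicalSpace Y] {P : Splitting Y} {K : Placement P} {T : Tube K}
  {V : Handlebody Y 2} {R Ro : Set (ℝ × ℝ)} {N : ℝ × ℝ → Y} (C : Chart T V R Ro N)

include C

theorem εR (b : Bool) {v : ℝ × ℝ} (hv : v ∈ disc) : ε1 b v ∈ R := C.hsub (C.ε_maps b hv)

theorem bdD_eq : T.bdD = N '' (ε1 true '' discBd) := by
  rw [← T.E_inter_D]
  ext y
  constructor
  · rintro ⟨⟨-, h1⟩, h2⟩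
    have h2' : y ∈ N '' (ε1 true '' disc) := by rw [← C.D]; exact h2
    obtain ⟨_, ⟨v, hv, rfl⟩, rfl⟩ := h2'
    refine ⟨_, ⟨v, mem_discBd_of hv fun h => h1 (Or.inl ?_), rfl⟩, rfl⟩
    rw [C.Di]; exact ⟨_, ⟨v, h, rfl⟩, rfl⟩
  · rintro ⟨_, ⟨v, hv, rfl⟩, rfl⟩
    have hv' := discBd_subset hv
    have h1 : N (ε1 true v) ∈ T.Dd := by
      change _ ∈ T.δ '' disc
      rw [C.D]; exact ⟨_, ⟨v, hv', rfl⟩, rfl⟩
    refine ⟨⟨T.Dd_sub_S h1, ?_⟩, h1⟩
    rw [C.Di, C.Di']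
    rintro (⟨_, ⟨w, hw, rfl⟩, h⟩ | ⟨_, ⟨w, hw, rfl⟩, h⟩)
    · have := C.inj (C.εR _ (discInt_subset hw)) (C.εR _ hv') h
      obtain ⟨-, rfl⟩ := ε1_inj (discInt_subset hw) hv' this
      exact not_mem_discInt hv hw
    · have := C.inj (C.εR _ (discInt_subset hw)) (C.εR _ hv') h
      obtain ⟨h, -⟩ := ε1_inj (discInt_subset hw) hv' this
      simp at h

theorem mem_E {x : ℝ × ℝ} (hx : x ∈ R) : N x ∈ T.E ↔ x ∉ ⋃ b, ε1 b '' discInt := by
  have h0 : N x ∈ P.S := by rw [← C.bd]; exact C.maps hx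
  constructor
  · rintro ⟨-, h⟩ h'
    obtain ⟨b, v, hv, rfl⟩ := mem_iUnion.1 h'
    apply h
    rw [C.Di, C.Di']
    cases b
    · exact Or.inr ⟨_, ⟨v, hv, rfl⟩, rfl⟩
    · exact Or.inl ⟨_, ⟨v, hv, rfl⟩, rfl⟩
  · intro h
    refine ⟨h0, ?_⟩
    rw [C.Di, C.Di']
    rintro (⟨_, ⟨w, hw, rfl⟩, h'⟩ | ⟨_, ⟨w, hw, rfl⟩, h'⟩)
    · have := C.inj (C.εR _ (discInt_subset hw)) hx h'
      exact h (mem_iUnion.2 ⟨true, w, hw, this⟩)
    · have := C.inj (C.εR _ (discInt_subset hw)) hx h'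
      exact h (mem_iUnion.2 ⟨false, w, hw, this⟩)

theorem out_E : V.bd \ N '' Ro ⊆ T.E := by
  rintro y ⟨h1, h2⟩
  refine ⟨by rw [← C.bd]; exact h1, ?_⟩
  rw [C.Di, C.Di']
  rintro (⟨_, ⟨w, hw, rfl⟩, rfl⟩ | ⟨_, ⟨w, hw, rfl⟩, rfl⟩)
  · exact h2 ⟨_, C.ε_maps _ (discInt_subset hw), rfl⟩
  · exact h2 ⟨_, C.ε_maps _ (discInt_subset hw), rfl⟩

theorem out_bdD {y : Y} (h : y ∈ V.bd \ N '' Ro) : y ∉ T.bdD ∧ y ∉ T.bdD' := by
  constructor
  · intro h'
    rw [C.bdD_eq] at h'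
    obtain ⟨_, ⟨v, hv, rfl⟩, rfl⟩ := h'
    exact h.2 ⟨_, C.ε_maps _ (discBd_subset hv), rfl⟩
  · intro h'
    have h1 := T.bdD'_sub h'
    change y ∈ K.j '' rect at h1
    rw [C.D'] at h1
    obtain ⟨_, ⟨v, hv, rfl⟩, rfl⟩ := h1
    exact h.2 ⟨_, C.ε_maps _ hv, rfl⟩

variable {F : Type} [TopologicalSpace F] {p : Y → F}

theorem p_inj (hp : ∀ x ∈ T.E, ∀ y ∈ T.E,
    (p x = p y ↔ x = y ∨ (x ∈ T.bdD ∧ y = T.ρ x) ∨ (y ∈ T.bdD ∧ x = T.ρ y))) :
    InjOn p (V.bd \ N '' Ro) := by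
  intro x hx y hy h
  rcases (hp x (C.out_E hx) y (C.out_E hy)).1 h with h | ⟨h, -⟩ | ⟨h, -⟩
  · exact h
  · exact absurd h (C.out_bdD hx).1
  · exact absurd h (C.out_bdD hy).1

theorem pN_eq (hp : ∀ x ∈ T.E, ∀ y ∈ T.E,
    (p x = p y ↔ x = y ∨ (x ∈ T.bdD ∧ y = T.ρ x) ∨ (y ∈ T.bdD ∧ x = T.ρ y))) {x y : ℝ × ℝ}
    (hx : x ∈ R \ ⋃ b, ε1 b '' discInt) (hy : y ∈ R \ ⋃ b, ε1 b '' discInt) :
    p (N x) = p (N y) ↔ x = y ∨ ∃ b v, v ∈ discBd ∧ x = ε1 b v ∧ y = ε1 (!b) v := by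
  rw [hp _ ((C.mem_E hx.1).2 hx.2) _ ((C.mem_E hy.1).2 hy.2)]
  have key : ∀ x ∈ R, ∀ y ∈ R, (N x ∈ T.bdD ∧ N y = T.ρ (N x)) →
      ∃ v, v ∈ discBd ∧ x = ε1 true v ∧ y = ε1 false v := by
    rintro x hx y hy ⟨h1, h2⟩
    rw [C.bdD_eq] at h1
    obtain ⟨_, ⟨v, hv, rfl⟩, h1⟩ := h1
    have h3 := C.inj (C.εR _ (discBd_subset hv)) hx h1
    subst h3
    rw [C.ρ v hv] at h2
    exact ⟨v, hv, rfl, C.inj hy (C.εR _ (discBd_subset hv)) h2⟩
  constructor
  · rintro (h | h | h)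
    · exact Or.inl (C.inj hx.1 hy.1 h)
    · obtain ⟨v, hv, h1, h2⟩ := key x hx.1 y hy.1 h
      exact Or.inr ⟨true, v, hv, h1, h2⟩
    · obtain ⟨v, hv, h1, h2⟩ := key y hy.1 x hx.1 h
      exact Or.inr ⟨false, v, hv, h2, h1⟩
  · have hm : ∀ v ∈ discBd, N (ε1 true v) ∈ T.bdD := fun v hv => by
      rw [C.bdD_eq]; exact ⟨_, ⟨v, hv, rfl⟩, rfl⟩
    rintro (rfl | ⟨b, v, hv, rfl, rfl⟩)
    · exact Or.inl rfl
    · cases b
      · exact Or.inr (Or.inr ⟨hm v hv, (C.ρ v hv).symm⟩)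
      · exact Or.inr (Or.inl ⟨hm v hv, (C.ρ v hv).symm⟩)

theorem pN_out (hp : ∀ x ∈ T.E, ∀ y ∈ T.E,
    (p x = p y ↔ x = y ∨ (x ∈ T.bdD ∧ y = T.ρ x) ∨ (y ∈ T.bdD ∧ x = T.ρ y))) {x : ℝ × ℝ}
    (hx : x ∈ R \ ⋃ b, ε1 b '' discInt) {y : Y} (hy : y ∈ V.bd \ N '' Ro)
    (h : p (N x) = p y) : y = N x := by
  rcases (hp _ ((C.mem_E hx.1).2 hx.2) y (C.out_E hy)).1 h with h | ⟨h, h'⟩ | ⟨h, -⟩
  · exact h.symm
  · exfalso
    apply (C.out_bdD hy).2
    rw [h']; exact T.ρ_mem h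
  · exact absurd h (C.out_bdD hy).1

theorem E_eq : (V.bd \ N '' Ro) ∪ N '' (R \ ⋃ b, ε1 b '' discInt) = T.E := by
  apply Subset.antisymm
  · rintro y (h | ⟨x, hx, rfl⟩)
    · exact C.out_E h
    · exact (C.mem_E hx.1).2 hx.2
  · intro y hy
    by_cases h : y ∈ N '' Ro
    · obtain ⟨x, hx, rfl⟩ := h
      exact Or.inr ⟨x, ⟨C.hsub hx, (C.mem_E (C.hsub hx)).1 hy⟩, rfl⟩
    · left
      refine ⟨?_, h⟩
      rw [C.bd]; exact hy.1

theorem surj (hs : p '' T.E = univ) :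
    p '' (V.bd \ N '' Ro) ∪ (fun y => p (N y)) '' (R \ ⋃ b, ε1 b '' discInt) = univ := by
  rw [← hs, ← C.E_eq, image_union, image_image]

/-- The presentation for `α`. -/
theorem pres_surgery [T2Space Y] (hR : IsCompact R) (hRo : IsOpen Ro)
    (hc : ContinuousOn p T.E) (hs : p '' T.E = univ) (hp : ∀ x ∈ T.E, ∀ y ∈ T.E,
    (p x = p y ↔ x = y ∨ (x ∈ T.bdD ∧ y = T.ρ x) ∨ (y ∈ T.bdD ∧ x = T.ρ y))) :
    ∃ Q : Pres F 3,
    (∀ i : Fin 2, Q.r '' (Q.e (i.castSucc, true) '' discBd) = p '' V.curve i) ∧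
    Q.r '' (Q.e (2, true) '' discBd) = p '' T.bdD := by
  let L : LocalData V p :=
    { R := R
      Ro := Ro
      N := N
      ε := ε1
      G := fun y => p (N y)
      hR := hR
      hRo := hRo
      hsub := C.hsub
      N_cont := C.cont
      N_inj := C.inj
      N_maps := C.maps
      N_open := C.opn
      N_disj := C.disj
      p_cont := hc.mono C.out_E
      p_inj := C.p_inj hp
      ε_cont := fun b => (continuous_ε1 b).continuousOn
      ε_inj := fun b c v w hv hw h => ε1_inj hv hw h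
      ε_maps := C.ε_maps
      ε_open := ε1_open
      G_cont := hc.comp (C.cont.mono sdiff_subset) fun x hx => (C.mem_E hx.1).2 hx.2
      G_bd := fun x _ => rfl
      G_eq := fun x hx y hy => C.pN_eq hp hx hy
      G_out := fun x hx y hy h => C.pN_out hp hx hy h
      surj := C.surj hs }
  obtain ⟨Q, h1, h2⟩ := L.exists_pres
  refine ⟨Q, h1, h2.trans ?_⟩
  change (fun y => p (N y)) '' _ = _
  rw [C.bdD_eq, image_image p N]

end Chart

theorem R1_eq : Cr \ ⋃ b, ε1 b '' discInt = R1 := by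
  ext y
  simp only [mem_sdiff, mem_iUnion, not_exists, ε1_image, mem_ofPred_eq, R1]
  refine and_congr_right fun _ => ?_
  constructor
  · intro h
    by_contra hcon
    push Not at hcon
    obtain ⟨b, hb⟩ := exists_sg (fst_ne hcon.le)
    exact h b ⟨hcon, hb⟩
  · rintro h b ⟨h1, -⟩
    linarith

/-- The presentations for `β` and `γ`. -/
theorem Chart.pres_swap {Y : Type} [TopologicalSpace Y] {P : Splitting Y} {K : Placement P}
    {T : Tube K} {V : Handlebody Y 2} {N : ℝ × ℝ → Y} (C : Chart T V Cr Cro N)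
    {F : Type} [TopologicalSpace F] {p : Y → F} [T2Space Y]
    (hc : ContinuousOn p T.E) (hs : p '' T.E = univ) (hp : ∀ x ∈ T.E, ∀ y ∈ T.E,
    (p x = p y ↔ x = y ∨ (x ∈ T.bdD ∧ y = T.ρ x) ∨ (y ∈ T.bdD ∧ x = T.ρ y))) :
    ∃ Q : Pres F 3,
    (∀ i : Fin 2, Q.r '' (Q.e (i.castSucc, true) '' discBd) = p '' V.curve i) ∧
    Q.r '' (Q.e (2, true) '' discBd) = p '' (N '' {y | |y.1| ≤ 1 / 4 ∧ y.2 = 0}) := by
  let D : SwapData V p :=
    { N := N
      N_cont := C.cont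
      N_inj := C.inj
      N_maps := C.maps
      N_open := C.opn
      N_disj := C.disj
      p_cont := hc.mono C.out_E
      p_inj := C.p_inj hp
      pN_cont := by
        rw [← R1_eq]
        exact hc.comp (C.cont.mono sdiff_subset) fun x hx => (C.mem_E hx.1).2 hx.2
      pN_eq := by
        intro x hx y hy
        rw [← R1_eq] at hx hy
        rw [C.pN_eq hp hx hy, pair1]
      pN_out := by
        intro x hx y hy h
        rw [← R1_eq] at hx
        exact C.pN_out hp hx hy h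
      surj := by rw [← R1_eq]; exact C.surj hs }
  exact D.exists_pres

end Pool.Agent.H72.Tri
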