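import Pool.Agent.H72.Tri.Reach

/-!
# Changing the framing of a placement
-/

open Set Topology Metric

namespace Pool.Agent.H72.Tri

noncomputable section

theorem contOn_arg : ContinuousOn (fun z : Circle => Complex.arg z) halfR := by
  intro z hz
  have hz' : 0 ≤ (z : ℂ).re := hz
  have hs : (z : ℂ) ∈ Complex.slitPlane := by
    rw [Complex.mem_slitPlane_iff]
    rcases eq_or_lt_of_le hz' with h0 | h0
    · right
      intro him
      have := Circle.normSq_coe z
      rw [Complex.normSq_apply, ← h0, him] at this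
      norm_num at this
    · left; exact h0
  exact ((Complex.continuousAt_arg hs).comp continuous_subtype_val.continuousAt).continuousWithinAt

/-- the coordinate `s` of the point `z = exp (i π s / 2)` of the right half circle -/
def sOf (z : Circle) : ℝ := 2 * Complex.arg z / Real.pi

theorem sOf_mem {z : Circle} (hz : z ∈ halfR) : sOf z ∈ Icc (-1 : ℝ) 1 := by
  have hpi := Real.pi_pos
  have hz' : 0 ≤ (z : ℂ).re := hz
  have h := Complex.abs_arg_le_pi_div_two_iff.2 hz'
  rw [abs_le] at h
  unfold sOf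
  constructor
  · rw [le_div_iff₀ hpi]; linarith [h.1]
  · rw [div_le_iff₀ hpi]; linarith [h.2]

theorem exp_sOf (z : Circle) : Circle.exp (Real.pi / 2 * sOf z) = z := by
  have hpi := Real.pi_pos
  unfold sOf
  have : Real.pi / 2 * (2 * Complex.arg z / Real.pi) = Complex.arg z := by field_simp
  rw [this, Circle.exp_arg]

theorem sOf_exp {s : ℝ} (hs : s ∈ Icc (-1 : ℝ) 1) : sOf (Circle.exp (Real.pi / 2 * s)) = s := by
  have hpi := Real.pi_pos
  unfold sOf
  rw [Circle.arg_exp (by nlinarith [hs.1]) (by nlinarith [hs.2])]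
  field_simp

theorem contOn_sOf : ContinuousOn sOf halfR := by
  unfold sOf
  exact (continuousOn_const.mul contOn_arg).div_const _

theorem exp_mem_halfR {s : ℝ} (hs : s ∈ Icc (-1 : ℝ) 1) :
    Circle.exp (Real.pi / 2 * s) ∈ halfR := Twist.re_exp_half hs

/-- points with vanishing real part -/
theorem sOf_of_re_zero {z : Circle} (h1 : z ∈ halfR) (h2 : z ∈ halfL) :
    sOf z = 1 ∨ sOf z = -1 := by
  have hpi := Real.pi_pos
  have hz := exp_sOf z
  have hs := sOf_mem h1
  have h0 : (z : ℂ).re = 0 := le_antisymm h2 h1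
  rw [← hz, re_exp] at h0
  by_contra hcon
  push Not at hcon
  have h3 : -1 < sOf z := lt_of_le_of_ne hs.1 (Ne.symm hcon.2)
  have h4 : sOf z < 1 := lt_of_le_of_ne hs.2 hcon.1
  have : 0 < Real.cos (Real.pi / 2 * sOf z) := by
    apply Real.cos_pos_of_mem_Ioo
    constructor <;> nlinarith
  linarith

variable {Y : Type*} [TopologicalSpace Y] {P : Splitting Y}

/-- the twisted annulus -/
def twA (k : ℤ) (p : ℝ × Circle) : ℝ × Circle :=
  (p.1, p.2 * Circle.exp (k * (2 * Real.pi * (min p.1 0 + 1))))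

theorem continuous_twA (k : ℤ) : Continuous (twA k) := by
  unfold twA
  exact continuous_fst.prodMk (continuous_snd.mul (Circle.exp.continuous.comp (by fun_prop)))

theorem twA_neg (k : ℤ) (p : ℝ × Circle) : twA (-k) (twA k p) = p := by
  unfold twA
  simp only
  refine Prod.ext rfl ?_
  simp only
  rw [mul_assoc, ← Circle.exp_add]
  push_cast
  have : (k : ℝ) * (2 * Real.pi * (min p.1 0 + 1)) + -k * (2 * Real.pi * (min p.1 0 + 1)) = 0 := by
    ring
  rw [this, Circle.exp_zero, mul_one]

theorem twA_neg' (k : ℤ) (p : ℝ × Circle) : twA k (twA (-k) p) = p := by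
  have := twA_neg (-k) p
  rwa [neg_neg] at this

theorem twA_inj (k : ℤ) : Function.Injective (twA k) :=
  Function.LeftInverse.injective (twA_neg k)

theorem twA_maps (k : ℤ) (I : Set ℝ) : MapsTo (twA k) (I ×ˢ univ) (I ×ˢ univ) :=
  fun _ hp => ⟨hp.1, mem_univ _⟩

theorem twA_image (k : ℤ) (I : Set ℝ) : twA k '' (I ×ˢ univ) = I ×ˢ univ := by
  apply subset_antisymm
  · exact (twA_maps k I).image_subset
  · intro p hp
    exact ⟨twA (-k) p, twA_maps _ I hp, twA_neg' k p⟩

/-- the twist is supported in `[-1, 0]` -/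
theorem twA_id (k : ℤ) {s : ℝ} (hs : 0 ≤ s ∨ s = -1) (ω : Circle) : twA k (s, ω) = (s, ω) := by
  unfold twA
  rcases hs with hs | rfl
  · simp only
    rw [min_eq_right hs]
    have : (k : ℝ) * (2 * Real.pi * (0 + 1)) = k * (2 * Real.pi) := by ring
    rw [this, Circle.exp_int_mul_two_pi, mul_one]
  · simp only
    rw [min_eq_left (by norm_num : (-1 : ℝ) ≤ 0)]
    simp

/-- the twist fixes the subsets of `[0, 1] × S¹` -/
theorem twA_image_of_nonneg (k : ℤ) {A : Set (ℝ × Circle)} (h : ∀ p ∈ A, 0 ≤ p.1) :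
    twA k '' A = A := by
  have e : ∀ p ∈ A, twA k p = p := fun p hp => twA_id k (Or.inl (h p hp)) p.2
  rw [image_congr e, image_id']

/-- the twisted knot -/
def Placement.κtw (K : Placement P) (k : ℤ) (z : Circle) : Y := by
  classical
  exact if z ∈ halfR then K.j (twA k (sOf z, 1)) else K.κ z

namespace Placement

theorem κtw_R (K : Placement P) (k : ℤ) {z : Circle} (hz : z ∈ halfR) :
    K.κtw k z = K.j (twA k (sOf z, 1)) := if_pos hz

theorem κtw_L (K : Placement P) (k : ℤ) {z : Circle} (hz : z ∈ halfL) :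
    K.κtw k z = K.κ z := by
  by_cases h : z ∈ halfR
  · have h1 := sOf_of_re_zero h hz
    rw [κtw_R K k h, twA_id k (h1.imp (fun h => by rw [h]; norm_num) id)]
    rw [← K.cross _ (sOf_mem h), exp_sOf]
  · exact if_neg h

theorem κtw_cross (K : Placement P) (k : ℤ) {s : ℝ} (hs : s ∈ Icc (-1 : ℝ) 1) :
    K.κtw k (Circle.exp (Real.pi / 2 * s)) = K.j (twA k (s, 1)) := by
  rw [κtw_R K k (exp_mem_halfR hs), sOf_exp hs]

theorem hcases (z : Circle) : z ∈ halfR ∨ (z ∈ halfL ∧ z ∉ halfR) := by
  by_cases h : z ∈ halfR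
  · left; exact h
  · right
    refine ⟨?_, h⟩
    have h' : ¬ (0 ≤ (z : ℂ).re) := h
    push Not at h'
    exact h'.le

theorem hs1 (k : ℤ) {z : Circle} (hz : z ∈ halfR) :
    twA k (sOf z, 1) ∈ Icc (-1 : ℝ) 1 ×ˢ (univ : Set Circle) := ⟨sOf_mem hz, mem_univ _⟩

/-- **Changing the framing**: the twisted placement. -/
def tw (K : Placement P) (k : ℤ) : Placement P where
  κ := K.κtw k
  j := fun p => K.j (twA k p)
  κ_cont := by
    have hu : (halfR ∪ halfL) = univ := by
      apply eq_univ_of_forall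
      intro z
      exact le_total 0 (z : ℂ).re
    rw [← continuousOn_univ, ← hu]
    refine ContinuousOn.union_of_isClosed ?_ ?_ isClosed_halfR isClosed_halfL
    · refine ContinuousOn.congr ?_ (fun z hz => κtw_R K k hz)
      refine K.j_cont.comp ?_ (fun z hz => hs1 k hz)
      exact (continuous_twA k).comp_continuousOn (contOn_sOf.prodMk continuousOn_const)
    · exact K.κ_cont.continuousOn.congr (fun z hz => κtw_L K k hz)
  κ_inj := by
    intro z z' h
    rcases hcases z with hz | ⟨hz, hzn⟩ <;> rcases hcases z' with hz' | ⟨hz', hzn'⟩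
    · rw [κtw_R K k hz, κtw_R K k hz'] at h
      have h1 := K.j_inj (hs1 k hz) (hs1 k hz') h
      have h2 := twA_inj k h1
      have h3 := (Prod.mk.inj h2).1
      rw [← exp_sOf z, ← exp_sOf z', h3]
    · exfalso
      rw [κtw_R K k hz, κtw_L K k hz'] at h
      exact hzn' (K.only z' ⟨_, hs1 k hz, h⟩)
    · exfalso
      rw [κtw_L K k hz, κtw_R K k hz'] at h
      exact hzn (K.only z ⟨_, hs1 k hz', h.symm⟩)
    · rw [κtw_L K k hz, κtw_L K k hz'] at h
      exact K.κ_inj h
  κ_mem := by
    intro z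
    rcases hcases z with hz | ⟨hz, -⟩
    · rw [κtw_R K k hz]; exact K.j_mem (hs1 k hz)
    · rw [κtw_L K k hz]; exact K.κ_mem z
  κ_disj := by
    rw [Set.disjoint_left]
    rintro _ ⟨z, rfl⟩ hb
    rcases hcases z with hz | ⟨hz, -⟩
    · rw [κtw_R K k hz] at hb
      exact Set.disjoint_left.1 K.j_disj ⟨_, hs1 k hz, rfl⟩ hb
    · rw [κtw_L K k hz] at hb
      exact Set.disjoint_left.1 K.κ_disj ⟨z, rfl⟩ hb
  j_cont := K.j_cont.comp (continuous_twA k).continuousOn (twA_maps k _)
  j_inj := by
    intro p hp p' hp' h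
    exact twA_inj k (K.j_inj (twA_maps k _ hp) (twA_maps k _ hp') h)
  j_mem := K.j_mem.comp (twA_maps k _)
  j_open := by
    obtain ⟨U, hU, hUe⟩ := K.j_open
    refine ⟨U, hU, ?_⟩
    rw [← hUe, ← image_image K.j (twA k), twA_image]
  j_zero := by
    rw [← image_image K.j (twA k), twA_image]
    exact K.j_zero
  j_disj := by
    rw [← image_image K.j (twA k), twA_image]
    exact K.j_disj
  cross := by
    intro s hs
    exact K.κtw_cross k hs
  only := by
    intro z hz
    rw [← image_image K.j (twA k), twA_image] at hz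
    rcases hcases z with hz' | ⟨hz', hzn⟩
    · exact hz'
    · rw [κtw_L K k hz'] at hz
      exact K.only z hz

theorem tw_j_image (K : Placement P) (k : ℤ) (I : Set ℝ) :
    (K.tw k).j '' (I ×ˢ univ) = K.j '' (I ×ˢ univ) := by
  change (fun p => K.j (twA k p)) '' _ = _
  rw [← image_image K.j (twA k), twA_image]

theorem tw_j_of_nonneg (K : Placement P) (k : ℤ) {A : Set (ℝ × Circle)} (h : ∀ p ∈ A, 0 ≤ p.1) :
    (K.tw k).j '' A = K.j '' A := by
  change (fun p => K.j (twA k p)) '' _ = _
  rw [← image_image K.j (twA k), twA_image_of_nonneg k h]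

/-- the knot is only changed in `j ([-1, 0] × S¹)` -/
theorem tw_κ (K : Placement P) (k : ℤ) {z : Circle} (h : 0 ≤ (z : ℂ).im ∨ (z : ℂ).re ≤ 0) :
    (K.tw k).κ z = K.κ z := by
  change K.κtw k z = _
  rcases hcases z with hz | ⟨hz, -⟩
  · by_cases hL : z ∈ halfL
    · exact κtw_L K k hL
    · have h0 : 0 ≤ (z : ℂ).im := by
        rcases h with h | h
        · exact h
        · exact absurd h hL
      have h1 : 0 ≤ sOf z := by
        unfold sOf
        have : 0 ≤ Complex.arg z := Complex.arg_nonneg_iff.2 h0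
        positivity
      rw [κtw_R K k hz, twA_id k (Or.inl h1), ← K.cross _ (sOf_mem hz), exp_sOf]
  · exact κtw_L K k hz

theorem isTwist_tw (K : Placement P) (k : ℤ) : K.IsTwist (K.tw k) k := by
  refine ⟨fun z hz => K.tw_κ k hz, fun s hs => ?_⟩
  have h1 := K.κtw_cross k (s := s) ⟨hs.1, hs.2.trans zero_le_one⟩
  unfold twA at h1
  simp only [one_mul] at h1
  rw [min_eq_left hs.2] at h1
  exact h1

end Placement

end

end Pool.Agent.H72.Tri
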