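import Pool.Agent.H72.Tri.Ex5
import Pool.Agent.H72.Tri.Framing

/-!
# Changing the framing in an induced decomposition
-/

open Set Topology Metric

namespace Pool.Agent.H72.Tri

/-- Composition of a presentation with a homeomorphism of the surface. -/
def Pres.comp {F : Type*} [TopologicalSpace F] {g : ℕ} (R : Pres F g) (Φ : F ≃ₜ F) : Pres F g where
  e := R.e
  r := fun x => Φ (R.r x)
  cont_e := R.cont_e
  maps_e := R.maps_e
  inj_e := R.inj_e
  open_e := R.open_e
  cont_r := Φ.continuous.comp_continuousOn R.cont_r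
  surj := by
    rw [← image_image Φ R.r, R.surj, image_univ]
    exact Φ.surjective.range_eq
  r_eq := by
    intro x hx y hy
    rw [← R.r_eq x hx y hy]
    exact Φ.injective.eq_iff

section

variable {Y : Type} [TopologicalSpace Y] [T2Space Y] {P : Splitting Y} (K : Placement P)

/-- The annulus of the bicollar. -/
def Placement.J : Set Y := K.j '' (Icc (-1 : ℝ) 1 ×ˢ univ)

theorem Placement.isClosed_J : IsClosed K.J :=
  ((Placement.isCompact_ann (-1) 1).image_of_continuousOn K.j_cont).isClosed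

theorem Placement.isClosed_out : IsClosed (P.S \ K.j '' (Ioo (-1 : ℝ) 1 ×ˢ univ)) := by
  obtain ⟨U, hU, hUe⟩ := K.j_open
  have : P.S \ K.j '' (Ioo (-1 : ℝ) 1 ×ˢ univ) = P.S ∩ Uᶜ := by
    rw [hUe]
    ext y
    simp only [mem_sdiff, mem_inter_iff, mem_compl_iff]
    tauto
  rw [this]
  exact (Placement.isClosed_S (P := P)).inter hU.isClosed_compl

/-- The Dehn twist of the surface. -/
theorem Placement.exists_dehn (k : ℤ) : ∃ Ψ : Y → Y, ContinuousOn Ψ P.S ∧
    (∀ q ∈ Icc (-1 : ℝ) 1 ×ˢ (univ : Set Circle), Ψ (K.j q) = K.j (twA k q)) ∧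
    ∀ y ∉ K.J, Ψ y = y := by
  classical
  have : Nonempty Y := ⟨K.κ 1⟩
  obtain ⟨G, Gc, Ge⟩ := descend (Placement.isCompact_ann (-1) 1) (f := K.j)
    (g := fun q => K.j (twA k q)) K.j_cont
    (K.j_cont.comp (continuous_twA k).continuousOn (twA_maps k _))
    (fun x hx y hy h => by rw [K.j_inj hx hy h])
  let Ψ : Y → Y := fun y => if y ∈ K.J then G y else y
  have h1 : ∀ y ∈ K.J, Ψ y = G y := fun y hy => if_pos hy
  have h2 : ∀ y ∉ K.J, Ψ y = y := fun y hy => if_neg hy
  refine ⟨Ψ, ?_, ?_, h2⟩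
  · have hun : P.S = K.J ∪ (P.S \ K.j '' (Ioo (-1 : ℝ) 1 ×ˢ univ)) := by
      apply Subset.antisymm
      · intro y hy
        by_cases h : y ∈ K.J
        · exact Or.inl h
        · refine Or.inr ⟨hy, fun h' => h ?_⟩
          exact image_mono (prod_mono_left Ioo_subset_Icc_self) h'
      · rintro y (⟨q, hq, rfl⟩ | h)
        · exact K.j_mem hq
        · exact h.1
    rw [hun]
    refine ContinuousOn.union_of_isClosed ?_ ?_ K.isClosed_J K.isClosed_out
    · exact Gc.congr h1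
    · refine continuousOn_id.congr ?_
      rintro y ⟨hy, hy'⟩
      by_cases h : y ∈ K.J
      · rw [h1 y h]
        obtain ⟨⟨s, ω⟩, hq, rfl⟩ := h
        rw [Ge _ hq]
        have hs : s = 1 ∨ s = -1 := by
          by_contra hcon
          push Not at hcon
          refine hy' ⟨(s, ω), ⟨⟨?_, ?_⟩, mem_univ _⟩, rfl⟩
          · exact lt_of_le_of_ne hq.1.1 (Ne.symm hcon.2)
          · exact lt_of_le_of_ne hq.1.2 hcon.1
        rw [twA_id k (hs.imp (fun h => by rw [h]; norm_num) id)]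
        rfl
      · exact h2 y h
  · intro q hq
    rw [h1 _ ⟨q, hq, rfl⟩, Ge q hq]

variable {K}

/-- The tube of the twisted placement. -/
def Tube.tw (T : Tube K) (k : ℤ) : Tube (K.tw k) where
  δ := T.δ
  ρ := T.ρ
  δ_cont := T.δ_cont
  δ_inj := T.δ_inj
  δ_mem := T.δ_mem
  δ_open := T.δ_open
  δ_K := by
    intro z
    rcases Placement.hcases z with hz | ⟨hz, -⟩
    · have h0 : 0 ≤ (z : ℂ).re := hz
      constructor
      · intro h
        exfalso
        change K.κtw k z ∈ _ at h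
        rw [Placement.κtw_R K k hz] at h
        exact Set.disjoint_left.1 T.disj_j h ⟨_, Placement.hs1 k hz, rfl⟩
      · intro h; linarith
    · rw [K.tw_κ k (Or.inr hz)]; exact T.δ_K z
  δ_K' := by
    intro z
    rcases Placement.hcases z with hz | ⟨hz, -⟩
    · have h0 : 0 ≤ (z : ℂ).re := hz
      constructor
      · intro h
        exfalso
        change K.κtw k z ∈ _ at h
        rw [Placement.κtw_R K k hz] at h
        exact Set.disjoint_left.1 T.disj_j (image_mono discInt_subset h)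
          ⟨_, Placement.hs1 k hz, rfl⟩
      · intro h; linarith
    · rw [K.tw_κ k (Or.inr hz)]; exact T.δ_K' z
  disj_j := by rw [Placement.tw_j_image]; exact T.disj_j
  disj_β := T.disj_β
  disj_α := T.disj_α
  disj_α' := by
    rw [K.tw_j_of_nonneg k (fun p hp => by have := hp.1.1; linarith)]
    exact T.disj_α'
  ρ_cont := T.ρ_cont
  ρ_bij := by
    rw [K.tw_j_of_nonneg k (fun p hp => by have := hp.1.1.1; linarith)]
    exact T.ρ_bij
  ρ_b := by
    have hpi := Real.pi_pos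
    rw [K.tw_κ k, K.tw_κ k]
    · exact T.ρ_b
    · left
      rw [Circle.coe_exp, Complex.exp_ofReal_mul_I_im]
      exact Real.sin_nonneg_of_nonneg_of_le_pi (by positivity) (by linarith)
    · right
      rw [re_exp, cos_two_pi_third]
      norm_num
  ρ_c := by
    have hpi := Real.pi_pos
    rw [K.tw_κ k, K.tw_κ k]
    · exact T.ρ_c
    · left
      rw [Circle.coe_exp, Complex.exp_ofReal_mul_I_im]
      exact Real.sin_nonneg_of_nonneg_of_le_pi (by positivity) (by linarith)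
    · right
      rw [re_exp, Real.cos_neg, cos_two_pi_third]
      norm_num

theorem Tube.tw_bdD (T : Tube K) (k : ℤ) : (T.tw k).bdD = T.bdD := rfl

theorem Tube.tw_E (T : Tube K) (k : ℤ) : (T.tw k).E = T.E := by
  unfold Tube.E
  rw [K.tw_j_of_nonneg k (fun p hp => by have := hp.1.1; linarith)]
  rfl

theorem Ind.tw {T : Tube K} {F : Type} [TopologicalSpace F] [T2Space F] {p : Y → F}
    (I : Ind K T F p) (k : ℤ) : HasInd (K.tw k) := by
  have hpi := Real.pi_pos
  have hF : Nonempty F := ⟨p (K.κ 1)⟩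
  -- the homeomorphism of `F`
  have key : ∀ k : ℤ, ∃ Φ : F → F, Continuous Φ ∧ ∀ (Ψ : Y → Y),
      (∀ q ∈ Icc (-1 : ℝ) 1 ×ˢ (univ : Set Circle), Ψ (K.j q) = K.j (twA k q)) →
      (∀ y ∉ K.J, Ψ y = y) → ∀ x ∈ T.E, Φ (p x) = p (Ψ x) ∧ Ψ x ∈ T.E := by
    intro k
    obtain ⟨Ψ, Ψc, Ψj, Ψo⟩ := K.exists_dehn k
    have hE : ∀ x ∈ T.E, Ψ x ∈ T.E := by
      intro x hx
      by_cases h : x ∈ K.J
      · obtain ⟨q, hq, rfl⟩ := h
        rw [Ψj q hq]
        refine ⟨K.j_mem (twA_maps k _ hq), ?_⟩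
        rintro (h | ⟨w, hw, h⟩)
        · exact Set.disjoint_left.1 T.disj_j (image_mono discInt_subset h)
            ⟨_, twA_maps k _ hq, rfl⟩
        · have h1 := K.j_inj (rectInt_sub hw) (twA_maps k _ hq) h
          have h2 : 0 ≤ q.1 := by
            have h3 : w.1 = q.1 := by rw [h1]; rfl
            have := hw.1.1
            linarith
          have h3 : twA k q = q := twA_id k (Or.inl h2) q.2
          rw [h3] at h1
          exact hx.2 (Or.inr ⟨w, hw, by rw [h1]⟩)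
      · rw [Ψo x h]; exact hx
    have hfix : ∀ x, x ∈ T.bdD ∨ x ∈ T.bdD' → Ψ x = x := by
      rintro x (h | ⟨q, hq, rfl⟩)
      · exact Ψo x fun h' => Set.disjoint_left.1 T.disj_j (T.bdD_sub h) h'
      · rw [Ψj q (rect_sub hq.1)]
        have h2 : 0 ≤ q.1 := by have := hq.1.1.1; linarith
        have h3 : twA k q = q := twA_id k (Or.inl h2) q.2
        rw [h3]
    obtain ⟨Φ, Φc, Φe⟩ := descend T.isCompact_E (f := p) (g := fun x => p (Ψ x)) I.p_cont
      (I.p_cont.comp (Ψc.mono T.E_sub_S) hE) (by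
        intro x hx y hy h
        rcases (I.p_eq x hx y hy).1 h with rfl | ⟨h1, h2⟩ | ⟨h1, h2⟩
        · rfl
        · have h3 : y ∈ T.bdD' := by rw [h2]; exact T.ρ_mem h1
          rw [hfix x (Or.inl h1), hfix y (Or.inr h3), h]
        · have h3 : x ∈ T.bdD' := by rw [h2]; exact T.ρ_mem h1
          rw [hfix y (Or.inl h1), hfix x (Or.inr h3), h])
    rw [I.p_surj, continuousOn_univ] at Φc
    refine ⟨Φ, Φc, ?_⟩
    intro Ψ' h1 h2 x hx
    have e : Ψ' x = Ψ x := by
      by_cases h : x ∈ K.J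
      · obtain ⟨q, hq, rfl⟩ := h
        rw [h1 q hq, Ψj q hq]
      · rw [h2 x h, Ψo x h]
    rw [e]
    exact ⟨Φe x hx, hE x hx⟩
  have hinv : ∀ (k : ℤ) (Φ Φ' : F → F), (∀ (Ψ : Y → Y),
      (∀ q ∈ Icc (-1 : ℝ) 1 ×ˢ (univ : Set Circle), Ψ (K.j q) = K.j (twA k q)) →
      (∀ y ∉ K.J, Ψ y = y) → ∀ x ∈ T.E, Φ (p x) = p (Ψ x) ∧ Ψ x ∈ T.E) → (∀ (Ψ : Y → Y),
      (∀ q ∈ Icc (-1 : ℝ) 1 ×ˢ (univ : Set Circle), Ψ (K.j q) = K.j (twA (-k) q)) →
      (∀ y ∉ K.J, Ψ y = y) → ∀ x ∈ T.E, Φ' (p x) = p (Ψ x) ∧ Ψ x ∈ T.E) →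
      ∀ z, Φ' (Φ z) = z := by
    intro k Φ Φ' h h' z
    obtain ⟨Ψ, -, Ψj, Ψo⟩ := K.exists_dehn k
    obtain ⟨Ψ', -, Ψj', Ψo'⟩ := K.exists_dehn (-k)
    have hz : z ∈ p '' T.E := by rw [I.p_surj]; trivial
    obtain ⟨x, hx, rfl⟩ := hz
    obtain ⟨h1, h2⟩ := h Ψ Ψj Ψo x hx
    rw [h1, (h' Ψ' Ψj' Ψo' _ h2).1]
    congr 1
    by_cases hJ : x ∈ K.J
    · obtain ⟨q, hq, rfl⟩ := hJ
      rw [Ψj q hq, Ψj' _ (twA_maps k _ hq), twA_neg]
    · rw [Ψo x hJ, Ψo' x hJ]
  obtain ⟨Φ, Φc, Φe⟩ := key k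
  obtain ⟨Φ', Φc', Φe'⟩ := key (-k)
  let H : F ≃ₜ F :=
    { toFun := Φ
      invFun := Φ'
      left_inv := hinv k Φ Φ' Φe Φe'
      right_inv := hinv (-k) Φ' Φ Φe' (by rw [neg_neg]; exact Φe)
      continuous_toFun := Φc
      continuous_invFun := Φc' }
  obtain ⟨Ψ, -, Ψj, Ψo⟩ := K.exists_dehn k
  have hH : ∀ A ⊆ T.E, H '' (p '' A) = p '' (Ψ '' A) := by
    intro A hA
    rw [image_image, image_image]
    exact image_congr fun x hx => (Φe Ψ Ψj Ψo x (hA hx)).1
  have hκ : ∀ z, Ψ (K.κ z) = (K.tw k).κ z := by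
    intro z
    change _ = K.κtw k z
    rcases Placement.hcases z with hz | ⟨hz, hzn⟩
    · rw [Placement.κtw_R K k hz]
      have h1 := K.cross _ (sOf_mem hz)
      rw [exp_sOf] at h1
      rw [h1, Ψj _ ⟨sOf_mem hz, mem_univ _⟩]
    · rw [Placement.κtw_L K k hz]
      exact Ψo _ fun h => hzn (K.only z h)
  have hβ : Ψ '' (P.β 1) = P.β 1 := by
    have : ∀ y ∈ P.β 1, Ψ y = y := fun y hy => Ψo y fun h =>
      Set.disjoint_left.1 K.j_disj h hy
    rw [image_congr this, image_id']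
  have hγ : Ψ '' K.γ₁ = K.γ₁ := by
    have : ∀ y ∈ K.γ₁, Ψ y = y := by
      rintro _ ⟨⟨s, ω⟩, ⟨hs, -⟩, rfl⟩
      have hs' : s = 1 := hs
      subst hs'
      rw [Ψj _ ⟨by norm_num, mem_univ _⟩, twA_id k (Or.inl zero_le_one)]
    rw [image_congr this, image_id']
  have hγ' : (K.tw k).γ₁ = K.γ₁ := by
    unfold Placement.γ₁
    rw [Placement.tw_j_image]
  have hB : (K.tw k).arcB = K.arcB := by
    unfold Placement.arcB
    refine image_congr fun t ht => ?_
    refine K.tw_κ k ?_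
    have h1 := ht.1
    have h2 := ht.2
    left
    rw [Circle.coe_exp, Complex.exp_ofReal_mul_I_im]
    exact Real.sin_nonneg_of_nonneg_of_le_pi (by linarith) (by linarith)
  have hC : (K.tw k).arcC = Ψ '' K.arcC := by
    unfold Placement.arcC
    rw [image_image]
    exact image_congr fun t _ => (hκ _).symm
  have hE := T.tw_E k
  exact Ind.hasInd (T := T.tw k) (F := F) (p := p)
    { p_cont := by rw [hE]; exact I.p_cont
      p_surj := by rw [hE]; exact I.p_surj
      p_eq := by rw [hE]; exact I.p_eq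
      A := I.A
      B := I.B
      C := I.C.comp H
      A0 := I.A0
      A1 := I.A1
      A2 := I.A2
      B0 := I.B0
      B1 := I.B1
      B2 := by rw [hB]; exact I.B2
      C0 := by
        change (fun x => H (I.C.r x)) '' _ = _
        rw [← image_image H I.C.r, hγ']
        change H '' (I.C.r '' (I.C.e (0, true) '' discBd)) = _
        rw [I.C0, hH _ T.γ₁_sub, hγ]
      C1 := by
        change (fun x => H (I.C.r x)) '' _ = _
        rw [← image_image H I.C.r]
        change H '' (I.C.r '' (I.C.e (1, true) '' discBd)) = _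
        rw [I.C1, hH _ T.β1_sub, hβ]
      C2 := by
        change (fun x => H (I.C.r x)) '' _ = _
        rw [← image_image H I.C.r, hC]
        change H '' (I.C.r '' (I.C.e (2, true) '' discBd)) = _
        rw [I.C2, hH _ T.arcC_sub] }

end

end Pool.Agent.H72.Tri
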