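import Pool.Agent.H72.Tri.Reach

/-!
# Circle homeomorphisms
-/

open Set Topology Metric

namespace Pool.Agent.H72.Tri

noncomputable section

/-- The lift of a degree one homeomorphism of the circle, on `[-π, π]`. -/
structure IsLift (B : ℝ → ℝ) : Prop where
  cont : Continuous B
  mono : StrictMonoOn B (Icc (-Real.pi) Real.pi)
  per : B Real.pi = B (-Real.pi) + 2 * Real.pi

/-- the map of the circle with the lift `B` -/
def cm (B : ℝ → ℝ) (z : Circle) : Circle := Circle.exp (B (Complex.arg z))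

theorem cm_exp {B : ℝ → ℝ} (h : IsLift B) {x : ℝ} (hx : x ∈ Icc (-Real.pi) Real.pi) :
    cm B (Circle.exp x) = Circle.exp (B x) := by
  unfold cm
  rcases eq_or_lt_of_le hx.1 with h1 | h1
  · have e : Circle.exp x = Circle.exp Real.pi := by
      rw [← h1, Circle.exp_eq_exp]
      exact ⟨-1, by push_cast; ring⟩
    rw [e, Circle.arg_exp (by linarith [Real.pi_pos]) le_rfl, h.per, ← h1, Circle.exp_add,
      Circle.exp_two_pi, mul_one]
  · rw [Circle.arg_exp h1 hx.2]

theorem exists_arg (z : Circle) : ∃ x, (-Real.pi < x ∧ x ≤ Real.pi) ∧ Circle.exp x = z :=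
  ⟨Complex.arg z, ⟨Complex.neg_pi_lt_arg _, Complex.arg_le_pi _⟩, Circle.exp_arg z⟩

theorem exp_image_pi : Circle.exp '' Icc (-Real.pi) Real.pi = univ := by
  apply eq_univ_of_forall
  intro z
  obtain ⟨x, hx, rfl⟩ := exists_arg z
  exact ⟨x, ⟨hx.1.le, hx.2⟩, rfl⟩

theorem continuous_cm {B : ℝ → ℝ} (h : IsLift B) : Continuous (cm B) := by
  obtain ⟨g, gc, ge⟩ := descend (isCompact_Icc (a := -Real.pi) (b := Real.pi))
    (f := fun x => Circle.exp x) (g := fun x => Circle.exp (B x))
    Circle.exp.continuous.continuousOn (Circle.exp.continuous.comp h.cont).continuousOn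
    (fun x hx y hy hxy => by
      rw [← cm_exp h hx, ← cm_exp h hy, hxy])
  have him : (fun x => Circle.exp x) '' Icc (-Real.pi) Real.pi = univ := exp_image_pi
  rw [him, continuousOn_univ] at gc
  have : cm B = g := by
    funext z
    obtain ⟨x, hx, rfl⟩ := exists_arg z
    rw [cm_exp h ⟨hx.1.le, hx.2⟩]
    exact (ge x ⟨hx.1.le, hx.2⟩).symm
  rw [this]
  exact gc

theorem cm_inj {B : ℝ → ℝ} (h : IsLift B) : Function.Injective (cm B) := by
  intro z z' hz
  have hpi := Real.pi_pos
  obtain ⟨x, hx, rfl⟩ := exists_arg z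
  obtain ⟨y, hy, rfl⟩ := exists_arg z'
  have hx' : x ∈ Icc (-Real.pi) Real.pi := ⟨hx.1.le, hx.2⟩
  have hy' : y ∈ Icc (-Real.pi) Real.pi := ⟨hy.1.le, hy.2⟩
  have hl : -Real.pi ∈ Icc (-Real.pi) Real.pi := ⟨le_rfl, by linarith⟩
  have hr : Real.pi ∈ Icc (-Real.pi) Real.pi := ⟨by linarith, le_rfl⟩
  rw [cm_exp h hx', cm_exp h hy', Circle.exp_eq_exp] at hz
  obtain ⟨m, hm⟩ := hz
  have h1 := h.mono hl hx' hx.1
  have h2 := h.mono.monotoneOn hx' hr hx.2
  have h3 := h.mono hl hy' hy.1
  have h4 := h.mono.monotoneOn hy' hr hy.2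
  have h5 := h.per
  have hm1 : (m : ℝ) < 1 := by nlinarith
  have hm2 : (-1 : ℝ) < m := by nlinarith
  have hm0 : m = 0 := by
    have h6 : m < 1 := by exact_mod_cast hm1
    have h7 : -1 < m := by exact_mod_cast hm2
    omega
  rw [hm0] at hm
  have : B x = B y := by simpa using hm
  rw [h.mono.injOn hx' hy' this]

theorem cm_surj {B : ℝ → ℝ} (h : IsLift B) : Function.Surjective (cm B) := by
  intro z
  have hpi := Real.pi_pos
  have hz : z * Circle.exp (-B (-Real.pi)) ∈ Circle.exp '' Icc 0 (2 * Real.pi) := by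
    rw [exp_image_Icc]; trivial
  obtain ⟨θ, hθ, hθ'⟩ := hz
  have h1 : B (-Real.pi) + θ ∈ Icc (B (-Real.pi)) (B Real.pi) := by
    rw [h.per]
    exact ⟨by linarith [hθ.1], by linarith [hθ.2]⟩
  obtain ⟨x, hx, hxe⟩ := intermediate_value_Icc (by linarith : -Real.pi ≤ Real.pi)
    h.cont.continuousOn h1
  refine ⟨Circle.exp x, ?_⟩
  rw [cm_exp h hx, hxe, Circle.exp_add, hθ', mul_comm z, ← mul_assoc, ← Circle.exp_add,
    add_neg_cancel, Circle.exp_zero, one_mul]

/-- The homeomorphism of the circle with the lift `B`. -/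
def circ (B : ℝ → ℝ) (h : IsLift B) : Circle ≃ₜ Circle :=
  Continuous.homeoOfEquivCompactToT2
    (f := Equiv.ofBijective (cm B) ⟨cm_inj h, cm_surj h⟩) (continuous_cm h)

theorem circ_exp {B : ℝ → ℝ} (h : IsLift B) {x : ℝ} (hx : x ∈ Icc (-Real.pi) Real.pi) :
    circ B h (Circle.exp x) = Circle.exp (B x) := cm_exp h hx

/-! ### The lift of the parametrisation of the knot -/

/-- positive part -/
def pp (x : ℝ) : ℝ := max 0 x

theorem pp_diff {x y : ℝ} (h : x ≤ y) : 0 ≤ pp y - pp x ∧ pp y - pp x ≤ y - x := by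
  unfold pp
  rcases le_total 0 x with hx | hx
  · rw [max_eq_right hx, max_eq_right (hx.trans h)]
    constructor <;> linarith
  · rw [max_eq_left hx]
    rcases le_total 0 y with hy | hy
    · rw [max_eq_right hy]; constructor <;> linarith
    · rw [max_eq_left hy]; constructor <;> linarith

theorem pp_shift {x y c : ℝ} (h : x ≤ y) (hc : 0 ≤ c) :
    pp (y - c) - pp (x - c) ≤ pp y - pp x := by
  unfold pp
  rcases le_total 0 (x - c) with hx | hx
  · rw [max_eq_right hx, max_eq_right (by linarith), max_eq_right (by linarith),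
      max_eq_right (by linarith)]
    linarith
  · rw [max_eq_left hx]
    rcases le_total 0 (y - c) with hy | hy
    · rw [max_eq_right hy, max_eq_right (by linarith : 0 ≤ y)]
      rcases le_total 0 x with h0 | h0
      · rw [max_eq_right h0]; linarith
      · rw [max_eq_left h0]; linarith
    · rw [max_eq_left hy]
      have := (pp_diff h).1
      unfold pp at this
      linarith

theorem pp_two {x y c : ℝ} (h : x ≤ y) (hc : 0 ≤ c) :
    (pp (y - c) - pp (x - c)) + (pp (-c - x) - pp (-c - y)) ≤ y - x := by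
  unfold pp
  rcases le_total 0 (x - c) with h1 | h1 <;> rcases le_total 0 (y - c) with h2 | h2 <;>
  rcases le_total 0 (-c - x) with h3 | h3 <;> rcases le_total 0 (-c - y) with h4 | h4 <;>
  simp only [max_eq_right, max_eq_left, h1, h2, h3, h4] <;> linarith

/-- the lift of the parametrisation of the knot -/
def Bκ (x : ℝ) : ℝ :=
  x / 2 - 1 / 8 * pp (x - Real.pi / 2) - 3 / 16 * pp (x - Real.pi / 2 - Real.pi / 6) -
    59 / 8 * pp (-(Real.pi / 2) - x) + 123 / 16 * pp (-(Real.pi / 2) - x - Real.pi / 6)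

theorem Bκ_mono : StrictMono Bκ := by
  intro x y h
  have hpi := Real.pi_pos
  have h1 := pp_diff (x := x - Real.pi / 2) (y := y - Real.pi / 2) (by linarith)
  have h2 := pp_shift (x := x - Real.pi / 2) (y := y - Real.pi / 2) (c := Real.pi / 6)
    (by linarith) (by linarith)
  have h3 := pp_diff (x := -(Real.pi / 2) - y) (y := -(Real.pi / 2) - x) (by linarith)
  have h4 := pp_shift (x := -(Real.pi / 2) - y) (y := -(Real.pi / 2) - x) (c := Real.pi / 6)
    (by linarith) (by linarith)
  have h5 := pp_two (x := x) (y := y) (c := Real.pi / 2) h.le (by linarith)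
  unfold Bκ
  linarith

theorem Bκ_mid {x : ℝ} (h1 : -(Real.pi / 2) ≤ x) (h2 : x ≤ Real.pi / 2) : Bκ x = x / 2 := by
  have hpi := Real.pi_pos
  unfold Bκ pp
  rw [max_eq_left (by linarith), max_eq_left (by linarith), max_eq_left (by linarith),
    max_eq_left (by linarith)]
  ring

theorem Bκ_pi : Bκ Real.pi = 3 * Real.pi / 8 := by
  have hpi := Real.pi_pos
  unfold Bκ pp
  rw [max_eq_right (by linarith), max_eq_right (by linarith), max_eq_left (by linarith),
    max_eq_left (by linarith)]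
  ring

theorem Bκ_neg_pi : Bκ (-Real.pi) = -(13 * Real.pi / 8) := by
  have hpi := Real.pi_pos
  unfold Bκ pp
  rw [max_eq_left (by linarith), max_eq_left (by linarith), max_eq_right (by linarith),
    max_eq_right (by linarith)]
  ring

theorem Bκ_b : Bκ (2 * Real.pi / 3) = 5 * Real.pi / 16 := by
  have hpi := Real.pi_pos
  unfold Bκ pp
  rw [max_eq_right (by linarith), max_eq_left (by linarith), max_eq_left (by linarith),
    max_eq_left (by linarith)]
  ring

theorem Bκ_c : Bκ (-(2 * Real.pi / 3)) = -(25 * Real.pi / 16) := by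
  have hpi := Real.pi_pos
  unfold Bκ pp
  rw [max_eq_left (by linarith), max_eq_left (by linarith), max_eq_right (by linarith),
    max_eq_left (by linarith)]
  ring

theorem isLift_Bκ : IsLift Bκ where
  cont := by unfold Bκ pp; fun_prop
  mono := Bκ_mono.strictMonoOn _
  per := by rw [Bκ_pi, Bκ_neg_pi]; ring

/-- the lift of the push-off -/
def Ba (x : ℝ) : ℝ := x + pp (Real.pi / 4 - |x| / 2)

theorem Ba_mono : StrictMono Ba := by
  intro x y h
  unfold Ba
  have h0 : |y| - |x| ≤ y - x := by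
    have := abs_sub_abs_le_abs_sub y x
    rwa [abs_of_pos (by linarith : 0 < y - x)] at this
  rcases le_total |x| |y| with h1 | h1
  · have := (pp_diff (x := Real.pi / 4 - |y| / 2) (y := Real.pi / 4 - |x| / 2) (by linarith)).2
    linarith
  · have := (pp_diff (x := Real.pi / 4 - |x| / 2) (y := Real.pi / 4 - |y| / 2) (by linarith)).1
    linarith

theorem Ba_out {x : ℝ} (h : Real.pi / 2 ≤ |x|) : Ba x = x := by
  unfold Ba pp
  rw [max_eq_left (by linarith)]; ring

theorem Ba_zero : Ba 0 = Real.pi / 4 := by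
  unfold Ba pp
  rw [abs_zero, max_eq_right (by linarith [Real.pi_pos])]; ring

theorem isLift_Ba : IsLift Ba where
  cont := by unfold Ba pp; fun_prop
  mono := Ba_mono.strictMonoOn _
  per := by
    have hpi := Real.pi_pos
    rw [Ba_out (by rw [abs_of_pos hpi]; linarith),
      Ba_out (by rw [abs_neg, abs_of_pos hpi]; linarith)]
    ring

/-- the push-off -/
def aC : Circle ≃ₜ Circle := circ Ba isLift_Ba

theorem re_exp_nonneg_iff {x : ℝ} (hx : x ∈ Icc (-Real.pi) Real.pi) :
    0 ≤ ((Circle.exp x : Circle) : ℂ).re ↔ |x| ≤ Real.pi / 2 := by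
  have hpi := Real.pi_pos
  rw [re_exp]
  constructor
  · intro h
    by_contra hcon
    push Not at hcon
    have h2 := abs_le.2 hx
    have : Real.cos |x| < 0 := Real.cos_neg_of_pi_div_two_lt_of_lt hcon (by linarith)
    rw [Real.cos_abs] at this
    linarith
  · intro h
    rw [abs_le] at h
    exact Real.cos_nonneg_of_mem_Icc ⟨by linarith [h.1], h.2⟩

theorem re_exp_nonpos_iff {x : ℝ} (hx : x ∈ Icc (-Real.pi) Real.pi) :
    ((Circle.exp x : Circle) : ℂ).re ≤ 0 ↔ Real.pi / 2 ≤ |x| := by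
  have hpi := Real.pi_pos
  rw [re_exp]
  constructor
  · intro h
    by_contra hcon
    push Not at hcon
    rw [abs_lt] at hcon
    have : 0 < Real.cos x := Real.cos_pos_of_mem_Ioo ⟨by linarith [hcon.1], hcon.2⟩
    linarith
  · intro h
    rw [← Real.cos_abs]
    exact Real.cos_nonpos_of_pi_div_two_le_of_le h (by
      have := abs_le.2 hx; linarith)

theorem aC_of_nonpos {z : Circle} (h : (z : ℂ).re ≤ 0) : aC z = z := by
  obtain ⟨x, hx, rfl⟩ := exists_arg z
  have hx' : x ∈ Icc (-Real.pi) Real.pi := ⟨hx.1.le, hx.2⟩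
  rw [re_exp_nonpos_iff hx'] at h
  unfold aC
  rw [circ_exp isLift_Ba hx', Ba_out h]

theorem aC_one : aC 1 = Circle.exp (Real.pi / 4) := by
  have hpi := Real.pi_pos
  have h : (0 : ℝ) ∈ Icc (-Real.pi) Real.pi := ⟨by linarith, hpi.le⟩
  rw [← Circle.exp_zero]
  unfold aC
  rw [circ_exp isLift_Ba h, Ba_zero]

theorem aC_re_nonpos (z : Circle) : ((aC z : Circle) : ℂ).re ≤ 0 ↔ (z : ℂ).re ≤ 0 := by
  constructor
  · intro h
    have h1 := aC_of_nonpos h
    have h2 := aC.injective h1
    rwa [h2] at h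
  · intro h
    rw [aC_of_nonpos h]; exact h

theorem aC_re_nonneg (z : Circle) : 0 ≤ ((aC z : Circle) : ℂ).re ↔ 0 ≤ (z : ℂ).re := by
  have h1 : ((aC z : Circle) : ℂ).re < 0 ↔ (z : ℂ).re < 0 := by
    constructor
    · intro h
      have h1 := aC_of_nonpos h.le
      have h2 := aC.injective h1
      rwa [h2] at h
    · intro h
      rw [aC_of_nonpos h.le]; exact h
  rw [← not_lt, ← not_lt, h1]

end

end Pool.Agent.H72.Tri
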