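import Pool.Agent.H72.Tri.Ex7

/-!
# The parametrisation of the bicollar
-/

open Set Topology Metric

namespace Pool.Agent.H72.Tri

noncomputable section

theorem mob_den (k : ℝ) (hk : |k| < 1) (ω : Circle) : (1 : ℂ) + k * ω ≠ 0 := by
  intro h
  have h1 : ((k : ℂ) * ω) = -1 := by linear_combination h
  have h2 : ‖(k : ℂ) * ω‖ = 1 := by rw [h1]; simp
  rw [norm_mul, Circle.norm_coe, mul_one, Complex.norm_real, Real.norm_eq_abs] at h2
  linarith

theorem mob_norm (k : ℝ) (hk : |k| < 1) (ω : Circle) :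
    ‖((ω : ℂ) + k) / (1 + k * ω)‖ = 1 := by
  have h0 := mob_den k hk ω
  have h1 : ‖(ω : ℂ) + k‖ = ‖(1 : ℂ) + k * ω‖ := by
    have h2 : (ω : ℂ) + k = (ω : ℂ) * (starRingEnd ℂ) (1 + k * ω) := by
      have h3 : (ω : ℂ) * (starRingEnd ℂ) (ω : ℂ) = 1 := by
        rw [Complex.mul_conj, Circle.normSq_coe]; simp
      simp only [map_add, map_one, map_mul, Complex.conj_ofReal]
      linear_combination (-(k : ℂ)) * h3
    rw [h2, norm_mul, Circle.norm_coe, one_mul, RCLike.norm_conj]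
  rw [norm_div, h1, div_self (norm_ne_zero_iff.2 h0)]

/-- The Möbius transformation of the circle. -/
def mob (k : ℝ) (hk : |k| < 1) (ω : Circle) : Circle :=
  ⟨((ω : ℂ) + k) / (1 + k * ω), mem_sphere_zero_iff_norm.2 (mob_norm k hk ω)⟩

theorem mob_coe (k : ℝ) (hk : |k| < 1) (ω : Circle) :
    (mob k hk ω : ℂ) = ((ω : ℂ) + k) / (1 + k * ω) := rfl

theorem continuous_mob (k : ℝ) (hk : |k| < 1) : Continuous (mob k hk) := by
  apply Continuous.subtype_mk
  refine Continuous.div (by fun_prop) (by fun_prop) fun ω => mob_den k hk ω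

theorem mob_inv (k : ℝ) (hk : |k| < 1) (hk' : |(-k)| < 1) (ω : Circle) :
    mob (-k) hk' (mob k hk ω) = ω := by
  apply Circle.ext
  rw [mob_coe, mob_coe]
  have h0 := mob_den k hk ω
  have h1 : (1 : ℂ) + (-k : ℝ) * (((ω : ℂ) + k) / (1 + k * ω)) = (1 - (k : ℂ) ^ 2) / (1 + k * ω) := by
    push_cast
    field_simp
    ring
  have h2 : (1 - (k : ℂ) ^ 2) ≠ 0 := by
    intro h
    have h3 : (1 - k ^ 2 : ℝ) = 0 := by exact_mod_cast h
    have h4 : k ^ 2 < 1 := by
      rw [← sq_abs]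
      nlinarith [abs_nonneg k]
    linarith
  rw [h1]
  push_cast
  rw [div_div_eq_mul_div, div_eq_iff h2]
  have h4 : ((ω : ℂ) + k) / (1 + k * ω) * (1 + k * ω) = ω + k := div_mul_cancel₀ _ h0
  linear_combination h4

theorem hk34 : |(3 / 4 : ℝ)| < 1 := abs_lt.2 ⟨by norm_num, by norm_num⟩
theorem hk34' : |(-(3 / 4) : ℝ)| < 1 := by rw [abs_neg]; exact hk34

/-- The Möbius transformation used for the bicollar. -/
def MM (ω : Circle) : Circle := mob (3 / 4) hk34 ω

theorem continuous_MM : Continuous MM := continuous_mob (3 / 4) hk34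

theorem MM_inj : Function.Injective MM :=
  Function.LeftInverse.injective (g := mob (-(3 / 4)) hk34') (mob_inv (3 / 4) hk34 hk34')

theorem MM_surj : Function.Surjective MM := by
  intro ω
  refine ⟨mob (-(3 / 4)) hk34' ω, ?_⟩
  have h := mob_inv (-(3 / 4)) hk34' (by rw [neg_neg]; exact hk34) ω
  simp only [neg_neg] at h
  exact h

theorem MM_one : MM 1 = 1 := by
  apply Circle.ext
  unfold MM
  rw [mob_coe]
  push_cast
  norm_num

theorem MM_re_im (ω : Circle) : ∃ d : ℝ, 0 < d ∧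
    (MM ω : ℂ).re = d * (25 * (ω : ℂ).re + 24) ∧ (MM ω : ℂ).im = d * (7 * (ω : ℂ).im) := by
  have h := Circle.normSq_coe ω
  rw [Complex.normSq_apply] at h
  set x := (ω : ℂ).re with hx
  set y := (ω : ℂ).im with hy
  have hx1 : -1 ≤ x := by nlinarith [mul_self_nonneg y]
  have hd : 0 < 25 + 24 * x := by linarith
  refine ⟨1 / (25 + 24 * x), by positivity, ?_⟩
  have h0 := mob_den (3 / 4) hk34 ω
  have hω : (ω : ℂ) = x + y * Complex.I := by
    rw [hx, hy]; exact (Complex.re_add_im _).symm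
  have h' : (x : ℂ) * x + y * y = 1 := by exact_mod_cast h
  have key : (MM ω : ℂ) * ((25 + 24 * x : ℝ) : ℂ) =
      ((25 * x + 24 : ℝ) : ℂ) + ((7 * y : ℝ) : ℂ) * Complex.I := by
    unfold MM
    rw [mob_coe, div_mul_eq_mul_div, div_eq_iff h0, hω]
    push_cast
    linear_combination (21 / 4 : ℂ) * h' - (21 / 4 : ℂ) * y ^ 2 * Complex.I_mul_I
  have h1 := congrArg Complex.re key
  have h2 := congrArg Complex.im key
  rw [Complex.re_mul_ofReal] at h1
  rw [Complex.im_mul_ofReal] at h2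
  simp only [Complex.add_re, Complex.ofReal_re, Complex.re_ofReal_mul, Complex.I_re, mul_zero,
    add_zero] at h1
  simp only [Complex.add_im, Complex.ofReal_im, Complex.im_ofReal_mul, Complex.I_im, mul_one,
    zero_add] at h2
  constructor
  · rw [← h1]; field_simp
  · rw [← h2]; field_simp

/-- the coordinates of the curve `β₁` -/
def sq2 (ω : Circle) : ℝ × ℝ := sqc (MM ω)

theorem continuous_sq2 : Continuous sq2 := continuous_sqc.comp continuous_MM
theorem sq2_mem (ω : Circle) : sq2 ω ∈ discBd := sqc_mem _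
theorem sq2_inj {ω ω' : Circle} (h : sq2 ω = sq2 ω') : ω = ω' := MM_inj (sqc_inj h)
theorem sq2_surj {v : ℝ × ℝ} (hv : v ∈ discBd) : ∃ ω : Circle, sq2 ω = v := by
  obtain ⟨ω', h⟩ := sqc_surj hv
  obtain ⟨ω, rfl⟩ := MM_surj ω'
  exact ⟨ω, h⟩
theorem sq2_one : sq2 1 = (0, 1) := by
  unfold sq2
  rw [MM_one, sqc_one]

theorem sqc_of {z : Circle} {d a b : ℝ} (hd : 0 < d) (h1 : (z : ℂ).re = d * b)
    (h2 : (z : ℂ).im = d * a) : sqc z = (a / Nm (b, a), b / Nm (b, a)) := by
  unfold sqc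
  have h3 := Nm_smul hd.le (b, a)
  simp only at h3
  rw [h1, h2, h3]
  rw [mul_div_mul_left _ _ hd.ne', mul_div_mul_left _ _ hd.ne']

theorem sq2_eq (ω : Circle) : sq2 ω = (7 * (ω : ℂ).im / Nm (25 * (ω : ℂ).re + 24, 7 * (ω : ℂ).im),
    (25 * (ω : ℂ).re + 24) / Nm (25 * (ω : ℂ).re + 24, 7 * (ω : ℂ).im)) := by
  obtain ⟨d, hd, h1, h2⟩ := MM_re_im ω
  exact sqc_of hd h1 h2

/-- In the right half circle, the coordinates are `(7 y / (25 x + 24), 1)`. -/
theorem sq2_R {ω : Circle} (h : 0 ≤ (ω : ℂ).re) :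
    sq2 ω = (7 * (ω : ℂ).im / (25 * (ω : ℂ).re + 24), 1) ∧ |(sq2 ω).1| ≤ 7 / 24 ∧
      (|(sq2 ω).1| < 7 / 24 ↔ 0 < (ω : ℂ).re) := by
  have h0 := Circle.normSq_coe ω
  rw [Complex.normSq_apply] at h0
  have hy : |(ω : ℂ).im| ≤ 1 := by
    rw [abs_le]
    constructor <;> nlinarith [mul_self_nonneg (ω : ℂ).re]
  have hp : 0 < 25 * (ω : ℂ).re + 24 := by linarith
  have hN : Nm (25 * (ω : ℂ).re + 24, 7 * (ω : ℂ).im) = 25 * (ω : ℂ).re + 24 := by
    unfold Nm
    simp only
    rw [abs_of_pos hp, abs_mul, abs_of_pos (by norm_num : (0 : ℝ) < 7)]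
    exact max_eq_left (by linarith)
  have e : sq2 ω = (7 * (ω : ℂ).im / (25 * (ω : ℂ).re + 24), 1) := by
    rw [sq2_eq, hN, div_self hp.ne']
  have e2 : |(sq2 ω).1| = 7 * |(ω : ℂ).im| / (25 * (ω : ℂ).re + 24) := by
    rw [e]
    simp only
    rw [abs_div, abs_mul, abs_of_pos hp, abs_of_pos (by norm_num : (0 : ℝ) < 7)]
  refine ⟨e, ?_, ?_⟩
  · rw [e2, div_le_iff₀ hp]
    linarith
  · rw [e2, div_lt_iff₀ hp]
    constructor
    · intro h1
      rcases eq_or_lt_of_le h with h2 | h2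
      · exfalso
        rw [← h2] at h1 h0
        have : |(ω : ℂ).im| = 1 := by
          rw [← abs_one, ← sq_eq_sq_iff_abs_eq_abs]
          linarith
        linarith
      · exact h2
    · intro h1
      linarith

theorem sq2_R_surj {a : ℝ} (h : |a| ≤ 7 / 24) : ∃ ω : Circle, 0 ≤ (ω : ℂ).re ∧ sq2 ω = (a, 1) := by
  have h1 : (a, (1 : ℝ)) ∈ discBd := by
    rw [mem_discBd]
    simp only [abs_one]
    exact max_eq_right (by linarith)
  obtain ⟨ω, hω⟩ := sq2_surj h1
  refine ⟨ω, ?_, hω⟩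
  by_contra hcon
  push Not at hcon
  rw [sq2_eq] at hω
  simp only [Prod.mk.injEq] at hω
  obtain ⟨e1, e2⟩ := hω
  have h0 := Circle.normSq_coe ω
  rw [Complex.normSq_apply] at h0
  set N := Nm (25 * (ω : ℂ).re + 24, 7 * (ω : ℂ).im) with hN
  have hN0 : 0 ≤ N := (abs_nonneg _).trans (le_max_left _ _)
  have hN1 : N ≠ 0 := by
    intro h'
    rw [h', div_zero] at e2
    norm_num at e2
  have e3 : 25 * (ω : ℂ).re + 24 = N := by
    rw [div_eq_iff hN1] at e2; linarith
  have e4 : 7 * (ω : ℂ).im = a * N := by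
    rw [div_eq_iff hN1] at e1; exact e1
  have e5 : (7 * (ω : ℂ).im) * (7 * (ω : ℂ).im) ≤ (7 / 24) * (7 / 24) * (N * N) := by
    rw [e4]
    have : a * a ≤ 7 / 24 * (7 / 24) := by
      have := abs_le.1 h
      nlinarith
    nlinarith [mul_self_nonneg N]
  have hx : -1 ≤ (ω : ℂ).re := by nlinarith [mul_self_nonneg (ω : ℂ).im]
  have hNp : 0 < 25 * (ω : ℂ).re + 24 := by
    rw [e3]; exact lt_of_le_of_ne hN0 (Ne.symm hN1)
  rw [← e3] at e5
  nlinarith

/-- the shift -/
def psi (s : ℝ) : ℝ := max 0 (min s (1 / 2 - s)) - max 0 (min (s - 1 / 2) (1 - s))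

/-- the sheared coordinate -/
def ang (s θ : ℝ) : ℝ := s + psi s * (4 * min |θ| (7 / 32))

theorem continuous_psi : Continuous psi := by unfold psi; fun_prop
theorem continuous_ang : Continuous fun p : ℝ × ℝ => ang p.1 p.2 := by
  unfold ang
  exact continuous_fst.add ((continuous_psi.comp continuous_fst).mul (by fun_prop))

theorem psi_out {s : ℝ} (h : s ≤ 0 ∨ 1 ≤ s) : psi s = 0 := by
  unfold psi
  rcases h with h | h
  · rw [max_eq_left ((min_le_left _ _).trans h),
      max_eq_left ((min_le_left _ _).trans (by linarith)), sub_zero]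
  · rw [max_eq_left ((min_le_right _ _).trans (by linarith)),
      max_eq_left ((min_le_right _ _).trans (by linarith)), sub_zero]

theorem psi_mid {s : ℝ} (h1 : 1 / 4 ≤ s) (h2 : s ≤ 3 / 4) : psi s = 1 / 2 - s := by
  unfold psi
  rcases le_total s (1 / 2) with h | h
  · rw [min_eq_right (by linarith), max_eq_right (by linarith),
      max_eq_left ((min_le_left _ _).trans (by linarith)), sub_zero]
  · rw [max_eq_left ((min_le_right _ _).trans (by linarith)), min_eq_left (by linarith),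
      max_eq_right (by linarith)]
    ring

/-- `psi` has slope at least `-1`. -/
theorem psi_diff {s t : ℝ} (h : s ≤ t) : s - t ≤ psi t - psi s := by
  have key : psi t = max 0 (min t (1 / 2 - t)) - max 0 (min (t - 1 / 2) (1 - t)) := rfl
  have key' : psi s = max 0 (min s (1 / 2 - s)) - max 0 (min (s - 1 / 2) (1 - s)) := rfl
  rcases le_total t (1 / 2) with h1 | h1
  · have e1 : max 0 (min (t - 1 / 2) (1 - t)) = 0 :=
      max_eq_left ((min_le_left _ _).trans (by linarith))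
    have e2 : max 0 (min (s - 1 / 2) (1 - s)) = 0 :=
      max_eq_left ((min_le_left _ _).trans (by linarith))
    have h2 : max 0 (min s (1 / 2 - s)) ≤ max 0 (min t (1 / 2 - t)) + (t - s) := by
      refine max_le (by linarith [le_max_left 0 (min t (1 / 2 - t))]) ?_
      rcases le_total t (1 / 2 - t) with h2 | h2
      · rw [min_eq_left h2]
        exact (min_le_left _ _).trans (by linarith [le_max_right 0 t])
      · rw [min_eq_right h2]
        exact (min_le_right _ _).trans (by linarith [le_max_right 0 (1 / 2 - t)])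
    linarith
  · rcases le_total s (1 / 2) with h3 | h3
    · have e1 : max 0 (min (s - 1 / 2) (1 - s)) = 0 :=
        max_eq_left ((min_le_left _ _).trans (by linarith))
      have e2 : max 0 (min t (1 / 2 - t)) = 0 :=
        max_eq_left ((min_le_right _ _).trans (by linarith))
      have e3 : max 0 (min (t - 1 / 2) (1 - t)) ≤ t - 1 / 2 :=
        max_le (by linarith) (min_le_left _ _)
      have e4 : max 0 (min s (1 / 2 - s)) ≤ 1 / 2 - s :=
        max_le (by linarith) (min_le_right _ _)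
      linarith
    · have e1 : max 0 (min s (1 / 2 - s)) = 0 :=
        max_eq_left ((min_le_right _ _).trans (by linarith))
      have e2 : max 0 (min t (1 / 2 - t)) = 0 :=
        max_eq_left ((min_le_right _ _).trans (by linarith))
      have h2 : max 0 (min (t - 1 / 2) (1 - t)) ≤ max 0 (min (s - 1 / 2) (1 - s)) + (t - s) := by
        refine max_le (by linarith [le_max_left 0 (min (s - 1 / 2) (1 - s))]) ?_
        rcases le_total (s - 1 / 2) (1 - s) with h2 | h2
        · rw [min_eq_left h2]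
          exact (min_le_left _ _).trans (by linarith [le_max_right 0 (s - 1 / 2)])
        · rw [min_eq_right h2]
          exact (min_le_right _ _).trans (by linarith [le_max_right 0 (1 - s)])
      linarith

theorem min_bounds (θ : ℝ) : 0 ≤ 4 * min |θ| (7 / 32) ∧ 4 * min |θ| (7 / 32) ≤ 7 / 8 := by
  have h1 : 0 ≤ min |θ| (7 / 32) := le_min (abs_nonneg _) (by norm_num)
  have h2 : min |θ| (7 / 32) ≤ 7 / 32 := min_le_right _ _
  constructor <;> linarith

theorem ang_mono (θ : ℝ) : StrictMono fun s => ang s θ := by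
  intro s t h
  obtain ⟨h1, h2⟩ := min_bounds θ
  have h3 := psi_diff h.le
  change s + psi s * (4 * min |θ| (7 / 32)) < t + psi t * (4 * min |θ| (7 / 32))
  have h4 : (psi s - psi t) * (4 * min |θ| (7 / 32)) ≤ (t - s) * (4 * min |θ| (7 / 32)) :=
    mul_le_mul_of_nonneg_right (by linarith) h1
  have h5 : (t - s) * (4 * min |θ| (7 / 32)) ≤ (t - s) * (7 / 8) :=
    mul_le_mul_of_nonneg_left h2 (by linarith)
  linarith

theorem ang_out {s θ : ℝ} (h : s ≤ 0 ∨ 1 ≤ s) : ang s θ = s := by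
  unfold ang
  rw [psi_out h]; ring

theorem ang_zero (s : ℝ) : ang s 0 = s := by
  unfold ang
  rw [abs_zero, min_eq_left (by norm_num : (0 : ℝ) ≤ 7 / 32)]; ring

theorem ang_mid {s θ : ℝ} (h1 : 1 / 4 ≤ s) (h2 : s ≤ 3 / 4) (h3 : |θ| ≤ 7 / 32) :
    ang s θ = 1 / 2 + (s - 1 / 2) * (1 - 4 * |θ|) := by
  unfold ang
  rw [psi_mid h1 h2, min_eq_left h3]; ring

theorem ang_mem {s θ : ℝ} (h : s ∈ Icc (-1 : ℝ) 1) : ang s θ ∈ Icc (-1 : ℝ) 1 := by
  have h1 : ang (-1) θ ≤ ang s θ := (ang_mono θ).monotone h.1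
  have h2 : ang s θ ≤ ang 1 θ := (ang_mono θ).monotone h.2
  rw [ang_out (Or.inl (by norm_num))] at h1
  rw [ang_out (Or.inr le_rfl)] at h2
  exact ⟨h1, h2⟩

theorem ang_mem' {s θ : ℝ} (h : s ∈ Ioo (-1 : ℝ) 1) : ang s θ ∈ Ioo (-1 : ℝ) 1 := by
  have h1 : ang (-1) θ < ang s θ := ang_mono θ h.1
  have h2 : ang s θ < ang 1 θ := ang_mono θ h.2
  rw [ang_out (Or.inl (by norm_num))] at h1
  rw [ang_out (Or.inr le_rfl)] at h2
  exact ⟨h1, h2⟩

theorem exists_ang {x : ℝ} (θ : ℝ) (h : x ∈ Ioo (-1 : ℝ) 1) :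
    ∃ s ∈ Ioo (-1 : ℝ) 1, ang s θ = x := by
  have hc : Continuous fun s => ang s θ :=
    continuous_ang.comp (continuous_id.prodMk continuous_const)
  have h1 := intermediate_value_Ioo (by norm_num : (-1 : ℝ) ≤ 1) hc.continuousOn
  rw [ang_out (Or.inl (by norm_num)), ang_out (Or.inr le_rfl)] at h1
  exact h1 h

end

end Pool.Agent.H72.Tri
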