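import Pool.Agent.H72.Tri.Ex8
import Pool.Agent.H72.Tri.Ex6

/-!
# The placement
-/

open Set Topology Metric

namespace Pool.Agent.H72.Tri

noncomputable section

theorem re_gt_iff {x : ℝ} (hx : x ∈ Icc (-Real.pi) Real.pi) :
    √2 / 2 < ((Circle.exp x : Circle) : ℂ).re ↔ |x| < Real.pi / 4 := by
  have hpi := Real.pi_pos
  rw [re_exp, ← Real.cos_abs, ← Real.cos_pi_div_four]
  have h1 : |x| ∈ Icc 0 Real.pi := ⟨abs_nonneg _, abs_le.2 hx⟩
  have h2 : Real.pi / 4 ∈ Icc 0 Real.pi := ⟨by positivity, by linarith⟩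
  exact Real.strictAntiOn_cos.lt_iff_gt h2 h1

theorem exp_quarter_inj {a b : ℝ} (ha : a ∈ Icc (-1 : ℝ) 1) (hb : b ∈ Icc (-1 : ℝ) 1)
    (h : Circle.exp (Real.pi / 4 * a) = Circle.exp (Real.pi / 4 * b)) : a = b := by
  have hpi := Real.pi_pos
  have h1 := exp_injOn (a := -(Real.pi / 4)) (b := Real.pi / 4) (by linarith)
    ⟨by nlinarith [ha.1], by nlinarith [ha.2]⟩ ⟨by nlinarith [hb.1], by nlinarith [hb.2]⟩ h
  exact mul_left_cancel₀ (by positivity) h1

theorem re_exp_quarter {a : ℝ} (ha : a ∈ Icc (-1 : ℝ) 1) :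
    0 ≤ ((Circle.exp (Real.pi / 4 * a) : Circle) : ℂ).re := by
  have hpi := Real.pi_pos
  rw [re_exp]
  apply Real.cos_nonneg_of_mem_Icc
  constructor <;> nlinarith [ha.1, ha.2]

/-- the parametrisation of the knot -/
def Aκ : Circle ≃ₜ Circle := circ Bκ isLift_Bκ

theorem Aκ_exp {x : ℝ} (hx : x ∈ Icc (-Real.pi) Real.pi) :
    Aκ (Circle.exp x) = Circle.exp (Bκ x) := circ_exp _ hx

/-- the coordinate along the circle -/
def th (ω : Circle) : ℝ := 3 / 4 * (sq2 ω).1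

theorem continuous_th : Continuous th := continuous_const.mul (continuous_fst.comp continuous_sq2)

theorem sq2_le (ω : Circle) : |(sq2 ω).1| ≤ 1 ∧ |(sq2 ω).2| ≤ 1 := by
  have h := mem_discBd.1 (sq2_mem ω)
  exact ⟨(le_max_left _ _).trans h.le, (le_max_right _ _).trans h.le⟩

theorem th_le (ω : Circle) : |th ω| ≤ 3 / 4 := by
  unfold th
  rw [abs_mul, abs_of_pos (by norm_num : (0:ℝ) < 3/4)]
  have := (sq2_le ω).1
  linarith

theorem th_inj {ω ω' : Circle} (h : th ω = th ω') (h' : (sq2 ω).2 = (sq2 ω').2) : ω = ω' := by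
  apply sq2_inj
  unfold th at h
  exact Prod.ext (by linarith) h'

namespace Twist

variable (t : Twist)

/-- the knot -/
def κ1 (z : Circle) : Y0 := Bm (t.s (Aκ z, -1)) 1
/-- the bicollar -/
def j1 (p : ℝ × Circle) : Y0 :=
  Bm (t.s (Circle.exp (Real.pi / 4 * ang p.1 (th p.2)), Ec (th p.2))) (sq2 p.2).2

theorem j1_mem {p : ℝ × Circle} (hp : p ∈ Icc (-1 : ℝ) 1 ×ˢ (univ : Set Circle)) :
    t.j1 p ∈ Sf := by
  obtain ⟨s, ω⟩ := p
  have hs : s ∈ Icc (-1 : ℝ) 1 := hp.1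
  obtain ⟨h1, h2⟩ := sq2_le ω
  have h3 := th_le ω
  unfold j1
  rw [mem_Sf_Bm _ h2, t.out_iff, t.win_iff]
  refine ⟨Or.inr ((re_Ec_le' (by simp only; linarith)).2 h3), ?_⟩
  have h := mem_discBd.1 (sq2_mem ω)
  rcases max_choice |(sq2 ω).1| |(sq2 ω).2| with h4 | h4
  · right
    refine ⟨re_exp_quarter (ang_mem hs), (le_re_Ec' (by simp only; linarith)).2 ?_⟩
    have h5 : |(sq2 ω).1| = 1 := by rw [← h4]; exact h
    unfold th
    rw [abs_mul, h5, abs_of_pos (by norm_num : (0:ℝ) < 3/4)]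
    norm_num
  · left
    rw [← h4]; exact h

theorem j1_cont : ContinuousOn t.j1 (Icc (-1 : ℝ) 1 ×ˢ univ) := by
  refine contOn_Bm ?_ ?_ (fun x _ => (sq2_le x.2).2)
  · refine (t.s.continuous.comp ?_).continuousOn
    refine Continuous.prodMk (Circle.exp.continuous.comp (continuous_const.mul ?_)) ?_
    · exact continuous_ang.comp (continuous_fst.prodMk (continuous_th.comp continuous_snd))
    · exact continuous_Ec.comp (continuous_th.comp continuous_snd)
  · exact (continuous_snd.comp (continuous_sq2.comp continuous_snd)).continuousOn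

theorem j1_inj : InjOn t.j1 (Icc (-1 : ℝ) 1 ×ˢ univ) := by
  rintro ⟨s, ω⟩ ⟨hs, -⟩ ⟨s', ω'⟩ ⟨hs', -⟩ h
  obtain ⟨h1, h2⟩ := Bm_inj (sq2_le ω).2 (sq2_le ω').2 h
  have h3 := t.s.injective h1
  obtain ⟨h4, h5⟩ := Prod.mk.inj h3
  have h7 := Ec_inj' (th_le ω) (by have := th_le ω'; simp only; linarith) h5
  have h8 : ω = ω' := th_inj h7 h2
  subst h8
  have h6 := exp_quarter_inj (ang_mem hs) (ang_mem hs') h4
  have h9 : s = s' := (ang_mono (th ω)).injective h6
  rw [h9]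

theorem j1_open : ∃ U : Set Y0, IsOpen U ∧ t.j1 '' (Ioo (-1 : ℝ) 1 ×ˢ univ) = U ∩ Sf := by
  let C : Set Y0 := (fun q : (Circle × Circle) × ℝ => Bm (t.s q.1) q.2) ''
    ({p : Circle × Circle | (p.1 : ℂ).re ≤ √2 / 2} ×ˢ Icc (-1 : ℝ) 1)
  have hC : IsClosed C := by
    have h1 : IsClosed {p : Circle × Circle | (p.1 : ℂ).re ≤ √2 / 2} :=
      isClosed_le (Complex.continuous_re.comp (continuous_subtype_val.comp continuous_fst))
        continuous_const
    refine ((h1.isCompact.prod isCompact_Icc).image_of_continuousOn ?_).isClosed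
    refine contOn_Bm ?_ continuousOn_snd (fun x hx => abs_le.2 hx.2)
    exact (t.s.continuous.comp continuous_fst).continuousOn
  refine ⟨Cᶜ, hC.isOpen_compl, ?_⟩
  have hpi := Real.pi_pos
  ext y
  constructor
  · rintro ⟨⟨s, ω⟩, ⟨hs, -⟩, rfl⟩
    have hs' : s ∈ Icc (-1 : ℝ) 1 := ⟨hs.1.le, hs.2.le⟩
    refine ⟨?_, t.j1_mem ⟨hs', mem_univ _⟩⟩
    rintro ⟨⟨p, r⟩, ⟨hp, hr⟩, h⟩
    obtain ⟨h1, h2⟩ := Bm_inj (abs_le.2 hr) (sq2_le ω).2 h
    have h3 := t.s.injective h1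
    have hp' : (p.1 : ℂ).re ≤ √2 / 2 := hp
    simp only at h3
    rw [h3] at hp'
    simp only at hp'
    have ha := ang_mem' (θ := th ω) hs
    have h4 : √2 / 2 < ((Circle.exp (Real.pi / 4 * ang s (th ω)) : Circle) : ℂ).re := by
      rw [re_gt_iff ⟨by nlinarith [ha.1], by nlinarith [ha.2]⟩, abs_lt]
      constructor <;> nlinarith [ha.1, ha.2]
    linarith
  · rintro ⟨h1, h2⟩
    obtain ⟨p, r, hr, rfl⟩ := t.exists_Bm' h2.1
    rw [mem_Sf_Bm _ hr, t.out_iff, t.win_iff] at h2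
    obtain ⟨h2, h3⟩ := h2
    have hp : √2 / 2 < (p.1 : ℂ).re := by
      by_contra hcon
      push Not at hcon
      exact h1 ⟨(p, r), ⟨hcon, abs_le.1 hr⟩, rfl⟩
    have h4 : (p.2 : ℂ).re ≤ √2 / 2 := by
      have : 0 < √2 / 2 := by positivity
      rcases h2 with h2 | h2
      · linarith
      · exact h2
    obtain ⟨Θ, hΘ, hΘ'⟩ := Ec_surj p.2
    rw [← hΘ', re_Ec_le' hΘ] at h4
    have hv : ((4 / 3 * Θ, r) : ℝ × ℝ) ∈ discBd := by
      rw [mem_discBd]
      simp only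
      have e1 : |4 / 3 * Θ| ≤ 1 := by
        rw [abs_mul, abs_of_pos (by norm_num : (0:ℝ) < 4/3)]; linarith
      rcases h3 with h3 | h3
      · rw [h3]
        exact max_eq_right e1
      · have h5 : 3 / 4 ≤ |Θ| := by
          rw [← le_re_Ec' hΘ, hΘ']
          exact h3.2
        have e2 : |4 / 3 * Θ| = 1 := by
          rw [abs_mul, abs_of_pos (by norm_num : (0:ℝ) < 4/3)]
          linarith
        rw [e2]
        exact max_eq_left hr
    obtain ⟨ω, hω⟩ := sq2_surj hv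
    have hth : th ω = Θ := by
      unfold th
      rw [hω]
      simp only
      ring
    obtain ⟨x, hx, hxe⟩ := exists_arg p.1
    have hx' : x ∈ Icc (-Real.pi) Real.pi := ⟨hx.1.le, hx.2⟩
    rw [← hxe, re_gt_iff hx', abs_lt] at hp
    obtain ⟨s, hs, hse⟩ := exists_ang (x := 4 * x / Real.pi) (th ω) ⟨by
      rw [lt_div_iff₀ hpi]; linarith [hp.1], by
      rw [div_lt_iff₀ hpi]; linarith [hp.2]⟩
    refine ⟨(s, ω), ⟨hs, mem_univ _⟩, ?_⟩
    unfold j1
    simp only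
    rw [hse, hth, hω, hΘ']
    have e3 : Real.pi / 4 * (4 * x / Real.pi) = x := by field_simp
    rw [e3, hxe]

theorem j1_one {s : ℝ} (hs : s ≤ 0 ∨ 1 ≤ s) (ω : Circle) :
    t.j1 (s, ω) = Bm (t.s (Circle.exp (Real.pi / 4 * s), Ec (th ω))) (sq2 ω).2 := by
  unfold j1
  simp only
  rw [ang_out hs]

theorem Aκ_cross {s : ℝ} (hs : s ∈ Icc (-1 : ℝ) 1) :
    Aκ (Circle.exp (Real.pi / 2 * s)) = Circle.exp (Real.pi / 4 * s) := by
  have hpi := Real.pi_pos
  have h1 : -(Real.pi / 2) ≤ Real.pi / 2 * s := by nlinarith [hs.1]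
  have h2 : Real.pi / 2 * s ≤ Real.pi / 2 := by nlinarith [hs.2]
  rw [Aκ_exp ⟨by linarith, by linarith⟩, Bκ_mid h1 h2]
  congr 1
  ring

/-- the placement of the knot -/
def K1 : Placement t.P where
  κ := t.κ1
  j := t.j1
  κ_cont := by
    rw [← continuousOn_univ]
    refine contOn_Bm ?_ continuousOn_const (fun _ _ => by simp)
    exact (t.s.continuous.comp (Aκ.continuous.prodMk continuous_const)).continuousOn
  κ_inj := by
    intro z z' h
    obtain ⟨h1, -⟩ := Bm_inj (by simp) (by simp) h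
    exact Aκ.injective (Prod.mk.inj (t.s.injective h1)).1
  κ_mem := by
    intro z
    rw [t.S_eq]
    unfold κ1
    rw [mem_Sf_Bm _ (by simp), t.out_iff]
    refine ⟨Or.inr ?_, Or.inl (by simp)⟩
    have : (((-1 : Circle)) : ℂ).re = -1 := by
      rw [neg_re]; simp
    simp only
    rw [this]
    have : 0 ≤ √2 / 2 := by positivity
    linarith
  κ_disj := by
    rw [Set.disjoint_left]
    rintro _ ⟨z, rfl⟩ hz
    obtain ⟨v, h1, h2, h3⟩ := t.mem_β_one hz
    obtain ⟨h4, -⟩ := Bm_inj (by simp) h2 h3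
    have h5 := (Prod.mk.inj (t.s.injective h4)).2
    rw [← Ec_zero, ← Ec_one] at h5
    have := Ec_inj' (by norm_num) (by simp) h5
    norm_num at this
  j_cont := t.j1_cont
  j_inj := t.j1_inj
  j_mem := by
    intro p hp
    rw [t.S_eq]
    exact t.j1_mem hp
  j_open := by
    rw [t.S_eq]
    exact t.j1_open
  j_zero := by
    rw [t.β_zero]
    ext y
    constructor
    · rintro ⟨⟨s, ω⟩, ⟨hs, -⟩, rfl⟩
      have hs' : s = 0 := hs
      subst hs'
      refine ⟨_, ⟨sq2 ω, sq2_mem ω, rfl⟩, ?_⟩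
      rw [t.j1_one (Or.inl le_rfl)]
      unfold Q
      rw [fβ_zero]
      simp only [E2, sg_true, Ec_one, mul_zero, Circle.exp_zero]
      rfl
    · rintro ⟨_, ⟨v, hv, rfl⟩, rfl⟩
      obtain ⟨ω, hω⟩ := sq2_surj hv
      refine ⟨(0, ω), ⟨rfl, mem_univ _⟩, ?_⟩
      rw [t.j1_one (Or.inl le_rfl)]
      unfold Q th
      rw [fβ_zero]
      simp only [E2, sg_true, Ec_one, mul_zero, Circle.exp_zero]
      rw [hω]
  j_disj := by
    rw [Set.disjoint_left]
    rintro _ ⟨⟨s, ω⟩, ⟨hs, -⟩, rfl⟩ hz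
    obtain ⟨v, h1, h2, h3⟩ := t.mem_β_one hz
    obtain ⟨h4, -⟩ := Bm_inj (sq2_le ω).2 h2 h3
    have h5 := (Prod.mk.inj (t.s.injective h4)).2
    rw [← Ec_one] at h5
    have h6 := Ec_inj' (th_le ω) (by simp) h5
    have h7 := th_le ω
    rw [h6] at h7
    norm_num at h7
  cross := by
    intro s hs
    unfold κ1 j1 th
    simp only
    rw [sq2_one, Aκ_cross hs]
    simp only [mul_zero, Ec_zero, ang_zero]
  only := by
    rintro z ⟨⟨s, ω⟩, ⟨hs, -⟩, h⟩
    have hpi := Real.pi_pos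
    obtain ⟨h1, -⟩ := Bm_inj (sq2_le ω).2 (by simp) h
    have h2 := (Prod.mk.inj (t.s.injective h1)).1
    have ha := ang_mem (θ := th ω) hs
    obtain ⟨x, hx, rfl⟩ := exists_arg z
    have hx' : x ∈ Icc (-Real.pi) Real.pi := ⟨hx.1.le, hx.2⟩
    rw [Aκ_exp hx', Circle.exp_eq_exp] at h2
    obtain ⟨m, hm⟩ := h2
    have g1 := Bκ_mono.monotone hx'.1
    have g2 := Bκ_mono.monotone hx'.2
    rw [Bκ_neg_pi] at g1
    rw [Bκ_pi] at g2
    have g3 : -(Real.pi / 4) ≤ Real.pi / 4 * ang s (th ω) := by nlinarith [ha.1]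
    have g4 : Real.pi / 4 * ang s (th ω) ≤ Real.pi / 4 := by nlinarith [ha.2]
    have hm1 : (m : ℝ) < 1 := by nlinarith
    have hm2 : (-1 : ℝ) < m := by nlinarith
    have hm0 : m = 0 := by
      have h6 : m < 1 := by exact_mod_cast hm1
      have h7 : -1 < m := by exact_mod_cast hm2
      omega
    rw [hm0] at hm
    have h8 : Real.pi / 4 * ang s (th ω) = Bκ x := by simpa using hm
    rw [re_exp_nonneg_iff hx', abs_le]
    have e1 : Bκ (-(Real.pi / 2)) = -(Real.pi / 4) := by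
      rw [Bκ_mid le_rfl (by linarith)]; ring
    have e2 : Bκ (Real.pi / 2) = Real.pi / 4 := by
      rw [Bκ_mid (by linarith) le_rfl]; ring
    constructor
    · rw [← Bκ_mono.le_iff_le, e1, ← h8]; exact g3
    · rw [← Bκ_mono.le_iff_le, e2, ← h8]; exact g4

end Twist

end

end Pool.Agent.H72.Tri
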