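import Pool.Agent.H72.Tri.Inv

/-!
# Homeomorphism invariance of the type: general form
-/

open Set Topology Metric

namespace Pool.Agent.H72.Tri

theorem circ_alg' (G0 G2 Ψ ga gb g2 ψa ψb : Circle) (ka kb ca cb n c' : ℤ) :
    g2 ^ (cb * kb - c' * (ca * ka)) * (ψb ^ (-kb) * ψa ^ (c' * ka) * Ψ) ^ (-n) =
      (G0 * G2 ^ (-c') * Ψ ^ (-n)) * (G2 * ga ^ (-ka)) ^ c' *
      (G0 * gb ^ (-kb)) ^ (-1 : ℤ) * (ga * g2 ^ (-ca) * ψa ^ (-n)) ^ (c' * ka) *
      (gb * g2 ^ (-cb) * ψb ^ (-n)) ^ (-kb) := by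
  apply Additive.ofMul.injective
  simp only [ofMul_mul, ofMul_zpow]
  module

variable {X X' : Type*} [TopologicalSpace X] [TopologicalSpace X']

/-- The congruences satisfied by the types of homeomorphic decompositions. -/
theorem congr_of_homeo {Xi : Fin 3 → Set X} {Xi' : Fin 3 → Set X'} {n m m' : ℤ}
    (hT : HasType Xi n m) (hT' : HasType Xi' n m') (f : X ≃ₜ X') (σ : Equiv.Perm (Fin 3))
    (h : ∀ i, f '' Xi i = Xi' (σ i)) :
    ∃ ε : Fin 3 → ℤ, (∀ i, ε i = 1 ∨ ε i = -1) ∧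
      ∀ i, n ∣ (![m, m, 1] : Fin 3 → ℤ) i * ε i -
        (![m', m', 1] : Fin 3 → ℤ) (σ i) *
          ((![m, m, 1] : Fin 3 → ℤ) (σ.symm 2) * ε (σ.symm 2)) := by
  obtain ⟨g, g1, g2, g3, g4, g5⟩ := hT
  obtain ⟨g', g1', g2', g3', g4', g5'⟩ := hT'
  have hF : f '' (⋂ i, Xi i) = ⋂ i, Xi' i := image_iInter_perm f σ h
  have hFm : MapsTo f (⋂ i, Xi i) (⋂ i, Xi' i) := fun x hx => by
    rw [← hF]; exact ⟨x, hx, rfl⟩
  have hpull : ∀ {φ : X' → Circle}, NullOn φ (⋂ i, Xi' i) →
      NullOn (fun x => φ (f x)) (⋂ i, Xi i) :=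
    fun hφ => hφ.comp f.continuous.continuousOn hFm
  -- the generators correspond up to sign
  have key : ∀ i, ∃ k : ℤ, (k = 1 ∨ k = -1) ∧
      NullOn (fun x => g' (σ i) (f x) * g i x ^ (-k)) (⋂ i, Xi i) := by
    intro i
    obtain ⟨k, hk⟩ := g2 i _ (mem_G_comp f σ h (g1' (σ i)))
    have hmem : (fun x => g i (f.symm x)) ∈ G Xi' (σ i) := by
      refine mem_G_comp (i := σ i) f.symm σ.symm (symm_image f σ h) (φ := g i) ?_
      rw [Equiv.symm_apply_apply]
      exact g1 i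
    obtain ⟨l, hl⟩ := g2' (σ i) _ hmem
    have hl' := hpull hl
    simp only [Homeomorph.symm_apply_apply] at hl'
    have h1 : NullOn (fun x => g i x ^ (1 - k * l)) (⋂ i, Xi i) := by
      refine (hl'.mul (hk.zpow l)).congr fun x _ => ?_
      simp only
      apply Additive.ofMul.injective
      simp only [ofMul_mul, ofMul_zpow]
      module
    have h2 := g3 i _ h1
    refine ⟨k, ?_, hk⟩
    have h3 : k * l = 1 := by linarith
    exact Int.isUnit_iff.1 (IsUnit.of_mul_eq_one _ h3)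
  choose ε hε hN using key
  refine ⟨ε, hε, fun i => ?_⟩
  have na := hN (σ.symm 2)
  have nb := hN i
  rw [Equiv.apply_symm_apply] at na
  obtain ⟨ψa, ψac, ψan⟩ := g4 (σ.symm 2)
  obtain ⟨ψb, ψbc, ψbn⟩ := g4 i
  obtain ⟨Ψ, Ψc, Ψn⟩ := g4' (σ i)
  have Ψn' := hpull Ψn
  exact g5 _
    (fun x => ψb x ^ (-ε i) * ψa x ^ ((![m', m', 1] : Fin 3 → ℤ) (σ i) * ε (σ.symm 2)) * Ψ (f x))
    (((ψbc.zpow _).mul (ψac.zpow _)).mul (Ψc.comp f.continuous.continuousOn hFm)) (by
      refine ((((Ψn'.mul (na.zpow ((![m', m', 1] : Fin 3 → ℤ) (σ i)))).mul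
        (nb.zpow (-1))).mul (ψan.zpow ((![m', m', 1] : Fin 3 → ℤ) (σ i) * ε (σ.symm 2)))).mul
        (ψbn.zpow (-ε i))).congr fun x _ => ?_
      exact circ_alg' (g' (σ i) (f x)) (g' 2 (f x)) (Ψ (f x)) _ _ _ _ _ (ε (σ.symm 2)) (ε i) _ _
        n _)

theorem dvd_or_of_sign {n x y : ℤ} {ε δ : ℤ} (hε : ε = 1 ∨ ε = -1) (hδ : δ = 1 ∨ δ = -1)
    (h : n ∣ x * ε - y * δ) : n ∣ x - y ∨ n ∣ x + y := by
  rcases hε with rfl | rfl <;> rcases hδ with rfl | rfl
  · left; simpa using h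
  · right; simpa using h
  · right
    have := (dvd_neg.2 h)
    have e : -(x * -1 - y * 1) = x + y := by ring
    rwa [e] at this
  · left
    have := (dvd_neg.2 h)
    have e : -(x * -1 - y * -1) = x - y := by ring
    rwa [e] at this

/-- **Invariance.** If two decompositions of types `(n, m)` and `(n, m')`, with `m` prime to `n`,
are homeomorphic, then `m' = ± m` modulo `n`. -/
theorem type_unique {Xi : Fin 3 → Set X} {Xi' : Fin 3 → Set X'} {n m m' : ℤ}
    (hm : IsCoprime n m)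
    (hT : HasType Xi n m) (hT' : HasType Xi' n m') (f : X ≃ₜ X') (σ : Equiv.Perm (Fin 3))
    (h : ∀ i, f '' Xi i = Xi' (σ i)) : n ∣ m - m' ∨ n ∣ m + m' := by
  obtain ⟨ε, hε, hc⟩ := congr_of_homeo hT hT' f σ h
  by_cases h2 : σ 2 = 2
  · have hs : σ.symm 2 = 2 := by rw [← h2, Equiv.symm_apply_apply, h2]
    have h0 := hc 0
    rw [hs] at h0
    have hσ0 : σ 0 = 0 ∨ σ 0 = 1 := by
      have hne : σ 0 ≠ 2 := by
        intro he
        have := σ.injective (he.trans h2.symm)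
        exact absurd this (by decide)
      revert hne
      generalize σ 0 = j
      intro hne
      fin_cases j
      · left; rfl
      · right; rfl
      · exact absurd rfl hne
    have h3 : (![m', m', 1] : Fin 3 → ℤ) (σ 0) = m' := by
      rcases hσ0 with h | h <;> rw [h] <;> rfl
    rw [h3] at h0
    have h4 : n ∣ m * ε 0 - m' * ε 2 := by
      have e : (![m, m, 1] : Fin 3 → ℤ) 0 * ε 0 - m' * ((![m, m, 1] : Fin 3 → ℤ) 2 * ε 2) =
          m * ε 0 - m' * ε 2 := by
        change m * ε 0 - m' * (1 * ε 2) = _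
        ring
      rwa [e] at h0
    exact dvd_or_of_sign (hε 0) (hε 2) h4
  · -- `j = σ⁻¹ 2` is `0` or `1`
    obtain ⟨j, hj⟩ : ∃ j, σ.symm 2 = j := ⟨_, rfl⟩
    have hσj : σ j = 2 := by rw [← hj, Equiv.apply_symm_apply]
    have hj2 : j ≠ 2 := by
      rintro rfl
      exact h2 hσj
    have hcj : (![m, m, 1] : Fin 3 → ℤ) j = m := by
      fin_cases j
      · rfl
      · rfl
      · exact absurd rfl hj2
    rw [hj] at hc
    -- `σ 2` is `0` or `1`
    have hc2 : (![m', m', 1] : Fin 3 → ℤ) (σ 2) = m' := by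
      revert h2
      generalize σ 2 = l
      intro h2
      fin_cases l
      · rfl
      · rfl
      · exact absurd rfl h2
    have e2 := hc 2
    rw [hc2, hcj] at e2
    have e2' : n ∣ 1 * ε 2 - (m * m') * ε j := by
      have e : (![m, m, 1] : Fin 3 → ℤ) 2 * ε 2 - m' * (m * ε j) = 1 * ε 2 - (m * m') * ε j := by
        change 1 * ε 2 - m' * (m * ε j) = _
        ring
      rwa [e] at e2
    -- the remaining index
    obtain ⟨k, hk2, hkj, hckk⟩ : ∃ k : Fin 3, k ≠ 2 ∧ k ≠ j ∧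
        (![m, m, 1] : Fin 3 → ℤ) k = m := by
      fin_cases j
      · exact ⟨1, by decide, by decide, rfl⟩
      · exact ⟨0, by decide, by decide, rfl⟩
      · exact absurd rfl hj2
    have hσk : σ k ≠ 2 := by
      intro he
      exact hkj (σ.injective (he.trans hσj.symm))
    have hck : (![m', m', 1] : Fin 3 → ℤ) (σ k) = m' := by
      revert hσk
      generalize σ k = l
      intro hσk
      fin_cases l
      · rfl
      · rfl
      · exact absurd rfl hσk
    have ek := hc k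
    rw [hck, hcj, hckk] at ek
    have ek' : n ∣ m * (1 * ε k - m' * ε j) := by
      have e : m * ε k - m' * (m * ε j) = m * (1 * ε k - m' * ε j) := by ring
      rwa [e] at ek
    have ek'' := hm.dvd_of_dvd_mul_left ek'
    -- so `m' = ± 1` and `m m' = ± 1`
    have a1 := dvd_or_of_sign (hε k) (hε j) ek''
    have a2 := dvd_or_of_sign (hε 2) (hε j) e2'
    rcases a1 with a1 | a1 <;> rcases a2 with a2 | a2
    · left
      have : m - m' = (1 - m') * m - (1 - m * m') + (1 - m') := by ring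
      rw [this]
      exact dvd_add (dvd_sub (Dvd.dvd.mul_right a1 _) a2) a1
    · right
      have : m + m' = (1 - m') * m + (1 + m * m') - (1 - m') := by ring
      rw [this]
      exact dvd_sub (dvd_add (Dvd.dvd.mul_right a1 _) a2) a1
    · left
      have : m - m' = (1 + m') * m + (1 - m * m') - (1 + m') := by ring
      rw [this]
      exact dvd_sub (dvd_add (Dvd.dvd.mul_right a1 _) a2) a1
    · right
      have : m + m' = (1 + m') * m - (1 + m * m') + (1 + m') := by ring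
      rw [this]
      exact dvd_add (dvd_sub (Dvd.dvd.mul_right a1 _) a2) a1

end Pool.Agent.H72.Tri
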