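import Pool.Agent.H72.Tri.Ex12
import Pool.Agent.H72.Tri.Inv2

/-!
# The family of splittings
-/

open Set Topology Metric

namespace Pool.Agent.H72.Tri

noncomputable section

/-- The degree of a map with a given lift. -/
theorem hasDeg_of_lift {c : Circle → Circle} (hc : Continuous c) {F : ℝ → ℝ}
    (hF : ContinuousOn F (Icc (-Real.pi) Real.pi))
    (he : ∀ x ∈ Icc (-Real.pi) Real.pi, c (Circle.exp x) = Circle.exp (F x)) {n : ℤ}
    (hn : F Real.pi = F (-Real.pi) + n * (2 * Real.pi)) : HasDeg c n := by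
  have hpi := Real.pi_pos
  obtain ⟨d, hd⟩ := exists_hasDeg hc
  have hd' := hd
  obtain ⟨h, hhc, hh⟩ := hd
  obtain ⟨k, hk⟩ := log_diff (C := Icc (-Real.pi) Real.pi) (h := F)
    (g := fun x => d * x + h (Circle.exp x)) isPreconnected_Icc hF
    ((continuous_const.mul continuous_id).add (hhc.comp Circle.exp.continuous)).continuousOn
    (fun x hx => by
      rw [← he x hx, Circle.exp_add, Circle.exp_intCast_mul, ← hh])
  have h0 := hk (-Real.pi) ⟨le_rfl, by linarith⟩
  have h1 := hk Real.pi ⟨by linarith, le_rfl⟩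
  have e : Circle.exp Real.pi = Circle.exp (-Real.pi) := by
    rw [Circle.exp_eq_exp]; exact ⟨1, by push_cast; ring⟩
  simp only [e] at h0 h1
  have h2 : (n : ℝ) * (2 * Real.pi) = d * (2 * Real.pi) := by linarith
  have h3 : (n : ℝ) = d := mul_right_cancel₀ (by positivity) h2
  have h4 : n = d := by exact_mod_cast h3
  rw [h4]
  exact hd'

/-- The degree of the twisted knots. -/
theorem hasDeg_κ {n m : ℤ} {t : Twist} {f : ℝ × ℝ → ℝ} (fc : Continuous f)
    (hf : ∀ x y, (t.s (Circle.exp x, Circle.exp y)).1 = Circle.exp (f (x, y)))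
    (he : ∀ (x y : ℝ) (i j : ℤ), f (x + i * (2 * Real.pi), y + j * (2 * Real.pi)) =
      f (x, y) + (n * i + m * j : ℤ) * (2 * Real.pi)) (k : ℤ) :
    HasDeg (fun z => ((t.K1.tw k).κ z).1) n := by
  classical
  have hpi := Real.pi_pos
  have hc : Continuous fun z => ((t.K1.tw k).κ z).1 := continuous_fst.comp (t.K1.tw k).κ_cont
  -- the lift on the twisted part
  let ω : ℝ → Circle := fun x => Circle.exp (k * (2 * Real.pi * (2 * x / Real.pi + 1)))
  let G : ℝ → ℝ := fun x => f (Real.pi / 4 * ang (2 * x / Real.pi) (th (ω x)),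
    Real.pi * (th (ω x) + 1))
  let H : ℝ → ℝ := fun x => f (Bκ x, Real.pi)
  have hω : Continuous ω := Circle.exp.continuous.comp (by fun_prop)
  have hG : Continuous G := by
    refine fc.comp (Continuous.prodMk (continuous_const.mul ?_) ?_)
    · exact continuous_ang.comp (Continuous.prodMk (by fun_prop) (continuous_th.comp hω))
    · exact continuous_const.mul ((continuous_th.comp hω).add continuous_const)
  have hH : Continuous H := fc.comp (isLift_Bκ.cont.prodMk continuous_const)
  have hth1 : th 1 = 0 := by unfold th; rw [sq2_one]; simp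
  have hG0 : G 0 = H 0 := by
    have e : ω 0 = 1 := by
      simp only [ω]
      have : (k : ℝ) * (2 * Real.pi * (2 * 0 / Real.pi + 1)) = k * (2 * Real.pi) := by ring
      rw [this, Circle.exp_int_mul_two_pi]
    simp only [G, H]
    rw [e, hth1, ang_zero, Bκ_mid (by linarith) (by linarith)]
    congr 1
    refine Prod.ext ?_ ?_
    · simp only; ring
    · simp only; ring
  have hG1 : G (-(Real.pi / 2)) = H (-(Real.pi / 2)) := by
    have e0 : 2 * -(Real.pi / 2) / Real.pi = -1 := by field_simp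
    have e : ω (-(Real.pi / 2)) = 1 := by
      simp only [ω]
      rw [e0]
      simp
    simp only [G, H]
    rw [e, e0, hth1, ang_zero, Bκ_mid le_rfl (by linarith)]
    congr 1
    refine Prod.ext ?_ ?_
    · simp only; ring
    · simp only; ring
  let F : ℝ → ℝ := fun x => if -(Real.pi / 2) ≤ x ∧ x ≤ 0 then G x else H x
  have hFG : ∀ x ∈ Icc (-(Real.pi / 2)) 0, F x = G x := fun x hx => if_pos hx
  have hFH : ∀ x ∈ Iic (-(Real.pi / 2)) ∪ Ici (0 : ℝ), F x = H x := by
    intro x hx
    by_cases h : -(Real.pi / 2) ≤ x ∧ x ≤ 0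
    · rw [hFG x h]
      rcases hx with hx | hx
      · have : x = -(Real.pi / 2) := le_antisymm hx h.1
        rw [this, hG1]
      · have : x = 0 := le_antisymm h.2 hx
        rw [this, hG0]
    · exact if_neg h
  have hF : Continuous F := by
    have hun : (univ : Set ℝ) = Icc (-(Real.pi / 2)) 0 ∪ (Iic (-(Real.pi / 2)) ∪ Ici (0 : ℝ)) := by
      symm
      apply eq_univ_of_forall
      intro x
      rcases le_total x (-(Real.pi / 2)) with h | h
      · exact Or.inr (Or.inl h)
      · rcases le_total x 0 with h' | h'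
        · exact Or.inl ⟨h, h'⟩
        · exact Or.inr (Or.inr h')
    rw [← continuousOn_univ, hun]
    exact ContinuousOn.union_of_isClosed (hG.continuousOn.congr hFG) (hH.continuousOn.congr hFH)
      isClosed_Icc (isClosed_Iic.union isClosed_Ici)
  refine hasDeg_of_lift hc (F := F) hF.continuousOn ?_ ?_
  · intro x hx
    by_cases h : -(Real.pi / 2) ≤ x ∧ x ≤ 0
    · rw [hFG x h]
      have hs : 2 * x / Real.pi ∈ Icc (-1 : ℝ) 0 := by
        constructor
        · rw [le_div_iff₀ hpi]; linarith [h.1]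
        · exact div_nonpos_of_nonpos_of_nonneg (by linarith [h.2]) hpi.le
      have h1 := (t.K1.isTwist_tw k).2 _ hs
      have e : Real.pi / 2 * (2 * x / Real.pi) = x := by field_simp
      rw [e] at h1
      rw [h1]
      change (t.s (Circle.exp (Real.pi / 4 * ang (2 * x / Real.pi) (th (ω x))),
        Ec (th (ω x)))).1 = _
      unfold Ec
      rw [hf]
    · have h' : x ∈ Iic (-(Real.pi / 2)) ∪ Ici (0 : ℝ) := by
        by_contra hcon
        apply h
        simp only [mem_union, mem_Iic, mem_Ici, not_or, not_le] at hcon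
        exact ⟨hcon.1.le, hcon.2.le⟩
      rw [hFH x h', t.K1.tw_κ k]
      · change (t.s (Aκ (Circle.exp x), -1)).1 = _
        rw [Aκ_exp hx]
        simp only [H]
        rw [← hf, exp_pi]
      · rcases h' with h' | h'
        · right
          rw [re_exp_nonpos_iff hx, le_abs]
          right
          have : x ≤ -(Real.pi / 2) := h'
          linarith
        · left
          rw [Circle.coe_exp, Complex.exp_ofReal_mul_I_im]
          exact Real.sin_nonneg_of_nonneg_of_le_pi h' hx.2
  · rw [hFH _ (Or.inr hpi.le), hFH _ (Or.inl (by simp only [mem_Iic]; linarith))]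
    simp only [H]
    have e := he (Bκ (-Real.pi)) Real.pi 1 0
    simp only [Int.cast_one, one_mul, Int.cast_zero, zero_mul, add_zero, mul_one, mul_zero] at e
    rw [isLift_Bκ.per, e]

theorem Reach.exists_twist {n m : ℤ} (h : Reach n m) :
    ∃ t : Twist, t.P.Vβ.HasJumps (Prod.fst : Y0 → Circle) ![n, m] ∧ Fixes t.s ∧
      ∀ k, HasDeg (fun z => ((t.K1.tw k).κ z).1) n := by
  obtain ⟨t, f, hfix, fc, hf, he⟩ := h
  refine ⟨t, ?_, hfix, hasDeg_κ fc hf he⟩
  let h : ℝ × ℝ × ℝ → ℝ := fun v => f (Real.pi * (v.1 + 1), Real.pi * (v.2.1 + 1))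
  have hc : Continuous h := fc.comp (by fun_prop)
  refine t.data.hasJumps (h := h) hc.continuousOn ?_ ?_
  · intro v _
    change (t.s (E2 v)).1 = _
    simp only [h]
    rw [← hf]
    rfl
  · have key : ∀ (x y : ℝ) (i j : ℤ), f (x + i * (2 * Real.pi), y + j * (2 * Real.pi)) =
      f (x, y) + (n * i + m * j : ℤ) * (2 * Real.pi) := he
    intro i v hv
    rcases fin2_cases i with rfl | rfl
    · change h (1, 3 / 4 * v.1, v.2) = h (-1, 3 / 4 * v.1, v.2) + (n : ℝ) * _
      simp only [h]
      have e := key (Real.pi * (-1 + 1)) (Real.pi * (3 / 4 * v.1 + 1)) 1 0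
      have e1 : Real.pi * (1 + 1) = Real.pi * (-1 + 1) + (1 : ℤ) * (2 * Real.pi) := by
        push_cast; ring
      rw [e1]
      simpa using e
    · change h (v.1 / 2, 1, v.2) = h (v.1 / 2, -1, v.2) + (m : ℝ) * _
      simp only [h]
      have e := key (Real.pi * (v.1 / 2 + 1)) (Real.pi * (-1 + 1)) 0 1
      have e1 : Real.pi * (1 + 1) = Real.pi * (-1 + 1) + (1 : ℤ) * (2 * Real.pi) := by
        push_cast; ring
      rw [e1]
      simpa using e

theorem exists_tw {n m : ℤ} (h : IsCoprime n m) :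
    ∃ t : Twist, t.P.Vβ.HasJumps (Prod.fst : Y0 → Circle) ![n, m] ∧ Fixes t.s ∧
      ∀ k, HasDeg (fun z => ((t.K1.tw k).κ z).1) n :=
  (reach_of_coprime m.natAbs n m le_rfl h).exists_twist

open Classical in
/-- The twist of the pair `(n, m)`. -/
def twOf (n m : ℤ) : Twist :=
  if h : IsCoprime n m then (exists_tw h).choose
  else ⟨Homeomorph.refl _, fun _ => Iff.rfl, fun _ => Iff.rfl⟩

theorem twOf_spec {n m : ℤ} (h : IsCoprime n m) :
    (twOf n m).P.Vβ.HasJumps (Prod.fst : Y0 → Circle) ![n, m] ∧ Fixes (twOf n m).s ∧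
      ∀ k, HasDeg (fun z => (((twOf n m).K1.tw k).κ z).1) n := by
  have e : twOf n m = (exists_tw h).choose := dif_pos h
  rw [e]
  exact (exists_tw h).choose_spec

theorem deg_placement {n m : ℤ} (h : IsCoprime n m) (K : Placement (twOf n m).P) :
    HasDeg (fun z => (K.κ z).1) n ∨ HasDeg (fun z => (K.κ z).1) (-n) := by
  obtain ⟨ε, hε, hd⟩ := K.exists_sign
  have h1 := hd _ _ (twOf_spec h).1
  simp only [Matrix.cons_val_zero] at h1
  rcases hε with rfl | rfl
  · left; simpa using h1
  · right; simpa using h1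

theorem not_homeo_of {n m m' : ℤ} (hn : n ≠ 0) (h : IsCoprime n m) (h' : IsCoprime n m')
    (h1 : ¬ n ∣ m - m') (h2 : ¬ n ∣ m + m') (K : Placement (twOf n m).P)
    (K' : Placement (twOf n m').P) {X X' : Type} [TopologicalSpace X] [T2Space X]
    [TopologicalSpace X'] [T2Space X'] {Xi : Fin 3 → Set X} {Xi' : Fin 3 → Set X'}
    (hX : K.Induces Xi) (hX' : K'.Induces Xi') :
    ¬ ∃ (f : X ≃ₜ X') (σ : Equiv.Perm (Fin 3)), ∀ i, f '' Xi i = Xi' (σ i) := by
  rintro ⟨f, σ, hf⟩
  have t1 := type_of_induces hX continuous_fst HY0 hn (twOf_spec h).1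
  have t2 := type_of_induces hX' continuous_fst HY0 hn (twOf_spec h').1
  rcases type_unique h t1 t2 f σ hf with h3 | h3
  · exact h1 h3
  · exact h2 h3

end

end Pool.Agent.H72.Tri
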