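import Pool.Agent.H72.Tri.Inv

/-!
# Handlebodies from star-shaped bodies
-/

open Set Topology Metric

namespace Pool.Agent.H72.Tri

/-- A gauge: a continuous positively homogeneous function, positive away from the origin. -/
structure IsGauge (g : ℝ × ℝ × ℝ → ℝ) : Prop where
  cont : Continuous g
  pos : ∀ v, v ≠ 0 → 0 < g v
  smul : ∀ (t : ℝ) (v), 0 ≤ t → g (t • v) = t * g v

namespace IsGauge

variable {g : ℝ × ℝ × ℝ → ℝ} (hg : IsGauge g)
include hg

theorem zero : g 0 = 0 := by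
  have := hg.smul 0 0 le_rfl
  simpa using this

theorem nonneg (v : ℝ × ℝ × ℝ) : 0 ≤ g v := by
  by_cases h : v = 0
  · rw [h, hg.zero]
  · exact (hg.pos v h).le

theorem bound : ∃ c : ℝ, 0 < c ∧ ∀ v, c * ‖v‖ ≤ g v := by
  obtain ⟨w, hw, hmin⟩ := isCompact_sph2.exists_isMinOn
    ⟨(1, 0, 0), by simp [sph2, Prod.norm_def]⟩ hg.cont.continuousOn
  have hw0 : w ≠ 0 := by
    rintro rfl
    simp [sph2] at hw
  refine ⟨g w, hg.pos w hw0, fun v => ?_⟩
  by_cases h : v = 0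
  · rw [h, hg.zero]; simp
  · have hn : 0 < ‖v‖ := norm_pos_iff.2 h
    have h1 : ‖v‖⁻¹ • v ∈ sph2 := by
      simp only [sph2, mem_sphere_iff_norm, sub_zero, norm_smul, norm_inv, norm_norm]
      exact inv_mul_cancel₀ hn.ne'
    have h2 : g w ≤ g (‖v‖⁻¹ • v) := hmin h1
    rw [hg.smul _ _ (by positivity)] at h2
    calc g w * ‖v‖ ≤ (‖v‖⁻¹ * g v) * ‖v‖ := by gcongr
      _ = g v := by field_simp

end IsGauge

/-- The radial map taking the cube to the body `g ≤ 1`. -/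
noncomputable def rad (g : ℝ × ℝ × ℝ → ℝ) (v : ℝ × ℝ × ℝ) : ℝ × ℝ × ℝ := (‖v‖ / g v) • v
/-- The radial map taking the body `g ≤ 1` to the cube. -/
noncomputable def rinv (g : ℝ × ℝ × ℝ → ℝ) (v : ℝ × ℝ × ℝ) : ℝ × ℝ × ℝ := (g v / ‖v‖) • v

namespace IsGauge

variable {g : ℝ × ℝ × ℝ → ℝ} (hg : IsGauge g)
include hg

theorem g_rad (v : ℝ × ℝ × ℝ) : g (rad g v) = ‖v‖ := by
  by_cases h : v = 0
  · simp [rad, h, hg.zero]
  · have h1 := hg.pos v h
    rw [rad, hg.smul _ _ (by positivity)]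
    field_simp

theorem norm_rinv (v : ℝ × ℝ × ℝ) : ‖rinv g v‖ = g v := by
  by_cases h : v = 0
  · simp [rinv, h, hg.zero]
  · have h1 := hg.pos v h
    have h2 : 0 < ‖v‖ := norm_pos_iff.2 h
    rw [rinv, norm_smul, Real.norm_of_nonneg (by positivity)]
    field_simp

theorem rad_rinv (v : ℝ × ℝ × ℝ) : rad g (rinv g v) = v := by
  by_cases h : v = 0
  · simp [rad, rinv, h]
  · have h1 := hg.pos v h
    have h2 : 0 < ‖v‖ := norm_pos_iff.2 h
    rw [rad, hg.norm_rinv, rinv, hg.smul _ _ (by positivity), smul_smul]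
    have : g v / (g v / ‖v‖ * g v) * (g v / ‖v‖) = 1 := by field_simp
    rw [this, one_smul]

theorem rinv_rad (v : ℝ × ℝ × ℝ) : rinv g (rad g v) = v := by
  by_cases h : v = 0
  · simp [rad, rinv, h]
  · have h1 := hg.pos v h
    have h2 : 0 < ‖v‖ := norm_pos_iff.2 h
    rw [rinv, hg.g_rad, rad, norm_smul, smul_smul, Real.norm_of_nonneg (by positivity)]
    have : ‖v‖ / (‖v‖ / g v * ‖v‖) * (‖v‖ / g v) = 1 := by field_simp
    rw [this, one_smul]

theorem continuous_rad : Continuous (rad g) := by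
  obtain ⟨c, hc, hb⟩ := hg.bound
  rw [continuous_iff_continuousAt]
  intro v
  by_cases h : v = 0
  · subst h
    have h0 : rad g 0 = 0 := by simp [rad]
    rw [ContinuousAt, h0, tendsto_zero_iff_norm_tendsto_zero]
    have h1 : ∀ v, ‖rad g v‖ ≤ c⁻¹ * ‖v‖ := by
      intro v
      by_cases hv : v = 0
      · simp [rad, hv]
      · have h1 := hg.pos v hv
        have h2 : 0 < ‖v‖ := norm_pos_iff.2 hv
        rw [rad, norm_smul, Real.norm_of_nonneg (by positivity)]
        gcongr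
        rw [div_le_iff₀ h1]
        calc ‖v‖ = c⁻¹ * (c * ‖v‖) := by field_simp
          _ ≤ c⁻¹ * g v := by gcongr; exact hb v
    refine squeeze_zero (fun _ => norm_nonneg _) h1 ?_
    have : Filter.Tendsto (fun v : ℝ × ℝ × ℝ => c⁻¹ * ‖v‖) (𝓝 0) (𝓝 (c⁻¹ * ‖(0 : ℝ × ℝ × ℝ)‖)) :=
      (continuous_const.mul continuous_norm).tendsto 0
    simpa using this
  · have h1 := hg.pos v h
    unfold rad
    exact (continuousAt_id.norm.div hg.cont.continuousAt h1.ne').smul continuousAt_id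

theorem continuousAt_rinv {v : ℝ × ℝ × ℝ} (h : v ≠ 0) : ContinuousAt (rinv g) v := by
  have h2 : 0 < ‖v‖ := norm_pos_iff.2 h
  unfold rinv
  exact (hg.cont.continuousAt.div continuousAt_id.norm h2.ne').smul continuousAt_id

theorem rinv_injective : Function.Injective (rinv g) := fun x y h => by
  rw [← hg.rad_rinv x, ← hg.rad_rinv y, h]

theorem rad_image_ball : rad g '' ball3 = {v | g v ≤ 1} := by
  ext v
  simp only [mem_image, ball3, mem_closedBall_zero_iff, mem_ofPred_eq]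
  constructor
  · rintro ⟨w, hw, rfl⟩
    rw [hg.g_rad]; exact hw
  · intro hv
    exact ⟨rinv g v, by rw [hg.norm_rinv]; exact hv, hg.rad_rinv v⟩

end IsGauge

/-- The data for a handlebody presented as the quotient of a star-shaped body. -/
structure GaugeData (Z : Type*) [TopologicalSpace Z] (n : ℕ) where
  g : ℝ × ℝ × ℝ → ℝ
  hg : IsGauge g
  Q : ℝ × ℝ × ℝ → Z
  f : Fin n × Bool → ℝ × ℝ → ℝ × ℝ × ℝ
  cont_Q : ContinuousOn Q {v | g v ≤ 1}
  cont_f : ∀ a, ContinuousOn (f a) disc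
  maps_f : ∀ a, ∀ v ∈ disc, g (f a v) = 1
  inj_f : ∀ a b v w, v ∈ disc → w ∈ disc → f a v = f b w → a = b ∧ v = w
  open_f : ∀ a, ∃ U : Set (ℝ × ℝ × ℝ), IsOpen U ∧ f a '' discInt = U ∩ {v | g v = 1}
  Q_eq : ∀ x, g x ≤ 1 → ∀ y, g y ≤ 1 →
    (Q x = Q y ↔ x = y ∨ ∃ i b v, v ∈ disc ∧ x = f (i, b) v ∧ y = f (i, !b) v)

namespace GaugeData

variable {Z : Type*} [TopologicalSpace Z] {n : ℕ} (D : GaugeData Z n)

/-- The handlebody of a star-shaped body. -/
noncomputable def toHandlebody : Handlebody Z n where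
  q := fun v => D.Q (rad D.g v)
  e := fun a v => rinv D.g (D.f a v)
  cont_q := D.cont_Q.comp D.hg.continuous_rad.continuousOn (fun v hv => by
    have : ‖v‖ ≤ 1 := by simpa [ball3] using hv
    rw [mem_ofPred_eq, D.hg.g_rad]
    exact this)
  cont_e := fun a => by
    intro v hv
    have h0 : D.f a v ≠ 0 := by
      intro h
      have := D.maps_f a v hv
      rw [h, D.hg.zero] at this
      norm_num at this
    exact (D.hg.continuousAt_rinv h0).comp_continuousWithinAt (D.cont_f a v hv)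
  maps_e := fun a v hv => by
    simp only [sph2, mem_sphere_iff_norm, sub_zero]
    rw [D.hg.norm_rinv]
    exact D.maps_f a v hv
  inj_e := fun a b v w hv hw h => D.inj_f a b v w hv hw (D.hg.rinv_injective h)
  open_e := fun a => by
    obtain ⟨U, hU, hUe⟩ := D.open_f a
    refine ⟨rad D.g ⁻¹' U, hU.preimage D.hg.continuous_rad, ?_⟩
    ext x
    simp only [mem_image, mem_inter_iff, mem_preimage, sph2, mem_sphere_iff_norm, sub_zero]
    constructor
    · rintro ⟨v, hv, rfl⟩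
      have h1 : D.f a v ∈ U ∩ {v | D.g v = 1} := by rw [← hUe]; exact ⟨v, hv, rfl⟩
      rw [D.hg.rad_rinv, D.hg.norm_rinv]
      exact h1
    · rintro ⟨h1, h2⟩
      have h3 : rad D.g x ∈ D.f a '' discInt := by
        rw [hUe]
        refine ⟨h1, ?_⟩
        rw [mem_ofPred_eq, D.hg.g_rad]; exact h2
      obtain ⟨v, hv, hve⟩ := h3
      exact ⟨v, hv, by rw [hve, D.hg.rinv_rad]⟩
  q_eq := fun x hx y hy => by
    have hx' : D.g (rad D.g x) ≤ 1 := by rw [D.hg.g_rad]; simpa [ball3] using hx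
    have hy' : D.g (rad D.g y) ≤ 1 := by rw [D.hg.g_rad]; simpa [ball3] using hy
    rw [D.Q_eq _ hx' _ hy']
    constructor
    · rintro (h | ⟨i, b, v, hv, h1, h2⟩)
      · left
        rw [← D.hg.rinv_rad x, ← D.hg.rinv_rad y, h]
      · right
        exact ⟨i, b, v, hv, by rw [← h1, D.hg.rinv_rad], by rw [← h2, D.hg.rinv_rad]⟩
    · rintro (rfl | ⟨i, b, v, hv, rfl, rfl⟩)
      · exact Or.inl rfl
      · right
        exact ⟨i, b, v, hv, by rw [D.hg.rad_rinv], by rw [D.hg.rad_rinv]⟩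

theorem carrier_eq : D.toHandlebody.carrier = D.Q '' {v | D.g v ≤ 1} := by
  rw [← D.hg.rad_image_ball, ← image_comp]
  rfl

theorem mem_planar_iff (x : ℝ × ℝ × ℝ) : x ∈ D.toHandlebody.planar ↔
    D.g (rad D.g x) = 1 ∧ ∀ a, rad D.g x ∉ D.f a '' discInt := by
  simp only [Handlebody.planar, toHandlebody, mem_sdiff, sph2, mem_sphere_iff_norm, sub_zero,
    mem_iUnion, not_exists, D.hg.g_rad]
  refine and_congr Iff.rfl (forall_congr' fun a => not_congr ?_)
  constructor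
  · rintro ⟨v, hv, rfl⟩
    exact ⟨v, hv, by rw [D.hg.rad_rinv]⟩
  · rintro ⟨v, hv, h⟩
    exact ⟨v, hv, by simp only [h, D.hg.rinv_rad]⟩

theorem bd_eq : D.toHandlebody.bd = D.Q '' {v | D.g v = 1 ∧ ∀ a, v ∉ D.f a '' discInt} := by
  ext z
  constructor
  · rintro ⟨x, hx, rfl⟩
    exact ⟨rad D.g x, (D.mem_planar_iff x).1 hx, rfl⟩
  · rintro ⟨v, hv, rfl⟩
    refine ⟨rinv D.g v, (D.mem_planar_iff _).2 ?_, ?_⟩
    · rw [D.hg.rad_rinv]; exact hv
    · change D.Q (rad D.g (rinv D.g v)) = _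
      rw [D.hg.rad_rinv]

theorem curve_eq (i : Fin n) : D.toHandlebody.curve i = D.Q '' (D.f (i, true) '' discBd) := by
  rw [image_image]
  unfold Handlebody.curve
  rw [image_image]
  refine image_congr fun v _ => ?_
  change D.Q (rad D.g (rinv D.g _)) = _
  rw [D.hg.rad_rinv]

theorem hasJumps {Φ : Z → Circle} {k : Fin n → ℤ} {h : ℝ × ℝ × ℝ → ℝ}
    (hc : ContinuousOn h {v | D.g v ≤ 1}) (he : ∀ v, D.g v ≤ 1 → Φ (D.Q v) = Circle.exp (h v))
    (hk : ∀ i, ∀ v ∈ disc, h (D.f (i, true) v) = h (D.f (i, false) v) + k i * (2 * Real.pi)) :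
    D.toHandlebody.HasJumps Φ k := by
  have hm : ∀ v ∈ ball3, D.g (rad D.g v) ≤ 1 := fun v hv => by
    rw [D.hg.g_rad]; simpa [ball3] using hv
  refine ⟨fun v => h (rad D.g v), hc.comp D.hg.continuous_rad.continuousOn hm,
    fun v hv => he _ (hm v hv), fun i v hv => ?_⟩
  change h (rad D.g (rinv D.g _)) = h (rad D.g (rinv D.g _)) + _
  rw [D.hg.rad_rinv, D.hg.rad_rinv]
  exact hk i v hv

end GaugeData

end Pool.Agent.H72.Tri
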