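import Pool.Agent.H72.Tri.Deg

/-!
# Handlebodies with cut systems, and circle-valued maps on them
-/

open Set Topology Metric

namespace Pool.Agent.H72.Tri

namespace Handlebody

variable {Z : Type*} [TopologicalSpace Z] {g : ℕ} (V : Handlebody Z g)

theorem isClosed_planar : IsClosed V.planar := by
  choose U hU hUe using V.open_e
  have : V.planar = sph2 ∩ (⋃ a, U a)ᶜ := by
    ext x
    simp only [planar, mem_sdiff, mem_iUnion, hUe, mem_inter_iff, mem_compl_iff]
    constructor
    · rintro ⟨h1, h2⟩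
      refine ⟨h1, ?_⟩
      rintro ⟨a, ha⟩
      exact h2 ⟨a, ha, h1⟩
    · rintro ⟨h1, h2⟩
      refine ⟨h1, ?_⟩
      rintro ⟨a, ha, -⟩
      exact h2 ⟨a, ha⟩
  rw [this]
  exact isCompact_sph2.isClosed.inter (isOpen_iUnion hU).isClosed_compl

theorem planar_subset : V.planar ⊆ sph2 := sdiff_subset

theorem planar_ball : V.planar ⊆ ball3 := V.planar_subset.trans sph2_subset

theorem isCompact_planar : IsCompact V.planar :=
  isCompact_sph2.of_isClosed_subset V.isClosed_planar V.planar_subset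

theorem bd_subset : V.bd ⊆ V.carrier := image_mono V.planar_ball

theorem isCompact_carrier : IsCompact V.carrier := isCompact_ball3.image_of_continuousOn V.cont_q

theorem isCompact_bd : IsCompact V.bd :=
  V.isCompact_planar.image_of_continuousOn (V.cont_q.mono V.planar_ball)

theorem e_ball (a) {v : ℝ × ℝ} (hv : v ∈ disc) : V.e a v ∈ ball3 := sph2_subset (V.maps_e a hv)

theorem q_e_eq (i : Fin g) (b : Bool) {v : ℝ × ℝ} (hv : v ∈ disc) :
    V.q (V.e (i, b) v) = V.q (V.e (i, !b) v) :=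
  (V.q_eq _ (V.e_ball _ hv) _ (V.e_ball _ hv)).2 (Or.inr ⟨i, b, v, hv, rfl, rfl⟩)

theorem q_e_eq' (i : Fin g) (b c : Bool) {v : ℝ × ℝ} (hv : v ∈ disc) :
    V.q (V.e (i, b) v) = V.q (V.e (i, c) v) := by
  by_cases h : c = b
  · rw [h]
  · have : c = !b := by cases b <;> cases c <;> simp_all
    rw [this]
    exact V.q_e_eq i b hv

/-- A point of a closed disc lies on the planar part exactly when it is a boundary point. -/
theorem e_mem_planar (a) {v : ℝ × ℝ} (hv : v ∈ disc) : V.e a v ∈ V.planar ↔ v ∈ discBd := by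
  constructor
  · intro h
    apply mem_discBd_of hv
    intro hi
    exact h.2 (mem_iUnion.2 ⟨a, v, hi, rfl⟩)
  · intro h
    refine ⟨V.maps_e a hv, fun h' => ?_⟩
    obtain ⟨b, w, hw, hwe⟩ := mem_iUnion.1 h'
    obtain ⟨rfl, rfl⟩ := V.inj_e _ _ _ _ (discInt_subset hw) hv hwe
    exact not_mem_discInt h hw

theorem curve_subset_bd (i : Fin g) : V.curve i ⊆ V.bd := by
  rintro _ ⟨_, ⟨v, hv, rfl⟩, rfl⟩
  exact ⟨_, (V.e_mem_planar _ (discBd_subset hv)).2 hv, rfl⟩

theorem injOn_qe (i : Fin g) (b : Bool) : InjOn (fun v => V.q (V.e (i, b) v)) disc := by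
  intro v hv w hw h
  rcases (V.q_eq _ (V.e_ball _ hv) _ (V.e_ball _ hw)).1 h with h | ⟨j, c, u, hu, h1, h2⟩
  · exact (V.inj_e _ _ _ _ hv hw h).2
  · exfalso
    have e1 := (V.inj_e _ _ _ _ hv hu h1).1
    have e2 := (V.inj_e _ _ _ _ hw hu h2).1
    rw [e1] at e2
    simp at e2

theorem contOn_qe (a) : ContinuousOn (fun v => V.q (V.e a v)) disc :=
  V.cont_q.comp (V.cont_e a) (fun _ hv => V.e_ball a hv)

theorem sph2_eq : V.planar ∪ ⋃ a, V.e a '' disc = sph2 := by
  apply subset_antisymm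
  · refine union_subset V.planar_subset (iUnion_subset fun a => ?_)
    rintro _ ⟨v, hv, rfl⟩
    exact V.maps_e a hv
  · intro x hx
    by_cases h : x ∈ ⋃ a, V.e a '' discInt
    · right
      obtain ⟨a, v, hv, rfl⟩ := mem_iUnion.1 h
      exact mem_iUnion.2 ⟨a, v, discInt_subset hv, rfl⟩
    · left
      exact ⟨hx, h⟩

theorem isCompact_e (a) : IsCompact (V.e a '' disc) :=
  isCompact_disc.image_of_continuousOn (V.cont_e a)

theorem injOn_e (a) : InjOn (V.e a) disc := fun _ hv _ hw h => (V.inj_e _ _ _ _ hv hw h).2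

/-- Continuity on an embedded compact set can be tested upstairs. -/
theorem _root_.Pool.Agent.H72.Tri.contOn_image {W Z Z' : Type*} [TopologicalSpace W]
    [TopologicalSpace Z] [T2Space Z] [TopologicalSpace Z'] [Nonempty W] {A : Set Z'}
    (hA : IsCompact A) {f : Z' → Z} (hf : ContinuousOn f A) {φ : Z → W}
    (h : ContinuousOn (fun x => φ (f x)) A) : ContinuousOn φ (f '' A) := by
  obtain ⟨g, gc, ge⟩ := descend hA hf h (fun x _ y _ hxy => by rw [hxy])
  refine gc.congr ?_
  rintro _ ⟨x, hx, rfl⟩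
  exact (ge x hx).symm

/-- Continuity on the sphere is tested on the planar part and on the discs. -/
theorem contOn_sph2 {W : Type*} [TopologicalSpace W] [Nonempty W] {ψ : ℝ × ℝ × ℝ → W}
    (h1 : ContinuousOn ψ V.planar) (h2 : ∀ a, ContinuousOn (fun v => ψ (V.e a v)) disc) :
    ContinuousOn ψ sph2 := by
  rw [← V.sph2_eq]
  refine h1.union_of_isClosed ?_ V.isClosed_planar ?_
  · refine (locallyFinite_of_finite _).continuousOn_iUnion (fun a => (V.isCompact_e a).isClosed)
      (fun a => ?_)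
    exact contOn_image isCompact_disc (V.cont_e a) (h2 a)
  · exact isClosed_iUnion_of_finite fun a => (V.isCompact_e a).isClosed

/-- **Extension over a handlebody**: a circle-valued map on the boundary surface which has a
logarithm on every meridian extends over the handlebody. -/
theorem extend [T2Space Z] {φ : Z → Circle} (hφ : ContinuousOn φ V.bd)
    (hn : ∀ i, NullOn φ (V.curve i)) :
    ∃ Φ : Z → Circle, ContinuousOn Φ V.carrier ∧ EqOn Φ φ V.bd := by
  classical
  -- logarithms on the boundaries of the discs, extended over the discs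
  have hG : ∀ i : Fin g, ∃ G : ℝ × ℝ → ℝ, Continuous G ∧
      ∀ v ∈ discBd, φ (V.q (V.e (i, true) v)) = Circle.exp (G v) := by
    intro i
    obtain ⟨h, hc, he⟩ := hn i
    have h1 : ContinuousOn (fun v => h (V.q (V.e (i, true) v))) discBd := by
      refine hc.comp ((V.contOn_qe (i, true)).mono discBd_subset) ?_
      intro v hv
      exact ⟨_, ⟨v, hv, rfl⟩, rfl⟩
    obtain ⟨G, Gc, Ge⟩ := tietze isCompact_discBd.isClosed h1
    refine ⟨G, Gc, fun v hv => ?_⟩
    rw [Ge hv]
    exact he _ ⟨_, ⟨v, hv, rfl⟩, rfl⟩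
  choose G Gc Ge using hG
  have Ge' : ∀ i b, ∀ v ∈ discBd, φ (V.q (V.e (i, b) v)) = Circle.exp (G i v) := by
    intro i b v hv
    rw [V.q_e_eq' i b true (discBd_subset hv)]
    exact Ge i v hv
  -- the map on the sphere
  let ψ : ℝ × ℝ × ℝ → Circle := fun x =>
    if hx : ∃ a v, v ∈ disc ∧ x = V.e a v then Circle.exp (G hx.choose.1 hx.choose_spec.choose)
    else φ (V.q x)
  have hψe : ∀ a, ∀ v ∈ disc, ψ (V.e a v) = Circle.exp (G a.1 v) := by
    intro a v hv
    have hx : ∃ b w, w ∈ disc ∧ V.e a v = V.e b w := ⟨a, v, hv, rfl⟩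
    have h1 := hx.choose_spec.choose_spec
    obtain ⟨h2, h3⟩ := V.inj_e _ _ _ _ hv h1.1 h1.2
    simp only [ψ, hx, dif_pos]
    rw [← h3, ← h2]
  have hψp : ∀ x ∈ V.planar, ψ x = φ (V.q x) := by
    intro x hx
    by_cases h : ∃ a v, v ∈ disc ∧ x = V.e a v
    · obtain ⟨a, v, hv, rfl⟩ := h
      rw [hψe a v hv]
      have hv' := (V.e_mem_planar a hv).1 hx
      exact (Ge' a.1 a.2 v hv').symm
    · simp only [ψ, h, dif_neg, not_false_eq_true]
  have hψc : ContinuousOn ψ sph2 := by
    refine V.contOn_sph2 ?_ ?_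
    · refine ContinuousOn.congr ?_ hψp
      exact hφ.comp (V.cont_q.mono V.planar_ball) (fun x hx => ⟨x, hx, rfl⟩)
    · intro a
      refine ContinuousOn.congr ?_ (hψe a)
      exact (Circle.exp.continuous.comp (Gc a.1)).continuousOn
  obtain ⟨h, hc, he⟩ := nullOn_sph2 hψc
  obtain ⟨H, Hc, He⟩ := tietze isCompact_sph2.isClosed hc
  have hH : ∀ x ∈ sph2, Circle.exp (H x) = ψ x := fun x hx => by rw [He hx, he x hx]
  obtain ⟨Φ, Φc, Φe⟩ := descend isCompact_ball3 V.cont_q (g := fun x => Circle.exp (H x))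
    (Circle.exp.continuous.comp Hc).continuousOn (by
      intro x hx y hy hxy
      rcases (V.q_eq x hx y hy).1 hxy with rfl | ⟨i, b, v, hv, rfl, rfl⟩
      · rfl
      · rw [hH _ (V.maps_e _ hv), hH _ (V.maps_e _ hv), hψe _ v hv, hψe _ v hv])
  refine ⟨Φ, Φc, ?_⟩
  rintro _ ⟨x, hx, rfl⟩
  rw [Φe x (V.planar_ball hx), hH x (V.planar_subset hx), hψp x hx]

/-- A map on a handlebody has a logarithm on each meridian. -/
theorem nullOn_curve [T2Space Z] {Φ : Z → Circle} (hΦ : ContinuousOn Φ V.carrier) (i : Fin g) :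
    NullOn Φ (V.curve i) := by
  have h1 : NullOn (fun v => Φ (V.q (V.e (i, true) v))) disc := by
    refine nullOn_of_convex convex_disc ?_
    exact hΦ.comp (V.contOn_qe _) (fun v hv => ⟨_, V.e_ball _ hv, rfl⟩)
  have h2 : V.curve i = (fun v => V.q (V.e (i, true) v)) '' discBd := by
    simp only [curve, image_image]
  rw [h2]
  exact NullOn.image isCompact_discBd ((V.contOn_qe _).mono discBd_subset)
    ((V.injOn_qe i true).mono discBd_subset) (h1.mono discBd_subset)

/-- `k` is the vector of jumps of the map `Φ` on the handlebody: a logarithm of `Φ ∘ q` on the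
ball increases by `2 π k i` from the disc `(i, false)` to the disc `(i, true)`. -/
def HasJumps (Φ : Z → Circle) (k : Fin g → ℤ) : Prop :=
  ∃ h : ℝ × ℝ × ℝ → ℝ, ContinuousOn h ball3 ∧ (∀ x ∈ ball3, Φ (V.q x) = Circle.exp (h x)) ∧
    ∀ i, ∀ v ∈ disc, h (V.e (i, true) v) = h (V.e (i, false) v) + k i * (2 * Real.pi)

theorem exists_hasJumps {Φ : Z → Circle} (hΦ : ContinuousOn Φ V.carrier) :
    ∃ k, V.HasJumps Φ k := by
  obtain ⟨h, hc, he⟩ := nullOn_of_convex convex_ball3 (φ := fun x => Φ (V.q x))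
    (hΦ.comp V.cont_q (fun x hx => ⟨x, hx, rfl⟩))
  have : ∀ i : Fin g, ∃ k : ℤ, ∀ v ∈ disc,
      h (V.e (i, true) v) = h (V.e (i, false) v) + k * (2 * Real.pi) := by
    intro i
    refine log_diff isPreconnected_disc (h := fun v => h (V.e (i, true) v))
      (g := fun v => h (V.e (i, false) v))
      (hc.comp (V.cont_e _) (fun v hv => V.e_ball _ hv))
      (hc.comp (V.cont_e _) (fun v hv => V.e_ball _ hv)) ?_
    intro v hv
    have h1 := he _ (V.e_ball (i, true) hv)
    have h2 := he _ (V.e_ball (i, false) hv)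
    rw [← h1, ← h2]
    simp only
    rw [V.q_e_eq' i true false hv]
  choose k hk using this
  exact ⟨k, h, hc, he, hk⟩

theorem HasJumps.mul {V : Handlebody Z g} {Φ Ψ : Z → Circle} {k l : Fin g → ℤ}
    (h1 : V.HasJumps Φ k) (h2 : V.HasJumps Ψ l) :
    V.HasJumps (fun x => Φ x * Ψ x) (k + l) := by
  obtain ⟨h, hc, he, hk⟩ := h1
  obtain ⟨h', hc', he', hk'⟩ := h2
  refine ⟨fun x => h x + h' x, hc.add hc', fun x hx => ?_, fun i v hv => ?_⟩
  · simp only [he x hx, he' x hx, Circle.exp_add]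
  · simp only [hk i v hv, hk' i v hv, Pi.add_apply, Int.cast_add]
    ring

theorem HasJumps.zpow {V : Handlebody Z g} {Φ : Z → Circle} {k : Fin g → ℤ}
    (h1 : V.HasJumps Φ k) (n : ℤ) : V.HasJumps (fun x => Φ x ^ n) (n • k) := by
  obtain ⟨h, hc, he, hk⟩ := h1
  refine ⟨fun x => n * h x, continuousOn_const.mul hc, fun x hx => ?_, fun i v hv => ?_⟩
  · simp only [he x hx, Circle.exp_intCast_mul]
  · simp only [hk i v hv, Pi.smul_apply, smul_eq_mul, Int.cast_mul]
    ring

theorem HasJumps.continuousOn {V : Handlebody Z g} [T2Space Z] {Φ : Z → Circle} {k : Fin g → ℤ}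
    (h1 : V.HasJumps Φ k) : ContinuousOn Φ V.carrier := by
  obtain ⟨h, hc, he, hk⟩ := h1
  refine contOn_image isCompact_ball3 V.cont_q ?_
  exact (Circle.exp.continuous.comp_continuousOn hc).congr he

/-- If all jumps vanish the map has a logarithm. -/
theorem HasJumps.null {V : Handlebody Z g} [T2Space Z] {Φ : Z → Circle}
    (h1 : V.HasJumps Φ 0) : NullOn Φ V.carrier := by
  obtain ⟨h, hc, he, hk⟩ := h1
  have hk' : ∀ i b, ∀ v ∈ disc, h (V.e (i, b) v) = h (V.e (i, true) v) := by
    intro i b v hv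
    cases b
    · have := hk i v hv
      simp at this
      exact this.symm
    · rfl
  obtain ⟨H, Hc, He⟩ := descend isCompact_ball3 V.cont_q hc (by
      intro x hx y hy hxy
      rcases (V.q_eq x hx y hy).1 hxy with rfl | ⟨i, b, v, hv, rfl, rfl⟩
      · rfl
      · rw [hk' i b v hv, hk' i (!b) v hv])
  refine ⟨H, Hc, ?_⟩
  rintro _ ⟨x, hx, rfl⟩
  rw [He x hx]
  exact he x hx

/-- If the jumps vanish except at meridians disjoint from `C`, the map has a logarithm on `C`. -/
theorem HasJumps.null_of_disjoint {V : Handlebody Z g} [T2Space Z] {Φ : Z → Circle}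
    {k : Fin g → ℤ} (h1 : V.HasJumps Φ k) {C : Set Z} (hC : IsClosed C) (hCb : C ⊆ V.bd)
    (hd : ∀ i, k i = 0 ∨ Disjoint C (V.curve i)) : NullOn Φ C := by
  obtain ⟨h, hc, he, hk⟩ := h1
  let A : Set (ℝ × ℝ × ℝ) := V.planar ∩ V.q ⁻¹' C
  have hA : IsCompact A := by
    have h2 : IsClosed A :=
      (V.cont_q.mono V.planar_ball).preimage_isClosed_of_isClosed V.isClosed_planar hC
    exact V.isCompact_planar.of_isClosed_subset h2 inter_subset_left
  have hAb : A ⊆ ball3 := inter_subset_left.trans V.planar_ball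
  have hAC : V.q '' A = C := by
    apply subset_antisymm
    · rintro _ ⟨x, hx, rfl⟩
      exact hx.2
    · intro z hz
      obtain ⟨x, hx, rfl⟩ := hCb hz
      exact ⟨x, ⟨hx, hz⟩, rfl⟩
  obtain ⟨H, Hc, He⟩ := descend hA (V.cont_q.mono hAb) (hc.mono hAb) (by
      intro x hx y hy hxy
      rcases (V.q_eq x (hAb hx) y (hAb hy)).1 hxy with rfl | ⟨i, b, v, hv, rfl, rfl⟩
      · rfl
      · have hv' := (V.e_mem_planar _ hv).1 hx.1
        have hki : k i = 0 := by
          rcases hd i with h | h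
          · exact h
          · exfalso
            refine Set.disjoint_left.1 h hx.2 ?_
            rw [V.q_e_eq' i b true hv]
            exact ⟨_, ⟨v, hv', rfl⟩, rfl⟩
        have h3 := hk i v hv
        rw [hki] at h3
        simp only [Int.cast_zero, zero_mul, add_zero] at h3
        cases b
        · exact h3.symm
        · exact h3)
  rw [hAC] at Hc
  refine ⟨H, Hc, ?_⟩
  rw [← hAC]
  rintro _ ⟨x, hx, rfl⟩
  rw [He x hx]
  exact he x (hAb hx)

/-- There are maps with any given jumps. -/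
theorem exists_of_jumps [T2Space Z] (k : Fin g → ℤ) :
    ∃ Φ : Z → Circle, V.HasJumps Φ k := by
  classical
  let f : ℝ × ℝ × ℝ → ℝ := fun x => ∑ i : Fin g,
    if x ∈ V.e (i, true) '' disc then (k i : ℝ) * (2 * Real.pi) else 0
  have hf1 : ∀ i b, ∀ v ∈ disc, f (V.e (i, b) v) = if b then (k i : ℝ) * (2 * Real.pi) else 0 := by
    intro i b v hv
    simp only [f]
    rw [Finset.sum_eq_single i]
    · cases b
      · have : V.e (i, false) v ∉ V.e (i, true) '' disc := by
          rintro ⟨w, hw, hwe⟩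
          have := (V.inj_e _ _ _ _ hw hv hwe).1
          simp at this
        simp [this]
      · have : V.e (i, true) v ∈ V.e (i, true) '' disc := ⟨v, hv, rfl⟩
        simp [this]
    · intro j _ hj
      have : V.e (i, b) v ∉ V.e (j, true) '' disc := by
        rintro ⟨w, hw, hwe⟩
        have := (V.inj_e _ _ _ _ hw hv hwe).1
        simp only [Prod.mk.injEq] at this
        exact hj this.1
      simp [this]
    · simp
  have hfc : ContinuousOn f (⋃ a, V.e a '' disc) := by
    refine (locallyFinite_of_finite _).continuousOn_iUnion (fun a => (V.isCompact_e a).isClosed)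
      (fun a => ?_)
    refine contOn_image isCompact_disc (V.cont_e a) ?_
    have : EqOn (fun v => f (V.e a v)) (fun _ => if a.2 then (k a.1 : ℝ) * (2 * Real.pi) else 0)
        disc := fun v hv => hf1 a.1 a.2 v hv
    exact continuousOn_const.congr this
  obtain ⟨h, hc, he⟩ := tietze
    (isClosed_iUnion_of_finite fun a => (V.isCompact_e a).isClosed) hfc
  have he' : ∀ i b, ∀ v ∈ disc, h (V.e (i, b) v) =
      if b then (k i : ℝ) * (2 * Real.pi) else 0 := by
    intro i b v hv
    rw [he (mem_iUnion.2 ⟨(i, b), v, hv, rfl⟩)]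
    exact hf1 i b v hv
  have hexp : ∀ i b, ∀ v ∈ disc, Circle.exp (h (V.e (i, b) v)) = 1 := by
    intro i b v hv
    rw [he' i b v hv]
    cases b
    · simp
    · simp only [if_true]
      exact Circle.exp_int_mul_two_pi _
  obtain ⟨Φ, Φc, Φe⟩ := descend isCompact_ball3 V.cont_q (g := fun x => Circle.exp (h x))
    (Circle.exp.continuous.comp hc).continuousOn (by
      intro x hx y hy hxy
      rcases (V.q_eq x hx y hy).1 hxy with rfl | ⟨i, b, v, hv, rfl, rfl⟩
      · rfl
      · rw [hexp _ _ v hv, hexp _ _ v hv])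
  refine ⟨Φ, h, hc.continuousOn, Φe, fun i v hv => ?_⟩
  rw [he' i true v hv, he' i false v hv]
  simp

/-- If a map on the handlebody has a logarithm on the boundary surface, its jumps vanish. -/
theorem HasJumps.eq_zero {V : Handlebody Z g} [T2Space Z] {Φ : Z → Circle} {k : Fin g → ℤ}
    (h1 : V.HasJumps Φ k) (hn : NullOn Φ V.bd) : k = 0 := by
  classical
  obtain ⟨h, hc, he, hk⟩ := h1
  obtain ⟨s, sc, se⟩ := hn
  -- logarithms on the discs agreeing with `s ∘ q` on the boundary
  have hL : ∀ a : Fin g × Bool, ∃ c : ℤ, ∀ v ∈ discBd,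
      s (V.q (V.e a v)) = h (V.e a v) + c * (2 * Real.pi) := by
    intro a
    refine log_diff isPreconnected_discBd (h := fun v => s (V.q (V.e a v)))
      (g := fun v => h (V.e a v)) ?_ ?_ ?_
    · refine sc.comp ((V.contOn_qe a).mono discBd_subset) ?_
      intro v hv
      exact ⟨_, (V.e_mem_planar _ (discBd_subset hv)).2 hv, rfl⟩
    · exact hc.comp ((V.cont_e a).mono discBd_subset) (fun v hv => V.e_ball a (discBd_subset hv))
    · intro v hv
      have hv' := discBd_subset hv
      rw [← he _ (V.e_ball a hv'), ← se _ ⟨_, (V.e_mem_planar _ hv').2 hv, rfl⟩]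
  choose c hcc using hL
  let L : ℝ × ℝ × ℝ → ℝ := fun x =>
    if hx : ∃ a, x ∈ V.e a '' disc then h x + c hx.choose * (2 * Real.pi) else s (V.q x)
  have hLe : ∀ a, ∀ v ∈ disc, L (V.e a v) = h (V.e a v) + c a * (2 * Real.pi) := by
    intro a v hv
    have hx : ∃ b, V.e a v ∈ V.e b '' disc := ⟨a, v, hv, rfl⟩
    have h2 : hx.choose = a := by
      obtain ⟨w, hw, hwe⟩ := hx.choose_spec
      exact (V.inj_e _ _ _ _ hw hv hwe).1
    simp only [L, hx, dif_pos]
    rw [h2]
  have hLp : ∀ x ∈ V.planar, L x = s (V.q x) := by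
    intro x hx
    by_cases h' : ∃ a, x ∈ V.e a '' disc
    · obtain ⟨a, v, hv, rfl⟩ := h'
      rw [hLe a v hv]
      exact (hcc a v ((V.e_mem_planar a hv).1 hx)).symm
    · simp only [L, h', dif_neg, not_false_eq_true]
  have hLc : ContinuousOn L sph2 := by
    refine V.contOn_sph2 ?_ ?_
    · refine ContinuousOn.congr ?_ hLp
      exact sc.comp (V.cont_q.mono V.planar_ball) (fun x hx => ⟨x, hx, rfl⟩)
    · intro a
      refine ContinuousOn.congr ?_ (hLe a)
      exact (hc.comp (V.cont_e a) (fun v hv => V.e_ball a hv)).add continuousOn_const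
  obtain ⟨m, hm⟩ := log_diff isPreconnected_sph2 (h := L) (g := h) hLc (hc.mono sph2_subset) (by
    intro x hx
    rw [← he x (sph2_subset hx)]
    rw [← V.sph2_eq] at hx
    rcases hx with hx | hx
    · rw [hLp x hx, ← se _ ⟨x, hx, rfl⟩]
    · obtain ⟨a, v, hv, rfl⟩ := mem_iUnion.1 hx
      rw [hLe a v hv, Circle.exp_add, Circle.exp_int_mul_two_pi, mul_one,
        he _ (V.e_ball a hv)])
  -- evaluate on a boundary point
  funext i
  have hv : ((1, 0) : ℝ × ℝ) ∈ discBd := by simp [discBd, Prod.norm_def]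
  have hv' := discBd_subset hv
  have e1 := hm _ (V.maps_e (i, true) hv')
  have e2 := hm _ (V.maps_e (i, false) hv')
  rw [hLp _ ((V.e_mem_planar _ hv').2 hv)] at e1 e2
  have e3 := hk i _ hv'
  rw [V.q_e_eq' i true false hv'] at e1
  have hpi := Real.pi_pos
  have e4 : (k i : ℝ) * (2 * Real.pi) = 0 := by linarith
  have e5 : (k i : ℝ) = 0 := by
    rcases mul_eq_zero.1 e4 with h | h
    · exact h
    · linarith
  simpa using e5

end Handlebody

end Pool.Agent.H72.Tri
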