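import Pool.Agent.H72.Tri.TypeThm3

/-!
# Homeomorphism invariance of the type
-/

open Set Topology Metric

namespace Pool.Agent.H72.Tri

theorem circ_alg (G0 G2 Ψ ga gb g2 ψa ψb : Circle) (ka kb ca cb : ℤ) :
    g2 ^ (cb * kb - 2 * (ca * ka)) * (ψb ^ (-kb) * ψa ^ (2 * ka) * Ψ) ^ (-5 : ℤ) =
      (G0 * G2 ^ (-2 : ℤ) * Ψ ^ (-5 : ℤ)) * (G2 * ga ^ (-ka)) ^ (2 : ℤ) *
      (G0 * gb ^ (-kb)) ^ (-1 : ℤ) * (ga * g2 ^ (-ca) * ψa ^ (-5 : ℤ)) ^ (2 * ka) *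
      (gb * g2 ^ (-cb) * ψb ^ (-5 : ℤ)) ^ (-kb) := by
  apply Additive.ofMul.injective
  simp only [ofMul_mul, ofMul_zpow]
  module

variable {X X' : Type*} [TopologicalSpace X] [TopologicalSpace X']

theorem image_iInter_perm {Xi : Fin 3 → Set X} {Xi' : Fin 3 → Set X'} (f : X ≃ₜ X')
    (σ : Equiv.Perm (Fin 3)) (h : ∀ i, f '' Xi i = Xi' (σ i)) :
    f '' (⋂ i, Xi i) = ⋂ i, Xi' i := by
  rw [Set.image_iInter f.bijective]
  simp only [h]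
  exact σ.surjective.iInter_comp Xi'

theorem mem_G_comp {Xi : Fin 3 → Set X} {Xi' : Fin 3 → Set X'} (f : X ≃ₜ X')
    (σ : Equiv.Perm (Fin 3)) (h : ∀ i, f '' Xi i = Xi' (σ i)) {i : Fin 3} {φ : X' → Circle}
    (hφ : φ ∈ G Xi' (σ i)) : (fun x => φ (f x)) ∈ G Xi i := by
  have hm : ∀ i, MapsTo f (Xi i) (Xi' (σ i)) := fun i x hx => by
    rw [← h]; exact ⟨x, hx, rfl⟩
  have hF : MapsTo f (⋂ i, Xi i) (⋂ i, Xi' i) := fun x hx => by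
    rw [← image_iInter_perm f σ h]; exact ⟨x, hx, rfl⟩
  obtain ⟨h1, h2⟩ := hφ
  refine ⟨h1.comp f.continuous.continuousOn hF, fun j hj => ?_⟩
  obtain ⟨Φ, Φc, Φe⟩ := h2 (σ j) (fun he => hj (σ.injective he))
  refine ⟨fun x => Φ (f x), ?_, ?_⟩
  · exact Φc.comp f.continuous.continuousOn (fun x hx => ⟨hm i hx.1, hm j hx.2⟩)
  · intro x hx
    exact Φe (hF hx)

theorem symm_image {Xi : Fin 3 → Set X} {Xi' : Fin 3 → Set X'} (f : X ≃ₜ X')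
    (σ : Equiv.Perm (Fin 3)) (h : ∀ i, f '' Xi i = Xi' (σ i)) (i : Fin 3) :
    f.symm '' Xi' i = Xi (σ.symm i) := by
  have := h (σ.symm i)
  rw [Equiv.apply_symm_apply] at this
  rw [← this, ← image_comp]
  simp

/-- Two decompositions, one of type `(5, 4)` and one of type `(5, 2)`, are not homeomorphic. -/
theorem not_homeo {Xi : Fin 3 → Set X} {Xi' : Fin 3 → Set X'} (hT : HasType Xi 5 4)
    (hT' : HasType Xi' 5 2) (f : X ≃ₜ X') (σ : Equiv.Perm (Fin 3))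
    (h : ∀ i, f '' Xi i = Xi' (σ i)) : False := by
  obtain ⟨g, g1, g2, g3, g4, g5⟩ := hT
  obtain ⟨g', g1', g2', g3', g4', g5'⟩ := hT'
  have hF : f '' (⋂ i, Xi i) = ⋂ i, Xi' i := image_iInter_perm f σ h
  have hFm : MapsTo f (⋂ i, Xi i) (⋂ i, Xi' i) := fun x hx => by
    rw [← hF]; exact ⟨x, hx, rfl⟩
  have hFm' : MapsTo f.symm (⋂ i, Xi' i) (⋂ i, Xi i) := fun x hx => by
    rw [← hF] at hx
    obtain ⟨y, hy, rfl⟩ := hx
    simpa using hy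
  have hpull : ∀ {φ : X' → Circle}, NullOn φ (⋂ i, Xi' i) →
      NullOn (fun x => φ (f x)) (⋂ i, Xi i) :=
    fun hφ => hφ.comp f.continuous.continuousOn hFm
  -- the generators correspond up to sign
  have key : ∀ i, ∃ k : ℤ, (k = 1 ∨ k = -1) ∧
      NullOn (fun x => g' (σ i) (f x) * g i x ^ (-k)) (⋂ i, Xi i) := by
    intro i
    obtain ⟨k, hk⟩ := g2 i _ (mem_G_comp f σ h (g1' (σ i)))
    have hmem : (fun x => g i (f.symm x)) ∈ G Xi' (σ i) := by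
      refine mem_G_comp (i := σ i) f.symm σ.symm (symm_image f σ h) (φ := g i) ?_
      rw [Equiv.symm_apply_apply]
      exact g1 i
    obtain ⟨l, hl⟩ := g2' (σ i) _ hmem
    have hl' := hpull hl
    simp only [Homeomorph.symm_apply_apply] at hl'
    have h1 : NullOn (fun x => g i x ^ (1 - k * l)) (⋂ i, Xi i) := by
      refine (hl'.mul (hk.zpow l)).congr fun x _ => ?_
      simp only
      apply Additive.ofMul.injective
      simp only [ofMul_mul, ofMul_zpow]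
      module
    have h2 := g3 i _ h1
    refine ⟨k, ?_, hk⟩
    have h3 : k * l = 1 := by linarith
    exact Int.isUnit_iff.1 (IsUnit.of_mul_eq_one _ h3)
  obtain ⟨ka, hka, na⟩ := key (σ.symm 2)
  obtain ⟨kb, hkb, nb⟩ := key (σ.symm 0)
  rw [Equiv.apply_symm_apply] at na nb
  obtain ⟨ψa, ψac, ψan⟩ := g4 (σ.symm 2)
  obtain ⟨ψb, ψbc, ψbn⟩ := g4 (σ.symm 0)
  obtain ⟨Ψ, Ψc, Ψn⟩ := g4' 0
  have Ψn' := hpull Ψn
  have hc : ∀ j : Fin 3, (![4, 4, 1] : Fin 3 → ℤ) j = 4 ∨ (![4, 4, 1] : Fin 3 → ℤ) j = 1 := by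
    decide
  obtain ⟨ca, hca, ha⟩ : ∃ c : ℤ, (![4, 4, 1] : Fin 3 → ℤ) (σ.symm 2) = c ∧ (c = 4 ∨ c = 1) :=
    ⟨_, rfl, hc _⟩
  obtain ⟨cb, hcb, hb⟩ : ∃ c : ℤ, (![4, 4, 1] : Fin 3 → ℤ) (σ.symm 0) = c ∧ (c = 4 ∨ c = 1) :=
    ⟨_, rfl, hc _⟩
  rw [hca] at ψan
  rw [hcb] at ψbn
  have hΨ : NullOn (fun x => g' 0 (f x) * g' 2 (f x) ^ (-2 : ℤ) * Ψ (f x) ^ (-5 : ℤ))
      (⋂ i, Xi i) := Ψn'
  have hdvd := g5 (cb * kb - 2 * (ca * ka))
    (fun x => ψb x ^ (-kb) * ψa x ^ (2 * ka) * Ψ (f x))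
    (((ψbc.zpow _).mul (ψac.zpow _)).mul (Ψc.comp f.continuous.continuousOn hFm)) (by
      refine ((((hΨ.mul (na.zpow 2)).mul (nb.zpow (-1))).mul (ψan.zpow (2 * ka))).mul
        (ψbn.zpow (-kb))).congr fun x _ => ?_
      exact circ_alg (g' 0 (f x)) (g' 2 (f x)) (Ψ (f x)) _ _ _ _ _ ka kb ca cb)
  rcases ha with rfl | rfl <;> rcases hb with rfl | rfl <;> rcases hka with rfl | rfl <;>
    rcases hkb with rfl | rfl <;> omega

end Pool.Agent.H72.Tri
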