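import Pool.Agent.H72.Tri.Hb

/-!
# The degree of a map on the knot in terms of its jumps
-/

open Set Topology Metric

namespace Pool.Agent.H72.Tri

theorem exp_pi : Circle.exp Real.pi = -1 := by
  ext
  simp [Circle.coe_exp]

namespace Placement

variable {Y : Type*} [TopologicalSpace Y] {P : Splitting Y} (K : Placement P)

/-- Points of the knot in the bicollar. -/
theorem mem_j_iff {R : Set (ℝ × Circle)} (hR : R ⊆ Icc (-1 : ℝ) 1 ×ˢ univ) (z : Circle) :
    K.κ z ∈ K.j '' R ↔ ∃ s ∈ Icc (-1 : ℝ) 1, z = Circle.exp (Real.pi / 2 * s) ∧ (s, 1) ∈ R := by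
  have hpi := Real.pi_pos
  constructor
  · rintro ⟨⟨s, w⟩, hr, h⟩
    have h1 : 0 ≤ (z : ℂ).re := K.only z ⟨_, hR hr, h⟩
    have h2 : z ∈ halfR := h1
    rw [halfR_eq] at h2
    obtain ⟨t, ht, rfl⟩ := h2
    have hs : 2 * t / Real.pi ∈ Icc (-1 : ℝ) 1 := by
      constructor
      · rw [le_div_iff₀ hpi]; linarith [ht.1]
      · rw [div_le_iff₀ hpi]; linarith [ht.2]
    have h3 := K.cross _ hs
    have h4 : Real.pi / 2 * (2 * t / Real.pi) = t := by field_simp
    rw [h4] at h3
    have h5 : ((s, w) : ℝ × Circle) = (2 * t / Real.pi, 1) :=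
      K.j_inj (hR hr) ⟨hs, mem_univ _⟩ (h.trans h3)
    refine ⟨2 * t / Real.pi, hs, by rw [h4], ?_⟩
    rw [← h5]
    exact hr
  · rintro ⟨s, hs, rfl, h⟩
    rw [K.cross s hs]
    exact ⟨_, h, rfl⟩

theorem isCompact_ann (a b : ℝ) : IsCompact (Icc a b ×ˢ (univ : Set Circle)) :=
  isCompact_Icc.prod isCompact_univ

variable [T2Space Y]

theorem isClosed_range : IsClosed (range K.κ) := (isCompact_range K.κ_cont).isClosed

theorem isClosed_S : IsClosed P.S := P.Vβ.isCompact_bd.isClosed

/-- The collapsing map of the bicollar. -/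
theorem exists_collapse : ∃ ψ : Y → Circle, ContinuousOn ψ P.S ∧
    (∀ s ∈ Icc (-1 : ℝ) 1, ∀ z, ψ (K.j (s, z)) = Circle.exp (Real.pi * (s + 1))) ∧
    (∀ x, x ∉ K.j '' (Icc (-1 : ℝ) 1 ×ˢ univ) → ψ x = 1) := by
  classical
  obtain ⟨g, gc, ge⟩ := descend (isCompact_ann (-1) 1) K.j_cont
    (g := fun p => Circle.exp (Real.pi * (p.1 + 1)))
    (Circle.exp.continuous.comp (by fun_prop)).continuousOn
    (fun x hx y hy h => by rw [K.j_inj hx hy h])
  let ψ : Y → Circle := fun x => if x ∈ K.j '' (Icc (-1 : ℝ) 1 ×ˢ univ) then g x else 1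
  have h1 : ∀ s ∈ Icc (-1 : ℝ) 1, ∀ z, ψ (K.j (s, z)) = Circle.exp (Real.pi * (s + 1)) := by
    intro s hs z
    have hm : K.j (s, z) ∈ K.j '' (Icc (-1 : ℝ) 1 ×ˢ univ) := ⟨_, ⟨hs, mem_univ _⟩, rfl⟩
    simp only [ψ, hm, if_true]
    exact ge (s, z) ⟨hs, mem_univ _⟩
  have h2 : ∀ x, x ∉ K.j '' (Icc (-1 : ℝ) 1 ×ˢ univ) → ψ x = 1 := by
    intro x hx
    exact if_neg hx
  refine ⟨ψ, ?_, h1, h2⟩
  obtain ⟨U, hU, hUe⟩ := K.j_open
  have hcov : P.S = K.j '' (Icc (-1 : ℝ) 1 ×ˢ univ) ∪ (P.S \ U) := by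
    apply subset_antisymm
    · intro x hx
      by_cases hxU : x ∈ U
      · left
        have : x ∈ K.j '' (Ioo (-1 : ℝ) 1 ×ˢ univ) := by rw [hUe]; exact ⟨hxU, hx⟩
        exact image_mono (prod_mono_left Ioo_subset_Icc_self) this
      · right; exact ⟨hx, hxU⟩
    · refine union_subset ?_ sdiff_subset
      rintro _ ⟨p, hp, rfl⟩
      exact K.j_mem hp
  rw [hcov]
  have hA : IsClosed (K.j '' (Icc (-1 : ℝ) 1 ×ˢ univ)) :=
    ((isCompact_ann (-1) 1).image_of_continuousOn K.j_cont).isClosed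
  have hB : IsClosed (P.S \ U) := (isClosed_S (P := P)).sdiff hU
  refine ContinuousOn.union_of_isClosed ?_ ?_ hA hB
  · exact gc.congr fun x hx => if_pos hx
  · refine (continuousOn_const (c := (1 : Circle))).congr ?_
    intro x hx
    by_cases hm : x ∈ K.j '' (Icc (-1 : ℝ) 1 ×ˢ univ)
    · obtain ⟨⟨s, z⟩, ⟨hs, -⟩, rfl⟩ := hm
      rw [h1 s hs z]
      have hs' : ¬ (s ∈ Ioo (-1 : ℝ) 1) := by
        intro h
        have : K.j (s, z) ∈ U ∩ P.S := by rw [← hUe]; exact ⟨_, ⟨h, mem_univ _⟩, rfl⟩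
        exact hx.2 this.1
      have : s = -1 ∨ s = 1 := by
        simp only at hs
        rcases eq_or_lt_of_le hs.1 with h | h
        · left; exact h.symm
        · right
          by_contra hne
          exact hs' ⟨h, lt_of_le_of_ne hs.2 hne⟩
      rcases this with rfl | rfl
      · simp
      · have : Real.pi * (1 + 1) = 2 * Real.pi := by ring
        rw [this, Circle.exp_two_pi]
    · exact h2 x hm

omit [T2Space Y] in
theorem hasDeg_collapse {ψ : Y → Circle}
    (h1 : ∀ s ∈ Icc (-1 : ℝ) 1, ∀ z, ψ (K.j (s, z)) = Circle.exp (Real.pi * (s + 1)))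
    (h2 : ∀ x, x ∉ K.j '' (Icc (-1 : ℝ) 1 ×ˢ univ) → ψ x = 1) :
    HasDeg (fun z => ψ (K.κ z)) 1 := by
  classical
  have hpi := Real.pi_pos
  let h : Circle → ℝ := fun z => if 0 ≤ (z : ℂ).re then Real.pi + Complex.arg z
    else Real.pi - Complex.arg (-z : Circle)
  have hR : ∀ z ∈ halfR, h z = Real.pi + Complex.arg z := fun z hz => by
    have : 0 ≤ (z : ℂ).re := hz
    simp [h, this]
  have hL : ∀ z ∈ halfL, h z = Real.pi - Complex.arg (-z : Circle) := by
    intro z hz
    have hz' : (z : ℂ).re ≤ 0 := hz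
    rcases eq_or_lt_of_le hz' with h0 | h0
    · have h3 : 0 ≤ (z : ℂ).re := h0.ge
      simp only [h, h3, if_true]
      have h4 := Circle.normSq_coe z
      rw [Complex.normSq_apply, h0] at h4
      have h5 : (z : ℂ).im = 1 ∨ (z : ℂ).im = -1 := by
        have h6 : ((z : ℂ).im - 1) * ((z : ℂ).im + 1) = 0 := by linarith
        rcases mul_eq_zero.1 h6 with h | h
        · left; linarith
        · right; linarith
      have hneg : ((-z : Circle) : ℂ) = -(z : ℂ) := rfl
      rcases h5 with h5 | h5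
      · have hzI : (z : ℂ) = Complex.I := Complex.ext (by simp [h0]) (by simp [h5])
        rw [hneg, hzI, Complex.arg_I, Complex.arg_neg_I]
        ring
      · have hzI : (z : ℂ) = -Complex.I := Complex.ext (by simp [h0]) (by simp [h5])
        rw [hneg, hzI, neg_neg, Complex.arg_I, Complex.arg_neg_I]
        ring
    · have h3 : ¬ (0 ≤ (z : ℂ).re) := not_le.2 h0
      simp [h, h3]
  have hargR : ContinuousOn (fun z : Circle => Complex.arg z) halfR := by
    intro z hz
    have hz' : 0 ≤ (z : ℂ).re := hz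
    have hs : (z : ℂ) ∈ Complex.slitPlane := by
      rw [Complex.mem_slitPlane_iff]
      rcases eq_or_lt_of_le hz' with h0 | h0
      · right
        intro him
        have := Circle.normSq_coe z
        rw [Complex.normSq_apply, ← h0, him] at this
        norm_num at this
      · left; exact h0
    exact ((Complex.continuousAt_arg hs).comp continuous_subtype_val.continuousAt).continuousWithinAt
  have hneg : MapsTo (fun z : Circle => -z) halfL halfR := by
    intro z hz
    have hz' : (z : ℂ).re ≤ 0 := hz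
    change 0 ≤ ((-z : Circle) : ℂ).re
    have : ((-z : Circle) : ℂ) = -(z : ℂ) := rfl
    rw [this, Complex.neg_re]
    linarith
  have hc : Continuous h := by
    have hu : (halfR ∪ halfL) = univ := by
      apply eq_univ_of_forall
      intro z
      exact le_total 0 (z : ℂ).re
    rw [← continuousOn_univ, ← hu]
    refine ContinuousOn.union_of_isClosed ?_ ?_ isClosed_halfR isClosed_halfL
    · exact (continuousOn_const.add hargR).congr hR
    · refine ContinuousOn.congr ?_ hL
      exact continuousOn_const.sub (hargR.comp continuous_neg.continuousOn hneg)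
  refine ⟨h, hc, fun z => ?_⟩
  rw [zpow_one]
  by_cases hz : 0 ≤ (z : ℂ).re
  · have hz' : z ∈ halfR := hz
    rw [hR z hz']
    have hz2 := hz'
    rw [halfR_eq] at hz2
    obtain ⟨t, ht, rfl⟩ := hz2
    have harg : Complex.arg (Circle.exp t) = t := by
      apply Circle.arg_exp
      · linarith [ht.1]
      · linarith [ht.2]
    have hs : 2 * t / Real.pi ∈ Icc (-1 : ℝ) 1 := by
      constructor
      · rw [le_div_iff₀ hpi]; linarith [ht.1]
      · rw [div_le_iff₀ hpi]; linarith [ht.2]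
    have h3 := K.cross _ hs
    have h4 : Real.pi / 2 * (2 * t / Real.pi) = t := by field_simp
    rw [h4] at h3
    simp only
    rw [harg, h3, h1 _ hs, ← Circle.exp_add]
    congr 1
    field_simp
    ring
  · have hz' : z ∈ halfL := by
      push Not at hz
      exact hz.le
    simp only
    rw [hL z hz', h2 _ (fun hm => hz (K.only z hm))]
    have h3 : z = -(Circle.exp (Complex.arg (-z : Circle))) := by
      rw [Circle.exp_arg, neg_neg]
    have h4 : -(Circle.exp (Complex.arg (-z : Circle))) =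
        Circle.exp (Complex.arg (-z : Circle) + Real.pi) := by
      rw [Circle.exp_add, exp_pi]
      simp
    have h5 : z * Circle.exp (Real.pi - Complex.arg (-z : Circle)) = 1 := by
      have h6 : z * Circle.exp (Real.pi - Complex.arg (-z : Circle)) =
          Circle.exp (Complex.arg (-z : Circle) + Real.pi) *
          Circle.exp (Real.pi - Complex.arg (-z : Circle)) := by
        rw [← h4, ← h3]
      rw [h6, ← Circle.exp_add]
      have : Complex.arg (-z : Circle) + Real.pi + (Real.pi - Complex.arg (-z : Circle)) =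
          2 * Real.pi := by ring
      rw [this, Circle.exp_two_pi]
    exact h5.symm

/-- The degree on the knot `K` of a map on `H_β` is, up to a sign depending only on `K`, its first
jump. -/
theorem exists_sign : ∃ ε : ℤ, (ε = 1 ∨ ε = -1) ∧
    ∀ (Φ : Y → Circle) (k : Fin 2 → ℤ), P.Vβ.HasJumps Φ k →
      HasDeg (fun z => Φ (K.κ z)) (ε * k 0) := by
  obtain ⟨W, hW⟩ := P.Vβ.exists_of_jumps ![1, 0]
  have hsub : ∀ z, K.κ z ∈ P.Vβ.carrier := fun z => P.Vβ.bd_subset (K.κ_mem z)
  have hWc : Continuous (fun z => W (K.κ z)) :=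
    hW.continuousOn.comp_continuous K.κ_cont hsub
  obtain ⟨d, hd⟩ := exists_hasDeg hWc
  have key : ∀ (Φ : Y → Circle) (k : Fin 2 → ℤ), P.Vβ.HasJumps Φ k →
      HasDeg (fun z => Φ (K.κ z)) (d * k 0) := by
    intro Φ k hk
    have h1 := hk.mul (hW.zpow (-(k 0)))
    have h2 : NullOn (fun x => Φ x * W x ^ (-(k 0))) (range K.κ) := by
      refine h1.null_of_disjoint K.isClosed_range ?_ ?_
      · rintro _ ⟨z, rfl⟩
        exact K.κ_mem z
      · intro i
        fin_cases i
        · left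
          simp
        · right
          exact K.κ_disj
    have h3 : HasDeg (fun z => Φ (K.κ z) * W (K.κ z) ^ (-(k 0))) 0 :=
      hasDeg_zero_of_null (h2.comp (f := K.κ) K.κ_cont.continuousOn (fun z _ => ⟨z, rfl⟩))
    have h4 := h3.mul (hd.zpow (k 0))
    rw [zero_add] at h4
    refine h4.congr fun z => ?_
    rw [zpow_neg, mul_assoc, inv_mul_cancel, mul_one]
  obtain ⟨ψ, ψc, ψ1, ψ2⟩ := K.exists_collapse
  obtain ⟨Ψ, Ψc, Ψe⟩ := P.Vβ.extend ψc (by
    intro i
    fin_cases i
    · have h5 : P.Vβ.curve 0 = K.j '' ({0} ×ˢ univ) := K.j_zero.symm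
      change NullOn ψ (P.Vβ.curve 0)
      rw [h5]
      refine nullOn_of_const (c := Circle.exp (Real.pi * (0 + 1))) ?_
      rintro _ ⟨⟨s, z⟩, ⟨hs, -⟩, rfl⟩
      have hs' : s = 0 := hs
      subst hs'
      exact ψ1 0 (by norm_num) z
    · refine nullOn_of_const (c := 1) ?_
      intro x hx
      apply ψ2
      intro hm
      exact Set.disjoint_left.1 K.j_disj hm hx)
  obtain ⟨k, hk⟩ := P.Vβ.exists_hasJumps Ψc
  have h6 := key Ψ k hk
  have h7 : HasDeg (fun z => Ψ (K.κ z)) 1 :=
    (K.hasDeg_collapse ψ1 ψ2).congr fun z => Ψe (K.κ_mem z)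
  have h8 : d * k 0 = 1 := h6.unique h7
  refine ⟨d, ?_, key⟩
  exact Int.isUnit_iff.1 (IsUnit.of_mul_eq_one _ h8)

end Placement

end Pool.Agent.H72.Tri
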