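import Pool.Agent.H72.Tri.Gauge

/-!
# A model of `S¹ × S²`
-/

open Set Topology Metric

namespace Pool.Agent.H72.Tri

noncomputable section

/-- The two-sphere, as the boundary of the cylinder `‖w‖ ≤ 1`, `|r| ≤ 1` in `ℂ × ℝ`
(the unit sphere of the maximum norm). -/
abbrev Sph : Type := sphere (0 : ℂ × ℝ) 1

/-- A model of `S¹ × S²`. -/
abbrev Y0 : Type := Circle × Sph

theorem mem_sph {v : ℂ × ℝ} : v ∈ sphere (0 : ℂ × ℝ) 1 ↔ max ‖v.1‖ |v.2| = 1 := by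
  rw [mem_sphere_iff_norm, sub_zero, Prod.norm_def, Real.norm_eq_abs]

theorem mem_sph_of {w : ℂ} {r : ℝ} (hw : ‖w‖ = 1) (hr : |r| ≤ 1) :
    (w, r) ∈ sphere (0 : ℂ × ℝ) 1 := by
  rw [mem_sph]
  simp only
  rw [hw]
  exact max_eq_left hr

theorem mem_sph_of' {w : ℂ} {r : ℝ} (hw : ‖w‖ ≤ 1) (hr : |r| = 1) :
    (w, r) ∈ sphere (0 : ℂ × ℝ) 1 := by
  rw [mem_sph]
  simp only
  rw [hr]
  exact max_eq_right hw

open Classical in
/-- A point of the sphere. -/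
def mk (v : ℂ × ℝ) : Sph :=
  if h : v ∈ sphere (0 : ℂ × ℝ) 1 then ⟨v, h⟩ else ⟨(0, 1), mem_sph_of' (by simp) (by simp)⟩

theorem mk_coe {v : ℂ × ℝ} (h : v ∈ sphere (0 : ℂ × ℝ) 1) : (mk v : ℂ × ℝ) = v := by
  simp only [mk, h, dif_pos]

theorem mk_eq (s : Sph) : mk (s : ℂ × ℝ) = s := Subtype.ext (mk_coe s.2)

theorem contOn_mk {A : Type*} [TopologicalSpace A] {f : A → ℂ × ℝ} {s : Set A}
    (hf : ContinuousOn f s) (hm : MapsTo f s (sphere (0 : ℂ × ℝ) 1)) :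
    ContinuousOn (fun x => mk (f x)) s := by
  rw [continuousOn_iff_continuous_domRestrict]
  have : s.domRestrict (fun x => mk (f x)) = fun x : s => (⟨f x, hm x.2⟩ : Sph) := by
    funext x
    exact Subtype.ext (mk_coe (hm x.2))
  rw [this]
  exact (continuousOn_iff_continuous_domRestrict.1 hf).subtype_mk _

/-! ### Trigonometry -/

/-- `E t = exp (π i (t + 1)) = - exp (π i t)` -/
def Ec (t : ℝ) : Circle := Circle.exp (Real.pi * (t + 1))

theorem continuous_Ec : Continuous Ec := Circle.exp.continuous.comp (by fun_prop)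

theorem re_Ec (t : ℝ) : (Ec t : ℂ).re = -Real.cos (Real.pi * |t|) := by
  unfold Ec
  rw [re_exp]
  have h1 : Real.pi * (t + 1) = Real.pi * t + Real.pi := by ring
  rw [h1, Real.cos_add_pi]
  have h2 : Real.pi * |t| = |Real.pi * t| := by
    rw [abs_mul, abs_of_pos Real.pi_pos]
  rw [h2, Real.cos_abs]

theorem re_Ec_le {t c : ℝ} (ht : |t| ≤ 1) (h0 : 0 ≤ c) (h1 : c ≤ 1) :
    (Ec t : ℂ).re ≤ -Real.cos (Real.pi * c) ↔ |t| ≤ c := by
  have hpi := Real.pi_pos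
  rw [re_Ec, neg_le_neg_iff]
  have h2 : Real.pi * c ∈ Icc 0 Real.pi := ⟨by positivity, by nlinarith⟩
  have h3 : Real.pi * |t| ∈ Icc 0 Real.pi := ⟨by positivity, by nlinarith [abs_nonneg t]⟩
  rw [Real.strictAntiOn_cos.le_iff_ge h2 h3]
  constructor
  · intro h; exact le_of_mul_le_mul_left h hpi
  · intro h; exact mul_le_mul_of_nonneg_left h hpi.le

theorem le_re_Ec {t c : ℝ} (ht : |t| ≤ 1) (h0 : 0 ≤ c) (h1 : c ≤ 1) :
    -Real.cos (Real.pi * c) ≤ (Ec t : ℂ).re ↔ c ≤ |t| := by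
  have hpi := Real.pi_pos
  rw [re_Ec, neg_le_neg_iff]
  have h2 : Real.pi * c ∈ Icc 0 Real.pi := ⟨by positivity, by nlinarith⟩
  have h3 : Real.pi * |t| ∈ Icc 0 Real.pi := ⟨by positivity, by nlinarith [abs_nonneg t]⟩
  rw [Real.strictAntiOn_cos.le_iff_ge h3 h2]
  constructor
  · intro h; exact le_of_mul_le_mul_left h hpi
  · intro h; exact mul_le_mul_of_nonneg_left h hpi.le

theorem cos_half : -Real.cos (Real.pi * (1 / 2)) = 0 := by
  have : Real.pi * (1 / 2) = Real.pi / 2 := by ring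
  rw [this, Real.cos_pi_div_two, neg_zero]

theorem cos_three_quarters : -Real.cos (Real.pi * (3 / 4)) = √2 / 2 := by
  have : Real.pi * (3 / 4) = Real.pi - Real.pi / 4 := by ring
  rw [this, Real.cos_pi_sub, Real.cos_pi_div_four, neg_neg]

theorem re_Ec_nonpos {t : ℝ} (ht : |t| ≤ 1) : (Ec t : ℂ).re ≤ 0 ↔ |t| ≤ 1 / 2 := by
  have := re_Ec_le ht (c := 1/2) (by norm_num) (by norm_num)
  rwa [cos_half] at this

theorem re_Ec_nonneg {t : ℝ} (ht : |t| ≤ 1) : 0 ≤ (Ec t : ℂ).re ↔ 1 / 2 ≤ |t| := by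
  have := le_re_Ec ht (c := 1/2) (by norm_num) (by norm_num)
  rwa [cos_half] at this

theorem re_Ec_le' {t : ℝ} (ht : |t| ≤ 1) : (Ec t : ℂ).re ≤ √2 / 2 ↔ |t| ≤ 3 / 4 := by
  have := re_Ec_le ht (c := 3/4) (by norm_num) (by norm_num)
  rwa [cos_three_quarters] at this

theorem le_re_Ec' {t : ℝ} (ht : |t| ≤ 1) : √2 / 2 ≤ (Ec t : ℂ).re ↔ 3 / 4 ≤ |t| := by
  have := le_re_Ec ht (c := 3/4) (by norm_num) (by norm_num)
  rwa [cos_three_quarters] at this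

theorem Ec_surj (z : Circle) : ∃ t : ℝ, |t| ≤ 1 ∧ Ec t = z := by
  have hpi := Real.pi_pos
  have hz : z ∈ Circle.exp '' Icc 0 (2 * Real.pi) := by rw [exp_image_Icc]; trivial
  obtain ⟨θ, hθ, rfl⟩ := hz
  refine ⟨θ / Real.pi - 1, ?_, ?_⟩
  · rw [abs_le]
    constructor
    · have : 0 ≤ θ / Real.pi := div_nonneg hθ.1 hpi.le
      linarith
    · have : θ / Real.pi ≤ 2 := by
        rw [div_le_iff₀ hpi]; exact hθ.2
      linarith
  · unfold Ec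
    congr 1
    field_simp
    ring

theorem Ec_inj {t s : ℝ} (ht : |t| ≤ 1) (hs : |s| ≤ 1) (h : Ec t = Ec s) :
    t = s ∨ (t = 1 ∧ s = -1) ∨ (t = -1 ∧ s = 1) := by
  have hpi := Real.pi_pos
  obtain ⟨m, hm⟩ := Circle.exp_eq_exp.1 h
  have h1 : t = s + 2 * m := by
    have : Real.pi * (t + 1) = Real.pi * (s + 1 + 2 * m) := by rw [hm]; ring
    have := mul_left_cancel₀ hpi.ne' this
    linarith
  rw [abs_le] at ht hs
  have h2 : (m : ℝ) ≤ 1 := by linarith [ht.2, hs.1]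
  have h3 : (-1 : ℝ) ≤ m := by linarith [ht.1, hs.2]
  have h2' : m ≤ 1 := by exact_mod_cast h2
  have h3' : -1 ≤ m := by exact_mod_cast h3
  have h4 : m = -1 ∨ m = 0 ∨ m = 1 := by omega
  rcases h4 with rfl | rfl | rfl
  · right; right
    push_cast at h1
    constructor <;> linarith [ht.1, hs.2]
  · left
    simpa using h1
  · right; left
    push_cast at h1
    constructor <;> linarith [ht.2, hs.1]

theorem Ec_one : Ec 1 = 1 := by
  unfold Ec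
  have : Real.pi * (1 + 1) = 2 * Real.pi := by ring
  rw [this, Circle.exp_two_pi]

theorem Ec_neg_one : Ec (-1) = 1 := by
  unfold Ec
  simp

theorem Ec_zero : Ec 0 = -1 := by
  unfold Ec
  rw [zero_add, mul_one, exp_pi]

/-! ### The pieces -/

/-- The set `‖w‖ = 1`, `(z, w)` not in the interior of the window. -/
def Hβ : Set Y0 := {y | ‖(y.2 : ℂ × ℝ).1‖ = 1 ∧
  ((y.1 : ℂ).re ≤ 0 ∨ (y.2 : ℂ × ℝ).1.re ≤ √2 / 2)}

/-- The closure of the complement of `Hβ`. -/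
def Hα : Set Y0 := {y | |(y.2 : ℂ × ℝ).2| = 1 ∨
  (‖(y.2 : ℂ × ℝ).1‖ = 1 ∧ 0 ≤ (y.1 : ℂ).re ∧ √2 / 2 ≤ (y.2 : ℂ × ℝ).1.re)}

theorem sph_cases (s : Sph) : ‖(s : ℂ × ℝ).1‖ ≤ 1 ∧ |(s : ℂ × ℝ).2| ≤ 1 ∧
    (‖(s : ℂ × ℝ).1‖ = 1 ∨ |(s : ℂ × ℝ).2| = 1) := by
  have h := mem_sph.1 s.2
  refine ⟨(le_max_left _ _).trans h.le, (le_max_right _ _).trans h.le, ?_⟩
  rcases max_choice ‖(s : ℂ × ℝ).1‖ |(s : ℂ × ℝ).2| with h' | h'
  · left; rw [← h', h]
  · right; rw [← h', h]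

theorem Hα_union_Hβ : Hα ∪ Hβ = univ := by
  apply eq_univ_of_forall
  intro y
  obtain ⟨h1, h2, h3⟩ := sph_cases y.2
  rcases h3 with h3 | h3
  · by_cases h4 : (y.1 : ℂ).re ≤ 0 ∨ (y.2 : ℂ × ℝ).1.re ≤ √2 / 2
    · right; exact ⟨h3, h4⟩
    · push Not at h4
      left; right
      exact ⟨h3, h4.1.le, h4.2.le⟩
  · left; left; exact h3

end

end Pool.Agent.H72.Tri
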