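import Pool.Agent.H72.Tri.Model2

/-!
# The handlebody `H_α`
-/

open Set Topology Metric

namespace Pool.Agent.H72.Tri

noncomputable section

/-! ### The radial homeomorphism from the square to the round disc -/

/-- the complex number `w.1 + i w.2` -/
def cplx (w : ℝ × ℝ) : ℂ := ⟨w.1, w.2⟩

theorem continuous_cplx : Continuous cplx := by
  have : cplx = fun w : ℝ × ℝ => (w.1 : ℂ) + (w.2 : ℂ) * Complex.I := by
    funext w
    apply Complex.ext <;> simp [cplx]
  rw [this]
  fun_prop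

/-- the sup norm -/
def Nm (w : ℝ × ℝ) : ℝ := max |w.1| |w.2|

theorem Nm_pos {w : ℝ × ℝ} (h : w ≠ 0) : 0 < Nm w := by
  by_contra hcon
  push Not at hcon
  unfold Nm at hcon
  rw [max_le_iff] at hcon
  exact h (Prod.ext (abs_nonpos_iff.1 hcon.1) (abs_nonpos_iff.1 hcon.2))

theorem cplx_pos {w : ℝ × ℝ} (h : w ≠ 0) : 0 < ‖cplx w‖ := by
  rw [norm_pos_iff]
  intro h'
  apply h
  have h1 := congrArg Complex.re h'
  have h2 := congrArg Complex.im h'
  exact Prod.ext h1 h2

/-- the radial map from the square to the round disc -/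
def radC (w : ℝ × ℝ) : ℂ := ((Nm w / ‖cplx w‖ : ℝ) : ℂ) * cplx w

theorem norm_radC (w : ℝ × ℝ) : ‖radC w‖ = Nm w := by
  by_cases h : w = 0
  · subst h
    simp [radC, Nm]
  · have h1 := Nm_pos h
    have h2 := cplx_pos h
    unfold radC
    rw [norm_mul, Complex.norm_real, Real.norm_of_nonneg (by positivity)]
    field_simp

theorem continuous_Nm : Continuous Nm := by unfold Nm; fun_prop

theorem continuous_radC : Continuous radC := by
  rw [continuous_iff_continuousAt]
  intro w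
  by_cases h : w = 0
  · subst h
    have h0 : radC 0 = 0 := by simp [radC, Nm]
    rw [ContinuousAt, h0, tendsto_zero_iff_norm_tendsto_zero]
    simp only [norm_radC]
    have h1 := continuous_Nm.tendsto 0
    have h2 : Nm 0 = 0 := by simp [Nm]
    rwa [h2] at h1
  · have h2 := cplx_pos h
    unfold radC
    refine ContinuousAt.mul ?_ continuous_cplx.continuousAt
    exact Complex.continuous_ofReal.continuousAt.comp
      (continuous_Nm.continuousAt.div continuous_cplx.norm.continuousAt h2.ne')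

theorem radC_re (w : ℝ × ℝ) : (radC w).re = Nm w / ‖cplx w‖ * w.1 := by
  unfold radC
  rw [Complex.re_ofReal_mul]
  rfl

theorem radC_im (w : ℝ × ℝ) : (radC w).im = Nm w / ‖cplx w‖ * w.2 := by
  unfold radC
  rw [Complex.im_ofReal_mul]
  rfl

theorem Nm_smul {t : ℝ} (ht : 0 ≤ t) (w : ℝ × ℝ) : Nm (t * w.1, t * w.2) = t * Nm w := by
  unfold Nm
  simp only [abs_mul, abs_of_nonneg ht]
  rw [mul_max_of_nonneg _ _ ht]

theorem cplx_smul (t : ℝ) (w : ℝ × ℝ) : cplx (t * w.1, t * w.2) = (t : ℂ) * cplx w := by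
  apply Complex.ext
  · rw [Complex.re_ofReal_mul]; rfl
  · rw [Complex.im_ofReal_mul]; rfl

/-- the inverse of `radC` -/
def radCi (z : ℂ) : ℝ × ℝ := (‖z‖ / Nm (z.re, z.im) * z.re, ‖z‖ / Nm (z.re, z.im) * z.im)

theorem radC_radCi (z : ℂ) : radC (radCi z) = z := by
  by_cases h : z = 0
  · subst h
    simp [radC, radCi, cplx]
    exact Or.inr rfl
  · have hz : ((z.re, z.im) : ℝ × ℝ) ≠ 0 := by
      intro h'
      apply h
      have h1 := congrArg Prod.fst h'
      have h2 := congrArg Prod.snd h'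
      exact Complex.ext h1 h2
    have h1 := Nm_pos hz
    have h2 : 0 < ‖z‖ := norm_pos_iff.2 h
    have h3 : 0 ≤ ‖z‖ / Nm (z.re, z.im) := by positivity
    have h4 : cplx (z.re, z.im) = z := Complex.ext rfl rfl
    unfold radC radCi
    rw [Nm_smul h3 (z.re, z.im), cplx_smul _ (z.re, z.im), h4, norm_mul, Complex.norm_real,
      Real.norm_of_nonneg h3, ← mul_assoc, ← Complex.ofReal_mul]
    have : ‖z‖ / Nm (z.re, z.im) * Nm (z.re, z.im) / (‖z‖ / Nm (z.re, z.im) * ‖z‖) *
        (‖z‖ / Nm (z.re, z.im)) = 1 := by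
      field_simp
    rw [this]
    simp

theorem Nm_radCi (z : ℂ) : Nm (radCi z) = ‖z‖ := by
  rw [← norm_radC, radC_radCi]

theorem radCi_radC (w : ℝ × ℝ) : radCi (radC w) = w := by
  by_cases h : w = 0
  · subst h
    simp [radC, radCi, Nm]
  · have h1 := Nm_pos h
    have h2 := cplx_pos h
    have h3 : 0 ≤ Nm w / ‖cplx w‖ := by positivity
    unfold radCi
    rw [norm_radC, radC_re, radC_im, Nm_smul h3]
    apply Prod.ext
    · simp only
      field_simp
    · simp only
      field_simp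

theorem radC_inj {w w' : ℝ × ℝ} (h : radC w = radC w') : w = w' := by
  rw [← radCi_radC w, ← radCi_radC w', h]

theorem norm_cplx_sq (w : ℝ × ℝ) : ‖cplx w‖ ^ 2 = w.1 ^ 2 + w.2 ^ 2 := by
  rw [← Complex.normSq_eq_norm_sq, Complex.normSq_apply]
  simp only [cplx]
  ring

theorem ne_zero_of_Nm {w : ℝ × ℝ} (h : Nm w = 1) : w ≠ 0 := by
  rintro rfl
  simp [Nm] at h

theorem le_re_radC {w : ℝ × ℝ} (h : Nm w = 1) : √2 / 2 ≤ (radC w).re ↔ |w.2| ≤ w.1 := by
  have h2 := cplx_pos (ne_zero_of_Nm h)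
  rw [radC_re, h, one_div, inv_mul_eq_div, le_div_iff₀ h2]
  have hs : (√2 / 2 * ‖cplx w‖) ^ 2 = (w.1 ^ 2 + w.2 ^ 2) / 2 := by
    rw [mul_pow, norm_cplx_sq, div_pow, Real.sq_sqrt (by norm_num)]
    ring
  have hnn : 0 ≤ √2 / 2 * ‖cplx w‖ := by positivity
  constructor
  · intro h3
    have h4 : 0 ≤ w.1 := hnn.trans h3
    have h5 : (√2 / 2 * ‖cplx w‖) ^ 2 ≤ w.1 ^ 2 := pow_le_pow_left₀ hnn h3 2
    rw [hs] at h5
    have h6 : w.2 ^ 2 ≤ w.1 ^ 2 := by linarith
    have := sq_le_sq.1 h6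
    rwa [abs_of_nonneg h4] at this
  · intro h3
    have h4 : 0 ≤ w.1 := (abs_nonneg _).trans h3
    have h5 : w.2 ^ 2 ≤ w.1 ^ 2 := sq_le_sq.2 (by rwa [abs_of_nonneg h4])
    have h6 : (√2 / 2 * ‖cplx w‖) ^ 2 ≤ w.1 ^ 2 := by rw [hs]; linarith
    have := sq_le_sq.1 h6
    rwa [abs_of_nonneg h4, abs_of_nonneg hnn] at this

theorem re_radC_le {w : ℝ × ℝ} (h : Nm w = 1) : (radC w).re ≤ √2 / 2 ↔ w.1 ≤ |w.2| := by
  have h2 := cplx_pos (ne_zero_of_Nm h)
  rw [radC_re, h, one_div, inv_mul_eq_div, div_le_iff₀ h2]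
  have hs : (√2 / 2 * ‖cplx w‖) ^ 2 = (w.1 ^ 2 + w.2 ^ 2) / 2 := by
    rw [mul_pow, norm_cplx_sq, div_pow, Real.sq_sqrt (by norm_num)]
    ring
  have hnn : 0 ≤ √2 / 2 * ‖cplx w‖ := by positivity
  constructor
  · intro h3
    rcases le_total w.1 0 with h4 | h4
    · exact h4.trans (abs_nonneg _)
    · have h5 : w.1 ^ 2 ≤ (√2 / 2 * ‖cplx w‖) ^ 2 := pow_le_pow_left₀ h4 h3 2
      rw [hs] at h5
      have h6 : w.1 ^ 2 ≤ w.2 ^ 2 := by linarith
      have := sq_le_sq.1 h6
      rwa [abs_of_nonneg h4] at this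
  · intro h3
    rcases le_total w.1 0 with h4 | h4
    · exact h4.trans hnn
    · have h5 : w.1 ^ 2 ≤ w.2 ^ 2 := sq_le_sq.2 (by rwa [abs_of_nonneg h4])
      have h6 : w.1 ^ 2 ≤ (√2 / 2 * ‖cplx w‖) ^ 2 := by rw [hs]; linarith
      have := sq_le_sq.1 h6
      rwa [abs_of_nonneg h4, abs_of_nonneg hnn] at this

/-! ### The body -/

/-- the gauge of the body; the coordinates are `(x, a, b)` -/
def gα (v : ℝ × ℝ × ℝ) : ℝ :=
  max (max |v.2.2| |v.1|)
    (max (min (2 * |v.1|) (4 * |v.1| - |v.2.1|)) (min (|v.2.1| / 3) (|v.2.1| - 4 * |v.1|)))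

theorem gα_le {v : ℝ × ℝ × ℝ} : gα v ≤ 1 ↔ |v.2.2| ≤ 1 ∧ |v.1| ≤ 1 ∧
    (|v.1| ≤ 1 / 2 ∨ 4 * |v.1| - |v.2.1| ≤ 1) ∧ (|v.2.1| ≤ 3 ∨ |v.2.1| - 4 * |v.1| ≤ 1) := by
  unfold gα
  rw [max_le_iff, max_le_iff, max_le_iff, min_le_iff, min_le_iff]
  have e1 : 2 * |v.1| ≤ 1 ↔ |v.1| ≤ 1 / 2 := by constructor <;> intro h <;> linarith
  have e2 : |v.2.1| / 3 ≤ 1 ↔ |v.2.1| ≤ 3 := by constructor <;> intro h <;> linarith
  rw [e1, e2, and_assoc]

theorem le_gα {v : ℝ × ℝ × ℝ} : 1 ≤ gα v ↔ 1 ≤ |v.2.2| ∨ 1 ≤ |v.1| ∨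
    (1 / 2 ≤ |v.1| ∧ 1 ≤ 4 * |v.1| - |v.2.1|) ∨ (3 ≤ |v.2.1| ∧ 1 ≤ |v.2.1| - 4 * |v.1|) := by
  unfold gα
  rw [le_max_iff, le_max_iff, le_max_iff, le_min_iff, le_min_iff]
  have e1 : 1 ≤ 2 * |v.1| ↔ 1 / 2 ≤ |v.1| := by constructor <;> intro h <;> linarith
  have e2 : 1 ≤ |v.2.1| / 3 ↔ 3 ≤ |v.2.1| := by constructor <;> intro h <;> linarith
  rw [e1, e2, or_assoc]

theorem isGauge_gα : IsGauge gα where
  cont := by unfold gα; fun_prop
  pos := by
    intro v hv
    by_contra hcon
    push Not at hcon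
    unfold gα at hcon
    rw [max_le_iff, max_le_iff, max_le_iff, min_le_iff, min_le_iff] at hcon
    obtain ⟨⟨h1, h2⟩, -, h3⟩ := hcon
    apply hv
    have e1 := abs_nonpos_iff.1 h1
    have e2 := abs_nonpos_iff.1 h2
    have e3 : |v.2.1| ≤ 0 := by
      rw [e2] at h3
      simp only [abs_zero, mul_zero, sub_zero] at h3
      rcases h3 with h | h
      · linarith
      · exact h
    exact Prod.ext e2 (Prod.ext (abs_nonpos_iff.1 e3) e1)
  smul := by
    intro t v ht
    unfold gα
    simp only [Prod.smul_fst, Prod.smul_snd, smul_eq_mul, abs_mul, abs_of_nonneg ht]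
    rw [mul_max_of_nonneg _ _ ht, mul_max_of_nonneg _ _ ht, mul_max_of_nonneg _ _ ht,
      mul_min_of_nonneg _ _ ht, mul_min_of_nonneg _ _ ht]
    congr 3 <;> ring

/-- clamping to `[-1, 1]` -/
def clamp (a : ℝ) : ℝ := max (-1) (min 1 a)

theorem continuous_clamp : Continuous clamp := by unfold clamp; fun_prop

theorem abs_clamp (a : ℝ) : |clamp a| ≤ 1 := by
  unfold clamp
  rw [abs_le]
  constructor
  · exact le_max_left _ _
  · exact max_le (by norm_num) (min_le_left _ _)

theorem clamp_of_abs {a : ℝ} (h : |a| ≤ 1) : clamp a = a := by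
  rw [abs_le] at h
  unfold clamp
  rw [min_eq_right h.2, max_eq_right h.1]

theorem clamp_of_ge {a : ℝ} (h : 1 ≤ a) : clamp a = 1 := by
  unfold clamp
  rw [min_eq_left h, max_eq_right (by norm_num)]

theorem clamp_of_le {a : ℝ} (h : a ≤ -1) : clamp a = -1 := by
  unfold clamp
  rw [min_eq_right (by linarith), max_eq_left h]

/-- the shift -/
def kk (x : ℝ) : ℝ := max 0 (4 * |x| - 2)

theorem kk_small {x : ℝ} (h : |x| ≤ 1 / 2) : kk x = 0 := by
  unfold kk; exact max_eq_left (by linarith)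
theorem kk_large {x : ℝ} (h : 1 / 2 ≤ |x|) : kk x = 4 * |x| - 2 := by
  unfold kk; exact max_eq_right (by linarith)
theorem kk_nonneg (x : ℝ) : 0 ≤ kk x := le_max_left _ _

/-- the straightened coordinate `c` -/
def cc (v : ℝ × ℝ × ℝ) : ℝ := v.2.1 - clamp v.2.1 * kk v.1

theorem continuous_cc : Continuous cc := by
  have h1 : Continuous kk := by unfold kk; fun_prop
  unfold cc
  exact (by fun_prop : Continuous fun v : ℝ × ℝ × ℝ => v.2.1).sub
    ((continuous_clamp.comp (by fun_prop)).mul (h1.comp (by fun_prop)))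

/-- the inverse of straightening -/
def aa (x c : ℝ) : ℝ := c + clamp c * kk x

/-- properties of the straightened coordinate -/
theorem cc_props {v : ℝ × ℝ × ℝ} (hv : gα v ≤ 1) :
    |cc v| ≤ 3 ∧ (|v.1| ≤ 1 / 2 ∨ 1 ≤ |cc v|) ∧ aa v.1 (cc v) = v.2.1 ∧
    |v.2.1| = |cc v| + kk v.1 := by
  obtain ⟨h1, h2, h3, h4⟩ := gα_le.1 hv
  rcases le_total |v.1| (1/2) with h | h
  · have hk := kk_small h
    have hc : cc v = v.2.1 := by unfold cc; rw [hk]; ring
    rw [hc, hk]
    refine ⟨?_, Or.inl h, ?_, by ring⟩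
    · rcases h4 with h4 | h4
      · exact h4
      · linarith
    · unfold aa; rw [hk]; ring
  · have hk := kk_large h
    have ha : 4 * |v.1| - 1 ≤ |v.2.1| ∨ |v.1| = 1 / 2 := by
      rcases h3 with h3 | h3
      · right; linarith
      · left; linarith
    rcases ha with ha | ha
    · have ha1 : 1 ≤ |v.2.1| := by linarith
      have ha3 : |v.2.1| ≤ 4 * |v.1| + 1 := by
        rcases h4 with h4 | h4 <;> linarith
      rcases le_total 0 v.2.1 with h0 | h0
      · have e0 : |v.2.1| = v.2.1 := abs_of_nonneg h0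
        rw [e0] at ha ha1 ha3
        have hcl : clamp v.2.1 = 1 := clamp_of_ge ha1
        have hc : cc v = v.2.1 - (4 * |v.1| - 2) := by unfold cc; rw [hcl, hk]; ring
        have hc1 : 1 ≤ cc v := by rw [hc]; linarith
        have hc2 : |cc v| = cc v := abs_of_nonneg (by linarith)
        rw [hc2, e0]
        refine ⟨by rw [hc]; linarith, Or.inr hc1, ?_, by rw [hc, hk]; ring⟩
        unfold aa
        rw [clamp_of_ge hc1, hk, hc]
        ring
      · have e0 : |v.2.1| = -v.2.1 := abs_of_nonpos h0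
        rw [e0] at ha ha1 ha3
        have hcl : clamp v.2.1 = -1 := clamp_of_le (by linarith)
        have hc : cc v = v.2.1 + (4 * |v.1| - 2) := by unfold cc; rw [hcl, hk]; ring
        have hc1 : cc v ≤ -1 := by rw [hc]; linarith
        have hc2 : |cc v| = -cc v := abs_of_nonpos (by linarith)
        rw [hc2, e0]
        refine ⟨by rw [hc]; linarith, Or.inr (by linarith), ?_, by rw [hc, hk]; ring⟩
        unfold aa
        rw [clamp_of_le hc1, hk, hc]
        ring
    · have hk0 := kk_small ha.le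
      have hc : cc v = v.2.1 := by unfold cc; rw [hk0]; ring
      rw [hc, hk0]
      refine ⟨?_, Or.inl ha.le, ?_, by ring⟩
      · rcases h4 with h4 | h4
        · exact h4
        · linarith
      · unfold aa; rw [hk0]; ring

theorem aa_props {x c b : ℝ} (hx : |x| ≤ 1) (hb : |b| ≤ 1) (hc : |c| ≤ 3)
    (h : |x| ≤ 1 / 2 ∨ 1 ≤ |c|) : gα (x, aa x c, b) ≤ 1 ∧ cc (x, aa x c, b) = c := by
  have hkn := kk_nonneg x
  rcases le_total |x| (1/2) with h1 | h1
  · have hk := kk_small h1
    have ha : aa x c = c := by unfold aa; rw [hk]; ring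
    rw [ha]
    refine ⟨gα_le.2 ⟨hb, hx, Or.inl h1, Or.inl hc⟩, ?_⟩
    unfold cc
    simp only
    rw [hk]; ring
  · have hk := kk_large h1
    rcases h with h | h
    · have hk0 := kk_small h
      have ha : aa x c = c := by unfold aa; rw [hk0]; ring
      rw [ha]
      refine ⟨gα_le.2 ⟨hb, hx, Or.inl h, Or.inl hc⟩, ?_⟩
      unfold cc
      simp only
      rw [hk0]; ring
    · rcases le_total 0 c with h0 | h0
      · have e0 : |c| = c := abs_of_nonneg h0
        rw [e0] at h hc
        have ha : aa x c = c + (4 * |x| - 2) := by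
          unfold aa; rw [hk, clamp_of_ge h]; ring
        have ha1 : 1 ≤ aa x c := by rw [ha]; linarith
        have e1 : |aa x c| = c + (4 * |x| - 2) := by rw [abs_of_nonneg (by linarith), ha]
        refine ⟨gα_le.2 ⟨hb, hx, Or.inr ?_, Or.inr ?_⟩, ?_⟩
        · simp only; rw [e1]; linarith
        · simp only; rw [e1]; linarith
        · unfold cc
          simp only
          rw [clamp_of_ge ha1, hk, ha]
          ring
      · have e0 : |c| = -c := abs_of_nonpos h0
        rw [e0] at h hc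
        have hc1 : c ≤ -1 := by linarith
        have ha : aa x c = c - (4 * |x| - 2) := by
          unfold aa; rw [hk, clamp_of_le hc1]; ring
        have ha1 : aa x c ≤ -1 := by rw [ha]; linarith
        have e1 : |aa x c| = -c + (4 * |x| - 2) := by rw [abs_of_nonpos (by linarith), ha]; ring
        refine ⟨gα_le.2 ⟨hb, hx, Or.inr ?_, Or.inr ?_⟩, ?_⟩
        · simp only; rw [e1]; linarith
        · simp only; rw [e1]; linarith
        · unfold cc
          simp only
          rw [clamp_of_le ha1, hk, ha]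
          ring

/-- the square coordinates of the point of the sphere -/
def ww (c b : ℝ) : ℝ × ℝ := (min 1 (2 - |c|), b)

theorem ww_mem {c b : ℝ} (hc : |c| ≤ 3) (hb : |b| ≤ 1) : Nm (ww c b) ≤ 1 := by
  unfold Nm ww
  refine max_le ?_ hb
  rw [abs_le]
  constructor
  · exact le_min (by norm_num) (by linarith)
  · exact min_le_left _ _

/-- the point of the sphere -/
def sp (c b : ℝ) : ℂ × ℝ := (radC (ww c b), clamp c)

theorem continuous_sp : Continuous fun p : ℝ × ℝ => sp p.1 p.2 := by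
  unfold sp ww
  exact (continuous_radC.comp (by fun_prop)).prodMk (continuous_clamp.comp continuous_fst)

theorem abs_clamp_of_ge {c : ℝ} (h : 1 ≤ |c|) : |clamp c| = 1 := by
  rcases le_total 0 c with h0 | h0
  · rw [abs_of_nonneg h0] at h
    rw [clamp_of_ge h, abs_one]
  · rw [abs_of_nonpos h0] at h
    rw [clamp_of_le (by linarith), abs_neg, abs_one]

theorem Nm_ww_of_le {c b : ℝ} (hc : |c| ≤ 1) (hb : |b| ≤ 1) : Nm (ww c b) = 1 := by
  unfold Nm ww
  simp only
  rw [min_eq_left (by linarith), abs_one]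
  exact max_eq_left hb

theorem sp_mem {c b : ℝ} (hc : |c| ≤ 3) (hb : |b| ≤ 1) : sp c b ∈ sphere (0 : ℂ × ℝ) 1 := by
  rcases le_total |c| 1 with h | h
  · exact mem_sph_of (by rw [norm_radC, Nm_ww_of_le h hb]) (abs_clamp c)
  · exact mem_sph_of' (by rw [norm_radC]; exact ww_mem hc hb) (abs_clamp_of_ge h)

theorem sp_inj {c b c' b' : ℝ} (h : sp c b = sp c' b') : c = c' ∧ b = b' := by
  unfold sp at h
  simp only [Prod.mk.injEq] at h
  obtain ⟨h1, h2⟩ := h
  have h3 := radC_inj h1
  unfold ww at h3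
  simp only [Prod.mk.injEq] at h3
  obtain ⟨h4, h5⟩ := h3
  refine ⟨?_, h5⟩
  unfold clamp at h2
  rcases le_total 0 c with c0 | c0 <;> rcases le_total 0 c' with c0' | c0'
  · rw [abs_of_nonneg c0, abs_of_nonneg c0'] at h4
    rcases le_total c 1 with c1 | c1 <;> rcases le_total c' 1 with c1' | c1'
    · rw [min_eq_right c1, min_eq_right c1', max_eq_right (by linarith),
        max_eq_right (by linarith)] at h2
      exact h2
    · rw [min_eq_left (by linarith), min_eq_right (by linarith)] at h4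
      rw [min_eq_right c1, min_eq_left c1', max_eq_right (by linarith),
        max_eq_right (by linarith)] at h2
      linarith
    · rw [min_eq_right (by linarith), min_eq_left (by linarith)] at h4
      rw [min_eq_left c1, min_eq_right c1', max_eq_right (by linarith),
        max_eq_right (by linarith)] at h2
      linarith
    · rw [min_eq_right (by linarith), min_eq_right (by linarith)] at h4
      linarith
  · -- c ≥ 0, c' ≤ 0
    have e1 : 0 ≤ max (-1) (min 1 c) := le_max_of_le_right (le_min (by norm_num) c0)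
    have e2 : max (-1) (min 1 c') ≤ 0 := max_le (by norm_num) ((min_le_right _ _).trans c0')
    have e3 : max (-1) (min 1 c) = 0 := le_antisymm (h2 ▸ e2) e1
    have e4 : max (-1) (min 1 c') = 0 := h2 ▸ e3
    have f1 : c ≤ 0 := by
      by_contra hcon
      push Not at hcon
      have : 0 < max (-1) (min 1 c) := lt_max_of_lt_right (lt_min (by norm_num) hcon)
      linarith
    have f2 : 0 ≤ c' := by
      by_contra hcon
      push Not at hcon
      have : max (-1) (min 1 c') < 0 := max_lt (by norm_num) (min_lt_of_right_lt hcon)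
      linarith
    linarith
  · have e1 : 0 ≤ max (-1) (min 1 c') := le_max_of_le_right (le_min (by norm_num) c0')
    have e2 : max (-1) (min 1 c) ≤ 0 := max_le (by norm_num) ((min_le_right _ _).trans c0)
    have e3 : max (-1) (min 1 c) = 0 := le_antisymm e2 (h2 ▸ e1)
    have e4 : max (-1) (min 1 c') = 0 := h2 ▸ e3
    have f1 : 0 ≤ c := by
      by_contra hcon
      push Not at hcon
      have : max (-1) (min 1 c) < 0 := max_lt (by norm_num) (min_lt_of_right_lt hcon)
      linarith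
    have f2 : c' ≤ 0 := by
      by_contra hcon
      push Not at hcon
      have : 0 < max (-1) (min 1 c') := lt_max_of_lt_right (lt_min (by norm_num) hcon)
      linarith
    linarith
  · rw [abs_of_nonpos c0, abs_of_nonpos c0'] at h4
    rw [min_eq_right (by linarith), min_eq_right (by linarith)] at h2
    rcases le_total (-1) c with c1 | c1 <;> rcases le_total (-1) c' with c1' | c1'
    · rw [max_eq_right c1, max_eq_right c1'] at h2
      exact h2
    · rw [min_eq_left (by linarith), min_eq_right (by linarith)] at h4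
      rw [max_eq_right c1, max_eq_left c1'] at h2
      linarith
    · rw [min_eq_right (by linarith), min_eq_left (by linarith)] at h4
      rw [max_eq_left c1, max_eq_right c1'] at h2
      linarith
    · rw [min_eq_right (by linarith), min_eq_right (by linarith)] at h4
      linarith

/-- the quotient map -/
def Qα (v : ℝ × ℝ × ℝ) : Y0 := (-Ec v.1, mk (sp (cc v) v.2.2))

theorem cont_Qα : ContinuousOn Qα {v | gα v ≤ 1} := by
  unfold Qα
  refine ContinuousOn.prodMk ?_ ?_
  · exact (continuous_Ec.comp continuous_fst).neg.continuousOn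
  · refine contOn_mk ?_ ?_
    · exact (continuous_sp.comp (continuous_cc.prodMk (by fun_prop))).continuousOn
    · intro v hv
      exact sp_mem (cc_props hv).1 (gα_le.1 hv).1

/-- the faces -/
def fα (a : Fin 2 × Bool) (v : ℝ × ℝ) : ℝ × ℝ × ℝ :=
  (sg a.2, (if a.1 = 0 then 4 + v.1 else -4 - v.1), v.2)

theorem fα_zero (b : Bool) (v : ℝ × ℝ) : fα (0, b) v = (sg b, 4 + v.1, v.2) := rfl
theorem fα_one (b : Bool) (v : ℝ × ℝ) : fα (1, b) v = (sg b, -4 - v.1, v.2) := rfl

theorem cont_fα (a : Fin 2 × Bool) : ContinuousOn (fα a) disc := by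
  obtain ⟨i, b⟩ := a
  rcases fin2_cases i with rfl | rfl
  · have : fα (0, b) = fun v => (sg b, 4 + v.1, v.2) := funext fun v => fα_zero b v
    rw [this]; fun_prop
  · have : fα (1, b) = fun v => (sg b, -4 - v.1, v.2) := funext fun v => fα_one b v
    rw [this]; fun_prop

theorem abs_fα {a : Fin 2 × Bool} {v : ℝ × ℝ} (hv : |v.1| ≤ 1) :
    |(fα a v).2.1| = 4 + v.1 := by
  obtain ⟨i, b⟩ := a
  rw [abs_le] at hv
  rcases fin2_cases i with rfl | rfl
  · rw [fα_zero]
    exact abs_of_nonneg (by simp only; linarith)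
  · rw [fα_one]
    simp only
    rw [abs_of_nonpos (by linarith)]
    ring

theorem maps_fα (a : Fin 2 × Bool) (v : ℝ × ℝ) (hv : v ∈ disc) : gα (fα a v) = 1 := by
  obtain ⟨h1, h2⟩ := mem_disc.1 hv
  have h3 := abs_fα (a := a) h1
  have h4 : |(fα a v).1| = 1 := abs_sg _
  rw [abs_le] at h1
  apply le_antisymm
  · rw [gα_le, h3, h4]
    exact ⟨h2, le_rfl, Or.inr (by linarith), Or.inr (by linarith)⟩
  · rw [le_gα]
    right; left
    exact h4.ge

theorem inj_fα (a b : Fin 2 × Bool) (v w : ℝ × ℝ) (hv : v ∈ disc) (hw : w ∈ disc)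
    (h : fα a v = fα b w) : a = b ∧ v = w := by
  obtain ⟨i, c⟩ := a
  obtain ⟨j, d⟩ := b
  obtain ⟨h1, h2⟩ := mem_disc.1 hv
  obtain ⟨h3, h4⟩ := mem_disc.1 hw
  rw [abs_le] at h1 h3
  rcases fin2_cases i with rfl | rfl <;> rcases fin2_cases j with rfl | rfl
  · rw [fα_zero, fα_zero] at h
    simp only [Prod.mk.injEq] at h
    obtain ⟨e1, e2, e3⟩ := h
    exact ⟨by rw [sg_inj e1], Prod.ext (by linarith) e3⟩
  · exfalso
    rw [fα_zero, fα_one] at h
    simp only [Prod.mk.injEq] at h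
    obtain ⟨e1, e2, e3⟩ := h
    linarith [h1.1, h3.1]
  · exfalso
    rw [fα_zero, fα_one] at h
    simp only [Prod.mk.injEq] at h
    obtain ⟨e1, e2, e3⟩ := h
    linarith [h1.1, h3.1]
  · rw [fα_one, fα_one] at h
    simp only [Prod.mk.injEq] at h
    obtain ⟨e1, e2, e3⟩ := h
    exact ⟨by rw [sg_inj e1], Prod.ext (by linarith) e3⟩

theorem open_fα (a : Fin 2 × Bool) :
    ∃ U : Set (ℝ × ℝ × ℝ), IsOpen U ∧ fα a '' discInt = U ∩ {v | gα v = 1} := by
  obtain ⟨i, b⟩ := a
  have hi : ∃ σ : ℝ, (σ = 1 ∨ σ = -1) ∧ ∀ v : ℝ × ℝ, fα (i, b) v = (sg b, σ * (4 + v.1), v.2) := by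
    rcases fin2_cases i with rfl | rfl
    · exact ⟨1, Or.inl rfl, fun v => by rw [fα_zero, one_mul]⟩
    · exact ⟨-1, Or.inr rfl, fun v => by rw [fα_one]; congr 2; ring⟩
  obtain ⟨σ, hσ, hf⟩ := hi
  have hσ2 : σ * σ = 1 := by rcases hσ with rfl | rfl <;> norm_num
  have hσa : |σ| = 1 := by rcases hσ with rfl | rfl <;> simp
  refine ⟨{v | 0 < sg b * v.1 ∧ 0 < σ * v.2.1 ∧ 4 * |v.1| - |v.2.1| < 1 ∧
    |v.2.1| - 4 * |v.1| < 1 ∧ |v.2.2| < 1}, ?_, ?_⟩
  · have o1 : IsOpen {v : ℝ × ℝ × ℝ | 0 < sg b * v.1} :=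
      isOpen_lt continuous_const (by fun_prop)
    have o2 : IsOpen {v : ℝ × ℝ × ℝ | 0 < σ * v.2.1} :=
      isOpen_lt continuous_const (by fun_prop)
    have o3 : IsOpen {v : ℝ × ℝ × ℝ | 4 * |v.1| - |v.2.1| < 1} :=
      isOpen_lt (by fun_prop) continuous_const
    have o4 : IsOpen {v : ℝ × ℝ × ℝ | |v.2.1| - 4 * |v.1| < 1} :=
      isOpen_lt (by fun_prop) continuous_const
    have o5 : IsOpen {v : ℝ × ℝ × ℝ | |v.2.2| < 1} :=
      isOpen_lt (by fun_prop) continuous_const
    exact o1.inter (o2.inter (o3.inter (o4.inter o5)))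
  · ext x
    simp only [mem_image, mem_inter_iff, mem_ofPred_eq]
    constructor
    · rintro ⟨v, hv, rfl⟩
      obtain ⟨h1, h2⟩ := mem_discInt.1 hv
      rw [maps_fα _ _ (discInt_subset hv), hf]
      rw [abs_lt] at h1
      have e1 : |σ * (4 + v.1)| = 4 + v.1 := by
        rw [abs_mul, hσa, one_mul, abs_of_pos (by linarith)]
      simp only [sg_sq, and_true, abs_sg, e1]
      refine ⟨by norm_num, ?_, by linarith, by linarith, h2⟩
      rw [← mul_assoc, hσ2]
      linarith
    · rintro ⟨⟨h1, h2, h3, h3', h3''⟩, h4⟩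
      have h5 := gα_le.1 h4.le
      have h6 := le_gα.1 h4.ge
      have h7 : |x.1| = 1 := by
        rcases h6 with h | h | ⟨h, h'⟩ | ⟨h, h'⟩
        · linarith
        · exact le_antisymm h5.2.1 h
        · linarith
        · linarith
      rw [h7] at h3 h3'
      have h8 : |x.2.1| = σ * x.2.1 := by
        have := abs_mul σ x.2.1
        rw [hσa, one_mul, abs_of_pos h2] at this
        exact this.symm
      refine ⟨(|x.2.1| - 4, x.2.2), mem_discInt.2 ⟨?_, h3''⟩, ?_⟩
      · simp only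
        rw [abs_lt]
        constructor <;> linarith
      · rw [hf, ← eq_sg_of h7 h1]
        simp only
        refine Prod.ext rfl (Prod.ext ?_ rfl)
        simp only
        rw [h8, add_sub_cancel, ← mul_assoc, hσ2, one_mul]

theorem Qα_coe {v : ℝ × ℝ × ℝ} (hv : gα v ≤ 1) : ((Qα v).2 : ℂ × ℝ) = sp (cc v) v.2.2 :=
  mk_coe (sp_mem (cc_props hv).1 (gα_le.1 hv).1)

theorem Qα_eq (x : ℝ × ℝ × ℝ) (hx : gα x ≤ 1) (y : ℝ × ℝ × ℝ) (hy : gα y ≤ 1) :
    Qα x = Qα y ↔ x = y ∨ ∃ i b v, v ∈ disc ∧ x = fα (i, b) v ∧ y = fα (i, !b) v := by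
  obtain ⟨x1, x2, x3, x4⟩ := gα_le.1 hx
  obtain ⟨y1, y2, y3, y4⟩ := gα_le.1 hy
  obtain ⟨cx1, cx2, cx3, cx4⟩ := cc_props hx
  obtain ⟨cy1, cy2, cy3, cy4⟩ := cc_props hy
  constructor
  · intro h
    have h1 : -Ec x.1 = -Ec y.1 := (Prod.mk.inj h).1
    have h1' : Ec x.1 = Ec y.1 := by simpa using h1
    have h2 : sp (cc x) x.2.2 = sp (cc y) y.2.2 := by
      rw [← Qα_coe hx, ← Qα_coe hy, h]
    obtain ⟨h3, h4⟩ := sp_inj h2
    have key : ∀ b : Bool, x.1 = sg b → y.1 = sg (!b) → ∃ i b v, v ∈ disc ∧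
        x = fα (i, b) v ∧ y = fα (i, !b) v := by
      intro b e1 e2
      have a1 : |x.1| = 1 := by rw [e1, abs_sg]
      have a2 : |y.1| = 1 := by rw [e2, abs_sg]
      have ex : x.2.1 = y.2.1 := by
        rw [← cx3, ← cy3, h3]
        unfold aa kk
        rw [a1, a2]
      rw [a1] at x3 x4
      have x3' : 3 ≤ |x.2.1| := by
        rcases x3 with h | h <;> linarith
      have x4' : |x.2.1| ≤ 5 := by
        rcases x4 with h | h <;> linarith
      rcases le_total 0 x.2.1 with h0 | h0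
      · have e0 : |x.2.1| = x.2.1 := abs_of_nonneg h0
        rw [e0] at x3' x4'
        refine ⟨0, b, (x.2.1 - 4, x.2.2), mem_disc.2 ⟨?_, x1⟩, ?_, ?_⟩
        · simp only
          rw [abs_le]
          constructor <;> linarith
        · rw [fα_zero]
          refine Prod.ext e1 (Prod.ext ?_ rfl)
          simp only
          ring
        · rw [fα_zero]
          refine Prod.ext e2 (Prod.ext ?_ h4.symm)
          simp only
          rw [← ex]
          ring
      · have e0 : |x.2.1| = -x.2.1 := abs_of_nonpos h0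
        rw [e0] at x3' x4'
        refine ⟨1, b, (-x.2.1 - 4, x.2.2), mem_disc.2 ⟨?_, x1⟩, ?_, ?_⟩
        · simp only
          rw [abs_le]
          constructor <;> linarith
        · rw [fα_one]
          refine Prod.ext e1 (Prod.ext ?_ rfl)
          simp only
          ring
        · rw [fα_one]
          refine Prod.ext e2 (Prod.ext ?_ h4.symm)
          simp only
          rw [← ex]
          ring
    rcases Ec_inj x2 y2 h1' with e | ⟨e, e'⟩ | ⟨e, e'⟩
    · left
      refine Prod.ext e (Prod.ext ?_ h4)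
      rw [← cx3, ← cy3, h3, e]
    · right; exact key true e e'
    · right; exact key false e e'
  · rintro (rfl | ⟨i, b, v, hv, rfl, rfl⟩)
    · rfl
    · have h1 : Ec (sg b) = Ec (sg !b) := by
        cases b
        · exact Ec_neg_one.trans Ec_one.symm
        · exact Ec_one.trans Ec_neg_one.symm
      have h2 : cc (fα (i, b) v) = cc (fα (i, !b) v) := by
        unfold cc kk
        simp only [fα, abs_sg]
      unfold Qα
      rw [h2]
      change (-Ec (sg b), _) = (-Ec (sg !b), _)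
      rw [h1]
      rfl

/-- the handlebody `H_α` -/
def dataα : GaugeData Y0 2 where
  g := gα
  hg := isGauge_gα
  Q := Qα
  f := fα
  cont_Q := cont_Qα
  cont_f := cont_fα
  maps_f := maps_fα
  inj_f := inj_fα
  open_f := open_fα
  Q_eq := Qα_eq

/-- the handlebody `H_α` -/
def Vα0 : Handlebody Y0 2 := dataα.toHandlebody

theorem neg_re (z : Circle) : ((-z : Circle) : ℂ).re = -(z : ℂ).re := rfl

theorem re_z_nonneg {x : ℝ} (hx : |x| ≤ 1) : 0 ≤ ((-Ec x : Circle) : ℂ).re ↔ |x| ≤ 1 / 2 := by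
  rw [neg_re, Left.nonneg_neg_iff, re_Ec_nonpos hx]

theorem re_z_nonpos {x : ℝ} (hx : |x| ≤ 1) : ((-Ec x : Circle) : ℂ).re ≤ 0 ↔ 1 / 2 ≤ |x| := by
  rw [neg_re, Left.neg_nonpos_iff, re_Ec_nonneg hx]

theorem exists_Qα {y : Y0} (hy : y ∈ Hα) : ∃ v, gα v ≤ 1 ∧ y = Qα v := by
  obtain ⟨z, s⟩ := y
  obtain ⟨x, hx, hxz⟩ := Ec_surj (-z)
  have hz : z = -Ec x := by rw [hxz, neg_neg]
  obtain ⟨s1, s2, s3⟩ := sph_cases s
  let w := radCi (s : ℂ × ℝ).1
  have hw : radC w = (s : ℂ × ℝ).1 := radC_radCi _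
  have hwN : Nm w = ‖(s : ℂ × ℝ).1‖ := Nm_radCi _
  have hw1 : |w.1| ≤ 1 := by
    have : |w.1| ≤ Nm w := le_max_left _ _
    linarith
  have hw2 : |w.2| ≤ 1 := by
    have : |w.2| ≤ Nm w := le_max_right _ _
    linarith
  have hw1' := abs_le.1 hw1
  rcases hy with hy | ⟨hy1, hy2, hy3⟩
  · -- the caps
    change |(s : ℂ × ℝ).2| = 1 at hy
    let c : ℝ := (s : ℂ × ℝ).2 * (2 - w.1)
    have hc : |c| = 2 - w.1 := by
      simp only [c, abs_mul, hy, one_mul]
      exact abs_of_nonneg (by linarith)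
    obtain ⟨h1, h2⟩ := aa_props hx hw2 (c := c) (by rw [hc]; linarith)
      (Or.inr (by rw [hc]; linarith))
    refine ⟨(x, aa x c, w.2), h1, Prod.ext hz ?_⟩
    apply Subtype.ext
    rw [Qα_coe h1, h2]
    unfold sp ww
    refine Prod.ext ?_ ?_
    · simp only
      rw [hc]
      have : min 1 (2 - (2 - w.1)) = w.1 := by
        rw [min_eq_right (by linarith)]; ring
      rw [this]
      exact hw.symm
    · simp only
      rcases (abs_eq (by norm_num : (0:ℝ) ≤ 1)).1 hy with e | e
      · have : c = 2 - w.1 := by simp only [c, e, one_mul]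
        rw [clamp_of_ge (by rw [this]; linarith), e]
      · have : c = -(2 - w.1) := by simp only [c, e]; ring
        rw [clamp_of_le (by rw [this]; linarith), e]
  · -- the bridge
    change ‖(s : ℂ × ℝ).1‖ = 1 at hy1
    change 0 ≤ (z : ℂ).re at hy2
    change √2 / 2 ≤ (s : ℂ × ℝ).1.re at hy3
    rw [hy1] at hwN
    rw [← hw, le_re_radC hwN] at hy3
    rw [hz, re_z_nonneg hx] at hy2
    have hw11 : w.1 = 1 := by
      rcases max_choice |w.1| |w.2| with h | h
      · have h' : |w.1| = 1 := by rw [← h]; exact hwN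
        rw [abs_of_nonneg ((abs_nonneg _).trans hy3)] at h'
        exact h'
      · have h' : |w.2| = 1 := by rw [← h]; exact hwN
        rw [h'] at hy3
        linarith
    obtain ⟨h1, h2⟩ := aa_props hx hw2 (c := (s : ℂ × ℝ).2) (by linarith) (Or.inl hy2)
    refine ⟨(x, aa x (s : ℂ × ℝ).2, w.2), h1, Prod.ext hz ?_⟩
    apply Subtype.ext
    rw [Qα_coe h1, h2]
    unfold sp ww
    refine Prod.ext ?_ ?_
    · simp only
      have : min 1 (2 - |(s : ℂ × ℝ).2|) = w.1 := by
        rw [min_eq_left (by linarith), hw11]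
      rw [this]
      exact hw.symm
    · simp only
      rw [clamp_of_abs s2]

theorem ww_one {c b : ℝ} (hc : |c| ≤ 1) : (ww c b).1 = 1 := by
  unfold ww
  exact min_eq_left (by linarith)

theorem Qα_mem {v : ℝ × ℝ × ℝ} (hv : gα v ≤ 1) : Qα v ∈ Hα := by
  obtain ⟨h1, h2, h3, h4⟩ := gα_le.1 hv
  obtain ⟨c1, c2, c3, c4⟩ := cc_props hv
  unfold Hα
  rw [mem_ofPred_eq, Qα_coe hv]
  by_cases h : 1 ≤ |cc v|
  · left
    exact abs_clamp_of_ge h
  · right
    push Not at h
    have hN : Nm (ww (cc v) v.2.2) = 1 := Nm_ww_of_le h.le h1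
    refine ⟨?_, ?_, ?_⟩
    · change ‖radC _‖ = 1
      rw [norm_radC, hN]
    · change 0 ≤ ((-Ec v.1 : Circle) : ℂ).re
      rw [re_z_nonneg h2]
      rcases c2 with c2 | c2
      · exact c2
      · linarith
    · change √2 / 2 ≤ (radC _).re
      rw [le_re_radC hN, ww_one h.le]
      exact h1

theorem carrier_Vα0 : Vα0.carrier = Hα := by
  unfold Vα0
  rw [dataα.carrier_eq]
  ext y
  constructor
  · rintro ⟨v, hv, rfl⟩
    exact Qα_mem hv
  · intro hy
    obtain ⟨v, hv, rfl⟩ := exists_Qα hy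
    exact ⟨v, hv, rfl⟩

theorem planarα_iff {v : ℝ × ℝ × ℝ} (hv : gα v ≤ 1) :
    (gα v = 1 ∧ ∀ a, v ∉ fα a '' discInt) ↔
      (|v.2.2| = 1 ∨ |cc v| = 3 ∨ (|cc v| ≤ 1 ∧ 1 / 2 ≤ |v.1|)) := by
  obtain ⟨h1, h2, h3, h4⟩ := gα_le.1 hv
  obtain ⟨c1, c2, c3, c4⟩ := cc_props hv
  constructor
  · rintro ⟨h5, h6⟩
    by_contra hcon
    rw [not_or, not_or, not_and_or, not_le, not_le] at hcon
    obtain ⟨h7, h8, h9⟩ := hcon
    have h7' : |v.2.2| < 1 := lt_of_le_of_ne h1 h7
    have h8' : |cc v| < 3 := lt_of_le_of_ne c1 h8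
    rcases h9 with h9 | h9
    · -- `1 < |c|`
      rcases le_gα.1 h5.ge with h | h | ⟨h, h'⟩ | ⟨h, h'⟩
      · linarith
      · -- the face
        have e1 : |v.1| = 1 := le_antisymm h2 h
        have ek : kk v.1 = 2 := by rw [kk_large (by linarith), e1]; norm_num
        rw [ek] at c4
        rcases le_total 0 v.2.1 with h0 | h0
        · have e0 : |v.2.1| = v.2.1 := abs_of_nonneg h0
          rw [e0] at c4
          have hd : (v.2.1 - 4, v.2.2) ∈ discInt := mem_discInt.2 ⟨by
            simp only; rw [abs_lt]; constructor <;> linarith, h7'⟩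
          rcases (abs_eq (by norm_num : (0:ℝ) ≤ 1)).1 e1 with e | e
          · refine h6 (0, true) ⟨_, hd, ?_⟩
            rw [fα_zero]
            refine Prod.ext e.symm (Prod.ext ?_ rfl)
            simp only
            ring
          · refine h6 (0, false) ⟨_, hd, ?_⟩
            rw [fα_zero]
            refine Prod.ext e.symm (Prod.ext ?_ rfl)
            simp only
            ring
        · have e0 : |v.2.1| = -v.2.1 := abs_of_nonpos h0
          rw [e0] at c4
          have hd : (-v.2.1 - 4, v.2.2) ∈ discInt := mem_discInt.2 ⟨by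
            simp only; rw [abs_lt]; constructor <;> linarith, h7'⟩
          rcases (abs_eq (by norm_num : (0:ℝ) ≤ 1)).1 e1 with e | e
          · refine h6 (1, true) ⟨_, hd, ?_⟩
            rw [fα_one]
            refine Prod.ext e.symm (Prod.ext ?_ rfl)
            simp only
            ring
          · refine h6 (1, false) ⟨_, hd, ?_⟩
            rw [fα_one]
            refine Prod.ext e.symm (Prod.ext ?_ rfl)
            simp only
            ring
      · rw [kk_large h] at c4
        linarith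
      · rcases le_total |v.1| (1/2) with hh | hh
        · rw [kk_small hh] at c4
          linarith
        · rw [kk_large hh] at c4
          linarith
    · -- `|x| < 1/2`
      rw [kk_small h9.le] at c4
      rcases le_gα.1 h5.ge with h | h | ⟨h, h'⟩ | ⟨h, h'⟩ <;> linarith
  · intro h
    refine ⟨le_antisymm hv (le_gα.2 ?_), ?_⟩
    · rcases h with h | h | ⟨h, h'⟩
      · left; exact h.ge
      · right; right; right
        rcases le_total |v.1| (1/2) with hh | hh
        · rw [kk_small hh] at c4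
          constructor <;> linarith
        · rw [kk_large hh] at c4
          constructor <;> linarith
      · right; right; left
        rw [kk_large h'] at c4
        exact ⟨h', by linarith⟩
    · rintro ⟨i, b⟩ ⟨w, hw, rfl⟩
      obtain ⟨w1, w2⟩ := mem_discInt.1 hw
      have e1 := abs_fα (a := (i, b)) w1.le
      have e2 : |(fα (i, b) w).1| = 1 := abs_sg _
      have e3 : (fα (i, b) w).2.2 = w.2 := rfl
      have e4 : kk (fα (i, b) w).1 = 2 := by rw [kk_large (by linarith), e2]; norm_num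
      rw [e1, e4] at c4
      rw [e3] at h
      rw [abs_lt] at w1
      rcases h with h | h | ⟨h, h'⟩ <;> linarith

theorem Qα_Sf {v : ℝ × ℝ × ℝ} (hv : gα v ≤ 1) : Qα v ∈ Sf ↔
    (|v.2.2| = 1 ∨ |cc v| = 3 ∨ (|cc v| ≤ 1 ∧ 1 / 2 ≤ |v.1|)) := by
  obtain ⟨h1, h2, h3, h4⟩ := gα_le.1 hv
  obtain ⟨c1, c2, c3, c4⟩ := cc_props hv
  unfold Sf
  rw [mem_ofPred_eq, Qα_coe hv]
  change (‖radC (ww (cc v) v.2.2)‖ = 1 ∧ (((-Ec v.1 : Circle) : ℂ).re ≤ 0 ∨
    (radC (ww (cc v) v.2.2)).re ≤ √2 / 2) ∧ (|clamp (cc v)| = 1 ∨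
    (0 ≤ ((-Ec v.1 : Circle) : ℂ).re ∧ √2 / 2 ≤ (radC (ww (cc v) v.2.2)).re))) ↔ _
  rw [norm_radC, re_z_nonneg h2, re_z_nonpos h2]
  have hw2 : (ww (cc v) v.2.2).2 = v.2.2 := rfl
  constructor
  · rintro ⟨hN, hB, -⟩
    rw [re_radC_le hN, hw2] at hB
    by_contra hcon
    rw [not_or, not_or, not_and_or, not_le, not_le] at hcon
    obtain ⟨h7, h8, h9⟩ := hcon
    have h7' : |v.2.2| < 1 := lt_of_le_of_ne h1 h7
    have h8' : |cc v| < 3 := lt_of_le_of_ne c1 h8
    -- then `w.1 = 1`
    have hw1 : |(ww (cc v) v.2.2).1| = 1 := by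
      rcases max_choice |(ww (cc v) v.2.2).1| |(ww (cc v) v.2.2).2| with h | h
      · rw [← h]; exact hN
      · exfalso
        have : |(ww (cc v) v.2.2).2| = 1 := by rw [← h]; exact hN
        rw [hw2] at this
        exact h7 this
    have hw1' : (ww (cc v) v.2.2).1 = 1 := by
      rcases (abs_eq (by norm_num : (0:ℝ) ≤ 1)).1 hw1 with e | e
      · exact e
      · exfalso
        unfold ww at e
        simp only at e
        rcases min_choice 1 (2 - |cc v|) with h | h
        · rw [h] at e; norm_num at e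
        · rw [h] at e; linarith
    rw [hw1'] at hB
    have hc : |cc v| ≤ 1 := by
      unfold ww at hw1'
      simp only at hw1'
      have : min 1 (2 - |cc v|) ≤ 2 - |cc v| := min_le_right _ _
      linarith
    rcases h9 with h9 | h9
    · linarith
    · rcases hB with hB | hB <;> linarith
  · intro h
    -- norm one
    have hN : Nm (ww (cc v) v.2.2) = 1 := by
      apply le_antisymm (ww_mem c1 h1)
      rcases h with h | h | ⟨h, h'⟩
      · exact h.ge.trans (le_max_right _ _)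
      · have : (ww (cc v) v.2.2).1 = -1 := by
          unfold ww
          simp only
          rw [h, min_eq_right (by norm_num)]
          norm_num
        unfold Nm
        rw [this]
        simp
      · exact (Nm_ww_of_le h h1).ge
    rw [re_radC_le hN, le_re_radC hN, hw2]
    refine ⟨hN, ?_, ?_⟩
    · rcases h with h | h | ⟨h, h'⟩
      · right
        rw [h]
        exact min_le_left _ _
      · right
        have : (ww (cc v) v.2.2).1 = -1 := by
          unfold ww
          simp only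
          rw [h, min_eq_right (by norm_num)]
          norm_num
        rw [this]
        have := abs_nonneg v.2.2
        linarith
      · left; exact h'
    · by_cases hc : 1 ≤ |cc v|
      · left; exact abs_clamp_of_ge hc
      · push Not at hc
        right
        refine ⟨?_, ?_⟩
        · rcases c2 with c2 | c2
          · exact c2
          · linarith
        · rw [ww_one hc.le]
          exact h1

theorem Sf_sub_Hα : Sf ⊆ Hα := by
  rintro y ⟨h1, h2, h3⟩
  rcases h3 with h3 | h3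
  · left; exact h3
  · right; exact ⟨h1, h3⟩

theorem bd_Vα0 : Vα0.bd = Sf := by
  unfold Vα0
  rw [dataα.bd_eq]
  ext y
  constructor
  · rintro ⟨v, hv, rfl⟩
    exact (Qα_Sf hv.1.le).2 ((planarα_iff hv.1.le).1 hv)
  · intro hy
    obtain ⟨v, hv, rfl⟩ := exists_Qα (Sf_sub_Hα hy)
    exact ⟨v, (planarα_iff hv).2 ((Qα_Sf hv).1 hy), rfl⟩

theorem inter_eq : Hα ∩ Hβ = Sf := by
  ext y
  constructor
  · rintro ⟨h1 | h1, h2, h3⟩
    · exact ⟨h2, h3, Or.inl h1⟩
    · exact ⟨h2, h3, Or.inr h1.2⟩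
  · rintro ⟨h1, h2, h3⟩
    refine ⟨?_, h1, h2⟩
    rcases h3 with h3 | h3
    · exact Or.inl h3
    · exact Or.inr ⟨h1, h3⟩

/-- The splitting of the model given by a twist. -/
def Twist.P (t : Twist) : Splitting Y0 where
  Vα := Vα0
  Vβ := t.V
  cover := by rw [carrier_Vα0, t.carrier_V, Hα_union_Hβ]
  inter := by rw [carrier_Vα0, t.carrier_V, bd_Vα0, inter_eq]
  bd_eq := by rw [bd_Vα0, t.bd_V]

end

end Pool.Agent.H72.Tri
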