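import Pool.Agent.H72.Tri.Model3

/-!
# The Dehn twists, and the placements
-/

open Set Topology Metric

namespace Pool.Agent.H72.Tri

noncomputable section

/-! ### A degree one map which is constant on a half circle -/

/-- the argument folded to `[-π/2, π/2]` -/
def ha (z : Circle) : ℝ := if 0 ≤ (z : ℂ).re then Complex.arg z else -Complex.arg (-z : Circle)

theorem continuous_ha : Continuous ha := by
  have hR : ∀ z ∈ halfR, ha z = Complex.arg z := fun z hz => if_pos hz
  have hL : ∀ z ∈ halfL, ha z = -Complex.arg (-z : Circle) := by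
    intro z hz
    have hz' : (z : ℂ).re ≤ 0 := hz
    rcases eq_or_lt_of_le hz' with h0 | h0
    · have h3 : 0 ≤ (z : ℂ).re := h0.ge
      simp only [ha, h3, if_true]
      have h4 := Circle.normSq_coe z
      rw [Complex.normSq_apply, h0] at h4
      have h5 : (z : ℂ).im = 1 ∨ (z : ℂ).im = -1 := by
        have h6 : ((z : ℂ).im - 1) * ((z : ℂ).im + 1) = 0 := by linarith
        rcases mul_eq_zero.1 h6 with h | h
        · left; linarith
        · right; linarith
      have hneg : ((-z : Circle) : ℂ) = -(z : ℂ) := rfl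
      rcases h5 with h5 | h5
      · have hzI : (z : ℂ) = Complex.I := Complex.ext (by simp [h0]) (by simp [h5])
        rw [hneg, hzI, Complex.arg_I, Complex.arg_neg_I]
        ring
      · have hzI : (z : ℂ) = -Complex.I := Complex.ext (by simp [h0]) (by simp [h5])
        rw [hneg, hzI, neg_neg, Complex.arg_I, Complex.arg_neg_I]
    · have h3 : ¬ (0 ≤ (z : ℂ).re) := not_le.2 h0
      simp [ha, h3]
  have hargR : ContinuousOn (fun z : Circle => Complex.arg z) halfR := by
    intro z hz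
    have hz' : 0 ≤ (z : ℂ).re := hz
    have hs : (z : ℂ) ∈ Complex.slitPlane := by
      rw [Complex.mem_slitPlane_iff]
      rcases eq_or_lt_of_le hz' with h0 | h0
      · right
        intro him
        have := Circle.normSq_coe z
        rw [Complex.normSq_apply, ← h0, him] at this
        norm_num at this
      · left; exact h0
    exact ((Complex.continuousAt_arg hs).comp continuous_subtype_val.continuousAt).continuousWithinAt
  have hneg : MapsTo (fun z : Circle => -z) halfL halfR := by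
    intro z hz
    have hz' : (z : ℂ).re ≤ 0 := hz
    change 0 ≤ ((-z : Circle) : ℂ).re
    rw [neg_re]
    linarith
  have hu : (halfR ∪ halfL) = univ := by
    apply eq_univ_of_forall
    intro z
    exact le_total 0 (z : ℂ).re
  rw [← continuousOn_univ, ← hu]
  refine ContinuousOn.union_of_isClosed ?_ ?_ isClosed_halfR isClosed_halfL
  · exact hargR.congr hR
  · refine ContinuousOn.congr ?_ hL
    exact (hargR.comp continuous_neg.continuousOn hneg).neg

/-- The degree one map: `- z ^ 2` on the left half circle and `1` on the right half circle. -/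
def τ (z : Circle) : Circle := z * Circle.exp (-ha z)

theorem continuous_τ : Continuous τ :=
  continuous_id.mul (Circle.exp.continuous.comp continuous_ha.neg)

theorem τ_of_nonneg {z : Circle} (h : 0 ≤ (z : ℂ).re) : τ z = 1 := by
  unfold τ ha
  rw [if_pos h]
  nth_rw 1 [← Circle.exp_arg z]
  rw [← Circle.exp_add]
  simp

/-- the lift of `τ` -/
def Tt (t : ℝ) : ℝ := t + -ha (Circle.exp t)

theorem continuous_Tt : Continuous Tt :=
  continuous_id.add (continuous_ha.comp Circle.exp.continuous).neg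

theorem exp_Tt (t : ℝ) : Circle.exp (Tt t) = τ (Circle.exp t) := by
  unfold Tt τ
  rw [Circle.exp_add]

theorem Tt_add (t : ℝ) (k : ℤ) : Tt (t + k * (2 * Real.pi)) = Tt t + k * (2 * Real.pi) := by
  unfold Tt
  have : Circle.exp (t + k * (2 * Real.pi)) = Circle.exp t := by
    rw [Circle.exp_add, Circle.exp_int_mul_two_pi, mul_one]
  rw [this]
  ring

theorem τ_of_neg {z : Circle} (h : (z : ℂ).re < 0) : τ z = z * -z := by
  unfold τ ha
  rw [if_neg (not_le.2 h), neg_neg, Circle.exp_arg]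

/-- The degree one map with support `√2 / 2 ≤ Im w`. -/
def τ2 (w : Circle) : Circle := τ (τ (Circle.exp (Real.pi / 2) * w))

theorem continuous_τ2 : Continuous τ2 :=
  continuous_τ.comp (continuous_τ.comp (continuous_const.mul continuous_id))

theorem re_I_mul (w : Circle) :
    ((Circle.exp (Real.pi / 2) * w : Circle) : ℂ).re = -(w : ℂ).im := by
  rw [Circle.coe_mul, Circle.coe_exp]
  have : Complex.exp ((Real.pi / 2 : ℝ) * Complex.I) = Complex.I := by
    push_cast
    exact Complex.exp_pi_div_two_mul_I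
  rw [this]
  simp

theorem τ2_of {w : Circle} (h : (w : ℂ).im ≤ √2 / 2) : τ2 w = 1 := by
  unfold τ2
  rcases le_or_gt (w : ℂ).im 0 with h0 | h0
  · have h1 : 0 ≤ ((Circle.exp (Real.pi / 2) * w : Circle) : ℂ).re := by
      rw [re_I_mul]; linarith
    rw [τ_of_nonneg h1]
    exact τ_of_nonneg (by simp)
  · have h1 : ((Circle.exp (Real.pi / 2) * w : Circle) : ℂ).re < 0 := by
      rw [re_I_mul]; linarith
    rw [τ_of_neg h1]
    apply τ_of_nonneg
    have h2 := Circle.normSq_coe w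
    rw [Complex.normSq_apply] at h2
    have h3 : √2 / 2 * (√2 / 2) = 1 / 2 := by
      have := Real.mul_self_sqrt (by norm_num : (0 : ℝ) ≤ 2)
      linarith
    have h4 : (w : ℂ).im * (w : ℂ).im ≤ 1 / 2 := by
      rw [← h3]
      exact mul_le_mul h h h0.le (by positivity)
    have h5 : ((Circle.exp (Real.pi / 2) * w * -(Circle.exp (Real.pi / 2) * w) : Circle) : ℂ) =
        (w : ℂ) * (w : ℂ) := by
      have : Complex.exp ((Real.pi / 2 : ℝ) * Complex.I) = Complex.I := by
        push_cast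
        exact Complex.exp_pi_div_two_mul_I
      have hn : ((-(Circle.exp (Real.pi / 2) * w) : Circle) : ℂ) =
        -((Circle.exp (Real.pi / 2) * w : Circle) : ℂ) := rfl
      rw [Circle.coe_mul, hn, Circle.coe_mul, Circle.coe_exp, this]
      linear_combination (-(w : ℂ) * w) * Complex.I_mul_I
    rw [h5, Complex.mul_re]
    linarith

/-- the lift of `τ2` -/
def T2 (t : ℝ) : ℝ := Tt (Tt (Real.pi / 2 + t))

theorem continuous_T2 : Continuous T2 :=
  continuous_Tt.comp (continuous_Tt.comp (by fun_prop))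

theorem exp_T2 (t : ℝ) : Circle.exp (T2 t) = τ2 (Circle.exp t) := by
  unfold T2 τ2
  rw [exp_Tt, exp_Tt, Circle.exp_add]

theorem T2_add (t : ℝ) (k : ℤ) : T2 (t + k * (2 * Real.pi)) = T2 t + k * (2 * Real.pi) := by
  unfold T2
  rw [← add_assoc, Tt_add, Tt_add]

/-- the twist in the first coordinate -/
def Um (a : ℤ) : Circle × Circle ≃ₜ Circle × Circle where
  toFun p := (p.1 * τ2 p.2 ^ a, p.2)
  invFun p := (p.1 * τ2 p.2 ^ (-a), p.2)
  left_inv p := by
    refine Prod.ext ?_ rfl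
    change p.1 * τ2 p.2 ^ a * τ2 p.2 ^ (-a) = p.1
    rw [mul_assoc, ← zpow_add, add_neg_cancel, zpow_zero, mul_one]
  right_inv p := by
    refine Prod.ext ?_ rfl
    change p.1 * τ2 p.2 ^ (-a) * τ2 p.2 ^ a = p.1
    rw [mul_assoc, ← zpow_add, neg_add_cancel, zpow_zero, mul_one]
  continuous_toFun := by
    refine Continuous.prodMk ?_ continuous_snd
    exact continuous_fst.mul ((continuous_τ2.comp continuous_snd).zpow a)
  continuous_invFun := by
    refine Continuous.prodMk ?_ continuous_snd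
    exact continuous_fst.mul ((continuous_τ2.comp continuous_snd).zpow (-a))

/-- the twist in the second coordinate -/
def Lm (b : ℤ) : Circle × Circle ≃ₜ Circle × Circle where
  toFun p := (p.1, p.2 * τ p.1 ^ b)
  invFun p := (p.1, p.2 * τ p.1 ^ (-b))
  left_inv p := by
    refine Prod.ext rfl ?_
    change p.2 * τ p.1 ^ b * τ p.1 ^ (-b) = p.2
    rw [mul_assoc, ← zpow_add, add_neg_cancel, zpow_zero, mul_one]
  right_inv p := by
    refine Prod.ext rfl ?_
    change p.2 * τ p.1 ^ (-b) * τ p.1 ^ b = p.2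
    rw [mul_assoc, ← zpow_add, neg_add_cancel, zpow_zero, mul_one]
  continuous_toFun := by
    refine Continuous.prodMk continuous_fst ?_
    exact continuous_snd.mul ((continuous_τ.comp continuous_fst).zpow b)
  continuous_invFun := by
    refine Continuous.prodMk continuous_fst ?_
    exact continuous_snd.mul ((continuous_τ.comp continuous_fst).zpow (-b))

theorem fix_Um (a : ℤ) : Fixes (Um a) := by
  intro p _ h2
  change (p.1 * τ2 p.2 ^ a, p.2) = p
  rw [τ2_of h2, one_zpow, mul_one]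

theorem fix_Lm (b : ℤ) : Fixes (Lm b) := by
  intro p h1 _
  have e1 : τ p.1 = 1 := τ_of_nonneg h1
  change (p.1, p.2 * τ p.1 ^ b) = p
  rw [e1, one_zpow, mul_one]

/-! ### The boundary of the square as a circle -/

/-- the radial homeomorphism from the circle to the boundary of the square (with the coordinates
exchanged) -/
def sqc (ω : Circle) : ℝ × ℝ :=
  ((ω : ℂ).im / Nm ((ω : ℂ).re, (ω : ℂ).im), (ω : ℂ).re / Nm ((ω : ℂ).re, (ω : ℂ).im))

theorem Nm_circle_pos (ω : Circle) : 0 < Nm ((ω : ℂ).re, (ω : ℂ).im) := by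
  apply Nm_pos
  intro h
  have h1 : (ω : ℂ).re = 0 := congrArg Prod.fst h
  have h2 : (ω : ℂ).im = 0 := congrArg Prod.snd h
  have := Circle.normSq_coe ω
  rw [Complex.normSq_apply, h1, h2] at this
  norm_num at this

theorem continuous_sqc : Continuous sqc := by
  have h1 : Continuous fun ω : Circle => (ω : ℂ).re :=
    Complex.continuous_re.comp continuous_subtype_val
  have h2 : Continuous fun ω : Circle => (ω : ℂ).im :=
    Complex.continuous_im.comp continuous_subtype_val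
  have h3 : Continuous fun ω : Circle => Nm ((ω : ℂ).re, (ω : ℂ).im) :=
    continuous_Nm.comp (h1.prodMk h2)
  exact (h2.div h3 fun ω => (Nm_circle_pos ω).ne').prodMk
    (h1.div h3 fun ω => (Nm_circle_pos ω).ne')

theorem sqc_mem (ω : Circle) : sqc ω ∈ discBd := by
  have h := Nm_circle_pos ω
  rw [mem_discBd]
  unfold sqc
  simp only [abs_div, abs_of_pos h]
  rw [max_comm]
  have e := max_div_div_right h.le |(ω : ℂ).re| |(ω : ℂ).im|
  refine e.trans ?_
  exact div_self h.ne'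

theorem sqc_inj {ω ω' : Circle} (h : sqc ω = sqc ω') : ω = ω' := by
  have h1 := Nm_circle_pos ω
  have h2 := Nm_circle_pos ω'
  set N := Nm ((ω : ℂ).re, (ω : ℂ).im) with hN
  set N' := Nm ((ω' : ℂ).re, (ω' : ℂ).im) with hN'
  unfold sqc at h
  simp only [Prod.mk.injEq] at h
  rw [← hN, ← hN'] at h
  obtain ⟨e1, e2⟩ := h
  have f1 : (ω : ℂ).im = N / N' * (ω' : ℂ).im := by
    field_simp at e1 ⊢
    linarith
  have f2 : (ω : ℂ).re = N / N' * (ω' : ℂ).re := by
    field_simp at e2 ⊢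
    linarith
  have g1 := Circle.normSq_coe ω
  have g2 := Circle.normSq_coe ω'
  rw [Complex.normSq_apply] at g1 g2
  have h3 : (N / N') ^ 2 = 1 := by
    have : (N / N') ^ 2 * ((ω' : ℂ).re * (ω' : ℂ).re + (ω' : ℂ).im * (ω' : ℂ).im) = 1 := by
      rw [← g1, f1, f2]; ring
    rw [g2, mul_one] at this
    exact this
  have h4 : N / N' = 1 := by
    have h5 : 0 < N / N' := by positivity
    nlinarith
  rw [h4, one_mul] at f1 f2
  exact Circle.ext (Complex.ext f2 f1)

theorem sqc_surj {v : ℝ × ℝ} (hv : v ∈ discBd) : ∃ ω : Circle, sqc ω = v := by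
  rw [mem_discBd] at hv
  have hN : Nm (v.2, v.1) = 1 := by
    unfold Nm
    rw [max_comm]
    exact hv
  have hc := cplx_pos (ne_zero_of_Nm hN)
  let t : ℝ := ‖cplx (v.2, v.1)‖⁻¹
  have ht : 0 < t := inv_pos.2 hc
  have hn : ‖((t : ℝ) : ℂ) * cplx (v.2, v.1)‖ = 1 := by
    rw [norm_mul, Complex.norm_real, Real.norm_of_nonneg ht.le]
    exact inv_mul_cancel₀ hc.ne'
  let ω : Circle := ⟨(t : ℂ) * cplx (v.2, v.1), mem_sphere_zero_iff_norm.2 hn⟩
  have hre : (ω : ℂ).re = t * v.2 := by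
    change ((t : ℂ) * cplx (v.2, v.1)).re = _
    rw [Complex.re_ofReal_mul]
    rfl
  have him : (ω : ℂ).im = t * v.1 := by
    change ((t : ℂ) * cplx (v.2, v.1)).im = _
    rw [Complex.im_ofReal_mul]
    rfl
  refine ⟨ω, ?_⟩
  unfold sqc
  have hNt : Nm ((ω : ℂ).re, (ω : ℂ).im) = t := by
    rw [hre, him, Nm_smul ht.le (v.2, v.1), hN, mul_one]
  rw [hNt, hre, him]
  apply Prod.ext
  · simp only
    field_simp
  · simp only
    field_simp

theorem sqc_one : sqc 1 = (0, 1) := by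
  unfold sqc Nm
  simp

/-! ### The placement -/

namespace Twist

variable (t : Twist)

theorem S_eq : t.P.S = Sf := t.bd_V

/-- the knot -/
def κ (z : Circle) : Y0 := Bm (t.s (z, -1)) 1
/-- the bicollar -/
def jj (p : ℝ × Circle) : Y0 :=
  Bm (t.s (Circle.exp (Real.pi / 2 * p.1), Ec (3 / 4 * (sqc p.2).1))) (sqc p.2).2

theorem sqc_le (ω : Circle) : |(sqc ω).1| ≤ 1 ∧ |(sqc ω).2| ≤ 1 := by
  have h := mem_discBd.1 (sqc_mem ω)
  exact ⟨(le_max_left _ _).trans h.le, (le_max_right _ _).trans h.le⟩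

theorem sqc_le' (ω : Circle) : |3 / 4 * (sqc ω).1| ≤ 3 / 4 := by
  rw [abs_mul, abs_of_pos (by norm_num : (0:ℝ) < 3/4)]
  have := (sqc_le ω).1
  linarith

theorem re_exp_half {s : ℝ} (hs : s ∈ Icc (-1 : ℝ) 1) :
    0 ≤ ((Circle.exp (Real.pi / 2 * s) : Circle) : ℂ).re := by
  have hpi := Real.pi_pos
  rw [re_exp]
  apply Real.cos_nonneg_of_mem_Icc
  constructor
  · nlinarith [hs.1]
  · nlinarith [hs.2]

theorem exp_half_inj {s s' : ℝ} (hs : s ∈ Icc (-1 : ℝ) 1) (hs' : s' ∈ Icc (-1 : ℝ) 1)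
    (h : Circle.exp (Real.pi / 2 * s) = Circle.exp (Real.pi / 2 * s')) : s = s' := by
  have hpi := Real.pi_pos
  have h1 := exp_injOn (a := -(Real.pi / 2)) (b := Real.pi / 2) (by linarith)
    ⟨by nlinarith [hs.1], by nlinarith [hs.2]⟩ ⟨by nlinarith [hs'.1], by nlinarith [hs'.2]⟩ h
  exact mul_left_cancel₀ (by positivity) h1

theorem Ec_inj' {x y : ℝ} (hx : |x| ≤ 3 / 4) (hy : |y| ≤ 1) (h : Ec x = Ec y) : x = y := by
  rcases Ec_inj (by linarith) hy h with h | ⟨h, _⟩ | ⟨h, _⟩
  · exact h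
  · rw [h] at hx; norm_num at hx
  · rw [h] at hx; norm_num at hx

theorem jj_mem {p : ℝ × Circle} (hp : p ∈ Icc (-1 : ℝ) 1 ×ˢ (univ : Set Circle)) :
    t.jj p ∈ Sf := by
  obtain ⟨s, ω⟩ := p
  have hs : s ∈ Icc (-1 : ℝ) 1 := hp.1
  obtain ⟨h1, h2⟩ := sqc_le ω
  have h3 := sqc_le' ω
  unfold jj
  rw [mem_Sf_Bm _ h2, t.out_iff, t.win_iff]
  refine ⟨Or.inr ((re_Ec_le' (by linarith)).2 h3), ?_⟩
  have h := mem_discBd.1 (sqc_mem ω)
  rcases max_choice |(sqc ω).1| |(sqc ω).2| with h4 | h4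
  · right
    refine ⟨re_exp_half hs, (le_re_Ec' (by simp only; linarith)).2 ?_⟩
    have h5 : |(sqc ω).1| = 1 := by rw [← h4]; exact h
    simp only
    rw [abs_mul, h5, abs_of_pos (by norm_num : (0:ℝ) < 3/4)]
    norm_num
  · left
    rw [← h4]; exact h

theorem jj_cont : ContinuousOn t.jj (Icc (-1 : ℝ) 1 ×ˢ univ) := by
  refine contOn_Bm ?_ ?_ (fun x _ => (sqc_le x.2).2)
  · refine (t.s.continuous.comp ?_).continuousOn
    refine Continuous.prodMk (Circle.exp.continuous.comp (by fun_prop)) ?_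
    refine continuous_Ec.comp (continuous_const.mul ?_)
    exact continuous_fst.comp (continuous_sqc.comp continuous_snd)
  · exact (continuous_snd.comp (continuous_sqc.comp continuous_snd)).continuousOn

theorem jj_inj : InjOn t.jj (Icc (-1 : ℝ) 1 ×ˢ univ) := by
  rintro ⟨s, ω⟩ ⟨hs, -⟩ ⟨s', ω'⟩ ⟨hs', -⟩ h
  obtain ⟨h1, h2⟩ := Bm_inj (sqc_le ω).2 (sqc_le ω').2 h
  have h3 := t.s.injective h1
  obtain ⟨h4, h5⟩ := Prod.mk.inj h3
  have h6 : s = s' := exp_half_inj hs hs' h4
  have h7 := Ec_inj' (sqc_le' ω) (by have := sqc_le' ω'; simp only; linarith) h5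
  have h8 : sqc ω = sqc ω' := by
    refine Prod.ext ?_ h2
    simp only at h7
    linarith
  rw [sqc_inj h8, h6]

theorem β_one : t.P.β 1 = t.Q '' (fβ (1, true) '' discBd) := t.data.curve_eq 1
theorem β_zero : t.P.β 0 = t.Q '' (fβ (0, true) '' discBd) := t.data.curve_eq 0

theorem mem_β_one {y : Y0} (hy : y ∈ t.P.β 1) :
    ∃ v : ℝ × ℝ, |v.1| ≤ 1 ∧ |v.2| ≤ 1 ∧ y = Bm (t.s (Ec (v.1 / 2), 1)) v.2 := by
  rw [t.β_one] at hy
  obtain ⟨_, ⟨v, hv, rfl⟩, rfl⟩ := hy
  obtain ⟨h1, h2⟩ := mem_disc.1 (discBd_subset hv)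
  refine ⟨v, h1, h2, ?_⟩
  unfold Q
  rw [fβ_one]
  simp only [E2, sg_true, Ec_one]

/-- every point of the side is a point of the torus times an interval -/
theorem exists_Bm' {y : Y0} (hy : ‖(y.2 : ℂ × ℝ).1‖ = 1) :
    ∃ (p : Circle × Circle) (r : ℝ), |r| ≤ 1 ∧ y = Bm (t.s p) r := by
  obtain ⟨v, h1, h2, h3, rfl⟩ := t.exists_Bm hy
  exact ⟨E2 v, v.2.2, h3, rfl⟩

theorem jj_open : ∃ U : Set Y0, IsOpen U ∧ t.jj '' (Ioo (-1 : ℝ) 1 ×ˢ univ) = U ∩ Sf := by
  let C : Set Y0 := (fun q : (Circle × Circle) × ℝ => Bm (t.s q.1) q.2) ''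
    ({p : Circle × Circle | (p.1 : ℂ).re ≤ 0} ×ˢ Icc (-1 : ℝ) 1)
  have hC : IsClosed C := by
    have h1 : IsClosed {p : Circle × Circle | (p.1 : ℂ).re ≤ 0} :=
      isClosed_le (Complex.continuous_re.comp (continuous_subtype_val.comp continuous_fst))
        continuous_const
    refine ((h1.isCompact.prod isCompact_Icc).image_of_continuousOn ?_).isClosed
    refine contOn_Bm ?_ continuousOn_snd (fun x hx => abs_le.2 hx.2)
    exact (t.s.continuous.comp continuous_fst).continuousOn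
  refine ⟨Cᶜ, hC.isOpen_compl, ?_⟩
  have hpi := Real.pi_pos
  ext y
  constructor
  · rintro ⟨⟨s, ω⟩, ⟨hs, -⟩, rfl⟩
    have hs' : s ∈ Icc (-1 : ℝ) 1 := ⟨hs.1.le, hs.2.le⟩
    refine ⟨?_, t.jj_mem ⟨hs', mem_univ _⟩⟩
    rintro ⟨⟨p, r⟩, ⟨hp, hr⟩, h⟩
    obtain ⟨h1, h2⟩ := Bm_inj (abs_le.2 hr) (sqc_le ω).2 h
    have h3 := t.s.injective h1
    have hp' : (p.1 : ℂ).re ≤ 0 := hp
    simp only at h3
    rw [h3] at hp'
    simp only at hp'
    rw [re_exp] at hp'
    have : 0 < Real.cos (Real.pi / 2 * s) := by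
      apply Real.cos_pos_of_mem_Ioo
      constructor
      · nlinarith [hs.1]
      · nlinarith [hs.2]
    linarith
  · rintro ⟨h1, h2⟩
    obtain ⟨p, r, hr, rfl⟩ := t.exists_Bm' h2.1
    rw [mem_Sf_Bm _ hr, t.out_iff, t.win_iff] at h2
    obtain ⟨h2, h3⟩ := h2
    have hp : 0 < (p.1 : ℂ).re := by
      by_contra hcon
      push Not at hcon
      exact h1 ⟨(p, r), ⟨hcon, abs_le.1 hr⟩, rfl⟩
    have h4 : (p.2 : ℂ).re ≤ √2 / 2 := by
      rcases h2 with h2 | h2
      · linarith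
      · exact h2
    obtain ⟨Θ, hΘ, hΘ'⟩ := Ec_surj p.2
    rw [← hΘ', re_Ec_le' hΘ] at h4
    have hs : ∃ s ∈ Ioo (-1 : ℝ) 1, Circle.exp (Real.pi / 2 * s) = p.1 := by
      have hz : p.1 ∈ halfR := hp.le
      rw [halfR_eq] at hz
      obtain ⟨θ, hθ, hθ'⟩ := hz
      have hθ1 : θ ≠ -(Real.pi / 2) := by
        intro h
        rw [← hθ', h, re_exp, Real.cos_neg, Real.cos_pi_div_two] at hp
        exact lt_irrefl _ hp
      have hθ2 : θ ≠ Real.pi / 2 := by
        intro h
        rw [← hθ', h, re_exp, Real.cos_pi_div_two] at hp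
        exact lt_irrefl _ hp
      have hθ3 : -(Real.pi / 2) < θ := lt_of_le_of_ne hθ.1 (Ne.symm hθ1)
      have hθ4 : θ < Real.pi / 2 := lt_of_le_of_ne hθ.2 hθ2
      refine ⟨2 * θ / Real.pi, ⟨?_, ?_⟩, ?_⟩
      · rw [lt_div_iff₀ hpi]; linarith
      · rw [div_lt_iff₀ hpi]; linarith
      · rw [← hθ']
        congr 1
        field_simp
    obtain ⟨s, hs, hs'⟩ := hs
    have hv : ((4 / 3 * Θ, r) : ℝ × ℝ) ∈ discBd := by
      rw [mem_discBd]
      simp only
      have e1 : |4 / 3 * Θ| ≤ 1 := by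
        rw [abs_mul, abs_of_pos (by norm_num : (0:ℝ) < 4/3)]; linarith
      rcases h3 with h3 | h3
      · rw [h3]
        exact max_eq_right e1
      · have h5 : 3 / 4 ≤ |Θ| := by
          rw [← le_re_Ec' hΘ, hΘ']
          exact h3.2
        have e2 : |4 / 3 * Θ| = 1 := by
          rw [abs_mul, abs_of_pos (by norm_num : (0:ℝ) < 4/3)]
          linarith
        rw [e2]
        exact max_eq_left hr
    obtain ⟨ω, hω⟩ := sqc_surj hv
    refine ⟨(s, ω), ⟨hs, mem_univ _⟩, ?_⟩
    unfold jj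
    rw [hω]
    simp only
    have e3 : 3 / 4 * (4 / 3 * Θ) = Θ := by ring
    rw [e3, hs', hΘ']

/-- the placement of the knot `κ` -/
def K : Placement t.P where
  κ := t.κ
  j := t.jj
  κ_cont := by
    rw [← continuousOn_univ]
    refine contOn_Bm ?_ continuousOn_const (fun _ _ => by simp)
    exact (t.s.continuous.comp (by fun_prop)).continuousOn
  κ_inj := by
    intro z z' h
    obtain ⟨h1, -⟩ := Bm_inj (by simp) (by simp) h
    exact (Prod.mk.inj (t.s.injective h1)).1
  κ_mem := by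
    intro z
    rw [t.S_eq]
    unfold κ
    rw [mem_Sf_Bm _ (by simp), t.out_iff]
    refine ⟨Or.inr ?_, Or.inl (by simp)⟩
    have : (((-1 : Circle)) : ℂ).re = -1 := by
      rw [neg_re]; simp
    simp only
    rw [this]
    have : 0 ≤ √2 / 2 := by positivity
    linarith
  κ_disj := by
    rw [Set.disjoint_left]
    rintro _ ⟨z, rfl⟩ hz
    obtain ⟨v, h1, h2, h3⟩ := t.mem_β_one hz
    obtain ⟨h4, -⟩ := Bm_inj (by simp) h2 h3
    have h5 := (Prod.mk.inj (t.s.injective h4)).2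
    rw [← Ec_zero, ← Ec_one] at h5
    have := Ec_inj' (by norm_num) (by simp) h5
    norm_num at this
  j_cont := t.jj_cont
  j_inj := t.jj_inj
  j_mem := by
    intro p hp
    rw [t.S_eq]
    exact t.jj_mem hp
  j_open := by
    rw [t.S_eq]
    exact t.jj_open
  j_zero := by
    rw [t.β_zero]
    ext y
    constructor
    · rintro ⟨⟨s, ω⟩, ⟨hs, -⟩, rfl⟩
      have hs' : s = 0 := hs
      subst hs'
      refine ⟨_, ⟨sqc ω, sqc_mem ω, rfl⟩, ?_⟩
      unfold Q jj
      rw [fβ_zero]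
      simp only [E2, sg_true, Ec_one, mul_zero, Circle.exp_zero]
    · rintro ⟨_, ⟨v, hv, rfl⟩, rfl⟩
      obtain ⟨ω, hω⟩ := sqc_surj hv
      refine ⟨(0, ω), ⟨rfl, mem_univ _⟩, ?_⟩
      unfold Q jj
      rw [fβ_zero]
      simp only [E2, sg_true, Ec_one, mul_zero, Circle.exp_zero]
      rw [hω]
  j_disj := by
    rw [Set.disjoint_left]
    rintro _ ⟨⟨s, ω⟩, ⟨hs, -⟩, rfl⟩ hz
    obtain ⟨v, h1, h2, h3⟩ := t.mem_β_one hz
    obtain ⟨h4, -⟩ := Bm_inj (sqc_le ω).2 h2 h3
    have h5 := (Prod.mk.inj (t.s.injective h4)).2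
    rw [← Ec_one] at h5
    have h6 := Ec_inj' (sqc_le' ω) (by simp) h5
    have h7 := sqc_le' ω
    rw [h6] at h7
    norm_num at h7
  cross := by
    intro s hs
    unfold κ jj
    simp only
    rw [sqc_one]
    simp only [mul_zero, Ec_zero]
  only := by
    rintro z ⟨⟨s, ω⟩, ⟨hs, -⟩, h⟩
    obtain ⟨h1, -⟩ := Bm_inj (sqc_le ω).2 (by simp) h
    have h2 := (Prod.mk.inj (t.s.injective h1)).1
    rw [← h2]
    exact re_exp_half hs

end Twist

end

end Pool.Agent.H72.Tri
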