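import Pool.Agent.H72.Tri.Model4

/-!
# Circle-valued maps on `S¹ × S²`; comparison with the round sphere
-/

open Set Topology Metric unitInterval

namespace Pool.Agent.H72.Tri

noncomputable section

/-- The closed upper and lower parts of `S¹ × S²`. -/
def cap (ε : ℝ) : Set Y0 := {y | 0 ≤ ε * (y.2 : ℂ × ℝ).2}

theorem isClosed_cap (ε : ℝ) : IsClosed (cap ε) :=
  isClosed_le continuous_const (continuous_const.mul
    (continuous_snd.comp (continuous_subtype_val.comp continuous_snd)))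

theorem null_cap {ε : ℝ} (hε : ε ^ 2 = 1) {χ : Y0 → Circle} (hχ : Continuous χ)
    (h : NullOn (fun z => χ (z, mk (0, ε))) (univ : Set Circle)) : NullOn χ (cap ε) := by
  let v : I × cap ε → ℂ × ℝ := fun p => (p.1 : ℝ) • ((p.2 : Y0).2 : ℂ × ℝ) +
    (1 - (p.1 : ℝ)) • ((0, ε) : ℂ × ℝ)
  have hv : Continuous v := by fun_prop
  have hr : ∀ p, ε * (v p).2 = p.1 * (ε * ((p.2 : Y0).2 : ℂ × ℝ).2) + (1 - (p.1 : ℝ)) := by
    intro p
    simp only [v, Prod.snd_add, Prod.smul_snd, smul_eq_mul]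
    have : ε * ((1 - (p.1 : ℝ)) * ε) = (1 - (p.1 : ℝ)) * ε ^ 2 := by ring
    rw [mul_add, this, hε]
    ring
  have hv0 : ∀ p, v p ≠ 0 := by
    intro p h0
    have h1 := hr p
    rw [h0] at h1
    simp only [Prod.snd_zero, mul_zero] at h1
    have h3 : 0 ≤ ε * ((p.2 : Y0).2 : ℂ × ℝ).2 := p.2.2
    have h4 := p.1.2.1
    have h5 := p.1.2.2
    have h6 : (p.1 : ℝ) = 1 := by
      have := mul_nonneg h4 h3
      linarith
    have h7 : v p = ((p.2 : Y0).2 : ℂ × ℝ) := by simp [v, h6]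
    rw [h7] at h0
    have := ((p.2 : Y0).2).2
    rw [h0] at this
    simp at this
  have hsph : ∀ p, ‖v p‖⁻¹ • v p ∈ sphere (0 : ℂ × ℝ) 1 := by
    intro p
    have hn : 0 < ‖v p‖ := norm_pos_iff.2 (hv0 p)
    rw [mem_sphere_iff_norm, sub_zero, norm_smul, norm_inv, norm_norm]
    exact inv_mul_cancel₀ hn.ne'
  refine nullOn_of_homotopy hχ.continuousOn
    (fun p => (((p.2 : Y0).1, mk (‖v p‖⁻¹ • v p)) : Y0)) ?_ ?_ ?_ ?_
  · refine Continuous.prodMk (by fun_prop) ?_
    rw [← continuousOn_univ]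
    refine contOn_mk ?_ (fun p _ => hsph p)
    exact ((hv.norm.inv₀ fun p => norm_ne_zero_iff.2 (hv0 p)).smul hv).continuousOn
  · intro p
    have hn : 0 < ‖v p‖ := norm_pos_iff.2 (hv0 p)
    unfold cap
    rw [mem_ofPred_eq, mk_coe (hsph p)]
    simp only [Prod.smul_snd, smul_eq_mul]
    have h1 : ε * (‖v p‖⁻¹ * (v p).2) = ‖v p‖⁻¹ * (ε * (v p).2) := by ring
    rw [h1, hr p]
    have h3 : 0 ≤ ε * ((p.2 : Y0).2 : ℂ × ℝ).2 := p.2.2
    have h4 := p.1.2.1
    have h5 := p.1.2.2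
    have := mul_nonneg h4 h3
    have h6 : 0 ≤ ‖v p‖⁻¹ := by positivity
    apply mul_nonneg h6
    linarith
  · have key : ∀ x : cap ε, mk (‖v (0, x)‖⁻¹ • v (0, x)) = mk (0, ε) := by
      intro x
      have h1 : v (0, x) = (0, ε) := by simp [v]
      have h2 : ‖((0, ε) : ℂ × ℝ)‖ = 1 := by
        rw [Prod.norm_def]
        have : |ε| = 1 := by
          rw [← sq_abs] at hε
          have := abs_nonneg ε
          nlinarith
        simp [this]
      rw [h1, h2]
      simp
    refine (h.comp (f := fun x : cap ε => (x : Y0).1) (by fun_prop)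
      (fun _ _ => mem_univ _)).congr fun x _ => ?_
    simp only
    rw [key]
  · intro x
    have h1 : v (1, x) = ((x : Y0).2 : ℂ × ℝ) := by simp [v]
    have h2 : ‖((x : Y0).2 : ℂ × ℝ)‖ = 1 := by
      simp
    simp only
    rw [h1, h2, inv_one, one_smul, mk_eq]

/-- **Circle-valued maps on `S¹ × S²`** are, up to maps with a logarithm, the powers of the
projection. -/
theorem HY0 (φ : Y0 → Circle) (hφ : Continuous φ) :
    ∃ k : ℤ, NullOn (fun x => φ x * x.1 ^ (-k)) univ := by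
  have hd : ∀ ε : ℝ, ε ^ 2 = 1 → ∃ d : ℤ, NullOn (fun x => φ x * x.1 ^ (-d)) (cap ε) := by
    intro ε hε
    obtain ⟨d, hd⟩ := exists_hasDeg (f := fun z => φ (z, mk (0, ε))) (hφ.comp (by fun_prop))
    refine ⟨d, null_cap hε (hφ.mul (continuous_fst.zpow (-d))) ?_⟩
    have h1 := hd.mul (hasDeg_id.zpow (-d))
    have h2 : d + 1 * -d = 0 := by ring
    rw [h2] at h1
    exact h1.null
  obtain ⟨d, h1⟩ := hd 1 (by norm_num)
  obtain ⟨e, h2⟩ := hd (-1) (by norm_num)
  have hs : ∀ w : Circle, ((w : ℂ), (0 : ℝ)) ∈ sphere (0 : ℂ × ℝ) 1 := fun w =>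
    mem_sph_of (by simp) (by simp)
  have hmem : ∀ (ε : ℝ) (z w : Circle), ((z, mk ((w : ℂ), 0)) : Y0) ∈ cap ε := by
    intro ε z w
    unfold cap
    rw [mem_ofPred_eq, mk_coe (hs w)]
    simp
  have hcont : Continuous fun z : Circle => ((z, mk (((1 : Circle) : ℂ), 0)) : Y0) := by
    fun_prop
  have key : ∀ (ε : ℝ) (d : ℤ), NullOn (fun x => φ x * x.1 ^ (-d)) (cap ε) →
      HasDeg (fun z => φ (z, mk (((1 : Circle) : ℂ), 0))) d := by
    intro ε d h
    have h3 : NullOn (fun z : Circle => φ (z, mk (((1 : Circle) : ℂ), 0)) * z ^ (-d)) univ :=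
      h.comp (f := fun z : Circle => ((z, mk (((1 : Circle) : ℂ), 0)) : Y0))
        hcont.continuousOn (fun z _ => hmem ε z 1)
    have h4 := (hasDeg_zero_of_null h3).mul (hasDeg_id.zpow d)
    rw [zero_add, one_mul] at h4
    refine h4.congr fun z => ?_
    rw [mul_assoc, ← zpow_add, neg_add_cancel, zpow_zero, mul_one]
  have hde : d = e := (key _ _ h1).unique (key _ _ h2)
  subst hde
  refine ⟨d, ?_⟩
  have hU : cap 1 ∪ cap (-1) = univ := by
    apply eq_univ_of_forall
    intro y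
    rcases le_total 0 (y.2 : ℂ × ℝ).2 with h | h
    · left
      unfold cap
      rw [mem_ofPred_eq]
      linarith
    · right
      unfold cap
      rw [mem_ofPred_eq]
      linarith
  rw [← hU]
  refine NullOn.union (isClosed_cap 1) (isClosed_cap (-1)) h1 h2 ?_
  have : cap 1 ∩ cap (-1) = (fun p : Circle × Circle => ((p.1, mk ((p.2 : ℂ), 0)) : Y0)) '' univ := by
    ext y
    constructor
    · rintro ⟨ha, hb⟩
      have ha' : 0 ≤ 1 * (y.2 : ℂ × ℝ).2 := ha
      have hb' : 0 ≤ -1 * (y.2 : ℂ × ℝ).2 := hb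
      have h0 : (y.2 : ℂ × ℝ).2 = 0 := by linarith
      have h3 : ‖(y.2 : ℂ × ℝ).1‖ = 1 := by
        rcases (sph_cases y.2).2.2 with h | h
        · exact h
        · rw [h0] at h; simp at h
      refine ⟨(y.1, ⟨(y.2 : ℂ × ℝ).1, mem_sphere_zero_iff_norm.2 h3⟩), mem_univ _, ?_⟩
      refine Prod.ext rfl ?_
      change mk ((y.2 : ℂ × ℝ).1, 0) = y.2
      rw [← h0]
      exact mk_eq y.2
    · rintro ⟨p, -, rfl⟩
      exact ⟨hmem 1 p.1 p.2, hmem (-1) p.1 p.2⟩
  rw [this]
  refine isPreconnected_univ.image _ ?_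
  refine ContinuousOn.prodMk continuousOn_fst ?_
  refine contOn_mk ?_ (fun p _ => hs p.2)
  exact ((continuous_subtype_val.comp continuous_snd).prodMk continuous_const).continuousOn

/-! ### The round sphere -/

section
variable {E F : Type*} [NormedAddCommGroup E] [NormedSpace ℝ E] [NormedAddCommGroup F]
  [NormedSpace ℝ F]

theorem radial_mem (e : E ≃L[ℝ] F) (x : sphere (0 : E) 1) :
    ‖e x‖⁻¹ • e x ∈ sphere (0 : F) 1 := by
  have hx : (x : E) ≠ 0 := by
    intro h
    have := x.2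
    rw [h] at this
    simp at this
  have h1 : e x ≠ 0 := by simpa using hx
  have h2 : 0 < ‖e x‖ := norm_pos_iff.2 h1
  rw [mem_sphere_iff_norm, sub_zero, norm_smul, norm_inv, norm_norm]
  exact inv_mul_cancel₀ h2.ne'

theorem radial_inv (e : E ≃L[ℝ] F) (x : sphere (0 : E) 1) :
    ‖e.symm (‖e x‖⁻¹ • e x)‖⁻¹ • e.symm (‖e x‖⁻¹ • e x) = (x : E) := by
  have hx : (x : E) ≠ 0 := by
    intro h
    have := x.2
    rw [h] at this
    simp at this
  have hx1 : ‖(x : E)‖ = 1 := by
    simp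
  have h1 : e x ≠ 0 := by simpa using hx
  have h2 : 0 < ‖e x‖ := norm_pos_iff.2 h1
  rw [map_smul, ContinuousLinearEquiv.symm_apply_apply, norm_smul, norm_inv, norm_norm, hx1,
    mul_one, inv_inv, smul_smul, mul_inv_cancel₀ h2.ne', one_smul]

/-- Unit spheres of isomorphic normed spaces are homeomorphic. -/
def sphereHomeo (e : E ≃L[ℝ] F) : sphere (0 : E) 1 ≃ₜ sphere (0 : F) 1 where
  toFun x := ⟨‖e x‖⁻¹ • e x, radial_mem e x⟩
  invFun y := ⟨‖e.symm y‖⁻¹ • e.symm y, radial_mem e.symm y⟩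
  left_inv x := Subtype.ext (radial_inv e x)
  right_inv y := Subtype.ext (by
    have := radial_inv e.symm y
    simpa using this)
  continuous_toFun := by
    refine Continuous.subtype_mk ?_ _
    have h1 : Continuous fun x : sphere (0 : E) 1 => e (x : E) :=
      e.continuous.comp continuous_subtype_val
    refine Continuous.smul (h1.norm.inv₀ fun x => ?_) h1
    intro h
    have h2 := radial_mem e x
    rw [h] at h2
    simp at h2
  continuous_invFun := by
    refine Continuous.subtype_mk ?_ _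
    have h1 : Continuous fun x : sphere (0 : F) 1 => e.symm (x : F) :=
      e.symm.continuous.comp continuous_subtype_val
    refine Continuous.smul (h1.norm.inv₀ fun x => ?_) h1
    intro h
    have h2 := radial_mem e.symm x
    rw [h] at h2
    simp at h2

end

/-- The model is homeomorphic to the product of the circle and the round two-sphere. -/
theorem exists_homeo : ∃ Ψ : Y0 ≃ₜ Circle × sphere (0 : EuclideanSpace ℝ (Fin 3)) 1,
    ∀ y, (Ψ y).1 = y.1 := by
  have h : Module.finrank ℝ (ℂ × ℝ) = Module.finrank ℝ (EuclideanSpace ℝ (Fin 3)) := by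
    rw [Module.finrank_prod, Complex.finrank_real_complex, Module.finrank_self,
      finrank_euclideanSpace, Fintype.card_fin]
  let e : (ℂ × ℝ) ≃L[ℝ] EuclideanSpace ℝ (Fin 3) := ContinuousLinearEquiv.ofFinrankEq h
  exact ⟨(Homeomorph.refl Circle).prodCongr (sphereHomeo e), fun y => rfl⟩

end

end Pool.Agent.H72.Tri
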