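import Pool.Agent.H72.Tri.Model5
import Pool.Agent.H72.Tri.Inv2

/-!
# All coprime pairs of jumps are realised
-/

open Set Topology Metric

namespace Pool.Agent.H72.Tri

noncomputable section

/-- There is a twist for which the projection `S¹ × S² → S¹` has the jumps `(n, m)`; `f` is a lift
of the first coordinate of the twist. -/
def Reach (n m : ℤ) : Prop :=
  ∃ (t : Twist) (f : ℝ × ℝ → ℝ), Fixes t.s ∧ Continuous f ∧
    (∀ x y, (t.s (Circle.exp x, Circle.exp y)).1 = Circle.exp (f (x, y))) ∧
    ∀ (x y : ℝ) (i j : ℤ), f (x + i * (2 * Real.pi), y + j * (2 * Real.pi)) =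
      f (x, y) + (n * i + m * j : ℤ) * (2 * Real.pi)

theorem Reach.base : Reach 1 0 :=
  ⟨Twist.ofFix (Homeomorph.refl _) fun _ _ _ => rfl, fun p => p.1, fun _ _ _ => rfl,
    continuous_fst, fun _ _ => rfl, fun x y i j => by push_cast; ring⟩

theorem Fixes.trans {s s' : Circle × Circle ≃ₜ Circle × Circle} (h : Fixes s) (h' : Fixes s') :
    Fixes (s.trans s') := by
  intro p h1 h2
  change s' (s p) = p
  rw [h p h1 h2, h' p h1 h2]

theorem Reach.U {n m : ℤ} (h : Reach n m) (a : ℤ) : Reach n (m + a * n) := by
  obtain ⟨t, f, hfix, fc, hf, he⟩ := h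
  refine ⟨Twist.ofFix ((Um a).trans t.s) ((fix_Um a).trans hfix),
    fun p => f (p.1 + a * T2 p.2, p.2), (fix_Um a).trans hfix, ?_, ?_, ?_⟩
  · exact fc.comp ((continuous_fst.add (continuous_const.mul
      (continuous_T2.comp continuous_snd))).prodMk continuous_snd)
  · intro x y
    change (t.s (Circle.exp x * τ2 (Circle.exp y) ^ a, Circle.exp y)).1 = _
    simp only
    rw [← hf, Circle.exp_add, Circle.exp_intCast_mul, exp_T2]
  · intro x y i j
    simp only
    rw [T2_add]
    have e : x + i * (2 * Real.pi) + a * (T2 y + j * (2 * Real.pi)) =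
        (x + a * T2 y) + ((i + a * j : ℤ) : ℝ) * (2 * Real.pi) := by push_cast; ring
    rw [e, he]
    push_cast
    ring

theorem Reach.L {n m : ℤ} (h : Reach n m) (b : ℤ) : Reach (n + b * m) m := by
  obtain ⟨t, f, hfix, fc, hf, he⟩ := h
  refine ⟨Twist.ofFix ((Lm b).trans t.s) ((fix_Lm b).trans hfix),
    fun p => f (p.1, p.2 + b * Tt p.1), (fix_Lm b).trans hfix, ?_, ?_, ?_⟩
  · exact fc.comp (continuous_fst.prodMk (continuous_snd.add (continuous_const.mul
      (continuous_Tt.comp continuous_fst))))
  · intro x y
    change (t.s (Circle.exp x, Circle.exp y * τ (Circle.exp x) ^ b)).1 = _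
    simp only
    rw [← hf, Circle.exp_add, Circle.exp_intCast_mul, exp_Tt]
  · intro x y i j
    simp only
    rw [Tt_add]
    have e : y + j * (2 * Real.pi) + b * (Tt x + i * (2 * Real.pi)) =
        (y + b * Tt x) + ((j + b * i : ℤ) : ℝ) * (2 * Real.pi) := by push_cast; ring
    rw [e, he]
    push_cast
    ring

theorem Reach.zero_one : Reach 0 1 := by
  have h1 : Reach 1 1 := by simpa using Reach.base.U 1
  simpa using h1.L (-1)

theorem Reach.zero_neg_one : Reach 0 (-1) := by
  have h1 : Reach 1 (-1) := by simpa using Reach.base.U (-1)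
  simpa using h1.L 1

theorem Reach.neg_one_zero : Reach (-1) 0 := by
  have h1 : Reach 1 1 := by simpa using Reach.base.U 1
  have h2 : Reach (-1) 1 := by simpa using h1.L (-2)
  simpa using h2.U 1

/-- **All coprime pairs are realised.** -/
theorem reach_of_coprime : ∀ (k : ℕ) (n m : ℤ), m.natAbs ≤ k → IsCoprime n m → Reach n m := by
  intro k
  induction k with
  | zero =>
    intro n m hm h
    have hm0 : m = 0 := by
      have : m.natAbs = 0 := by omega
      exact Int.natAbs_eq_zero.1 this
    subst hm0
    rw [isCoprime_zero_right] at h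
    rcases Int.isUnit_iff.1 h with rfl | rfl
    · exact Reach.base
    · exact Reach.neg_one_zero
  | succ k ih =>
    intro n m hm h
    by_cases hm0 : m = 0
    · exact ih n m (by rw [hm0]; simp) h
    -- reduce `n` modulo `m`
    have hr0 : 0 ≤ n % m := Int.emod_nonneg n hm0
    have hr1 : n % m < |m| := Int.emod_lt_abs n hm0
    have hn : n % m + n / m * m = n := Int.emod_add_ediv_mul n m
    have hco : IsCoprime (n % m) m := by
      have := h
      rw [← hn] at this
      exact (IsCoprime.add_mul_right_left_iff).1 this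
    suffices hR : Reach (n % m) m by
      have := hR.L (n / m)
      rwa [hn] at this
    by_cases hz : n % m = 0
    · rw [hz] at hco ⊢
      rw [isCoprime_zero_left] at hco
      rcases Int.isUnit_iff.1 hco with rfl | rfl
      · exact Reach.zero_one
      · exact Reach.zero_neg_one
    · have hpos : 0 < n % m := lt_of_le_of_ne hr0 (Ne.symm hz)
      have hs0 : 0 ≤ m % (n % m) := Int.emod_nonneg m hz
      have hs1 : m % (n % m) < n % m := Int.emod_lt_of_pos m hpos
      have hm' : m % (n % m) + m / (n % m) * (n % m) = m := Int.emod_add_ediv_mul m (n % m)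
      have hco' : IsCoprime (n % m) (m % (n % m)) := by
        have key : ∀ r : ℤ, IsCoprime r m → IsCoprime r (m % r) := by
          intro r hr
          have h3 := IsCoprime.add_mul_left_right_iff (x := r) (y := m % r) (z := m / r)
          rw [Int.emod_add_mul_ediv] at h3
          exact h3.1 hr
        exact key _ hco
      have h4 : Reach (n % m) (m % (n % m)) := by
        refine ih _ _ ?_ hco'
        have : |m| = m.natAbs := Int.abs_eq_natAbs m
        omega
      have h5 := h4.U (m / (n % m))
      rwa [hm'] at h5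

end

end Pool.Agent.H72.Tri
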