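import Pool.Agent.H72.Tri.Univ

/-!
# The type of an induced trisection: the theorem
-/

open Set Topology Metric

namespace Pool.Agent.H72.Tri

theorem nullOn_one {Z : Type*} [TopologicalSpace Z] (C : Set Z) :
    NullOn (fun _ : Z => (1 : Circle)) C := nullOn_of_const (c := 1) fun _ _ => rfl

variable {Y : Type*} [TopologicalSpace Y] {P : Splitting Y}

namespace Handlebody

theorem isPreconnected_curve {Z : Type*} [TopologicalSpace Z] {g : ℕ} (V : Handlebody Z g)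
    (i : Fin g) : IsPreconnected (V.curve i) := by
  have h2 : V.curve i = (fun v => V.q (V.e (i, true) v)) '' discBd := by
    simp only [curve, image_image]
  rw [h2]
  exact isPreconnected_discBd.image _ ((V.contOn_qe _).mono discBd_subset)

theorem isCompact_curve {Z : Type*} [TopologicalSpace Z] {g : ℕ} (V : Handlebody Z g)
    (i : Fin g) : IsCompact (V.curve i) := by
  have h2 : V.curve i = (fun v => V.q (V.e (i, true) v)) '' discBd := by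
    simp only [curve, image_image]
  rw [h2]
  exact isCompact_discBd.image_of_continuousOn ((V.contOn_qe _).mono discBd_subset)

end Handlebody

/-- The data of `Placement.Induces`, unpacked. -/
structure Data (K : Placement P) {X : Type*} [TopologicalSpace X] (Xi : Fin 3 → Set X) where
  T : Tube K
  p : Y → X
  Wα : Handlebody X 3
  Wβ : Handlebody X 3
  Wγ : Handlebody X 3
  hG : Glue T p
  F : p '' T.E = (⋂ i, Xi i)
  αc : Wα.carrier = Xi 0 ∩ Xi 1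
  αb : Wα.bd = ⋂ i, Xi i
  α0 : Wα.curve 0 = p '' P.α 0
  α1 : Wα.curve 1 = p '' P.α 1
  α2 : Wα.curve 2 = p '' T.bdD
  βc : Wβ.carrier = Xi 0 ∩ Xi 2
  βb : Wβ.bd = ⋂ i, Xi i
  β0 : Wβ.curve 0 = p '' P.β 0
  β1 : Wβ.curve 1 = p '' P.β 1
  β2 : Wβ.curve 2 = p '' K.arcB
  γc : Wγ.carrier = Xi 1 ∩ Xi 2
  γb : Wγ.bd = ⋂ i, Xi i
  γ0 : Wγ.curve 0 = p '' K.γ₁
  γ1 : Wγ.curve 1 = p '' P.β 1
  γ2 : Wγ.curve 2 = p '' K.arcC

theorem exists_data {K : Placement P} {X : Type*} [TopologicalSpace X] {Xi : Fin 3 → Set X}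
    (h : K.Induces Xi) : Nonempty (Data K Xi) := by
  obtain ⟨T, p, Wα, Wβ, Wγ, h1, h2, h3, ⟨a1, a2, a3, a4, a5⟩, ⟨b1, b2, b3, b4, b5⟩,
    ⟨c1, c2, c3, c4, c5⟩⟩ := h
  exact ⟨⟨T, p, Wα, Wβ, Wγ, ⟨h1, h3⟩, h2, a1, a2, a3, a4, a5, b1, b2, b3, b4, b5,
    c1, c2, c3, c4, c5⟩⟩

namespace Data

variable {K : Placement P} {X : Type*} [TopologicalSpace X] [T2Space X] {Xi : Fin 3 → Set X}
  (D : Data K Xi)

/-- extension over `H_α` -/
theorem ext_α {φ : X → Circle} (hφ : ContinuousOn φ (⋂ i, Xi i)) :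
    (∃ Φ : X → Circle, ContinuousOn Φ (Xi 0 ∩ Xi 1) ∧ EqOn Φ φ (⋂ i, Xi i)) ↔
      NullOn φ (D.p '' P.α 0) ∧ NullOn φ (D.p '' P.α 1) ∧ NullOn φ (D.p '' D.T.bdD) := by
  have h := ext_iff D.Wα (φ := φ) (by rw [D.αb]; exact hφ)
  rw [D.αb, D.αc] at h
  rw [h, Fin.forall_fin_succ, Fin.forall_fin_succ, Fin.forall_fin_one]
  rw [← D.α0, ← D.α1, ← D.α2]
  rfl

theorem ext_β {φ : X → Circle} (hφ : ContinuousOn φ (⋂ i, Xi i)) :
    (∃ Φ : X → Circle, ContinuousOn Φ (Xi 0 ∩ Xi 2) ∧ EqOn Φ φ (⋂ i, Xi i)) ↔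
      NullOn φ (D.p '' P.β 0) ∧ NullOn φ (D.p '' P.β 1) ∧ NullOn φ (D.p '' K.arcB) := by
  have h := ext_iff D.Wβ (φ := φ) (by rw [D.βb]; exact hφ)
  rw [D.βb, D.βc] at h
  rw [h, Fin.forall_fin_succ, Fin.forall_fin_succ, Fin.forall_fin_one]
  rw [← D.β0, ← D.β1, ← D.β2]
  rfl

theorem ext_γ {φ : X → Circle} (hφ : ContinuousOn φ (⋂ i, Xi i)) :
    (∃ Φ : X → Circle, ContinuousOn Φ (Xi 1 ∩ Xi 2) ∧ EqOn Φ φ (⋂ i, Xi i)) ↔
      NullOn φ (D.p '' K.γ₁) ∧ NullOn φ (D.p '' P.β 1) ∧ NullOn φ (D.p '' K.arcC) := by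
  have h := ext_iff D.Wγ (φ := φ) (by rw [D.γb]; exact hφ)
  rw [D.γb, D.γc] at h
  rw [h, Fin.forall_fin_succ, Fin.forall_fin_succ, Fin.forall_fin_one]
  rw [← D.γ0, ← D.γ1, ← D.γ2]
  rfl

theorem mem_G0 (φ : X → Circle) : φ ∈ G Xi 0 ↔ ContinuousOn φ (⋂ i, Xi i) ∧
    (NullOn φ (D.p '' P.α 0) ∧ NullOn φ (D.p '' P.α 1) ∧ NullOn φ (D.p '' D.T.bdD)) ∧
    (NullOn φ (D.p '' P.β 0) ∧ NullOn φ (D.p '' P.β 1) ∧ NullOn φ (D.p '' K.arcB)) := by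
  constructor
  · rintro ⟨h1, h2⟩
    exact ⟨h1, (D.ext_α h1).1 (h2 1 (by decide)), (D.ext_β h1).1 (h2 2 (by decide))⟩
  · rintro ⟨h1, h2, h3⟩
    refine ⟨h1, fun j hj => ?_⟩
    fin_cases j
    · exact absurd rfl hj
    · exact (D.ext_α h1).2 h2
    · exact (D.ext_β h1).2 h3

theorem mem_G1 (φ : X → Circle) : φ ∈ G Xi 1 ↔ ContinuousOn φ (⋂ i, Xi i) ∧
    (NullOn φ (D.p '' P.α 0) ∧ NullOn φ (D.p '' P.α 1) ∧ NullOn φ (D.p '' D.T.bdD)) ∧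
    (NullOn φ (D.p '' K.γ₁) ∧ NullOn φ (D.p '' P.β 1) ∧ NullOn φ (D.p '' K.arcC)) := by
  constructor
  · rintro ⟨h1, h2⟩
    refine ⟨h1, (D.ext_α h1).1 ?_, (D.ext_γ h1).1 (h2 2 (by decide))⟩
    have := h2 0 (by decide)
    rwa [inter_comm] at this
  · rintro ⟨h1, h2, h3⟩
    refine ⟨h1, fun j hj => ?_⟩
    fin_cases j
    · have := (D.ext_α h1).2 h2
      rwa [inter_comm] at this
    · exact absurd rfl hj
    · exact (D.ext_γ h1).2 h3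

theorem mem_G2 (φ : X → Circle) : φ ∈ G Xi 2 ↔ ContinuousOn φ (⋂ i, Xi i) ∧
    (NullOn φ (D.p '' P.β 0) ∧ NullOn φ (D.p '' P.β 1) ∧ NullOn φ (D.p '' K.arcB)) ∧
    (NullOn φ (D.p '' K.γ₁) ∧ NullOn φ (D.p '' P.β 1) ∧ NullOn φ (D.p '' K.arcC)) := by
  constructor
  · rintro ⟨h1, h2⟩
    refine ⟨h1, (D.ext_β h1).1 ?_, (D.ext_γ h1).1 ?_⟩
    · have := h2 0 (by decide)
      rwa [inter_comm] at this
    · have := h2 1 (by decide)
      rwa [inter_comm] at this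
  · rintro ⟨h1, h2, h3⟩
    refine ⟨h1, fun j hj => ?_⟩
    fin_cases j
    · have := (D.ext_β h1).2 h2
      rwa [inter_comm] at this
    · have := (D.ext_γ h1).2 h3
      rwa [inter_comm] at this
    · exact absurd rfl hj

end Data

end Pool.Agent.H72.Tri
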