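import Pool.Agent.H72.Tri.TypeThm

/-!
# The type of an induced trisection: generators
-/

open Set Topology Metric

namespace Pool.Agent.H72.Tri

variable {Y : Type*} [TopologicalSpace Y] {P : Splitting Y}

theorem glue_Y [T2Space Y] {ψ : Y → Circle} (hψ : ContinuousOn ψ P.S)
    (ha : ∀ i, NullOn ψ (P.α i)) (hb : ∀ i, NullOn ψ (P.β i)) :
    ∃ Φ : Y → Circle, Continuous Φ ∧ EqOn Φ ψ P.S := by
  classical
  have hψ' : ContinuousOn ψ P.Vα.bd := by rw [P.bd_eq]; exact hψ
  obtain ⟨Φα, αc, αe⟩ := P.Vα.extend hψ' ha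
  obtain ⟨Φβ, βc, βe⟩ := P.Vβ.extend hψ hb
  let Φ : Y → Circle := fun x => if x ∈ P.Vα.carrier then Φα x else Φβ x
  have h1 : EqOn Φ Φα P.Vα.carrier := fun x hx => if_pos hx
  have h2 : EqOn Φ Φβ P.Vβ.carrier := by
    intro x hx
    by_cases hxa : x ∈ P.Vα.carrier
    · rw [h1 hxa]
      have h3 : x ∈ P.Vα.bd := by rw [← P.inter]; exact ⟨hxa, hx⟩
      rw [αe h3]
      rw [P.bd_eq] at h3
      exact (βe h3).symm
    · exact if_neg hxa
  refine ⟨Φ, ?_, ?_⟩
  · rw [← continuousOn_univ, ← P.cover]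
    exact (αc.congr h1).union_of_isClosed (βc.congr h2) P.Vα.isCompact_carrier.isClosed
      P.Vβ.isCompact_carrier.isClosed
  · intro x hx
    rw [h2 (P.Vβ.bd_subset hx)]
    exact βe hx

variable {K : Placement P} {T : Tube K} {X : Type*} [TopologicalSpace X] {p : Y → X}

theorem Glue.null_bdD' (hG : Glue T p) {φ : X → Circle} (h : NullOn φ (p '' T.bdD)) :
    NullOn (fun x => φ (p x)) T.bdD' :=
  hG.pull T.bdD'_sub_E (h.mono hG.image_bdD')

theorem Glue.null_bdD (hG : Glue T p) {φ : X → Circle}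
    (h : NullOn (fun x => φ (p x)) T.bdD') : NullOn (fun x => φ (p x)) T.bdD := by
  refine (h.comp T.ρ_cont (fun x hx => T.ρ_mem hx)).congr fun x hx => ?_
  simp only [hG.pρ hx]

theorem Glue.contOn (hG : Glue T p) {φ : X → Circle} (h : ContinuousOn φ (p '' T.E)) :
    ContinuousOn (fun x => φ (p x)) T.E :=
  h.comp hG.cont (fun x hx => ⟨x, hx, rfl⟩)

theorem Lift.null_image [T2Space X] {Q : Set Y} {Φ : Y → Circle} {φ : X → Circle} {g : Y → ℝ}
    (hG : Glue T p) (hL : Lift T p Q Φ φ g) {C : Set Y} (hC : C ⊆ T.E) (hc : IsCompact C)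
    (hd : Disjoint C T.bdD) (h : NullOn Φ C) : NullOn φ (p '' C) :=
  hG.push hC hc hd (hL.null_pull hC h)

/-- The map `u` generates: every map on the cut surface which extends over both handlebodies
is a power of `u` times a map with a logarithm. -/
theorem exists_power [T2Space Y] [NormalSpace Y] {u : Y → Circle}
    (HY : ∀ φ : Y → Circle, Continuous φ → ∃ k : ℤ, NullOn (fun x => φ x * u x ^ (-k)) univ)
    {φ : Y → Circle} (hφ : ContinuousOn φ T.E) (h1 : NullOn φ T.bdD) (h2 : NullOn φ T.bdD')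
    (ha : ∀ i, NullOn φ (P.α i)) (hb : NullOn φ (P.β 1))
    (hb0 : NullOn φ (P.β 0) ∨ NullOn φ K.γ₁) :
    ∃ k : ℤ, NullOn (fun x => φ x * u x ^ (-k)) T.E := by
  obtain ⟨ψ, ψc, ψe⟩ := T.extend_S hφ h1 h2
  have e0 : NullOn ψ (P.β 0) := by
    rcases hb0 with h | h
    · exact h.congr (fun x hx => ψe (T.β0_sub hx))
    · exact null_β0 ψc (h.congr (fun x hx => ψe (T.γ₁_sub hx)))
  obtain ⟨Φ, Φc, Φe⟩ := glue_Y ψc
    (fun i => (ha i).congr (fun x hx => ψe (T.α_sub i hx))) (by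
      intro i
      fin_cases i
      · exact e0
      · exact hb.congr (fun x hx => ψe (T.β1_sub hx)))
  obtain ⟨k, hk⟩ := HY Φ Φc
  refine ⟨k, (hk.mono (subset_univ T.E)).congr fun x hx => ?_⟩
  simp only
  rw [Φe (T.E_sub_S hx), ψe hx]

theorem isCompact_γ₁ : IsCompact K.γ₁ := by
  refine (isCompact_singleton.prod isCompact_univ).image_of_continuousOn (K.j_cont.mono ?_)
  rintro ⟨s, z⟩ ⟨hs, -⟩
  have hs' : s = 1 := hs
  subst hs'
  exact ⟨by norm_num, mem_univ _⟩

theorem disj_α_bdD (i : Fin 2) : Disjoint (P.α i) T.bdD :=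
  ((T.disj_α i).mono_left T.bdD_sub).symm

theorem disj_β1_bdD : Disjoint (P.β 1) T.bdD := (T.disj_β.mono_left T.bdD_sub).symm

theorem disj_β0_bdD : Disjoint (P.β 0) T.bdD := by
  rw [← K.j_zero]
  refine T.disj_bdD_j ?_
  rintro ⟨s, z⟩ ⟨hs, -⟩
  have hs' : s = 0 := hs
  subst hs'
  exact ⟨by norm_num, mem_univ _⟩

theorem disj_γ₁_bdD : Disjoint K.γ₁ T.bdD := by
  refine T.disj_bdD_j ?_
  rintro ⟨s, z⟩ ⟨hs, -⟩
  have hs' : s = 1 := hs
  subst hs'
  exact ⟨by norm_num, mem_univ _⟩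

theorem isCompact_α (i : Fin 2) : IsCompact (P.α i) := P.Vα.isCompact_curve i
theorem isCompact_β (i : Fin 2) : IsCompact (P.β i) := P.Vβ.isCompact_curve i

theorem arcB_QB : K.arcB ⊆ T.QB := fun _ h => Or.inl (Or.inl h)
theorem arcC_QC : K.arcC ⊆ T.QC := fun _ h => Or.inl (Or.inl h)
theorem bdD_QB : T.bdD ⊆ T.QB := fun _ h => Or.inr (T.bdD_sub h)
theorem bdD_QC : T.bdD ⊆ T.QC := fun _ h => Or.inr (T.bdD_sub h)
theorem bdD_QK : T.bdD ⊆ T.QK := fun _ h => Or.inr (T.bdD_sub h)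
theorem bdD'_QB : T.bdD' ⊆ T.QB := fun _ h => Or.inl (Or.inr (T.bdD'_sub h))
theorem bdD'_QC : T.bdD' ⊆ T.QC := fun _ h => Or.inl (Or.inr (T.bdD'_sub h))
theorem bdD'_QK : T.bdD' ⊆ T.QK := fun _ h => Or.inl (Or.inr (T.bdD'_sub h))
theorem arcB_QK : K.arcB ⊆ T.QK := by
  rintro _ ⟨t, -, rfl⟩
  exact Or.inl (Or.inl ⟨_, rfl⟩)
theorem arcC_QK : K.arcC ⊆ T.QK := by
  rintro _ ⟨t, -, rfl⟩
  exact Or.inl (Or.inl ⟨_, rfl⟩)

/-- The part of `K` which is not in the interior of the arc `c` is contained in `QB`. -/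
theorem rest_QB {t : ℝ} (h1 : Real.pi / 8 ≤ t) (h2 : t ≤ 4 * Real.pi / 3) :
    K.κ (Circle.exp t) ∈ T.QB := by
  have hpi := Real.pi_pos
  rcases le_total t (3 * Real.pi / 8) with h | h
  · left; right
    refine (K.mem_j_iff rect_sub _).2 ⟨2 * t / Real.pi, ?_, ?_, ?_⟩
    · constructor
      · rw [le_div_iff₀ hpi]; linarith
      · rw [div_le_iff₀ hpi]; linarith
    · congr 1; field_simp
    · refine ⟨⟨?_, ?_⟩, ?_⟩
      · rw [le_div_iff₀ hpi]; linarith
      · rw [div_le_iff₀ hpi]; linarith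
      · change 0 ≤ ((1 : Circle) : ℂ).re
        simp
  · rcases le_total t (2 * Real.pi / 3) with h' | h'
    · left; left
      exact ⟨t, ⟨h, h'⟩, rfl⟩
    · right
      exact (T.δ_K _).2 ((re_le_half_iff _).2 ⟨t, ⟨h', h2⟩, rfl⟩)

/-- The key step: if a power of the map `ψB` has a logarithm on the arc `c`, it is trivial. -/
theorem power_zero [T2Space Y] [T2Space X] (hG : Glue T p) {ψ : Y → Circle} {j1 : ℤ}
    (hψ : P.Vβ.HasJumps ψ ![1, j1]) {φ : X → Circle} {g : Y → ℝ}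
    (hL : Lift T p T.QB ψ φ g) {k : ℤ} (h : NullOn (fun x => φ x ^ k) (p '' K.arcC)) : k = 0 := by
  have hpi := Real.pi_pos
  -- a logarithm on the circle
  obtain ⟨h, hc, he⟩ := h
  let A : Set Circle := Circle.exp '' Icc (-(2 * Real.pi / 3)) (Real.pi / 8)
  let B : Set Circle := Circle.exp '' Icc (Real.pi / 8) (4 * Real.pi / 3)
  have hA : IsClosed A := (isCompact_Icc.image Circle.exp.continuous).isClosed
  have hB : IsClosed B := (isCompact_Icc.image Circle.exp.continuous).isClosed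
  have hAB : A ∪ B = univ := by
    apply eq_univ_of_forall
    intro z
    rcases le_total (Complex.arg z) (Real.pi / 8) with h1 | h1
    · rcases le_total (-(2 * Real.pi / 3)) (Complex.arg z) with h2 | h2
      · left; exact ⟨Complex.arg z, ⟨h2, h1⟩, Circle.exp_arg z⟩
      · right
        refine ⟨Complex.arg z + 2 * Real.pi, ⟨?_, by linarith⟩, ?_⟩
        · have := Complex.neg_pi_lt_arg z
          linarith
        · rw [Circle.exp_add_two_pi, Circle.exp_arg]
    · right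
      exact ⟨Complex.arg z, ⟨h1, by have := Complex.arg_le_pi z; linarith⟩, Circle.exp_arg z⟩
  have hexp : Circle.exp (4 * Real.pi / 3) = Circle.exp (-(2 * Real.pi / 3)) := by
    have : 4 * Real.pi / 3 = -(2 * Real.pi / 3) + 2 * Real.pi := by ring
    rw [this, Circle.exp_add_two_pi]
  have hmaps : MapsTo (fun z => p (K.κ z)) A (p '' K.arcC) := by
    rintro _ ⟨t, ht, rfl⟩
    exact ⟨_, ⟨t, ht, rfl⟩, rfl⟩
  have hcA : ContinuousOn (fun z => h (p (K.κ z))) A := by
    refine hc.comp (hG.cont.comp K.κ_cont.continuousOn ?_) hmaps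
    rintro _ ⟨t, ht, rfl⟩
    exact T.arcC_sub ⟨t, ht, rfl⟩
  -- the value at the endpoints
  let c : ℝ := h (p (K.κ (Circle.exp (Real.pi / 8))))
  have hc2 : h (p (K.κ (Circle.exp (-(2 * Real.pi / 3))))) = c := by
    simp only [c]
    rw [← T.ρ_c, hG.pρ Glue.κ_neg_mem]
  have hint : ∀ z ∈ A ∩ B, h (p (K.κ z)) = c := by
    rintro _ ⟨⟨t, ht, rfl⟩, ⟨s, hs, hst⟩⟩
    obtain ⟨m, hm⟩ := Circle.exp_eq_exp.1 hst
    have hm1 : (-1 : ℝ) < m := by
      by_contra hcon
      push Not at hcon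
      have : m * (2 * Real.pi) ≤ -1 * (2 * Real.pi) := by gcongr
      linarith [hs.1, ht.2]
    have hm2 : (m : ℝ) ≤ 1 := by
      by_contra hcon
      push Not at hcon
      have : 1 * (2 * Real.pi) < m * (2 * Real.pi) := by gcongr
      linarith [hs.2, ht.1]
    have hm1' : -1 < m := by exact_mod_cast hm1
    have hm2' : m ≤ 1 := by exact_mod_cast hm2
    have h3 : m = 0 ∨ m = 1 := by omega
    rcases h3 with rfl | rfl
    · have : t = Real.pi / 8 := by
        simp only [Int.cast_zero, zero_mul, add_zero] at hm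
        exact le_antisymm ht.2 (by linarith [hs.1])
      rw [this]
    · have : t = -(2 * Real.pi / 3) := by
        simp only [Int.cast_one, one_mul] at hm
        exact le_antisymm (by linarith [hs.2]) ht.1
      rw [this]
      exact hc2
  classical
  let H : Circle → ℝ := fun z => if z ∈ A then h (p (K.κ z)) else c
  have HA : EqOn H (fun z => h (p (K.κ z))) A := fun z hz => if_pos hz
  have HB : EqOn H (fun _ => c) B := by
    intro z hz
    by_cases hzA : z ∈ A
    · rw [HA hzA]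
      exact hint z ⟨hzA, hz⟩
    · exact if_neg hzA
  have Hc : ContinuousOn H univ := by
    rw [← hAB]
    exact (hcA.congr HA).union_of_isClosed (continuousOn_const.congr HB) hA hB
  have hκE : K.κ (Circle.exp (Real.pi / 8)) ∈ K.arcC := ⟨_, ⟨by linarith, le_rfl⟩, rfl⟩
  have hc1 : Circle.exp c = 1 := by
    have h1 : p (K.κ (Circle.exp (Real.pi / 8))) ∈ p '' K.arcC := ⟨_, hκE, rfl⟩
    have h2 : φ (p (K.κ (Circle.exp (Real.pi / 8)))) ^ k = _ := he _ h1
    rw [hL.one (T.arcC_sub hκE) (rest_QB le_rfl (by linarith)), one_zpow] at h2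
    exact h2.symm
  have key : NullOn (fun z => (ψ (K.κ z) * Circle.exp (-g (K.κ z))) ^ k) univ := by
    refine ⟨H, Hc, fun z _ => ?_⟩
    have hz : z ∈ A ∪ B := by rw [hAB]; trivial
    rcases hz with hz | hz
    · rw [HA hz]
      simp only
      rw [← he _ (hmaps hz)]
      obtain ⟨t, ht, rfl⟩ := hz
      have h5 : φ (p (K.κ (Circle.exp t))) = _ := hL.eq _ (T.arcC_sub ⟨t, ht, rfl⟩)
      simp only
      rw [h5]
    · rw [HB hz, hc1]
      obtain ⟨t, ht, rfl⟩ := hz
      simp only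
      rw [hL.eq_Q _ (rest_QB ht.1 ht.2), ← Circle.exp_add]
      simp
  -- now the degree
  have h1 : NullOn (fun z => Circle.exp (k * g (K.κ z))) (univ : Set Circle) :=
    ⟨fun z => k * g (K.κ z), (continuous_const.mul (hL.cont_g.comp K.κ_cont)).continuousOn,
      fun _ _ => rfl⟩
  have h2 : NullOn (fun z => ψ (K.κ z) ^ k) univ := by
    refine (key.mul h1).congr fun z _ => ?_
    simp only
    rw [mul_zpow, mul_assoc, Circle.exp_intCast_mul, ← mul_zpow, ← Circle.exp_add]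
    simp
  obtain ⟨ε, hε, hdeg⟩ := K.exists_sign
  have h3 := (hdeg ψ _ hψ).zpow k
  have h4 := h3.unique (hasDeg_zero_of_null h2)
  simp only [Matrix.cons_val_zero, mul_one] at h4
  rcases hε with rfl | rfl
  · linarith
  · linarith

end Pool.Agent.H72.Tri
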