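import Pool.Agent.H72.Tri.TypeThm2

/-!
# The type of an induced trisection: conclusion
-/

open Set Topology Metric

namespace Pool.Agent.H72.Tri

variable {Y : Type*} [TopologicalSpace Y] {P : Splitting Y}

theorem circ_alg1 (a b c : Circle) (k : ℤ) :
    a * b ^ (-k) * (c ^ (-k) * b ^ (-(-k))) = a * c ^ (-k) := by
  rw [zpow_neg b k, neg_neg, mul_comm (c ^ (-k)) (b ^ k), mul_assoc, inv_mul_cancel_left]

theorem circ_alg3 (a b c a' b' c' : Circle) (k l m : ℤ) :
    a ^ k * b ^ l * c ^ m * (a' ^ k * a ^ (-k)) * (b' ^ l * b ^ (-l)) * (c' ^ m * c ^ (-m)) =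
      a' ^ k * b' ^ l * c' ^ m := by
  have h1 : a ^ k * a ^ (-k) = 1 := by rw [zpow_neg, mul_inv_cancel]
  have h2 : b ^ l * b ^ (-l) = 1 := by rw [zpow_neg, mul_inv_cancel]
  have h3 : c ^ m * c ^ (-m) = 1 := by rw [zpow_neg, mul_inv_cancel]
  calc _ = (a ^ k * a ^ (-k)) * (b ^ l * b ^ (-l)) * (c ^ m * c ^ (-m)) *
        (a' ^ k * b' ^ l * c' ^ m) := by ac_rfl
    _ = _ := by rw [h1, h2, h3, one_mul, one_mul, one_mul]

/-- Pulled back, the products of lifts have logarithms where the products of the original maps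
do. -/
theorem null_pull3 {K : Placement P} {T : Tube K} {X : Type*} [TopologicalSpace X] {p : Y → X}
    {Q1 Q2 Q3 : Set Y} {Φ1 Φ2 Φ3 : Y → Circle} {φ1 φ2 φ3 : X → Circle} {g1 g2 g3 : Y → ℝ}
    (h1 : Lift T p Q1 Φ1 φ1 g1) (h2 : Lift T p Q2 Φ2 φ2 g2) (h3 : Lift T p Q3 Φ3 φ3 g3)
    (k l m : ℤ) (h : NullOn (fun x => Φ1 x ^ k * Φ2 x ^ l * Φ3 x ^ m) T.E) :
    NullOn (fun x => φ1 (p x) ^ k * φ2 (p x) ^ l * φ3 (p x) ^ m) T.E :=
  (((h.mul (h1.ratio subset_rfl k)).mul (h2.ratio subset_rfl l)).mul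
    (h3.ratio subset_rfl m)).congr fun x _ => by simp only; rw [circ_alg3]

/-- **The type of an induced trisection.** -/
theorem type_of_induces [T2Space Y] [CompactSpace Y] {K : Placement P} {X : Type*}
    [TopologicalSpace X] [T2Space X] {Xi : Fin 3 → Set X} (hK : K.Induces Xi) {u : Y → Circle}
    (hu : Continuous u)
    (HY : ∀ φ : Y → Circle, Continuous φ → ∃ k : ℤ, NullOn (fun x => φ x * u x ^ (-k)) univ)
    {n m : ℤ} (hn : n ≠ 0) (hj : P.Vβ.HasJumps u ![n, m]) : HasType Xi n m := by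
  obtain ⟨D⟩ := exists_data hK
  obtain ⟨ψ, hψ⟩ := P.Vβ.exists_of_jumps ![1, 0]
  obtain ⟨w, hw⟩ := P.Vβ.exists_of_jumps ![0, 1]
  have huS : ContinuousOn u P.S := hu.continuousOn
  have hψS : ContinuousOn ψ P.S := hψ.continuousOn.mono P.Vβ.bd_subset
  have hwS : ContinuousOn w P.S := hw.continuousOn.mono P.Vβ.bd_subset
  have hwK : NullOn w (range K.κ) := by
    refine hw.null_of_disjoint K.isClosed_range ?_ ?_
    · rintro _ ⟨z, rfl⟩
      exact K.κ_mem z
    · intro i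
      fin_cases i
      · left; rfl
      · right; exact K.κ_disj
  have hG := D.hG
  obtain ⟨u3, gu, Lu⟩ := exists_lift hG D.T.isClosed_QB bdD_QB bdD'_QB huS (D.T.nullOn_QB huS)
  obtain ⟨v3, gv, Lv⟩ := exists_lift hG D.T.isClosed_QC bdD_QC bdD'_QC huS (D.T.nullOn_QC huS)
  obtain ⟨w3, gw, Lw⟩ := exists_lift hG D.T.isClosed_QK bdD_QK bdD'_QK hwS
    (D.T.nullOn_QK hwS hwK)
  obtain ⟨ψB, gB, LB⟩ := exists_lift hG D.T.isClosed_QB bdD_QB bdD'_QB hψS (D.T.nullOn_QB hψS)
  obtain ⟨ψC, gC, LC⟩ := exists_lift hG D.T.isClosed_QC bdD_QC bdD'_QC hψS (D.T.nullOn_QC hψS)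
  have hF := D.F
  -- logarithms of `u`, `w` on the curves
  have uα : ∀ i, NullOn u (P.α i) := fun i => P.Vα.nullOn_curve hu.continuousOn i
  have uβ : ∀ i, NullOn u (P.β i) := fun i => P.Vβ.nullOn_curve hu.continuousOn i
  have uγ : NullOn u K.γ₁ := null_γ₁ huS (uβ 0)
  have wβ : ∀ i, NullOn w (P.β i) := fun i => P.Vβ.nullOn_curve hw.continuousOn i
  have wγ : NullOn w K.γ₁ := null_γ₁ hwS (wβ 0)
  -- the products with vanishing jumps
  have hjS : NullOn (fun x => u x ^ (1 : ℤ) * w x ^ (-m) * ψ x ^ (-n)) D.T.E := by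
    have h1 := ((hj.zpow 1).mul (hw.zpow (-m))).mul (hψ.zpow (-n))
    have h2 : (1 : ℤ) • ![n, m] + (-m) • ![0, 1] + (-n) • ![1, 0] = (0 : Fin 2 → ℤ) := by
      funext i
      fin_cases i <;> simp
    rw [h2] at h1
    exact h1.null.mono (D.T.E_sub_S.trans P.Vβ.bd_subset)
  have hnu : ∀ (l : ℤ) (hl : l ≠ 0), ∀ {C : Set X}, IsPreconnected C → ∀ {χ : X → Circle},
      ContinuousOn χ C → NullOn (fun x => χ x ^ l) C → NullOn χ C :=
    fun l hl C hC χ hχ h => h.root hC hχ hl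
  refine ⟨![u3, v3, w3], ?_, ?_, ?_, ?_, ?_⟩
  · -- membership
    intro i
    fin_cases i
    · refine (D.mem_G0 u3).2 ⟨by rw [← hF]; exact Lu.cont_φ, ⟨?_, ?_, ?_⟩, ?_, ?_, ?_⟩
      · exact Lu.null_image hG (D.T.α_sub 0) (isCompact_α 0) (disj_α_bdD 0) (uα 0)
      · exact Lu.null_image hG (D.T.α_sub 1) (isCompact_α 1) (disj_α_bdD 1) (uα 1)
      · exact Lu.null_Q D.T.bdD_sub_E bdD_QB
      · exact Lu.null_image hG D.T.β0_sub (isCompact_β 0) disj_β0_bdD (uβ 0)
      · exact Lu.null_image hG D.T.β1_sub (isCompact_β 1) disj_β1_bdD (uβ 1)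
      · exact Lu.null_Q D.T.arcB_sub arcB_QB
    · refine (D.mem_G1 v3).2 ⟨by rw [← hF]; exact Lv.cont_φ, ⟨?_, ?_, ?_⟩, ?_, ?_, ?_⟩
      · exact Lv.null_image hG (D.T.α_sub 0) (isCompact_α 0) (disj_α_bdD 0) (uα 0)
      · exact Lv.null_image hG (D.T.α_sub 1) (isCompact_α 1) (disj_α_bdD 1) (uα 1)
      · exact Lv.null_Q D.T.bdD_sub_E bdD_QC
      · exact Lv.null_image hG D.T.γ₁_sub isCompact_γ₁ disj_γ₁_bdD uγ
      · exact Lv.null_image hG D.T.β1_sub (isCompact_β 1) disj_β1_bdD (uβ 1)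
      · exact Lv.null_Q D.T.arcC_sub arcC_QC
    · refine (D.mem_G2 w3).2 ⟨by rw [← hF]; exact Lw.cont_φ, ⟨?_, ?_, ?_⟩, ?_, ?_, ?_⟩
      · exact Lw.null_image hG D.T.β0_sub (isCompact_β 0) disj_β0_bdD (wβ 0)
      · exact Lw.null_image hG D.T.β1_sub (isCompact_β 1) disj_β1_bdD (wβ 1)
      · exact Lw.null_Q D.T.arcB_sub arcB_QK
      · exact Lw.null_image hG D.T.γ₁_sub isCompact_γ₁ disj_γ₁_bdD wγ
      · exact Lw.null_image hG D.T.β1_sub (isCompact_β 1) disj_β1_bdD (wβ 1)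
      · exact Lw.null_Q D.T.arcC_sub arcC_QK
  · -- generation
    intro i φ hφ
    fin_cases i
    · obtain ⟨hc, ⟨a0, a1, a2⟩, b0, b1, b2⟩ := (D.mem_G0 φ).1 hφ
      rw [← hF] at hc
      obtain ⟨k, hk⟩ := exists_power HY (hG.contOn hc) (hG.pull D.T.bdD_sub_E a2)
        (hG.null_bdD' a2) (by
          intro i
          fin_cases i
          · exact hG.pull (D.T.α_sub 0) a0
          · exact hG.pull (D.T.α_sub 1) a1) (hG.pull D.T.β1_sub b1)
          (Or.inl (hG.pull D.T.β0_sub b0))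
      refine ⟨k, ?_⟩
      rw [← hF]
      change NullOn (fun x => φ x * u3 x ^ (-k)) _
      refine hG.null_of_arcB ?_ ?_
      · exact (hk.mul (Lu.ratio subset_rfl (-k))).congr fun x _ => by
          simp only; rw [circ_alg1]
      · exact b2.mul ((Lu.null_Q D.T.arcB_sub arcB_QB).zpow (-k))
    · obtain ⟨hc, ⟨a0, a1, a2⟩, b0, b1, b2⟩ := (D.mem_G1 φ).1 hφ
      rw [← hF] at hc
      obtain ⟨k, hk⟩ := exists_power HY (hG.contOn hc) (hG.pull D.T.bdD_sub_E a2)
        (hG.null_bdD' a2) (by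
          intro i
          fin_cases i
          · exact hG.pull (D.T.α_sub 0) a0
          · exact hG.pull (D.T.α_sub 1) a1) (hG.pull D.T.β1_sub b1)
          (Or.inr (hG.pull D.T.γ₁_sub b0))
      refine ⟨k, ?_⟩
      rw [← hF]
      change NullOn (fun x => φ x * v3 x ^ (-k)) _
      refine hG.null_of_arcC ?_ ?_
      · exact (hk.mul (Lv.ratio subset_rfl (-k))).congr fun x _ => by
          simp only; rw [circ_alg1]
      · exact b2.mul ((Lv.null_Q D.T.arcC_sub arcC_QC).zpow (-k))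
    · obtain ⟨hc, ⟨b0, b1, b2⟩, c0, c1, c2⟩ := (D.mem_G2 φ).1 hφ
      rw [← hF] at hc
      have hcE : ContinuousOn (fun x => φ (D.p x)) D.T.E := hG.contOn hc
      -- a logarithm on the pair of pants
      have hann : MapsTo K.j (ann 0 1 \ rectInt) D.T.E := by
        rintro ⟨s, z⟩ ⟨⟨hs, -⟩, hn⟩
        have hs' : ((s, z) : ℝ × Circle) ∈ Icc (-1 : ℝ) 1 ×ˢ (univ : Set Circle) :=
          ⟨⟨by linarith [hs.1], hs.2⟩, mem_univ _⟩
        refine ⟨K.j_mem hs', ?_⟩
        rintro (⟨v, hv, h⟩ | ⟨v, hv, h⟩)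
        · exact Set.disjoint_left.1 D.T.disj_j ⟨v, discInt_subset hv, rfl⟩ ⟨_, hs', h.symm⟩
        · have := K.j_inj (rectInt_sub hv) hs' h
          rw [this] at hv
          exact hn hv
      have hannc : (ann 0 1 \ rectInt) ⊆ Icc (-1 : ℝ) 1 ×ˢ univ := by
        rintro ⟨s, z⟩ ⟨⟨hs, -⟩, -⟩
        exact ⟨⟨by linarith [hs.1], hs.2⟩, mem_univ _⟩
      have hs0 : {0} ×ˢ (univ : Set Circle) ⊆ Icc (-1 : ℝ) 1 ×ˢ univ := by
        rintro ⟨s, z⟩ ⟨hs, -⟩
        have hs' : s = 0 := hs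
        subst hs'
        exact ⟨by norm_num, mem_univ _⟩
      have hs1 : {1} ×ˢ (univ : Set Circle) ⊆ Icc (-1 : ℝ) 1 ×ˢ univ := by
        rintro ⟨s, z⟩ ⟨hs, -⟩
        have hs' : s = 1 := hs
        subst hs'
        exact ⟨by norm_num, mem_univ _⟩
      have hpants : NullOn (fun x => φ (D.p (K.j x))) (ann 0 1 \ rectInt) := by
        refine nullOn_ann_diff (hcE.comp (K.j_cont.mono hannc) hann) ?_ ?_
        · have h1 := hG.pull D.T.β0_sub b0
          rw [← K.j_zero] at h1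
          exact h1.comp (K.j_cont.mono hs0) (fun x hx => ⟨x, hx, rfl⟩)
        · have h1 := hG.pull D.T.γ₁_sub c0
          exact h1.comp (K.j_cont.mono hs1) (fun x hx => ⟨x, hx, rfl⟩)
      have hrs : rect \ rectInt ⊆ ann 0 1 \ rectInt := by
        rintro ⟨s, z⟩ ⟨⟨hs, -⟩, hn⟩
        exact ⟨⟨⟨by linarith [hs.1], by linarith [hs.2]⟩, mem_univ _⟩, hn⟩
      have hD' : NullOn (fun x => φ (D.p x)) D.T.bdD' := by
        refine NullOn.image (isCompact_rect.diff isOpen_rectInt)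
          (K.j_cont.mono (sdiff_subset.trans rect_sub))
          (K.j_inj.mono (sdiff_subset.trans rect_sub)) (hpants.mono hrs)
      have hD := hG.null_bdD hD'
      obtain ⟨χ, χc, χe⟩ := D.T.extend_S hcE hD hD'
      obtain ⟨Φ, Φc, Φe⟩ := P.Vβ.extend χc (by
        intro i
        fin_cases i
        · exact (hG.pull D.T.β0_sub b0).congr (fun x hx => χe (D.T.β0_sub hx))
        · exact (hG.pull D.T.β1_sub b1).congr (fun x hx => χe (D.T.β1_sub hx)))
      obtain ⟨k, hk⟩ := P.Vβ.exists_hasJumps Φc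
      have h0 : NullOn (fun x => Φ x * w x ^ (-(k 1)) * ψ x ^ (-(k 0))) P.Vβ.carrier := by
        have h1 := (hk.mul (hw.zpow (-(k 1)))).mul (hψ.zpow (-(k 0)))
        have h2 : k + (-(k 1)) • ![0, 1] + (-(k 0)) • ![1, 0] = (0 : Fin 2 → ℤ) := by
          funext i
          fin_cases i
          · change k 0 + -(k 1) * 0 + -(k 0) * 1 = 0
            ring
          · change k 1 + -(k 1) * 1 + -(k 0) * 0 = 0
            ring
        rw [h2] at h1
        exact h1.null
      have h1 : NullOn (fun x => φ (D.p x) * w x ^ (-(k 1)) * ψ x ^ (-(k 0))) D.T.E := by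
        refine (h0.mono (D.T.E_sub_S.trans P.Vβ.bd_subset)).congr fun x hx => ?_
        simp only
        rw [Φe (D.T.E_sub_S hx), χe hx]
      have h2 : NullOn (fun x => φ (D.p x) * w3 (D.p x) ^ (-(k 1)) *
          ψB (D.p x) ^ (-(k 0))) D.T.E := by
        refine ((h1.mul (Lw.ratio subset_rfl (-(k 1)))).mul
          (LB.ratio subset_rfl (-(k 0)))).congr fun x hx => ?_
        simp only
        calc _ = (φ (D.p x) * w x ^ (-(k 1)) * (w3 (D.p x) ^ (-(k 1)) * w x ^ (-(-(k 1))))) *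
              ψ x ^ (-(k 0)) * (ψB (D.p x) ^ (-(k 0)) * ψ x ^ (-(-(k 0)))) := by
                rw [circ_alg1, circ_alg1]
          _ = _ := by ac_rfl
      have h3 : NullOn (fun x => φ x * w3 x ^ (-(k 1)) * ψB x ^ (-(k 0))) (D.p '' D.T.E) := by
        refine hG.null_of_arcB h2 ?_
        exact (b2.mul ((Lw.null_Q D.T.arcB_sub arcB_QK).zpow _)).mul
          ((LB.null_Q D.T.arcB_sub arcB_QB).zpow _)
      have h4 : NullOn (fun x => ψB x ^ (k 0)) (D.p '' K.arcC) := by
        refine ((c2.mul ((Lw.null_Q D.T.arcC_sub arcC_QK).zpow (-(k 1)))).mul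
          ((h3.mono (image_mono D.T.arcC_sub)).zpow (-1))).congr fun x hx => ?_
        simp only
        rw [zpow_neg_one, mul_inv_rev, zpow_neg (ψB x) (k 0), inv_inv]
        rw [mul_comm (ψB x ^ (k 0)), mul_inv_cancel_left]
      have h5 : k 0 = 0 := power_zero hG hψ LB h4
      refine ⟨k 1, ?_⟩
      rw [← hF]
      change NullOn (fun x => φ x * w3 x ^ (-(k 1))) _
      rw [h5] at h3
      simpa using h3
  · -- no torsion
    intro i k hk
    rw [← hF] at hk
    fin_cases i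
    · have h1 : NullOn (fun x => u3 x ^ k) (D.p '' D.T.E) := hk
      have h2 := hG.pull subset_rfl h1
      have h3 : NullOn (fun x => u x ^ k) D.T.E := by
        refine (h2.mul ((Lu.null_exp' D.T.E).zpow k)).congr fun x hx => ?_
        simp only
        rw [Lu.eq x hx, ← mul_zpow, mul_assoc, ← Circle.exp_add]
        simp
      have h4 := D.T.null_S (huS.zpow k) h3
      have h5 := (hj.zpow k).eq_zero h4
      have h6 := congrFun h5 0
      simp only [Pi.smul_apply, Matrix.cons_val_zero, smul_eq_mul, Pi.zero_apply] at h6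
      rcases mul_eq_zero.1 h6 with h | h
      · exact h
      · exact absurd h hn
    · have h1 : NullOn (fun x => v3 x ^ k) (D.p '' D.T.E) := hk
      have h2 := hG.pull subset_rfl h1
      have h3 : NullOn (fun x => u x ^ k) D.T.E := by
        refine (h2.mul ((Lv.null_exp' D.T.E).zpow k)).congr fun x hx => ?_
        simp only
        rw [Lv.eq x hx, ← mul_zpow, mul_assoc, ← Circle.exp_add]
        simp
      have h4 := D.T.null_S (huS.zpow k) h3
      have h5 := (hj.zpow k).eq_zero h4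
      have h6 := congrFun h5 0
      simp only [Pi.smul_apply, Matrix.cons_val_zero, smul_eq_mul, Pi.zero_apply] at h6
      rcases mul_eq_zero.1 h6 with h | h
      · exact h
      · exact absurd h hn
    · have h1 : NullOn (fun x => w3 x ^ k) (D.p '' D.T.E) := hk
      have h2 := hG.pull subset_rfl h1
      have h3 : NullOn (fun x => w x ^ k) D.T.E := by
        refine (h2.mul ((Lw.null_exp' D.T.E).zpow k)).congr fun x hx => ?_
        simp only
        rw [Lw.eq x hx, ← mul_zpow, mul_assoc, ← Circle.exp_add]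
        simp
      have h4 := D.T.null_S (hwS.zpow k) h3
      have h5 := (hw.zpow k).eq_zero h4
      have h6 := congrFun h5 1
      simpa using h6
  · -- congruences
    intro i
    fin_cases i
    · refine ⟨ψB, by rw [← hF]; exact LB.cont_φ, ?_⟩
      rw [← hF]
      change NullOn (fun x => u3 x * w3 x ^ (-m) * ψB x ^ (-n)) _
      refine hG.null_of_arcB ?_ ?_
      · have := null_pull3 Lu Lw LB 1 (-m) (-n) hjS
        simpa only [zpow_one] using this
      · exact ((Lu.null_Q D.T.arcB_sub arcB_QB).mul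
          ((Lw.null_Q D.T.arcB_sub arcB_QK).zpow _)).mul
          ((LB.null_Q D.T.arcB_sub arcB_QB).zpow _)
    · refine ⟨ψC, by rw [← hF]; exact LC.cont_φ, ?_⟩
      rw [← hF]
      change NullOn (fun x => v3 x * w3 x ^ (-m) * ψC x ^ (-n)) _
      refine hG.null_of_arcC ?_ ?_
      · have := null_pull3 Lv Lw LC 1 (-m) (-n) hjS
        simpa only [zpow_one] using this
      · exact ((Lv.null_Q D.T.arcC_sub arcC_QC).mul
          ((Lw.null_Q D.T.arcC_sub arcC_QK).zpow _)).mul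
          ((LC.null_Q D.T.arcC_sub arcC_QC).zpow _)
    · refine ⟨fun _ => 1, continuousOn_const, ?_⟩
      change NullOn (fun x => w3 x * w3 x ^ (-(1 : ℤ)) * 1 ^ (-n)) _
      refine nullOn_of_const (c := 1) fun x _ => ?_
      simp
  · -- divisibility
    intro l χ χc hχ
    rw [← hF] at χc hχ
    change NullOn (fun x => w3 x ^ l * χ x ^ (-n)) _ at hχ
    have hbp : IsPreconnected (D.p '' D.T.bdD) :=
      D.T.isPreconnected_bdD.image _ (hG.cont.mono D.T.bdD_sub_E)
    have h1 : NullOn χ (D.p '' D.T.bdD) := by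
      refine hnu (-n) (neg_ne_zero.2 hn) hbp (χc.mono (image_mono D.T.bdD_sub_E)) ?_
      refine ((hχ.mono (image_mono D.T.bdD_sub_E)).mul
        ((Lw.null_Q D.T.bdD_sub_E bdD_QK).zpow (-l))).congr fun x hx => ?_
      simp only
      rw [mul_right_comm, zpow_neg (w3 x), mul_inv_cancel, one_mul]
    obtain ⟨ψ', ψc, ψe⟩ := D.T.extend_S (hG.contOn χc) (hG.pull D.T.bdD_sub_E h1)
      (hG.null_bdD' h1)
    have h2 : NullOn (fun x => w x ^ l * ψ' x ^ (-n)) D.T.E := by
      refine ((hG.pull subset_rfl hχ).mul ((Lw.null_exp' D.T.E).zpow l)).congr fun x hx => ?_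
      simp only
      rw [ψe hx, Lw.eq x hx, mul_right_comm, ← mul_zpow, mul_assoc (w x), ← Circle.exp_add]
      simp
    have h3 : NullOn (fun x => w x ^ l * ψ' x ^ (-n)) P.S :=
      D.T.null_S ((hwS.zpow l).mul (ψc.zpow (-n))) h2
    obtain ⟨Ψ, Ψc, Ψe⟩ := P.Vβ.extend ψc (by
      intro i
      have hsub : P.β i ⊆ P.S := P.Vβ.curve_subset_bd i
      have h4 : NullOn (fun x => ψ' x ^ (-n)) (P.β i) := by
        refine ((h3.mono hsub).mul ((wβ i).zpow (-l))).congr fun x hx => ?_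
        simp only
        rw [mul_right_comm, zpow_neg (w x), mul_inv_cancel, one_mul]
      exact h4.root (P.Vβ.isPreconnected_curve i) (ψc.mono hsub) (neg_ne_zero.2 hn))
    obtain ⟨k, hk⟩ := P.Vβ.exists_hasJumps Ψc
    have h5 := ((hw.zpow l).mul (hk.zpow (-n))).eq_zero (h3.congr fun x hx => by
      simp only
      rw [Ψe hx])
    have h6 := congrFun h5 1
    simp only [Pi.add_apply, Pi.smul_apply, smul_eq_mul, Pi.zero_apply, Matrix.cons_val_one,
      Matrix.cons_val_fin_one, mul_one] at h6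
    exact ⟨k 1, by linarith⟩

end Pool.Agent.H72.Tri
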