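import Pool.Agent.H72.Tri.Surf

/-!
# The type of an induced trisection
-/

open Set Topology Metric

namespace Pool.Agent.H72.Tri

/-- The circle-valued maps on the central surface of `X = X₀ ∪ X₁ ∪ X₂` which extend over both
handlebodies in the boundary of the piece `X_i`. -/
def G {X : Type*} [TopologicalSpace X] (Xi : Fin 3 → Set X) (i : Fin 3) : Set (X → Circle) :=
  {φ | ContinuousOn φ (⋂ k, Xi k) ∧
    ∀ j, j ≠ i → ∃ Φ : X → Circle, ContinuousOn Φ (Xi i ∩ Xi j) ∧ EqOn Φ φ (⋂ k, Xi k)}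

/-- The type of a decomposition into three pieces: the groups `G i` are infinite cyclic modulo maps
with a logarithm, and their generators are `m`, `m`, `1` times the generator `g 2`, modulo `n`-th
powers. -/
def HasType {X : Type*} [TopologicalSpace X] (Xi : Fin 3 → Set X) (n m : ℤ) : Prop :=
  ∃ g : Fin 3 → X → Circle, (∀ i, g i ∈ G Xi i) ∧
    (∀ i, ∀ φ ∈ G Xi i, ∃ k : ℤ, NullOn (fun x => φ x * g i x ^ (-k)) (⋂ k, Xi k)) ∧
    (∀ i (k : ℤ), NullOn (fun x => g i x ^ k) (⋂ k, Xi k) → k = 0) ∧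
    (∀ i, ∃ ψ : X → Circle, ContinuousOn ψ (⋂ k, Xi k) ∧
      NullOn (fun x => g i x * g 2 x ^ (-(![m, m, 1] i)) * ψ x ^ (-n)) (⋂ k, Xi k)) ∧
    (∀ (l : ℤ) (ψ : X → Circle), ContinuousOn ψ (⋂ k, Xi k) →
      NullOn (fun x => g 2 x ^ l * ψ x ^ (-n)) (⋂ k, Xi k) → n ∣ l)

theorem ext_iff {X : Type*} [TopologicalSpace X] [T2Space X] {g : ℕ} (W : Handlebody X g)
    {φ : X → Circle} (hφ : ContinuousOn φ W.bd) :
    (∃ Φ : X → Circle, ContinuousOn Φ W.carrier ∧ EqOn Φ φ W.bd) ↔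
      ∀ i, NullOn φ (W.curve i) := by
  constructor
  · rintro ⟨Φ, hc, he⟩ i
    exact (W.nullOn_curve hc i).congr (fun x hx => (he (W.curve_subset_bd i hx)).symm)
  · intro h
    exact W.extend hφ h

variable {Y : Type*} [TopologicalSpace Y] {P : Splitting Y} {K : Placement P}

/-- The gluing map `p`. -/
structure Glue (T : Tube K) {X : Type*} [TopologicalSpace X] (p : Y → X) : Prop where
  cont : ContinuousOn p T.E
  eq_iff : ∀ x ∈ T.E, ∀ y ∈ T.E,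
      (p x = p y ↔ x = y ∨ (x ∈ T.bdD ∧ y = T.ρ x) ∨ (y ∈ T.bdD ∧ x = T.ρ y))

namespace Glue

variable {T : Tube K} {X : Type*} [TopologicalSpace X] {p : Y → X} (hG : Glue T p)
include hG

theorem pρ {x : Y} (hx : x ∈ T.bdD) : p (T.ρ x) = p x :=
  (hG.eq_iff _ (T.bdD'_sub_E (T.ρ_mem hx)) _ (T.bdD_sub_E hx)).2 (Or.inr (Or.inr ⟨hx, rfl⟩))

theorem image_bdD' : p '' T.bdD' ⊆ p '' T.bdD := by
  rintro _ ⟨y, hy, rfl⟩
  rw [T.bdD'_eq] at hy
  obtain ⟨x, hx, rfl⟩ := hy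
  exact ⟨x, hx, (hG.pρ hx).symm⟩

theorem injOn {C : Set Y} (hC : C ⊆ T.E) (hd : Disjoint C T.bdD) : InjOn p C := by
  intro x hx y hy h
  rcases (hG.eq_iff x (hC hx) y (hC hy)).1 h with h | ⟨h, _⟩ | ⟨h, _⟩
  · exact h
  · exact (Set.disjoint_left.1 hd hx h).elim
  · exact (Set.disjoint_left.1 hd hy h).elim

/-- pull back -/
theorem pull {φ : X → Circle} {C : Set Y} (hC : C ⊆ T.E) (h : NullOn φ (p '' C)) :
    NullOn (fun x => φ (p x)) C :=
  h.comp (hG.cont.mono hC) (fun x hx => ⟨x, hx, rfl⟩)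

variable [T2Space X]

/-- push forward -/
theorem push {φ : X → Circle} {C : Set Y} (hC : C ⊆ T.E) (hc : IsCompact C)
    (hd : Disjoint C T.bdD) (h : NullOn (fun x => φ (p x)) C) : NullOn φ (p '' C) :=
  NullOn.image hc (hG.cont.mono hC) (hG.injOn hC hd) h

variable [T2Space Y]

/-- A map on the surgered surface has a logarithm if it has one on the cut surface and on a curve
passing once through the tube. -/
theorem null_of_arc {φ : X → Circle} (h : NullOn (fun x => φ (p x)) T.E) {C : Set Y}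
    (hC : C ⊆ T.E) (hCp : IsPreconnected C) {x₁ : Y} (hx₁ : x₁ ∈ T.bdD) (h1 : x₁ ∈ C)
    (h2 : T.ρ x₁ ∈ C) (hn : NullOn φ (p '' C)) : NullOn φ (p '' T.E) := by
  obtain ⟨h, hc, he⟩ := h
  obtain ⟨b, bc, be⟩ := hn
  obtain ⟨k, hk⟩ := log_diff T.isPreconnected_bdD (h := fun x => h (T.ρ x)) (g := h)
    (hc.comp T.ρ_cont (fun x hx => T.bdD'_sub_E (T.ρ_mem hx))) (hc.mono T.bdD_sub_E) (by
      intro x hx
      rw [← he _ (T.bdD'_sub_E (T.ρ_mem hx)), ← he _ (T.bdD_sub_E hx)]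
      simp only [hG.pρ hx])
  obtain ⟨k', hk'⟩ := log_diff hCp (h := h) (g := fun x => b (p x)) (hc.mono hC)
    (bc.comp (hG.cont.mono hC) (fun x hx => ⟨x, hx, rfl⟩)) (by
      intro x hx
      rw [← he _ (hC hx), ← be _ ⟨x, hx, rfl⟩])
  have e1 := hk' _ h1
  have e2 := hk' _ h2
  have e3 := hk _ hx₁
  rw [hG.pρ hx₁] at e2
  have hk0 : (k : ℝ) * (2 * Real.pi) = 0 := by linarith
  have hρ : ∀ x ∈ T.bdD, h (T.ρ x) = h x := by
    intro x hx
    have := hk x hx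
    linarith
  obtain ⟨H, Hc, He⟩ := descend T.isCompact_E hG.cont hc (by
    intro x hx y hy hxy
    rcases (hG.eq_iff x hx y hy).1 hxy with rfl | ⟨h', rfl⟩ | ⟨h', rfl⟩
    · rfl
    · exact (hρ x h').symm
    · exact hρ y h')
  refine ⟨H, Hc, ?_⟩
  rintro _ ⟨x, hx, rfl⟩
  rw [He x hx]
  exact he x hx

theorem null_of_arcB {φ : X → Circle} (h : NullOn (fun x => φ (p x)) T.E)
    (hn : NullOn φ (p '' K.arcB)) : NullOn φ (p '' T.E) := by
  have hpi := Real.pi_pos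
  refine hG.null_of_arc h T.arcB_sub
    (isPreconnected_Icc.image _ (K.κ_cont.comp Circle.exp.continuous).continuousOn)
    (x₁ := K.κ (Circle.exp (2 * Real.pi / 3))) (T.κ_mem_bdD cos_two_pi_third)
    ⟨2 * Real.pi / 3, ⟨by linarith, le_rfl⟩, rfl⟩ ?_ hn
  rw [T.ρ_b]
  exact ⟨3 * Real.pi / 8, ⟨le_rfl, by linarith⟩, rfl⟩

omit hG [T2Space X] [T2Space Y] in
theorem κ_neg_mem : K.κ (Circle.exp (-(2 * Real.pi / 3))) ∈ T.bdD := by
  apply T.κ_mem_bdD
  rw [Real.cos_neg, cos_two_pi_third]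

theorem null_of_arcC {φ : X → Circle} (h : NullOn (fun x => φ (p x)) T.E)
    (hn : NullOn φ (p '' K.arcC)) : NullOn φ (p '' T.E) := by
  have hpi := Real.pi_pos
  refine hG.null_of_arc h T.arcC_sub
    (isPreconnected_Icc.image _ (K.κ_cont.comp Circle.exp.continuous).continuousOn)
    (x₁ := K.κ (Circle.exp (-(2 * Real.pi / 3)))) κ_neg_mem
    ⟨-(2 * Real.pi / 3), ⟨le_rfl, by linarith⟩, rfl⟩ ?_ hn
  rw [T.ρ_c]
  exact ⟨Real.pi / 8, ⟨by linarith, le_rfl⟩, rfl⟩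

end Glue

/-- `φ` is a modification of `Φ` which equals `1` on `Q`. -/
structure Lift (T : Tube K) {X : Type*} [TopologicalSpace X] (p : Y → X) (Q : Set Y)
    (Φ : Y → Circle) (φ : X → Circle) (g : Y → ℝ) : Prop where
  cont_g : Continuous g
  cont_φ : ContinuousOn φ (p '' T.E)
  eq : ∀ x ∈ T.E, φ (p x) = Φ x * Circle.exp (-g x)
  eq_Q : ∀ x ∈ Q, Φ x = Circle.exp (g x)

namespace Lift

variable {T : Tube K} {X : Type*} [TopologicalSpace X] {p : Y → X} {Q : Set Y}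
  {Φ : Y → Circle} {φ : X → Circle} {g : Y → ℝ}

theorem one (hL : Lift T p Q Φ φ g) {x : Y} (hx : x ∈ T.E) (hQ : x ∈ Q) : φ (p x) = 1 := by
  rw [hL.eq x hx, hL.eq_Q x hQ, ← Circle.exp_add]
  simp

theorem null_Q (hL : Lift T p Q Φ φ g) {C : Set Y} (hC : C ⊆ T.E) (hCQ : C ⊆ Q) :
    NullOn φ (p '' C) := by
  refine nullOn_of_const (c := 1) ?_
  rintro _ ⟨x, hx, rfl⟩
  exact hL.one (hC hx) (hCQ hx)

theorem null_exp (hL : Lift T p Q Φ φ g) (C : Set Y) : NullOn (fun x => Circle.exp (-g x)) C :=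
  ⟨fun x => -g x, hL.cont_g.neg.continuousOn, fun _ _ => rfl⟩

theorem null_exp' (hL : Lift T p Q Φ φ g) (C : Set Y) : NullOn (fun x => Circle.exp (g x)) C :=
  ⟨fun x => g x, hL.cont_g.continuousOn, fun _ _ => rfl⟩

/-- Pulled back, `φ` and `Φ` have logarithms on the same sets. -/
theorem null_pull (hL : Lift T p Q Φ φ g) {C : Set Y} (hC : C ⊆ T.E) (h : NullOn Φ C) :
    NullOn (fun x => φ (p x)) C :=
  (h.mul (hL.null_exp C)).congr fun x hx => hL.eq x (hC hx)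

theorem null_push (hL : Lift T p Q Φ φ g) {C : Set Y} (hC : C ⊆ T.E)
    (h : NullOn (fun x => φ (p x)) C) : NullOn Φ C :=
  (h.mul (hL.null_exp' C)).congr fun x hx => by
    simp only
    rw [hL.eq x (hC hx), mul_assoc, ← Circle.exp_add]
    simp

/-- The quotient of the two. -/
theorem ratio (hL : Lift T p Q Φ φ g) {C : Set Y} (hC : C ⊆ T.E) (k : ℤ) :
    NullOn (fun x => φ (p x) ^ k * Φ x ^ (-k)) C := by
  refine ((hL.null_exp C).zpow k).congr fun x hx => ?_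
  simp only
  rw [hL.eq x (hC hx), mul_zpow, zpow_neg, mul_right_comm, mul_inv_cancel, one_mul]

end Lift

theorem exists_lift [T2Space Y] [NormalSpace Y] {T : Tube K} {X : Type*} [TopologicalSpace X]
    [T2Space X] {p : Y → X} (hG : Glue T p) {Q : Set Y} (hQ : IsClosed Q) (h1 : T.bdD ⊆ Q)
    (h2 : T.bdD' ⊆ Q) {Φ : Y → Circle} (hΦ : ContinuousOn Φ P.S) (hn : NullOn Φ Q) :
    ∃ φ g, Lift T p Q Φ φ g := by
  obtain ⟨h, hc, he⟩ := hn
  obtain ⟨g, gc, ge⟩ := tietze hQ hc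
  have hQ' : ∀ x ∈ Q, Φ x = Circle.exp (g x) := fun x hx => by rw [he x hx, ge hx]
  have hone : ∀ x ∈ Q, Φ x * Circle.exp (-g x) = 1 := fun x hx => by
    rw [hQ' x hx, ← Circle.exp_add]; simp
  obtain ⟨φ, φc, φe⟩ := descend T.isCompact_E hG.cont (g := fun x => Φ x * Circle.exp (-g x))
    ((hΦ.mono T.E_sub_S).mul (Circle.exp.continuous.comp gc.neg).continuousOn) (by
      intro x hx y hy hxy
      rcases (hG.eq_iff x hx y hy).1 hxy with rfl | ⟨h', rfl⟩ | ⟨h', rfl⟩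
      · rfl
      · rw [hone _ (h1 h'), hone _ (h2 (T.ρ_mem h'))]
      · rw [hone _ (h1 h'), hone _ (h2 (T.ρ_mem h'))])
  exact ⟨φ, g, gc, φc, φe, hQ'⟩

/-- `β₁` and `γ₁` are homotopic. -/
theorem null_γ₁ [T2Space Y] {φ : Y → Circle} (hφ : ContinuousOn φ P.S) (h : NullOn φ (P.β 0)) :
    NullOn φ K.γ₁ := by
  have hsub : ann 0 1 ⊆ Icc (-1 : ℝ) 1 ×ˢ univ := by
    rintro ⟨s, z⟩ ⟨hs, -⟩
    exact ⟨⟨by linarith [hs.1], hs.2⟩, mem_univ _⟩
  have h1 : NullOn (fun x => φ (K.j x)) (ann 0 1) := by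
    refine nullOn_ann_left (by norm_num) (hφ.comp (K.j_cont.mono hsub)
      (fun x hx => K.j_mem (hsub hx))) ?_
    rw [← K.j_zero] at h
    refine h.comp (K.j_cont.mono ?_) (fun x hx => ⟨x, hx, rfl⟩)
    rintro ⟨s, z⟩ ⟨hs, -⟩
    have hs' : s = 0 := hs
    subst hs'
    exact ⟨by norm_num, mem_univ _⟩
  have hsub1 : {1} ×ˢ (univ : Set Circle) ⊆ ann 0 1 := by
    rintro ⟨s, z⟩ ⟨hs, -⟩
    have hs' : s = 1 := hs
    subst hs'
    exact ⟨by norm_num, mem_univ _⟩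
  exact NullOn.image (isCompact_singleton.prod isCompact_univ) (K.j_cont.mono (hsub1.trans hsub))
    (K.j_inj.mono (hsub1.trans hsub)) (h1.mono hsub1)

theorem null_β0 [T2Space Y] {φ : Y → Circle} (hφ : ContinuousOn φ P.S) (h : NullOn φ K.γ₁) :
    NullOn φ (P.β 0) := by
  have hsub : ann 0 1 ⊆ Icc (-1 : ℝ) 1 ×ˢ univ := by
    rintro ⟨s, z⟩ ⟨hs, -⟩
    exact ⟨⟨by linarith [hs.1], hs.2⟩, mem_univ _⟩
  have h1 : NullOn (fun x => φ (K.j x)) (ann 0 1) := by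
    refine nullOn_ann_right (by norm_num) (hφ.comp (K.j_cont.mono hsub)
      (fun x hx => K.j_mem (hsub hx))) ?_
    refine h.comp (K.j_cont.mono ?_) (fun x hx => ⟨x, hx, rfl⟩)
    rintro ⟨s, z⟩ ⟨hs, -⟩
    have hs' : s = 1 := hs
    subst hs'
    exact ⟨by norm_num, mem_univ _⟩
  have hsub1 : {0} ×ˢ (univ : Set Circle) ⊆ ann 0 1 := by
    rintro ⟨s, z⟩ ⟨hs, -⟩
    have hs' : s = 0 := hs
    subst hs'
    exact ⟨by norm_num, mem_univ _⟩
  rw [← K.j_zero]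
  exact NullOn.image (isCompact_singleton.prod isCompact_univ) (K.j_cont.mono (hsub1.trans hsub))
    (K.j_inj.mono (hsub1.trans hsub)) (h1.mono hsub1)

end Pool.Agent.H72.Tri
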